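import Mathlib

set_option autoImplicit false

/-!
# Singularity of random sign matrices: definitions

Sign patterns are functions `e : I → Bool`; `sg` turns a Boolean into a sign. For a family `g` in an
additive commutative group, `dot g e = ∑ ± g i`, and `cnt g c` is the number of sign patterns with
signed sum `c`. All `F_3`-linear algebra is about the vectors `v3 e` of the sign patterns.
-/

namespace Pool.Agent.W_MP_a45265_h99

open Finset

/-- The sign of a Boolean. -/
def sg (b : Bool) : ℤ := if b then 1 else -1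

/-- The signed sum `∑ i, ± g i`. -/
def dot {I G : Type} [Fintype I] [AddCommGroup G] (g : I → G) (e : I → Bool) : G :=
  ∑ i, sg (e i) • g i

/-- The number of sign patterns with signed sum `c`. -/
def cnt {I G : Type} [Fintype I] [DecidableEq I] [AddCommGroup G] [DecidableEq G]
    (g : I → G) (c : G) : ℕ :=
  (univ.filter (fun e : I → Bool => dot g e = c)).card

/-- The sign patterns with signed sum `0`. -/
def Zs {I G : Type} [Fintype I] [DecidableEq I] [AddCommGroup G] [DecidableEq G]
    (g : I → G) : Finset (I → Bool) :=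
  univ.filter (fun e : I → Bool => dot g e = 0)

/-- The vector over `F_3` of a sign pattern. -/
def v3 {I : Type} (e : I → Bool) : I → ZMod 3 := fun i => ((sg (e i) : ℤ) : ZMod 3)

/-- The direction space of the affine hull over `F_3` of a set of sign patterns. -/
def dir {I : Type} (S : Finset (I → Bool)) : Submodule (ZMod 3) (I → ZMod 3) :=
  vectorSpan (ZMod 3) (v3 '' (S : Set (I → Bool)))

/-- The affine dimension over `F_3` of a set of sign patterns. -/
noncomputable def dd {I : Type} (S : Finset (I → Bool)) : ℕ :=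
  Module.finrank (ZMod 3) (dir S)

/-- The rank of a set `Y` of coordinates on the subspace `D`: the dimension of the restriction of
`D` to the coordinates in `Y`. -/
noncomputable def rY {I : Type} (D : Submodule (ZMod 3) (I → ZMod 3)) (Y : Finset I) : ℕ :=
  Module.finrank (ZMod 3)
    (D.map (LinearMap.funLeft (ZMod 3) (ZMod 3) (fun i : {i // i ∈ Y} => (i : I))))

/-- The number of patterns of `S` on the set `Y` of coordinates. -/
def pat {I : Type} [DecidableEq I] (S : Finset (I → Bool)) (Y : Finset I) : ℕ :=
  (S.image (fun e => fun i : {i // i ∈ Y} => e i)).card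

/-- The coordinate `i` is constant on `S`. -/
def Cst {I : Type} (S : Finset (I → Bool)) (i : I) : Prop := ∃ b : Bool, ∀ e ∈ S, e i = b

/-- The coordinates `i` and `j` are equal up to a fixed sign on `S`. -/
def Par {I : Type} (S : Finset (I → Bool)) (i j : I) : Prop :=
  (∀ e ∈ S, e i = e j) ∨ (∀ e ∈ S, e i = !e j)

/-- The relation `∑ v_i τ_i = 0` where the entries of `v` are lifted to `-1, 0, 1`. -/
def Kill {I G : Type} [Fintype I] [AddCommGroup G] (τ : I → G) (v : I → ZMod 3) : Prop :=
  ∑ i, (v i).valMinAbs • τ i = 0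

instance {I G : Type} [Fintype I] [AddCommGroup G] [DecidableEq G] (τ : I → G)
    (v : I → ZMod 3) : Decidable (Kill τ v) := inferInstanceAs (Decidable (_ = _))

/-- Class data: `φ i = (some i, true)` for representatives, `φ i = (some j, b)` if the coordinate
`i` is the coordinate `j` up to the sign `b`, `φ i = (none, b)` if it is constant. -/
abbrev CD (I : Type) : Type := I → Option I × Bool

/-- The representatives. -/
def reps {I : Type} [Fintype I] [DecidableEq I] (φ : CD I) : Finset I :=
  univ.filter (fun i => φ i = (some i, true))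

/-- Every coordinate refers to a representative. -/
def Valid {I : Type} [Fintype I] [DecidableEq I] (φ : CD I) : Prop :=
  ∀ (i j : I) (b : Bool), φ i = (some j, b) → j ∈ reps φ

instance {I : Type} [Fintype I] [DecidableEq I] (φ : CD I) : Decidable (Valid φ) :=
  inferInstanceAs (Decidable (∀ (i j : I) (b : Bool), φ i = (some j, b) → j ∈ reps φ))

/-- The signed sums of `τ` over the classes. -/
def bar {I G : Type} [Fintype I] [DecidableEq I] [AddCommGroup G] (φ : CD I) (τ : I → G) :
    {i // i ∈ reps φ} → G :=
  fun j => ∑ i ∈ univ.filter (fun i => (φ i).1 = some (j : I)), sg (φ i).2 • τ i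

/-- The number of unit coordinates. -/
noncomputable def usz {n q : ℕ} (x : Fin n → ZMod q) : ℕ :=
  Nat.card {k : Fin n // IsUnit (x k)}

/-- `cc t = cos (2 π t / q)`. -/
noncomputable def cc {q : ℕ} [NeZero q] (t : ZMod q) : ℝ := (ZMod.stdAddChar t : ℂ).re

/-- The part of high order of the Fourier sum of `x`. -/
noncomputable def DD {n : ℕ} (j0 j : ℕ) (x : Fin n → ZMod (3 ^ j)) : ℝ :=
  ∑ t ∈ univ.filter (fun t : ZMod (3 ^ j) => (3 ^ j0 : ℕ) • t ≠ 0), ∏ k, cc (t * x k)

/-- The `s`-tuples of elements of high order. -/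
def HS (j0 j s : ℕ) : Finset (Fin s → ZMod (3 ^ j)) :=
  univ.filter (fun t : Fin s → ZMod (3 ^ j) => ∀ i, (3 ^ j0 : ℕ) • t i ≠ 0)

/-- The dual moments. -/
noncomputable def mom (j0 j s n : ℕ) : ℝ := ∑ t ∈ HS j0 j s, ((cnt t 0 : ℝ) / 2 ^ s) ^ n

/-- Moments of the centred Poisson distribution of parameter `m`, divided by `m ^ k`. -/
noncomputable def AA (m : ℝ) : ℕ → ℝ
  | 0 => 1
  | (k + 1) => ∑ b : Fin k, (k.choose (b + 1) : ℝ) * (m⁻¹) ^ ((b : ℕ) + 1) * AA m (k - (b + 1))
  decreasing_by omega

/-- Two rows are equal up to sign. -/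
def RowEq {n : ℕ} (B : Fin n → Fin n → Bool) : Prop :=
  ∃ i i' : Fin n, i ≠ i' ∧ ((∀ k, B i k = B i' k) ∨ (∀ k, B i k = !B i' k))

instance {n : ℕ} (B : Fin n → Fin n → Bool) : Decidable (RowEq B) :=
  inferInstanceAs (Decidable (∃ i i' : Fin n, _))

/-- Two columns are equal up to sign. -/
def ColEq {n : ℕ} (B : Fin n → Fin n → Bool) : Prop :=
  ∃ k k' : Fin n, k ≠ k' ∧ ((∀ i, B i k = B i k') ∨ (∀ i, B i k = !B i k'))

instance {n : ℕ} (B : Fin n → Fin n → Bool) : Decidable (ColEq B) :=
  inferInstanceAs (Decidable (∃ i i' : Fin n, _))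

/-- The lift of a vector on the representatives to all coordinates. -/
def lft {I : Type} [Fintype I] [DecidableEq I] (φ : CD I) (v : {i // i ∈ reps φ} → ZMod 3) :
    I → ZMod 3 :=
  fun i => match (φ i).1 with
    | none => 0
    | some j => if h : j ∈ reps φ then ((sg (φ i).2 : ℤ) : ZMod 3) * v ⟨j, h⟩ else 0

/-- The even number of moments used at the top: about `20 n / log_2 n`. -/
def sN (n : ℕ) : ℕ := 2 * (10 * n / Nat.log 2 n + 1)

end Pool.Agent.W_MP_a45265_h99
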