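import Mathlib
import Pool.Agent.W_MP_a45265_h99.Defs

set_option autoImplicit false

/-!
# Basic facts on signed sums
-/

namespace Pool.Agent.W_MP_a45265_h99

open Finset

variable {I G : Type} [Fintype I] [DecidableEq I] [AddCommGroup G] [DecidableEq G]

theorem sg_not (b : Bool) : sg (!b) = -sg b := by
  cases b <;> simp [sg]

theorem sg_ne_zero (b : Bool) : sg b ≠ 0 := by
  cases b <;> simp [sg]

theorem v3_ne_zero {I : Type} (e : I → Bool) (i : I) : v3 e i ≠ 0 := by
  unfold v3
  cases e i <;> decide

theorem v3_eq_iff {I : Type} (e e' : I → Bool) (i : I) : v3 e i = v3 e' i ↔ e i = e' i := by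
  unfold v3
  cases e i <;> cases e' i <;> decide

theorem v3_injective {I : Type} : Function.Injective (v3 : (I → Bool) → I → ZMod 3) := by
  intro e e' h
  funext i
  exact (v3_eq_iff e e' i).1 (congrFun h i)

/-- The canonical lift of `v3` is the sign. -/
theorem valMinAbs_v3 {I : Type} (e : I → Bool) (i : I) : (v3 e i).valMinAbs = sg (e i) := by
  unfold v3
  cases e i <;> decide

theorem kill_v3 (τ : I → G) (e : I → Bool) : Kill τ (v3 e) ↔ dot τ e = 0 := by
  unfold Kill dot
  simp only [valMinAbs_v3]

theorem dot_not (g : I → G) (e : I → Bool) : dot g (fun i => !e i) = -dot g e := by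
  unfold dot
  simp only [sg_not, neg_smul, sum_neg_distrib]

theorem dot_map {G' : Type} [AddCommGroup G'] (f : G →+ G') (g : I → G) (e : I → Bool) :
    dot (fun i => f (g i)) e = f (dot g e) := by
  unfold dot
  rw [map_sum]
  simp only [map_zsmul]

/-- Splitting a signed sum along a set of coordinates. -/
theorem dot_split (g : I → G) (J : Finset I) (e : I → Bool) :
    dot g e = dot (fun i : {i // i ∈ J} => g i) (fun i => e i) +
      dot (fun i : {i // i ∉ J} => g i) (fun i => e i) := by
  unfold dot
  have h1 : ∑ i : {i // i ∈ J}, sg (e i) • g i = ∑ i ∈ J, sg (e i) • g i :=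
    Finset.sum_coe_sort J fun i => sg (e i) • g i
  have h2 : ∑ i : {i // i ∉ J}, sg (e i) • g i = ∑ i ∈ Jᶜ, sg (e i) • g i :=
    (Finset.sum_subtype Jᶜ (fun x => by simp) fun i => sg (e i) • g i).symm
  rw [h1, h2]
  exact (Finset.sum_add_sum_compl J fun i => sg (e i) • g i).symm

/-- Fibering over the coordinates outside `J`. -/
theorem cnt_split (g : I → G) (J : Finset I) (c : G) :
    cnt g c = ∑ u : ({i // i ∉ J} → Bool),
      cnt (fun i : {i // i ∈ J} => g i) (c - dot (fun i : {i // i ∉ J} => g i) u) := by
  unfold cnt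
  have h1 : (univ.filter fun e : I → Bool => dot g e = c).card =
      ∑ u : ({i // i ∉ J} → Bool), ((univ.filter fun e : I → Bool => dot g e = c).filter
        fun e => (fun i : {i // i ∉ J} => e i) = u).card :=
    card_eq_sum_card_fiberwise (t := univ) fun e _ => mem_coe.2 (mem_univ _)
  rw [h1]
  refine sum_congr rfl fun u _ => ?_
  refine card_bij' (fun e _ => fun i : {i // i ∈ J} => e i)
    (fun v _ => fun i => if h : i ∈ J then v ⟨i, h⟩ else u ⟨i, h⟩) ?_ ?_ ?_ ?_
  · intro e he
    simp only [mem_filter, mem_univ, true_and] at he ⊢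
    rw [← he.1, ← he.2, dot_split g J e]
    abel
  · intro v hv
    simp only [mem_filter, mem_univ, true_and] at hv ⊢
    have h2 : (fun i : {i // i ∉ J} => (if h : (i : I) ∈ J then v ⟨i, h⟩ else u ⟨i, h⟩)) = u := by
      funext i
      rw [dif_neg i.2]
    have h3 : (fun i : {i // i ∈ J} => (if h : (i : I) ∈ J then v ⟨i, h⟩ else u ⟨i, h⟩)) = v := by
      funext i
      rw [dif_pos i.2]
    refine ⟨?_, h2⟩
    rw [dot_split g J, h2, h3, hv]
    abel
  · intro e he
    simp only [mem_filter, mem_univ, true_and] at he
    funext i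
    by_cases h : i ∈ J
    · simp only [h, dif_pos]
    · simp only [h, dif_neg, not_false_iff]
      exact (congrFun he.2 ⟨i, h⟩).symm
  · intro v hv
    funext i
    simp only [i.2, dif_pos]

theorem card_Zs (g : I → G) : (Zs g).card = cnt g 0 := rfl

theorem cnt_le (g : I → G) (c : G) : cnt g c ≤ 2 ^ Fintype.card I := by
  unfold cnt
  refine (card_le_univ _).trans ?_
  rw [Fintype.card_fun, Fintype.card_bool]

/-- The number of zero patterns is even (if there is at least one coordinate):
`e ↦ !e` is an involution without fixed points. -/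
theorem even_cnt_zero [Nonempty I] (g : I → G) : Even (cnt g 0) := by
  unfold cnt
  have h1 : ∑ _e ∈ univ.filter (fun e : I → Bool => dot g e = 0), (1 : ZMod 2) = 0 := by
    refine sum_involution (fun e _ => fun i => !e i) ?_ ?_ ?_ ?_
    · intro e _
      decide
    · intro e _ _ h
      obtain ⟨i⟩ := ‹Nonempty I›
      have h2 := congrFun h i
      simp at h2
    · intro e he
      simp only [mem_filter, mem_univ, true_and] at he ⊢
      rw [dot_not, he, neg_zero]
    · intro e _
      funext i
      simp
  rw [sum_const, nsmul_eq_mul, mul_one] at h1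
  exact (ZMod.natCast_eq_zero_iff_even).1 h1

/-- `Zs g` is symmetric, so the direction space of its affine hull is the linear span: the midpoint
of `v3 e` and `v3 (!e) = - v3 e` is `0`; precisely `v3 e = -(v3 e - v3 (!e))` over `F_3`
because `-(2 x) = x`. -/
theorem dir_Zs (g : I → G) :
    dir (Zs g) = Submodule.span (ZMod 3) (v3 '' (Zs g : Set (I → Bool))) := by
  unfold dir
  apply le_antisymm
  · rw [vectorSpan_def, Submodule.span_le]
    rintro _ ⟨x, hx, y, hy, rfl⟩
    exact Submodule.sub_mem _ (Submodule.subset_span hx) (Submodule.subset_span hy)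
  · rw [Submodule.span_le]
    rintro _ ⟨e, he, rfl⟩
    have he' : (fun i => !e i) ∈ Zs g := by
      unfold Zs at he ⊢
      simp only [coe_filter, mem_univ, true_and, Set.mem_ofPred_eq, mem_filter] at he ⊢
      rw [dot_not, he, neg_zero]
    have h1 : v3 (fun i => !e i) = - v3 e := by
      funext i
      simp only [v3, sg_not, Pi.neg_apply, Int.cast_neg]
    have h2 : v3 e = -(v3 e - v3 (fun i => !e i)) := by
      rw [h1]
      funext i
      simp only [Pi.neg_apply, Pi.sub_apply]
      generalize v3 e i = x
      revert x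
      decide
    rw [h2]
    refine Submodule.neg_mem _ ?_
    exact vsub_mem_vectorSpan _ ⟨e, he, rfl⟩ ⟨_, he', rfl⟩

end Pool.Agent.W_MP_a45265_h99
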