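import Mathlib
import Pool.Agent.W_MP_a45265_h99.Basic

set_option autoImplicit false

/-!
# A singular matrix has a kernel vector of one of the types treated
-/

namespace Pool.Agent.W_MP_a45265_h99

open Finset

theorem descend {n : ℕ} (B : Fin n → Fin n → Bool) (N : ℕ) : ∀ v : Fin n → ℤ, v ≠ 0 →
    (∑ k, (v k).natAbs) ≤ N → (∀ i, ∑ k, sg (B i k) * v k = 0) →
    ∃ v : Fin n → ℤ, (∃ k, ¬ (3 : ℤ) ∣ v k) ∧ ∀ i, ∑ k, sg (B i k) * v k = 0 := by
  induction N with
  | zero =>
    intro v hv hN _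
    exfalso
    apply hv
    funext k
    have h1 : (v k).natAbs ≤ ∑ k, (v k).natAbs :=
      single_le_sum (f := fun k => (v k).natAbs) (fun _ _ => Nat.zero_le _) (mem_univ k)
    have h2 : (v k).natAbs = 0 := by omega
    exact Int.natAbs_eq_zero.1 h2
  | succ N ih =>
    intro v hv hN hk
    by_cases h : ∃ k, ¬ (3 : ℤ) ∣ v k
    · exact ⟨v, h, hk⟩
    · push Not at h
      choose u hu using h
      have hu0 : u ≠ 0 := by
        intro h0
        apply hv
        funext k
        rw [hu k, h0]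
        rfl
      obtain ⟨k0, hk0⟩ : ∃ k, u k ≠ 0 := by
        by_contra hc
        push Not at hc
        exact hu0 (funext hc)
      refine ih u hu0 ?_ ?_
      · have h1 : ∑ k, (u k).natAbs < ∑ k, (v k).natAbs := by
          refine sum_lt_sum (fun k _ => ?_) ⟨k0, mem_univ _, ?_⟩
          · rw [hu k, Int.natAbs_mul]
            show _ ≤ 3 * _
            omega
          · have h2 : 0 < (u k0).natAbs := Int.natAbs_pos.2 hk0
            rw [hu k0, Int.natAbs_mul]
            show _ < 3 * _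
            omega
        omega
      · intro i
        have h1 := hk i
        have h2 : ∑ k, sg (B i k) * v k = 3 * ∑ k, sg (B i k) * u k := by
          rw [mul_sum]
          refine sum_congr rfl fun k _ => ?_
          rw [hu k]
          ring
        rw [h2] at h1
        omega

/-- Proof. `det = 0` over `ℤ` gives a nonzero rational (hence integer) vector in the kernel
(`Matrix.exists_mulVec_eq_zero_iff`); divide by the gcd of the entries, or: take a nonzero integer
kernel vector with minimal `∑ |v k|`; if all entries were divisible by `3`, `v / 3` would be smaller. -/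
theorem exists_int_kernel (n : ℕ) (B : Fin n → Fin n → Bool)
    (hB : (Matrix.of (fun i j => if B i j then (1 : ℤ) else -1)).det = 0) :
    ∃ v : Fin n → ℤ, (∃ k, ¬ (3 : ℤ) ∣ v k) ∧ ∀ i, ∑ k, sg (B i k) * v k = 0 := by
  obtain ⟨v, hv, hv0⟩ := Matrix.exists_mulVec_eq_zero_iff.2 hB
  refine descend B _ v hv le_rfl fun i => ?_
  have h := congrFun hv0 i
  simpa [Matrix.mulVec, dotProduct, sg] using h

/-- The reduction modulo `3 ^ j` of an integer vector. -/
def xx {n : ℕ} (v : Fin n → ℤ) (j : ℕ) : Fin n → ZMod (3 ^ j) :=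
  fun k => ((v k : ℤ) : ZMod (3 ^ j))

theorem dot_xx {n : ℕ} (v : Fin n → ℤ) (j : ℕ) (e : Fin n → Bool) :
    dot (xx v j) e = ((∑ k, sg (e k) * v k : ℤ) : ZMod (3 ^ j)) := by
  unfold dot xx
  rw [Int.cast_sum]
  refine sum_congr rfl fun k _ => ?_
  rw [zsmul_eq_mul, Int.cast_mul]

theorem dot_xx_eq_zero {n : ℕ} (v : Fin n → ℤ) (j : ℕ) (e : Fin n → Bool) :
    dot (xx v j) e = 0 ↔ (3 : ℤ) ^ j ∣ ∑ k, sg (e k) * v k := by
  rw [dot_xx, ZMod.intCast_zmod_eq_zero_iff_dvd]
  push_cast
  rfl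

theorem cnt_xx_succ {n : ℕ} (v : Fin n → ℤ) (j : ℕ) : cnt (xx v (j + 1)) 0 ≤ cnt (xx v j) 0 := by
  unfold cnt
  refine card_le_card fun e he => ?_
  simp only [mem_filter, mem_univ, true_and, dot_xx_eq_zero] at he ⊢
  exact (pow_dvd_pow 3 (Nat.le_succ j)).trans he

theorem le_usz {n : ℕ} (v : Fin n → ℤ) (j : ℕ) :
    (univ.filter (fun k => ¬ (3 : ℤ) ∣ v k)).card ≤ usz (xx v j) := by
  unfold usz
  rw [← Nat.card_eq_finsetCard]
  refine Nat.card_le_card_of_injective
    (fun k => ⟨k.1, ?_⟩) (fun a b h => Subtype.ext (congrArg (fun x => x.1) h))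
  have h := (mem_filter.1 k.2).2
  unfold xx
  rw [ZMod.coe_int_isUnit_iff_isCoprime]
  push_cast
  exact IsCoprime.pow_left ((Int.prime_three.coprime_iff_not_dvd).2 h)

theorem check2 : ∀ (b b' : Bool) (x y : ZMod 3), x ≠ 0 → y ≠ 0 → sg b • x + sg b' • y = 0 →
    (x = y ↔ b = !b') := by
  decide

/-- Proof. Let `v` be from `exists_int_kernel` and `x_j = v mod 3^j`; `dot x_j (B i) = 0` for all
`i, j` (`(a : ℤ) • (b : ZMod q) = (a b : ZMod q)`). Let `w ≥ 1` be the number of `k` with `3 ∤ v k`;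
this is the size of the support of `v mod 3`, and it is `usz x_j` for all `j ≥ 1`
(for `j = 0` every element of `ZMod 1` is a unit, `usz x_0 = n`).
If `20 w < n`: `w = 1` is impossible (the kernel equation for any row reads `± v k = 0 mod 3`); if
`w = 2` then `± v k ± v k' = 0 mod 3` for all rows, so the columns `k, k'` are equal up to sign
(`ColEq`); if `w ≥ 3` we are in the third case with `x = v mod 3`.
If `20 w ≥ n`: let `c_j = 3^j cnt x_j 0`, so `c_0 = 2^n`, and `c_(j+1) ≤ 3 c_j` (a pattern with signed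
sum `0` modulo `3^(j+1)` has signed sum `0` modulo `3^j`). If `c_j ≤ 3 * 2^n` for all `j ≤ J` we are
in the last case (or in the first). Otherwise let `j ≤ J` be minimal with `c_j > 3 * 2^n`; `j ≥ 1` and
`c_j ≤ 3 c_(j-1) ≤ 9 * 2^n`: fourth case. (Note `n ≥ 1` since `det` of the empty matrix is `1`.) -/
theorem reduction (n J : ℕ) (B : Fin n → Fin n → Bool)
    (hB : (Matrix.of (fun i j => if B i j then (1 : ℤ) else -1)).det = 0) :
    RowEq B ∨ ColEq B ∨
    (∃ x : Fin n → ZMod 3, 3 ≤ (univ.filter (fun k => x k ≠ 0)).card ∧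
      20 * (univ.filter (fun k => x k ≠ 0)).card < n ∧ ∀ i, dot x (B i) = 0) ∨
    (∃ j ≤ J, ∃ x : Fin n → ZMod (3 ^ j), n ≤ 20 * usz x ∧ 3 * 2 ^ n < 3 ^ j * cnt x 0 ∧
      3 ^ j * cnt x 0 ≤ 9 * 2 ^ n ∧ ∀ i, dot x (B i) = 0) ∨
    (¬ RowEq B ∧ ∃ x : Fin n → ZMod (3 ^ J), n ≤ 20 * usz x ∧
      3 ^ J * cnt x 0 ≤ 3 * 2 ^ n ∧ ∀ i, dot x (B i) = 0) := by
  obtain ⟨v, ⟨k0, hk0⟩, hv⟩ := exists_int_kernel n B hB
  have hdot : ∀ j i, dot (xx v j) (B i) = 0 := by
    intro j i
    rw [dot_xx_eq_zero, hv]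
    exact dvd_zero _
  have hn : 0 < n := k0.pos
  obtain ⟨W, hW⟩ : ∃ W, W = univ.filter (fun k => ¬ (3 : ℤ) ∣ v k) := ⟨_, rfl⟩
  by_cases hw : 20 * W.card < n
  · -- few coordinates
    let x : Fin n → ZMod 3 := fun k => ((v k : ℤ) : ZMod 3)
    have hxW : univ.filter (fun k => x k ≠ 0) = W := by
      rw [hW]
      refine filter_congr fun k _ => not_congr ?_
      exact ZMod.intCast_zmod_eq_zero_iff_dvd (v k) 3
    have hx0 : ∀ k, k ∉ W → x k = 0 := by
      intro k hk
      by_contra hne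
      apply hk
      rw [← hxW]
      exact mem_filter.2 ⟨mem_univ _, hne⟩
    have hx1 : ∀ k, k ∈ W → x k ≠ 0 := by
      intro k hk
      rw [← hxW] at hk
      exact (mem_filter.1 hk).2
    have hxd : ∀ i, dot x (B i) = 0 := by
      intro i
      have h1 : dot x (B i) = ((∑ k, sg (B i k) * v k : ℤ) : ZMod 3) := by
        unfold dot
        rw [Int.cast_sum]
        refine sum_congr rfl fun k _ => ?_
        rw [zsmul_eq_mul, Int.cast_mul]
      rw [h1, hv, Int.cast_zero]
    have hsum : ∀ i, ∑ k ∈ W, sg (B i k) • x k = 0 := by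
      intro i
      rw [← hxd i]
      unfold dot
      refine sum_subset (subset_univ _) fun k _ hk => ?_
      rw [hx0 k hk, smul_zero]
    by_cases h3 : 3 ≤ W.card
    · refine Or.inr (Or.inr (Or.inl ⟨x, ?_, ?_, hxd⟩))
      · rw [hxW]
        exact h3
      · rw [hxW]
        exact hw
    · have hk0W : k0 ∈ W := by
        rw [hW]
        exact mem_filter.2 ⟨mem_univ _, hk0⟩
      have hpos : 0 < W.card := card_pos.2 ⟨k0, hk0W⟩
      rcases (by omega : W.card = 1 ∨ W.card = 2) with h1 | h2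
      · exfalso
        obtain ⟨k, hk⟩ := card_eq_one.1 h1
        have h4 := hsum ⟨0, hn⟩
        rw [hk, sum_singleton] at h4
        have h5 : x k ≠ 0 := hx1 k (by rw [hk]; exact mem_singleton_self k)
        generalize x k = y at h4 h5
        generalize B ⟨0, hn⟩ k = b at h4
        revert b y
        decide
      · obtain ⟨k, k', hne, hk⟩ := card_eq_two.1 h2
        have h4 : ∀ i, sg (B i k) • x k + sg (B i k') • x k' = 0 := by
          intro i
          rw [← hsum i, hk, sum_pair hne]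
        have h5 : x k ≠ 0 := hx1 k (by rw [hk]; exact mem_insert_self _ _)
        have h6 : x k' ≠ 0 := hx1 k' (by rw [hk]; exact mem_insert_of_mem (mem_singleton_self _))
        refine Or.inr (Or.inl ⟨k, k', hne, ?_⟩)
        by_cases hxx : x k = x k'
        · exact Or.inr fun i => (check2 _ _ _ _ h5 h6 (h4 i)).1 hxx
        · refine Or.inl fun i => ?_
          have h7 := mt (check2 _ _ _ _ h5 h6 (h4 i)).2 hxx
          generalize B i k = b at h7
          generalize B i k' = b' at h7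
          revert b b'
          decide
  · have husz : ∀ j, n ≤ 20 * usz (xx v j) := by
      intro j
      have h1 := le_usz v j
      rw [← hW] at h1
      omega
    by_cases hR : RowEq B
    · exact Or.inl hR
    by_cases hall : ∀ j ≤ J, 3 ^ j * cnt (xx v j) 0 ≤ 3 * 2 ^ n
    · exact Or.inr (Or.inr (Or.inr (Or.inr ⟨hR, xx v J, husz J, hall J le_rfl, hdot J⟩)))
    · have hex : ∃ j, 3 * 2 ^ n < 3 ^ j * cnt (xx v j) 0 := by
        push Not at hall
        obtain ⟨j, _, hj⟩ := hall
        exact ⟨j, hj⟩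
      classical
      obtain ⟨j, hj1, hj2⟩ : ∃ j, 3 * 2 ^ n < 3 ^ j * cnt (xx v j) 0 ∧
          ∀ i < j, ¬ 3 * 2 ^ n < 3 ^ i * cnt (xx v i) 0 :=
        ⟨Nat.find hex, Nat.find_spec hex, fun i hi => Nat.find_min hex hi⟩
      have hjJ : j ≤ J := by
        by_contra hc
        push Not at hc
        exact hall fun i hi => not_lt.1 (hj2 i (hi.trans_lt hc))
      refine Or.inr (Or.inr (Or.inr (Or.inl ⟨j, hjJ, xx v j, husz j, hj1, ?_, hdot j⟩)))
      rcases j with _ | j
      · exfalso
        have h1 := cnt_le (xx v 0) 0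
        rw [Fintype.card_fin] at h1
        have h3 : ∀ m : ℕ, 3 ^ 0 * m = m := fun m => by rw [pow_zero, one_mul]
        rw [h3] at hj1
        have h2 : 0 < 2 ^ n := by positivity
        omega
      · have h1 := not_lt.1 (hj2 j (Nat.lt_succ_self j))
        have h2 := cnt_xx_succ v j
        calc 3 ^ (j + 1) * cnt (xx v (j + 1)) 0 ≤ 3 ^ (j + 1) * cnt (xx v j) 0 :=
              Nat.mul_le_mul_left _ h2
          _ = 3 * (3 ^ j * cnt (xx v j) 0) := by ring
          _ ≤ 3 * (3 * 2 ^ n) := Nat.mul_le_mul_left _ h1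
          _ = 9 * 2 ^ n := by ring

end Pool.Agent.W_MP_a45265_h99
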