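import Mathlib
import Pool.Agent.W_MP_a45265_h99.Defs

set_option autoImplicit false

/-!
# Equal rows and columns: upper and lower bounds
-/

namespace Pool.Agent.W_MP_a45265_h99

open Finset

/-- The transposed matrix. -/
def Rows_tr {n : ℕ} (B : Fin n → Fin n → Bool) : Fin n → Fin n → Bool := fun i k => B k i

theorem Rows_tr_inj {n : ℕ} : Function.Injective (Rows_tr (n := n)) := by
  intro B B' h
  funext i k
  exact congrFun (congrFun h k) i

/-- `b` or `!b`. -/
def Rows_fl (s b : Bool) : Bool := cond s (!b) b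

theorem Rows_fl_inj {s b b' : Bool} (h : Rows_fl s b = Rows_fl s b') : b = b' := by
  revert h
  unfold Rows_fl
  cases s <;> cases b <;> cases b' <;> decide

theorem Rows_fl_ne {s t b : Bool} (h : Rows_fl s b = Rows_fl t b) : s = t := by
  revert h
  unfold Rows_fl
  cases s <;> cases b <;> cases t <;> decide

theorem Rows_card_univ (n : ℕ) :
    (univ : Finset (Fin n → Fin n → Bool)).card = 2 ^ (n ^ 2) := by
  rw [card_univ, Fintype.card_fun, Fintype.card_fun, Fintype.card_bool, Fintype.card_fin,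
    ← pow_mul, pow_two]

/-- The matrices for which row `i` is row `i'` up to the sign `s`. -/
def Rows_R (n : ℕ) (i i' : Fin n) (s : Bool) : Finset (Fin n → Fin n → Bool) :=
  univ.filter (fun B => ∀ k, B i k = Rows_fl s (B i' k))

/-- The matrices for which column `k` is column `k'` up to the sign `s`. -/
def Rows_C (n : ℕ) (k k' : Fin n) (s : Bool) : Finset (Fin n → Fin n → Bool) :=
  univ.filter (fun B => ∀ i, B i k = Rows_fl s (B i k'))

theorem Rows_mem_R {n : ℕ} {i i' : Fin n} {s : Bool} {B : Fin n → Fin n → Bool} :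
    B ∈ Rows_R n i i' s ↔ ∀ k, B i k = Rows_fl s (B i' k) := by
  unfold Rows_R
  rw [mem_filter]
  exact and_iff_right (mem_univ _)

theorem Rows_mem_C {n : ℕ} {k k' : Fin n} {s : Bool} {B : Fin n → Fin n → Bool} :
    B ∈ Rows_C n k k' s ↔ ∀ i, B i k = Rows_fl s (B i k') := by
  unfold Rows_C
  rw [mem_filter]
  exact and_iff_right (mem_univ _)

/-- A set of matrices which are determined by the entries outside of `T` is small. -/
theorem Rows_inj_bound (n : ℕ) (E : Finset (Fin n → Fin n → Bool)) (T : Finset (Fin n × Fin n))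
    (h : ∀ B ∈ E, ∀ B' ∈ E, (∀ i k, (i, k) ∉ T → B i k = B' i k) → B = B') :
    E.card * 2 ^ T.card ≤ 2 ^ (n ^ 2) := by
  classical
  have h1 : (E ×ˢ (univ : Finset ({p // p ∈ T} → Bool))).card ≤
      (univ : Finset (Fin n → Fin n → Bool)).card := by
    refine card_le_card_of_injOn
      (fun q i k => if h : (i, k) ∈ T then q.2 ⟨(i, k), h⟩ else q.1 i k)
      (fun _ _ => mem_coe.2 (mem_univ _)) ?_
    rintro ⟨B, f⟩ hB ⟨B', f'⟩ hB' hh
    have hB1 : B ∈ E := (mem_product.1 (mem_coe.1 hB)).1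
    have hB1' : B' ∈ E := (mem_product.1 (mem_coe.1 hB')).1
    have h2 : B = B' := by
      refine h B hB1 B' hB1' fun i k hik => ?_
      have h3 := congrFun (congrFun hh i) k
      simp only [hik, dif_neg, not_false_iff] at h3
      exact h3
    have h4 : f = f' := by
      funext p
      obtain ⟨⟨i, k⟩, hik⟩ := p
      have h3 := congrFun (congrFun hh i) k
      simp only [hik, dif_pos] at h3
      exact h3
    rw [h2, h4]
  rw [card_product, Rows_card_univ, card_univ, Fintype.card_fun, Fintype.card_bool,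
    Fintype.card_coe] at h1
  exact h1

/-- The size of one row event, upper bound. -/
theorem Rows_R_le (n : ℕ) (i i' : Fin n) (s : Bool) (hne : i ≠ i') :
    (Rows_R n i i' s).card * 2 ^ n ≤ 2 ^ (n ^ 2) := by
  have h1 := Rows_inj_bound n (Rows_R n i i' s) ({i'} ×ˢ univ) ?_
  · rw [card_product, card_singleton, one_mul, card_univ, Fintype.card_fin] at h1
    exact h1
  · intro B hB B' hB' h
    rw [Rows_mem_R] at hB hB'
    have h2 : ∀ r, r ≠ i' → ∀ k, B r k = B' r k := by
      intro r hr k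
      refine h r k fun hm => hr ?_
      exact mem_singleton.1 (mem_product.1 hm).1
    funext r k
    by_cases hr : r = i'
    · rw [hr]
      apply Rows_fl_inj (s := s)
      rw [← hB k, ← hB' k]
      exact h2 i hne k
    · exact h2 r hr k

/-- The size of one row event, lower bound. -/
theorem Rows_le_R (n : ℕ) (i i' : Fin n) (s : Bool) (hne : i ≠ i') :
    2 ^ (n ^ 2) ≤ (Rows_R n i i' s).card * 2 ^ n := by
  classical
  have h1 : (univ : Finset (Fin n → Fin n → Bool)).card ≤
      (Rows_R n i i' s ×ˢ (univ : Finset (Fin n → Bool))).card := by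
    refine card_le_card_of_injOn
      (fun B => (Function.update B i (fun k => Rows_fl s (B i' k)), B i)) ?_ ?_
    · intro B _
      refine mem_coe.2 (mem_product.2 ⟨Rows_mem_R.2 fun k => ?_, mem_univ _⟩)
      change Function.update B i (fun k => Rows_fl s (B i' k)) i k =
        Rows_fl s (Function.update B i (fun k => Rows_fl s (B i' k)) i' k)
      rw [Function.update_self, Function.update_of_ne hne.symm]
    · intro B _ B' _ h
      have h2 := congrArg Prod.fst h
      have h3 : B i = B' i := congrArg Prod.snd h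
      funext r
      by_cases hr : r = i
      · rw [hr, h3]
      · have h4 := congrFun h2 r
        change Function.update B i (fun k => Rows_fl s (B i' k)) r =
          Function.update B' i (fun k => Rows_fl s (B' i' k)) r at h4
        rw [Function.update_of_ne hr, Function.update_of_ne hr] at h4
        exact h4
  rw [card_product, Rows_card_univ, card_univ, Fintype.card_fun, Fintype.card_bool,
    Fintype.card_fin] at h1
  exact h1

theorem Rows_le_C (n : ℕ) (i i' : Fin n) (s : Bool) (hne : i ≠ i') :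
    2 ^ (n ^ 2) ≤ (Rows_C n i i' s).card * 2 ^ n := by
  refine (Rows_le_R n i i' s hne).trans (Nat.mul_le_mul_right _ ?_)
  refine card_le_card_of_injOn Rows_tr ?_ Rows_tr_inj.injOn
  intro B hB
  exact mem_coe.2 (Rows_mem_C.2 (Rows_mem_R.1 (mem_coe.1 hB)))

/-- The pairs `i < j`. -/
theorem Rows_card_pairs (n : ℕ) :
    Fintype.card {p : Fin n × Fin n // p.1 < p.2} * 2 = n * (n - 1) := by
  have h1 : (univ.filter fun p : Fin n × Fin n => p.1 < p.2).card = ∑ j ∈ range n, j := by
    rw [card_eq_sum_card_fiberwise (f := fun p : Fin n × Fin n => p.2) (t := univ)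
      (fun _ _ => mem_coe.2 (mem_univ _)), ← Fin.sum_univ_eq_sum_range (fun j => j) n]
    refine sum_congr rfl fun j _ => ?_
    have h2 : (Finset.Iio j).card = (j : ℕ) := Fin.card_Iio j
    rw [← h2]
    refine card_bij (fun p _ => p.1) ?_ ?_ ?_
    · intro p hp
      rw [mem_filter, mem_filter] at hp
      rw [Finset.mem_Iio, ← hp.2]
      exact hp.1.2
    · intro p hp q hq hpq
      rw [mem_filter, mem_filter] at hp hq
      exact Prod.ext hpq (hp.2.trans hq.2.symm)
    · intro i hi
      rw [Finset.mem_Iio] at hi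
      exact ⟨(i, j), by rw [mem_filter, mem_filter]; exact ⟨⟨mem_univ _, hi⟩, rfl⟩, rfl⟩
  rw [Fintype.card_subtype, h1, Finset.sum_range_id_mul_two]

theorem Rows_rowEq {n : ℕ} {B : Fin n → Fin n → Bool} (h : RowEq B) :
    ∃ (i i' : Fin n) (s : Bool), i < i' ∧ B ∈ Rows_R n i i' s := by
  obtain ⟨i, i', hne, h⟩ := h
  rcases lt_or_gt_of_ne hne with hlt | hlt
  · rcases h with h | h
    · exact ⟨i, i', false, hlt, Rows_mem_R.2 h⟩
    · exact ⟨i, i', true, hlt, Rows_mem_R.2 h⟩
  · rcases h with h | h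
    · exact ⟨i', i, false, hlt, Rows_mem_R.2 fun k => (h k).symm⟩
    · refine ⟨i', i, true, hlt, Rows_mem_R.2 fun k => ?_⟩
      change B i' k = !B i k
      rw [h k, Bool.not_not]

/-- Union bound over the `n (n-1) / 2` pairs `i < i'` and the two signs: for fixed `i < i'` and a fixed
sign the matrices with row `i` equal to `±` row `i'` are `2^(n^2 - n)` many. -/
theorem card_rowEq (n : ℕ) (hn : 1 ≤ n) :
    (univ.filter (fun B : Fin n → Fin n → Bool => RowEq B)).card * 2 ^ n ≤
      n * (n - 1) * 2 ^ (n ^ 2) := by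
  classical
  have h1 : (univ.filter (fun B : Fin n → Fin n → Bool => RowEq B)) ⊆
      (univ : Finset ({p : Fin n × Fin n // p.1 < p.2} × Bool)).biUnion
        (fun e => Rows_R n e.1.1.1 e.1.1.2 e.2) := by
    intro B hB
    obtain ⟨i, i', s, hlt, hm⟩ := Rows_rowEq (mem_filter.1 hB).2
    exact mem_biUnion.2 ⟨(⟨(i, i'), hlt⟩, s), mem_univ _, hm⟩
  have h2 := (card_le_card h1).trans card_biUnion_le
  calc (univ.filter (fun B : Fin n → Fin n → Bool => RowEq B)).card * 2 ^ n
      ≤ (∑ e : {p : Fin n × Fin n // p.1 < p.2} × Bool,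
          (Rows_R n e.1.1.1 e.1.1.2 e.2).card) * 2 ^ n := Nat.mul_le_mul_right _ h2
    _ = ∑ e : {p : Fin n × Fin n // p.1 < p.2} × Bool,
          (Rows_R n e.1.1.1 e.1.1.2 e.2).card * 2 ^ n := by rw [Finset.sum_mul]
    _ ≤ ∑ e : {p : Fin n × Fin n // p.1 < p.2} × Bool, 2 ^ (n ^ 2) :=
        Finset.sum_le_sum fun e _ => Rows_R_le n _ _ _ (ne_of_lt e.1.2)
    _ = n * (n - 1) * 2 ^ (n ^ 2) := by
        rw [sum_const, card_univ, Fintype.card_prod, Fintype.card_bool, Rows_card_pairs,
          smul_eq_mul]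

/-- Transpose. -/
theorem card_colEq (n : ℕ) (hn : 1 ≤ n) :
    (univ.filter (fun B : Fin n → Fin n → Bool => ColEq B)).card * 2 ^ n ≤
      n * (n - 1) * 2 ^ (n ^ 2) := by
  refine le_trans (Nat.mul_le_mul_right _ ?_) (card_rowEq n hn)
  refine card_le_card_of_injOn Rows_tr ?_ Rows_tr_inj.injOn
  intro B hB
  exact mem_coe.2 (mem_filter.2 ⟨mem_univ _, (mem_filter.1 (mem_coe.1 hB)).2⟩)

theorem det_eq_zero_of_rowEq (n : ℕ) (B : Fin n → Fin n → Bool) (h : RowEq B) :
    (Matrix.of (fun i j => if B i j then (1 : ℤ) else -1)).det = 0 := by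
  obtain ⟨i, i', hne, h⟩ := h
  set M : Matrix (Fin n) (Fin n) ℤ := Matrix.of (fun i j => if B i j then (1 : ℤ) else -1) with hM
  rcases h with h | h
  · refine Matrix.det_zero_of_row_eq hne ?_
    funext k
    change (if B i k then (1 : ℤ) else -1) = if B i' k then (1 : ℤ) else -1
    rw [h k]
  · rw [← Matrix.det_updateRow_add_self M hne]
    refine Matrix.det_eq_zero_of_row_eq_zero i fun k => ?_
    rw [Matrix.updateRow_self, Pi.add_apply]
    change (if B i k then (1 : ℤ) else -1) + (if B i' k then (1 : ℤ) else -1) = 0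
    rw [h k]
    cases B i' k <;> rfl

theorem det_eq_zero_of_colEq (n : ℕ) (B : Fin n → Fin n → Bool) (h : ColEq B) :
    (Matrix.of (fun i j => if B i j then (1 : ℤ) else -1)).det = 0 := by
  rw [← Matrix.det_transpose]
  exact det_eq_zero_of_rowEq n (Rows_tr B) h

/-- Bonferroni: `|⋃ A_i| ≥ ∑ |A_i| - ∑_{i ≠ j} |A_i ∩ A_j|` (sum over ordered pairs). -/
theorem bonferroni {ι α : Type} [Fintype ι] [DecidableEq ι] [DecidableEq α] (A : ι → Finset α) :
    ∑ i, (A i).card ≤ (univ.biUnion A).card +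
      ∑ p ∈ univ.filter (fun p : ι × ι => p.1 ≠ p.2), (A p.1 ∩ A p.2).card := by
  set U : Finset α := univ.biUnion A with hU
  have hsub : ∀ i, A i ⊆ U := fun i => subset_biUnion_of_mem A (mem_univ i)
  have h1 : ∑ i, (A i).card = ∑ x ∈ U, (univ.filter fun i => x ∈ A i).card := by
    have h2 : ∀ i, (A i).card = ∑ x ∈ U, if x ∈ A i then 1 else 0 := by
      intro i
      rw [sum_boole, filter_mem_eq_inter, inter_eq_right.2 (hsub i)]
      rfl
    rw [sum_congr rfl fun i _ => h2 i, sum_comm]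
    refine sum_congr rfl fun x _ => ?_
    rw [sum_boole]
    rfl
  have h3 : ∑ p ∈ univ.filter (fun p : ι × ι => p.1 ≠ p.2), (A p.1 ∩ A p.2).card =
      ∑ x ∈ U, (univ.filter fun i => x ∈ A i).offDiag.card := by
    have h2 : ∀ p : ι × ι, (A p.1 ∩ A p.2).card =
        ∑ x ∈ U, if x ∈ A p.1 ∩ A p.2 then 1 else 0 := by
      intro p
      rw [sum_boole, filter_mem_eq_inter,
        inter_eq_right.2 (inter_subset_left.trans (hsub p.1))]
      rfl
    rw [sum_congr rfl fun p _ => h2 p, sum_comm]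
    refine sum_congr rfl fun x _ => ?_
    rw [sum_boole]
    change (filter _ _).card = _
    congr 1
    ext p
    simp only [mem_filter, mem_univ, true_and, mem_offDiag, mem_inter]
    tauto
  rw [h1, h3, card_eq_sum_ones, ← sum_add_distrib]
  refine sum_le_sum fun x _ => ?_
  rw [offDiag_card]
  generalize (univ.filter fun i => x ∈ A i).card = m
  rcases m with _ | _ | m
  · omega
  · omega
  · have h4 : (m + 1 + 1) * (m + 1 + 1) - (m + 1 + 1) = (m + 1 + 1) * (m + 1) := by
      rw [Nat.mul_succ (m + 1 + 1) (m + 1), Nat.add_sub_cancel]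
    have h5 : (m + 1 + 1) * 1 ≤ (m + 1 + 1) * (m + 1) := Nat.mul_le_mul_left _ (by omega)
    omega

/-- Two different row events. -/
theorem Rows_RR (n : ℕ) (p q : {p : Fin n × Fin n // p.1 < p.2}) (s t : Bool)
    (hne : (p, s) ≠ (q, t)) :
    (Rows_R n p.1.1 p.1.2 s ∩ Rows_R n q.1.1 q.1.2 t).card * 4 ^ n ≤ 2 ^ (n ^ 2) := by
  classical
  obtain ⟨⟨i, i'⟩, hi⟩ := p
  obtain ⟨⟨l, l'⟩, hl⟩ := q
  change i < i' at hi
  change l < l' at hl
  change (Rows_R n i i' s ∩ Rows_R n l l' t).card * 4 ^ n ≤ 2 ^ (n ^ 2)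
  -- two free rows suffice
  have key : ∀ a b : Fin n, a ≠ b →
      (∀ B ∈ Rows_R n i i' s ∩ Rows_R n l l' t, ∀ B' ∈ Rows_R n i i' s ∩ Rows_R n l l' t,
        (∀ r, r ≠ a → r ≠ b → B r = B' r) → B a = B' a ∧ B b = B' b) →
      (Rows_R n i i' s ∩ Rows_R n l l' t).card * 4 ^ n ≤ 2 ^ (n ^ 2) := by
    intro a b hab h
    have h1 := Rows_inj_bound n (Rows_R n i i' s ∩ Rows_R n l l' t) ({a, b} ×ˢ univ) ?_
    · rw [card_product, card_pair hab, card_univ, Fintype.card_fin, pow_mul] at h1
      exact h1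
    · intro B hB B' hB' h2
      have h3 : ∀ r, r ≠ a → r ≠ b → B r = B' r := by
        intro r hra hrb
        funext k
        refine h2 r k fun hm => ?_
        have h4 := (mem_product.1 hm).1
        rw [mem_insert, mem_singleton] at h4
        exact h4.elim hra hrb
      obtain ⟨h5, h6⟩ := h B hB B' hB' h3
      funext r
      by_cases hra : r = a
      · rw [hra, h5]
      · by_cases hrb : r = b
        · rw [hrb, h6]
        · exact h3 r hra hrb
  -- the relations
  have rel : ∀ B ∈ Rows_R n i i' s ∩ Rows_R n l l' t, ∀ B' ∈ Rows_R n i i' s ∩ Rows_R n l l' t,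
      (B i = B' i → B i' = B' i') ∧ (B l = B' l → B l' = B' l') ∧
      (B i' = B' i' → B i = B' i) ∧ (B l' = B' l' → B l = B' l) := by
    intro B hB B' hB'
    have h1 := Rows_mem_R.1 (mem_inter.1 hB).1
    have h2 := Rows_mem_R.1 (mem_inter.1 hB).2
    have h3 := Rows_mem_R.1 (mem_inter.1 hB').1
    have h4 := Rows_mem_R.1 (mem_inter.1 hB').2
    refine ⟨fun h => ?_, fun h => ?_, fun h => ?_, fun h => ?_⟩
    · funext k
      apply Rows_fl_inj (s := s)
      rw [← h1 k, ← h3 k, h]
    · funext k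
      apply Rows_fl_inj (s := t)
      rw [← h2 k, ← h4 k, h]
    · funext k
      rw [h1 k, h3 k, h]
    · funext k
      rw [h2 k, h4 k, h]
  by_cases h1 : i' = l'
  · by_cases h2 : i = l
    · -- the same pair, different signs
      have hst : s ≠ t := by
        intro hst
        apply hne
        subst h1 h2 hst
        rfl
      have h3 : Rows_R n i i' s ∩ Rows_R n l l' t = ∅ := by
        rw [eq_empty_iff_forall_notMem]
        intro B hB
        have h4 := Rows_mem_R.1 (mem_inter.1 hB).1 i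
        have h5 := Rows_mem_R.1 (mem_inter.1 hB).2 i
        rw [← h1, ← h2, h4] at h5
        exact hst (Rows_fl_ne h5)
      rw [h3, card_empty, zero_mul]
      exact Nat.zero_le _
    · refine key i' l (by rw [h1]; exact (ne_of_lt hl).symm) fun B hB B' hB' h => ?_
      obtain ⟨r1, r2, r3, r4⟩ := rel B hB B' hB'
      have h3 := r1 (h i (ne_of_lt hi) h2)
      refine ⟨h3, r4 ?_⟩
      rw [← h1]
      exact h3
  · refine key i' l' h1 fun B hB B' hB' h => ?_
    obtain ⟨r1, r2, r3, r4⟩ := rel B hB B' hB'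
    have h3 : B i' = B' i' := by
      by_cases h2 : i = l'
      · apply r1
        rw [h2]
        apply r2
        refine h l ?_ (ne_of_lt hl)
        rw [← h2] at hl
        exact ne_of_lt (hl.trans hi)
      · exact r1 (h i (ne_of_lt hi) h2)
    refine ⟨h3, r2 ?_⟩
    by_cases h2 : l = i'
    · rw [h2]
      exact h3
    · exact h l h2 (ne_of_lt hl)

theorem Rows_CC (n : ℕ) (p q : {p : Fin n × Fin n // p.1 < p.2}) (s t : Bool)
    (hne : (p, s) ≠ (q, t)) :
    (Rows_C n p.1.1 p.1.2 s ∩ Rows_C n q.1.1 q.1.2 t).card * 4 ^ n ≤ 2 ^ (n ^ 2) := by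
  refine le_trans (Nat.mul_le_mul_right _ ?_) (Rows_RR n p q s t hne)
  refine card_le_card_of_injOn Rows_tr ?_ Rows_tr_inj.injOn
  intro B hB
  have h1 := mem_inter.1 (mem_coe.1 hB)
  exact mem_coe.2 (mem_inter.2 ⟨Rows_mem_R.2 (Rows_mem_C.1 h1.1), Rows_mem_R.2 (Rows_mem_C.1 h1.2)⟩)

/-- A row event and a column event. -/
theorem Rows_RC (n : ℕ) (i i' k k' : Fin n) (hi : i ≠ i') (hk : k ≠ k') (s t : Bool) :
    (Rows_R n i i' s ∩ Rows_C n k k' t).card * 4 ^ n ≤ 2 * 2 ^ (n ^ 2) := by
  classical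
  have hn : 0 < n := i.pos
  have h1 := Rows_inj_bound n (Rows_R n i i' s ∩ Rows_C n k k' t)
    (({i'} ×ˢ univ) ∪ ((univ.erase i') ×ˢ {k'})) ?_
  · rw [card_union_of_disjoint, card_product, card_product, card_singleton, card_singleton,
      card_erase_of_mem (mem_univ _), card_univ, Fintype.card_fin, one_mul, mul_one] at h1
    · have h2 : (4 : ℕ) ^ n = 2 * 2 ^ (n + (n - 1)) := by
        rw [← pow_succ']
        have h3 : n + (n - 1) + 1 = 2 * n := by omega
        rw [h3, pow_mul]
        norm_num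
      rw [h2, mul_left_comm]
      exact Nat.mul_le_mul_left _ h1
    · rw [Finset.disjoint_left]
      intro p hp hq
      exact (mem_erase.1 (mem_product.1 hq).1).1 (mem_singleton.1 (mem_product.1 hp).1)
  · intro B hB B' hB' h
    have e1 := Rows_mem_R.1 (mem_inter.1 hB).1
    have e2 := Rows_mem_C.1 (mem_inter.1 hB).2
    have e3 := Rows_mem_R.1 (mem_inter.1 hB').1
    have e4 := Rows_mem_C.1 (mem_inter.1 hB').2
    have h2 : ∀ r, r ≠ i' → ∀ c, c ≠ k' → B r c = B' r c := by
      intro r hr c hc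
      refine h r c fun hm => ?_
      rw [mem_union, mem_product, mem_product, mem_singleton, mem_singleton] at hm
      rcases hm with hm | hm
      · exact hr hm.1
      · exact hc hm.2
    have h3 : ∀ r, r ≠ i' → ∀ c, B r c = B' r c := by
      intro r hr c
      by_cases hc : c = k'
      · rw [hc]
        apply Rows_fl_inj (s := t)
        rw [← e2 r, ← e4 r]
        exact h2 r hr k hk
      · exact h2 r hr c hc
    funext r c
    by_cases hr : r = i'
    · rw [hr]
      apply Rows_fl_inj (s := s)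
      rw [← e1 c, ← e3 c]
      exact h3 i hi c
    · exact h3 r hr c

/-- Proof. The events: `R_{i,i'}` (rows `i < i'` equal up to sign) and `C_{k,k'}` (columns `k < k'`
equal up to sign), in total `N = n (n-1)` events, each of cardinality `2 * 2^(n^2 - n)`. For two
different events the intersection has cardinality at most `8 * 2^(n^2 - 2 n)`: two row events:
`4 * 2^(n^2 - 2 n)` (the rows `i' `, `l'` with larger index are determined by the others and two signs;
if `i' = l'` use instead that then `i ≠ l`, and rows `i'` and the larger of `i, l` are determined).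
A row event and a column event: with the two signs fixed, row `i'` is determined by row `i`, and in
every row other than `i'` the entry `k'` is determined by the entry `k`: `4 * 2^(n^2 - n - (n - 1))`.
`bonferroni` over the `N` events; there are at most `N^2 ≤ n^4` ordered pairs. -/
theorem lower (n : ℕ) (hn : 2 ≤ n) :
    2 * (n * (n - 1)) * 2 ^ n * 2 ^ (n ^ 2) ≤
      4 ^ n * (univ.filter (fun B : Fin n → Fin n → Bool =>
        (Matrix.of (fun i j => if B i j then (1 : ℤ) else -1)).det = 0)).card +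
      8 * n ^ 4 * 2 ^ (n ^ 2) := by
  classical
  set P := {p : Fin n × Fin n // p.1 < p.2} with hP
  set A : (P × Bool) ⊕ (P × Bool) → Finset (Fin n → Fin n → Bool) := fun e =>
    match e with
    | Sum.inl e => Rows_R n e.1.1.1 e.1.1.2 e.2
    | Sum.inr e => Rows_C n e.1.1.1 e.1.1.2 e.2 with hA
  have hcardι : Fintype.card ((P × Bool) ⊕ (P × Bool)) = 2 * (n * (n - 1)) := by
    rw [Fintype.card_sum, Fintype.card_prod, Fintype.card_bool, Rows_card_pairs]
    ring
  have hev : ∀ e, 2 ^ (n ^ 2) ≤ (A e).card * 2 ^ n := by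
    rintro (e | e)
    · exact Rows_le_R n _ _ _ (ne_of_lt e.1.2)
    · exact Rows_le_C n _ _ _ (ne_of_lt e.1.2)
  have hpair : ∀ e e', e ≠ e' → (A e ∩ A e').card * 4 ^ n ≤ 2 * 2 ^ (n ^ 2) := by
    rintro (e | e) (e' | e') hne
    · refine (Rows_RR n e.1 e'.1 e.2 e'.2 fun h => hne ?_).trans (by omega)
      exact congrArg Sum.inl h
    · exact Rows_RC n _ _ _ _ (ne_of_lt e.1.2) (ne_of_lt e'.1.2) _ _
    · have h1 : A (Sum.inr e) ∩ A (Sum.inl e') = A (Sum.inl e') ∩ A (Sum.inr e) := inter_comm _ _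
      rw [h1]
      exact Rows_RC n _ _ _ _ (ne_of_lt e'.1.2) (ne_of_lt e.1.2) _ _
    · refine (Rows_CC n e.1 e'.1 e.2 e'.2 fun h => hne ?_).trans (by omega)
      exact congrArg Sum.inr h
  have hun : univ.biUnion A ⊆ univ.filter (fun B : Fin n → Fin n → Bool =>
      (Matrix.of (fun i j => if B i j then (1 : ℤ) else -1)).det = 0) := by
    intro B hB
    obtain ⟨e, -, he⟩ := mem_biUnion.1 hB
    refine mem_filter.2 ⟨mem_univ _, ?_⟩
    rcases e with ⟨⟨⟨i, i'⟩, hlt⟩, s⟩ | ⟨⟨⟨i, i'⟩, hlt⟩, s⟩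
    · refine det_eq_zero_of_rowEq n B ⟨i, i', ne_of_lt hlt, ?_⟩
      have h1 := Rows_mem_R.1 he
      cases s
      · exact Or.inl h1
      · exact Or.inr h1
    · refine det_eq_zero_of_colEq n B ⟨i, i', ne_of_lt hlt, ?_⟩
      have h1 := Rows_mem_C.1 he
      cases s
      · exact Or.inl h1
      · exact Or.inr h1
  have hb := bonferroni A
  have h1 : 2 * (n * (n - 1)) * 2 ^ (n ^ 2) ≤ (∑ e, (A e).card) * 2 ^ n := by
    rw [Finset.sum_mul]
    calc 2 * (n * (n - 1)) * 2 ^ (n ^ 2)
        = ∑ _e : (P × Bool) ⊕ (P × Bool), 2 ^ (n ^ 2) := by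
          rw [sum_const, card_univ, hcardι, smul_eq_mul]
      _ ≤ _ := sum_le_sum fun e _ => hev e
  have h2 : (∑ p ∈ univ.filter (fun p : ((P × Bool) ⊕ (P × Bool)) × ((P × Bool) ⊕ (P × Bool)) =>
      p.1 ≠ p.2), (A p.1 ∩ A p.2).card) * 4 ^ n ≤ 8 * n ^ 4 * 2 ^ (n ^ 2) := by
    rw [Finset.sum_mul]
    calc ∑ p ∈ univ.filter (fun p : ((P × Bool) ⊕ (P × Bool)) × ((P × Bool) ⊕ (P × Bool)) =>
          p.1 ≠ p.2), (A p.1 ∩ A p.2).card * 4 ^ n
        ≤ ∑ _p ∈ univ.filter (fun p : ((P × Bool) ⊕ (P × Bool)) × ((P × Bool) ⊕ (P × Bool)) =>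
          p.1 ≠ p.2), 2 * 2 ^ (n ^ 2) :=
          sum_le_sum fun p hp => hpair _ _ (mem_filter.1 hp).2
      _ = (univ.filter (fun p : ((P × Bool) ⊕ (P × Bool)) × ((P × Bool) ⊕ (P × Bool)) =>
          p.1 ≠ p.2)).card * (2 * 2 ^ (n ^ 2)) := by rw [sum_const, smul_eq_mul]
      _ ≤ (4 * n ^ 4) * (2 * 2 ^ (n ^ 2)) := by
          refine Nat.mul_le_mul_right _ ?_
          refine (card_filter_le _ _).trans ?_
          rw [card_univ, Fintype.card_prod, hcardι]
          have h3 : 2 * (n * (n - 1)) ≤ 2 * n ^ 2 := by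
            rw [pow_two]
            exact Nat.mul_le_mul_left _ (Nat.mul_le_mul_left _ (Nat.sub_le _ _))
          calc 2 * (n * (n - 1)) * (2 * (n * (n - 1))) ≤ 2 * n ^ 2 * (2 * n ^ 2) :=
                Nat.mul_le_mul h3 h3
            _ = 4 * n ^ 4 := by ring
      _ = 8 * n ^ 4 * 2 ^ (n ^ 2) := by ring
  have h4 : (4 : ℕ) ^ n = 2 ^ n * 2 ^ n := by
    rw [← Nat.mul_pow]
  calc 2 * (n * (n - 1)) * 2 ^ n * 2 ^ (n ^ 2)
      = 2 * (n * (n - 1)) * 2 ^ (n ^ 2) * 2 ^ n := by ring
    _ ≤ (∑ e, (A e).card) * 2 ^ n * 2 ^ n := Nat.mul_le_mul_right _ h1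
    _ = (∑ e, (A e).card) * 4 ^ n := by rw [h4, mul_assoc]
    _ ≤ ((univ.biUnion A).card + ∑ p ∈ univ.filter (fun p :
        ((P × Bool) ⊕ (P × Bool)) × ((P × Bool) ⊕ (P × Bool)) => p.1 ≠ p.2),
          (A p.1 ∩ A p.2).card) * 4 ^ n := Nat.mul_le_mul_right _ hb
    _ = 4 ^ n * (univ.biUnion A).card + (∑ p ∈ univ.filter (fun p :
        ((P × Bool) ⊕ (P × Bool)) × ((P × Bool) ⊕ (P × Bool)) => p.1 ≠ p.2),
          (A p.1 ∩ A p.2).card) * 4 ^ n := by rw [add_mul, mul_comm]
    _ ≤ _ := Nat.add_le_add (Nat.mul_le_mul_left _ (card_le_card hun)) h2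

end Pool.Agent.W_MP_a45265_h99
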