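import Mathlib
import Pool.Agent.W_MP_a45265_h99.Basic

set_option autoImplicit false

/-!
# Anticoncentration of signed sums: the elementary estimates
-/

namespace Pool.Agent.W_MP_a45265_h99

open Finset

variable {I : Type} [Fintype I] [DecidableEq I]

set_option maxRecDepth 100000 in
theorem fin3_check : ∀ w : Fin 3 → ZMod 3, (∀ i, w i ≠ 0) → ∀ c, cnt w c ≤ 3 ∧ 2 ≤ cnt w c := by
  unfold cnt dot
  decide

set_option maxRecDepth 100000 in
theorem fin2_check : ∀ w : Fin 2 → ZMod 3, (∀ i, w i ≠ 0) → 1 ≤ cnt w 0 := by
  unfold cnt dot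
  decide

/-- Invariance under a renaming of the coordinates. -/
theorem cnt_equiv {G I' : Type} [Fintype I'] [DecidableEq I'] [AddCommGroup G] [DecidableEq G]
    (f : I ≃ I') (g : I' → G) (c : G) : cnt (fun i => g (f i)) c = cnt g c := by
  unfold cnt
  have hd : ∀ e : I → Bool, dot (fun i => g (f i)) e = dot g (fun i => e (f.symm i)) := by
    intro e
    unfold dot
    rw [← Equiv.sum_comp f]
    simp only [Equiv.symm_apply_apply]
  refine card_bij' (fun e _ => fun i => e (f.symm i)) (fun e _ => fun i => e (f i)) ?_ ?_ ?_ ?_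
  · intro e he
    simp only [mem_filter, mem_univ, true_and] at he ⊢
    rw [← hd, he]
  · intro e he
    simp only [mem_filter, mem_univ, true_and] at he ⊢
    rw [hd]
    simp only [Equiv.apply_symm_apply]
    exact he
  · intro e _
    funext i
    simp only [Equiv.symm_apply_apply]
  · intro e _
    funext i
    simp only [Equiv.apply_symm_apply]

omit [Fintype I] in
theorem check3 (w : I → ZMod 3) (J : Finset I) (hJ : J.card = 3) (hw : ∀ i ∈ J, w i ≠ 0)
    (c : ZMod 3) : cnt (fun i : {i // i ∈ J} => w i) c ≤ 3 ∧
      2 ≤ cnt (fun i : {i // i ∈ J} => w i) c := by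
  have f : {i // i ∈ J} ≃ Fin 3 := Fintype.equivFinOfCardEq (by rw [Fintype.card_coe, hJ])
  have h := fin3_check (fun k => w (f.symm k)) (fun k => hw _ (f.symm k).2) c
  rw [← cnt_equiv f] at h
  simpa only [Equiv.symm_apply_apply] using h

theorem card_compl_pow (J : Finset I) :
    2 ^ Fintype.card I = 2 ^ J.card * Fintype.card ({i // i ∉ J} → Bool) := by
  rw [Fintype.card_fun, Fintype.card_bool, ← pow_add]
  congr 1
  have h := Fintype.card_subtype_compl (fun i : I => i ∈ J)
  rw [Fintype.card_coe] at h
  have h1 : J.card ≤ Fintype.card I := card_le_univ J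
  omega

omit [DecidableEq I] in
theorem exists_J {w : I → ZMod 3} {m : ℕ} (hw : m ≤ (univ.filter (fun i => w i ≠ 0)).card) :
    ∃ J : Finset I, J.card = m ∧ ∀ i ∈ J, w i ≠ 0 := by
  obtain ⟨J, h1, h2⟩ := exists_subset_card_eq hw
  exact ⟨J, h2, fun i hi => (mem_filter.1 (h1 hi)).2⟩

/-- A signed sum over `F_3` with at least three nonzero coefficients takes every value on at most
`3/8` of the patterns.

Proof. Choose a set `J` of three indices with nonzero coefficients and use `cnt_split`: it is enough
that for `w0, w1, w2 ≠ 0` in `ZMod 3` and every `c'` at most `3` of the `8` patterns have signed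
sum `c'` (a finite check, `decide` after transport to `Fin 3`). The number of `u` is
`2 ^ (card I - 3)`. -/
theorem cnt_three_le (w : I → ZMod 3) (hw : 3 ≤ (univ.filter (fun i => w i ≠ 0)).card)
    (c : ZMod 3) : 8 * cnt w c ≤ 3 * 2 ^ Fintype.card I := by
  obtain ⟨J, hJ, hJw⟩ := exists_J hw
  rw [cnt_split w J, card_compl_pow J, hJ]
  have h1 : ∑ u : ({i // i ∉ J} → Bool), cnt (fun i : {i // i ∈ J} => w i)
      (c - dot (fun i : {i // i ∉ J} => w i) u) ≤ ∑ _u : ({i // i ∉ J} → Bool), 3 :=
    sum_le_sum fun u _ => (check3 w J hJ hJw _).1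
  rw [sum_const, card_univ, smul_eq_mul] at h1
  omega

/-- A signed sum over `F_3` with at least two nonzero coefficients vanishes on at least `1/4` of the
patterns.

Proof. If exactly two coefficients `w a, w b` are nonzero, the sum is `± w a ± w b`, and it vanishes on
exactly half of the patterns. If at least three are nonzero, split off three of them: for every
`c'` at least `2` of the `8` patterns have signed sum `c'` (finite check). -/
theorem cnt_two_ge (w : I → ZMod 3) (hw : 2 ≤ (univ.filter (fun i => w i ≠ 0)).card) :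
    2 ^ Fintype.card I ≤ 4 * cnt w 0 := by
  rcases hw.eq_or_lt with h2 | h3
  · obtain ⟨J, hJ, hJw⟩ := exists_J hw
    have hJ' : J = univ.filter (fun i => w i ≠ 0) := by
      refine eq_of_subset_of_card_le (fun i hi => mem_filter.2 ⟨mem_univ _, hJw i hi⟩) ?_
      rw [hJ, h2]
    have h0 : ∀ u : ({i // i ∉ J} → Bool), dot (fun i : {i // i ∉ J} => w i) u = 0 := by
      intro u
      unfold dot
      refine sum_eq_zero fun i _ => ?_
      have hi : w i = 0 := by
        by_contra hne
        exact i.2 (hJ'.symm.subset (mem_filter.2 ⟨mem_univ _, hne⟩))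
      show sg (u i) • w i = 0
      rw [hi, smul_zero]
    have h1 : 1 ≤ cnt (fun i : {i // i ∈ J} => w i) 0 := by
      have f : {i // i ∈ J} ≃ Fin 2 := Fintype.equivFinOfCardEq (by rw [Fintype.card_coe, hJ])
      have h := fin2_check (fun k => w (f.symm k)) (fun k => hJw _ (f.symm k).2)
      rw [← cnt_equiv f] at h
      simpa only [Equiv.symm_apply_apply] using h
    rw [cnt_split w J, card_compl_pow J, hJ]
    have h4 : ∑ _u : ({i // i ∉ J} → Bool), 1 ≤ ∑ u : ({i // i ∉ J} → Bool),
        cnt (fun i : {i // i ∈ J} => w i) (0 - dot (fun i : {i // i ∉ J} => w i) u) := by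
      refine sum_le_sum fun u _ => ?_
      rw [h0, sub_zero]
      exact h1
    rw [sum_const, card_univ, smul_eq_mul, mul_one] at h4
    omega
  · obtain ⟨J, hJ, hJw⟩ := exists_J (w := w) (m := 3) h3
    rw [cnt_split w J, card_compl_pow J, hJ]
    have h1 : ∑ _u : ({i // i ∉ J} → Bool), 2 ≤ ∑ u : ({i // i ∉ J} → Bool),
        cnt (fun i : {i // i ∈ J} => w i) (0 - dot (fun i : {i // i ∉ J} => w i) u) :=
      sum_le_sum fun u _ => (check3 w J hJ hJw _).2
    rw [sum_const, card_univ, smul_eq_mul] at h1
    omega

/-- If `g i ≠ 0` and there is no `2`-torsion, then flipping the sign of the coordinate `i` changes the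
signed sum by `2 g i ≠ 0`; so every value is taken on at most half of the patterns. -/
theorem cnt_half_le {G : Type} [AddCommGroup G] [DecidableEq G]
    (hG : ∀ x : G, (2 : ℕ) • x = 0 → x = 0) (g : I → G) (i : I) (hi : g i ≠ 0) (c : G) :
    2 * cnt g c ≤ 2 ^ Fintype.card I := by
  have key : ∀ e : I → Bool, dot g (Function.update e i (!e i)) =
      dot g e - (2 : ℕ) • (sg (e i) • g i) := by
    intro e
    unfold dot
    rw [← add_sum_erase univ _ (mem_univ i), ← add_sum_erase univ (fun j => sg (e j) • g j)
      (mem_univ i)]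
    have h1 : ∑ j ∈ univ.erase i, sg (Function.update e i (!e i) j) • g j =
        ∑ j ∈ univ.erase i, sg (e j) • g j := by
      refine sum_congr rfl fun j hj => ?_
      rw [Function.update_of_ne (ne_of_mem_erase hj)]
    rw [h1, Function.update_self, sg_not, neg_smul, two_nsmul]
    abel
  have hne : ∀ e : I → Bool, (2 : ℕ) • (sg (e i) • g i) ≠ 0 := by
    intro e h
    have h1 := hG _ h
    have h2 : sg (e i) * sg (e i) = 1 := by
      cases e i <;> simp [sg]
    apply hi
    rw [← one_smul ℤ (g i), ← h2, mul_smul, h1, smul_zero]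
  have h1 : cnt g c ≤ (univ.filter (fun e : I → Bool => ¬ dot g e = c)).card := by
    unfold cnt
    refine card_le_card_of_injOn (fun e => Function.update e i (!e i)) ?_ ?_
    · intro e he
      simp only [coe_filter, mem_univ, true_and, Set.mem_ofPred_eq] at he ⊢
      rw [key, he]
      intro h
      exact hne e (sub_eq_self.1 h)
    · intro e _ e' _ h
      simp only at h
      funext j
      by_cases hj : j = i
      · subst hj
        have h3 := congrFun h j
        rw [Function.update_self, Function.update_self] at h3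
        simpa using h3
      · have h3 := congrFun h j
        rwa [Function.update_of_ne hj, Function.update_of_ne hj] at h3
  have h2 : cnt g c + (univ.filter (fun e : I → Bool => ¬ dot g e = c)).card =
      2 ^ Fintype.card I := by
    unfold cnt
    rw [card_filter_add_card_filter_not, card_univ, Fintype.card_fun, Fintype.card_bool]
  omega

end Pool.Agent.W_MP_a45265_h99
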