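import Mathlib
import Pool.Agent.W_MP_a45265_h99.Basic

set_option autoImplicit false

/-!
# Union bounds over kernel vectors
-/

namespace Pool.Agent.W_MP_a45265_h99

open Finset

/-- Union bound; for fixed `x` the rows are independent: the matrices all of whose rows are in
`Zs x` are `(cnt x 0)^n` many. -/
theorem union1 (n q : ℕ) (X : Finset (Fin n → ZMod q)) :
    (univ.filter (fun B : Fin n → Fin n → Bool => ∃ x ∈ X, ∀ i, dot x (B i) = 0)).card ≤
      ∑ x ∈ X, (cnt x 0) ^ n := by
  have h1 : (univ.filter (fun B : Fin n → Fin n → Bool => ∃ x ∈ X, ∀ i, dot x (B i) = 0)) ⊆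
      X.biUnion (fun x => Fintype.piFinset (fun _ : Fin n => Zs x)) := by
    intro B hB
    simp only [mem_filter, mem_univ, true_and] at hB
    obtain ⟨x, hx, h⟩ := hB
    rw [mem_biUnion]
    refine ⟨x, hx, ?_⟩
    rw [Fintype.mem_piFinset]
    intro i
    unfold Zs
    simp only [mem_filter, mem_univ, true_and]
    exact h i
  refine (card_le_card h1).trans (card_biUnion_le.trans (le_of_eq ?_))
  refine sum_congr rfl fun x _ => ?_
  rw [Fintype.card_piFinset, prod_const, card_univ, Fintype.card_fin, card_Zs]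

theorem union_even (n : ℕ) (hn : 1 ≤ n) (S : Finset (Fin n → Bool))
    (hS : ∀ e ∈ S, (fun k => !e k) ∈ S) : Even S.card := by
  have h1 : ∑ _e ∈ S, (1 : ZMod 2) = 0 := by
    refine sum_involution (fun e _ => fun i => !e i) ?_ ?_ ?_ ?_
    · intro e _
      decide
    · intro e _ _ h
      have h2 := congrFun h ⟨0, hn⟩
      simp at h2
    · intro e he
      exact hS e he
    · intro e _
      funext i
      simp
  rw [sum_const, nsmul_eq_mul, mul_one] at h1
  exact (ZMod.natCast_eq_zero_iff_even).1 h1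

/-- the pattern `e` or its negative -/
def usg {n : ℕ} (b : Bool) (e : Fin n → Bool) : Fin n → Bool := fun k => xor b (e k)

theorem usg_false {n : ℕ} (e : Fin n → Bool) : usg false e = e := by
  funext k
  simp [usg]

theorem usg_true {n : ℕ} (e : Fin n → Bool) : usg true e = fun k => !e k := by
  funext k
  simp [usg]

theorem usg_mem {n : ℕ} {S : Finset (Fin n → Bool)} (hS : ∀ e ∈ S, (fun k => !e k) ∈ S)
    (b : Bool) {e : Fin n → Bool} (he : e ∈ S) : usg b e ∈ S := by
  cases b
  · rw [usg_false]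
    exact he
  · rw [usg_true]
    exact hS e he

/-- The rows avoiding the `2 m` patterns `± B i`. -/
theorem union_avoid (n m : ℕ) (hn : 1 ≤ n) (S : Finset (Fin n → Bool))
    (hS : ∀ e ∈ S, (fun k => !e k) ∈ S) (B : Fin m → Fin n → Bool) (hB : ∀ i, B i ∈ S)
    (hB2 : ∀ i i' : Fin m, i ≠ i' → ¬ ((∀ k, B i k = B i' k) ∨ (∀ k, B i k = !B i' k))) :
    (S.filter (fun r => ∀ i : Fin m, ¬ ((∀ k, r k = B i k) ∨ (∀ k, r k = !B i k)))).card ≤
      S.card - 2 * m := by
  let f : Fin m × Bool → (Fin n → Bool) := fun p => usg p.2 (B p.1)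
  have hf : Function.Injective f := by
    rintro ⟨i, b⟩ ⟨i', b'⟩ h
    have h' : ∀ k, xor b (B i k) = xor b' (B i' k) := fun k => congrFun h k
    have hi : i = i' := by
      by_contra hne
      apply hB2 i i' hne
      cases b <;> cases b'
      · left
        intro k
        simpa using h' k
      · right
        intro k
        simpa using h' k
      · right
        intro k
        have := h' k
        simp only [Bool.true_xor, Bool.false_xor] at this
        rw [← this, Bool.not_not]
      · left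
        intro k
        simpa using h' k
    subst hi
    have h2 := h' ⟨0, hn⟩
    have h3 : b = b' := by
      revert h2
      generalize B i ⟨0, hn⟩ = c
      cases b <;> cases b' <;> cases c <;> decide
    rw [h3]
  have hT : (univ.image f).card = 2 * m := by
    rw [card_image_of_injective _ hf, card_univ, Fintype.card_prod, Fintype.card_fin,
      Fintype.card_bool, mul_comm]
  have hTS : univ.image f ⊆ S := by
    intro r hr
    rw [mem_image] at hr
    obtain ⟨⟨i, b⟩, -, rfl⟩ := hr
    exact usg_mem hS b (hB i)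
  rw [← hT, ← card_sdiff_of_subset hTS]
  refine card_le_card fun r hr => ?_
  rw [mem_filter] at hr
  rw [mem_sdiff]
  refine ⟨hr.1, fun h => ?_⟩
  rw [mem_image] at h
  obtain ⟨⟨i, b⟩, -, rfl⟩ := h
  apply hr.2 i
  cases b
  · left
    intro k
    show usg false (B i) k = B i k
    rw [usg_false]
  · right
    intro k
    show usg true (B i) k = !B i k
    rw [usg_true]

theorem union_step (n m : ℕ) (hn : 1 ≤ n) (S : Finset (Fin n → Bool))
    (hS : ∀ e ∈ S, (fun k => !e k) ∈ S) :
    (univ.filter (fun B : Fin (m + 1) → Fin n → Bool => (∀ i, B i ∈ S) ∧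
      ∀ i i' : Fin (m + 1), i ≠ i' → ¬ ((∀ k, B i k = B i' k) ∨ (∀ k, B i k = !B i' k)))).card ≤
    (univ.filter (fun B : Fin m → Fin n → Bool => (∀ i, B i ∈ S) ∧
      ∀ i i' : Fin m, i ≠ i' → ¬ ((∀ k, B i k = B i' k) ∨ (∀ k, B i k = !B i' k)))).card *
      (S.card - 2 * m) := by
  set A := univ.filter (fun B : Fin (m + 1) → Fin n → Bool => (∀ i, B i ∈ S) ∧
      ∀ i i' : Fin (m + 1), i ≠ i' → ¬ ((∀ k, B i k = B i' k) ∨ (∀ k, B i k = !B i' k)))
  set A' := univ.filter (fun B : Fin m → Fin n → Bool => (∀ i, B i ∈ S) ∧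
      ∀ i i' : Fin m, i ≠ i' → ¬ ((∀ k, B i k = B i' k) ∨ (∀ k, B i k = !B i' k))) with hA'
  have hmap : ∀ B ∈ A, (fun i : Fin m => B i.succ) ∈ A' := by
    intro B hB
    simp only [A, A', mem_filter, mem_univ, true_and] at hB ⊢
    refine ⟨fun i => hB.1 _, fun i i' hne => hB.2 _ _ ?_⟩
    exact fun h => hne (Fin.succ_injective _ h)
  rw [card_eq_sum_card_fiberwise (f := fun B : Fin (m + 1) → Fin n → Bool =>
    fun i : Fin m => B i.succ) (t := A') (fun B hB => mem_coe.2 (hmap B (mem_coe.1 hB)))]
  refine (sum_le_card_nsmul _ _ (S.card - 2 * m) fun B' hB' => ?_).trans (le_of_eq ?_)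
  · simp only [A', mem_filter, mem_univ, true_and] at hB'
    refine le_trans ?_ (union_avoid n m hn S hS B' hB'.1 hB'.2)
    refine card_le_card_of_injOn (fun B => B 0) ?_ ?_
    · intro B hB
      rw [mem_coe, mem_filter] at hB
      obtain ⟨hB1, hB2⟩ := hB
      simp only [A, mem_filter, mem_univ, true_and] at hB1
      rw [mem_coe, mem_filter]
      refine ⟨hB1.1 0, fun i => ?_⟩
      have h3 := hB1.2 0 i.succ (Fin.succ_ne_zero i).symm
      have h4 : B i.succ = B' i := congrFun hB2 i
      rw [h4] at h3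
      exact h3
    · intro B hB C hC h
      rw [mem_coe, mem_filter] at hB hC
      funext i
      refine Fin.cases h (fun j => ?_) i
      have h3 := congrFun (hB.2.trans hC.2.symm) j
      exact h3
  · rw [smul_eq_mul]

/-- The number of matrices with rows in a symmetric set of sign patterns (closed under `e ↦ !e`), no
two rows equal up to sign.

Proof. Choose the rows one after another (induction on the number `m` of rows chosen): given `m` rows,
pairwise different up to sign, the next row avoids the `2 m` patterns `± row`, all in `S`. So the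
number is `∏_{i<m} (|S| - 2 i) = 2^m (|S|/2).descFactorial m`; `|S|` is even. -/
theorem card_rows (n m : ℕ) (hn : 1 ≤ n) (S : Finset (Fin n → Bool))
    (hS : ∀ e ∈ S, (fun k => !e k) ∈ S) :
    (univ.filter (fun B : Fin m → Fin n → Bool => (∀ i, B i ∈ S) ∧
      ∀ i i' : Fin m, i ≠ i' → ¬ ((∀ k, B i k = B i' k) ∨ (∀ k, B i k = !B i' k)))).card ≤
      2 ^ m * (S.card / 2).descFactorial m := by
  induction m with
  | zero =>
    rw [pow_zero, Nat.descFactorial_zero, mul_one]
    refine (card_le_univ _).trans ?_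
    rw [Fintype.card_fun, Fintype.card_fin, pow_zero]
  | succ m ih =>
    refine (union_step n m hn S hS).trans ((Nat.mul_le_mul_right _ ih).trans (le_of_eq ?_))
    obtain ⟨t, ht⟩ := union_even n hn S hS
    have h1 : S.card / 2 = t := by omega
    have h2 : S.card - 2 * m = 2 * (t - m) := by omega
    rw [h1, h2, Nat.descFactorial_succ, pow_succ]
    ring

/-- Union bound over `x` modulo units.

Proof. Count the pairs `(B, x)` with `x ∈ X` and `B` of the set in question with kernel vector `x`.
For each `B` with a kernel vector `x ∈ X` all unit multiples `u x` are in `X` and in the kernel of `B`,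
and they are `φ(3^J) = 2 * 3^(J-1)` different vectors, since `x` has a unit coordinate. For each `x` the
number of `B` is at most `2^n (cnt x 0 / 2).descFactorial n` (`card_rows` for `S = Zs x`, symmetric
by `dot_not`). -/
theorem union2 (n J : ℕ) (hn : 1 ≤ n) (hJ : 1 ≤ J) (X : Finset (Fin n → ZMod (3 ^ J)))
    (hX1 : ∀ x ∈ X, ∃ k, IsUnit (x k))
    (hX2 : ∀ x ∈ X, ∀ u : (ZMod (3 ^ J))ˣ, (fun k => (u : ZMod (3 ^ J)) * x k) ∈ X) :
    (univ.filter (fun B : Fin n → Fin n → Bool =>
      ¬ RowEq B ∧ ∃ x ∈ X, ∀ i, dot x (B i) = 0)).card * (2 * 3 ^ (J - 1)) ≤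
      ∑ x ∈ X, 2 ^ n * (cnt x 0 / 2).descFactorial n := by
  set A := univ.filter (fun B : Fin n → Fin n → Bool =>
      ¬ RowEq B ∧ ∃ x ∈ X, ∀ i, dot x (B i) = 0)
  have hunit : Fintype.card (ZMod (3 ^ J))ˣ = 2 * 3 ^ (J - 1) := by
    rw [ZMod.card_units_eq_totient, Nat.totient_prime_pow Nat.prime_three (by omega), mul_comm]
  have h1 : ∀ B ∈ A, 2 * 3 ^ (J - 1) ≤ (X.filter (fun x => ∀ i, dot x (B i) = 0)).card := by
    intro B hB
    simp only [A, mem_filter, mem_univ, true_and] at hB
    obtain ⟨-, x, hx, hxB⟩ := hB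
    obtain ⟨k, hk⟩ := hX1 x hx
    rw [← hunit, ← card_univ]
    refine card_le_card_of_injOn (fun u : (ZMod (3 ^ J))ˣ => fun k => (u : ZMod (3 ^ J)) * x k)
      ?_ ?_
    · intro u _
      rw [mem_coe, mem_filter]
      refine ⟨hX2 x hx u, fun i => ?_⟩
      have h2 := dot_map (AddMonoidHom.mulLeft (u : ZMod (3 ^ J))) x (B i)
      rw [hxB i, map_zero] at h2
      exact h2
    · intro u _ v _ h
      have h2 : (u : ZMod (3 ^ J)) * x k = (v : ZMod (3 ^ J)) * x k := congrFun h k
      exact Units.ext (hk.mul_right_cancel h2)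
  have h2 : A.card * (2 * 3 ^ (J - 1)) ≤
      ∑ B ∈ A, (X.filter (fun x => ∀ i, dot x (B i) = 0)).card := by
    rw [← smul_eq_mul]
    exact card_nsmul_le_sum _ _ _ h1
  refine h2.trans ?_
  have h3 : ∑ B ∈ A, (X.filter (fun x => ∀ i, dot x (B i) = 0)).card =
      ∑ x ∈ X, (A.filter (fun B => ∀ i, dot x (B i) = 0)).card := by
    simp only [card_filter]
    exact sum_comm
  rw [h3]
  refine sum_le_sum fun x _ => ?_
  have h4 := card_rows n n hn (Zs x) (by
    intro e he
    unfold Zs at he ⊢
    simp only [mem_filter, mem_univ, true_and] at he ⊢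
    rw [dot_not, he, neg_zero])
  rw [card_Zs] at h4
  refine le_trans (card_le_card fun B hB => ?_) h4
  rw [mem_filter] at hB
  obtain ⟨hB1, hB2⟩ := hB
  simp only [A, mem_filter, mem_univ, true_and] at hB1 ⊢
  refine ⟨fun i => ?_, fun i i' hne h => hB1.1 ⟨i, i', hne, h⟩⟩
  unfold Zs
  simp only [mem_filter, mem_univ, true_and]
  exact hB2 i

end Pool.Agent.W_MP_a45265_h99
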