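import Mathlib
import Pool.Agent.W_MP_a45265_h99.Union
import Pool.Agent.W_MP_a45265_h99.Three

set_option autoImplicit false

/-!
# Kernel vectors of small support modulo `3`
-/

namespace Pool.Agent.W_MP_a45265_h99

open Finset

/-- The generating function of the supports. -/
theorem sum_supp (n : ℕ) :
    ∑ x : Fin n → ZMod 3, (1 / 40 : ℝ) ^ (univ.filter (fun k => x k ≠ 0)).card =
      (105 / 100 : ℝ) ^ n := by
  have h1 : ∀ x : Fin n → ZMod 3, (1 / 40 : ℝ) ^ (univ.filter (fun k => x k ≠ 0)).card =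
      ∏ k, (if x k ≠ 0 then (1 / 40 : ℝ) else 1) := by
    intro x
    rw [prod_ite, prod_const, prod_const_one, mul_one]
  simp only [h1]
  have h2 := Finset.prod_univ_sum (fun _ : Fin n => (univ : Finset (ZMod 3)))
    (fun _ (a : ZMod 3) => (if a ≠ 0 then (1 / 40 : ℝ) else 1))
  rw [Fintype.piFinset_univ] at h2
  rw [← h2, prod_const, card_univ, Fintype.card_fin]
  congr 1
  have h3 : (univ : Finset (ZMod 3)) = {0, 1, 2} := by decide
  rw [h3, sum_insert (by decide), sum_insert (by decide), sum_singleton,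
    if_neg (by simp), if_pos (by decide), if_pos (by decide)]
  norm_num

/-- Proof. For `w ≤ n / 20` one has `1 ≤ 40^(n/20 - w)` (real exponents; or work with 20th powers), so the
number is at most `40^(n/20) ∑_x 40^(-|supp x|) = 40^(n/20) (1 + 2/40)^n`, and
`40 ≤ (121/100)^20`. So it is at most `(121/100 * 105/100)^n = (1.2705)^n`. -/
theorem card_small_support (n : ℕ) :
    ((univ.filter (fun x : Fin n → ZMod 3 =>
      20 * (univ.filter (fun k => x k ≠ 0)).card < n)).card : ℝ) ≤ (12705 / 10000 : ℝ) ^ n := by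
  have h1 : ∀ x ∈ univ.filter (fun x : Fin n → ZMod 3 =>
      20 * (univ.filter (fun k => x k ≠ 0)).card < n),
      (1 : ℝ) ≤ (121 / 100 : ℝ) ^ n * (1 / 40 : ℝ) ^ (univ.filter (fun k => x k ≠ 0)).card := by
    intro x hx
    have hx' := (mem_filter.1 hx).2
    generalize (univ.filter (fun k => x k ≠ 0)).card = w at hx'
    have h2 : (40 : ℝ) ^ w ≤ (121 / 100 : ℝ) ^ n := by
      calc (40 : ℝ) ^ w ≤ ((121 / 100 : ℝ) ^ 20) ^ w := by
            apply pow_le_pow_left₀ (by norm_num)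
            norm_num
        _ = (121 / 100 : ℝ) ^ (20 * w) := by rw [pow_mul]
        _ ≤ (121 / 100 : ℝ) ^ n := pow_le_pow_right₀ (by norm_num) hx'.le
    rw [one_div, inv_pow, ← div_eq_mul_inv, le_div_iff₀ (by positivity), one_mul]
    exact h2
  calc ((univ.filter (fun x : Fin n → ZMod 3 =>
        20 * (univ.filter (fun k => x k ≠ 0)).card < n)).card : ℝ)
      = ∑ _x ∈ univ.filter (fun x : Fin n → ZMod 3 =>
          20 * (univ.filter (fun k => x k ≠ 0)).card < n), (1 : ℝ) := by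
        rw [sum_const, nsmul_eq_mul, mul_one]
    _ ≤ ∑ x ∈ univ.filter (fun x : Fin n → ZMod 3 =>
          20 * (univ.filter (fun k => x k ≠ 0)).card < n),
          (121 / 100 : ℝ) ^ n * (1 / 40 : ℝ) ^ (univ.filter (fun k => x k ≠ 0)).card :=
        sum_le_sum h1
    _ ≤ ∑ x : Fin n → ZMod 3,
          (121 / 100 : ℝ) ^ n * (1 / 40 : ℝ) ^ (univ.filter (fun k => x k ≠ 0)).card :=
        sum_le_sum_of_subset_of_nonneg (filter_subset _ _) fun x _ _ => by positivity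
    _ = (12705 / 10000 : ℝ) ^ n := by
        rw [← mul_sum, sum_supp, ← mul_pow]
        norm_num

/-- Proof. `union1` with `X` the set of these `x`, `cnt x 0 ≤ (3/8) 2^n` by `cnt_three_le`,
`1.2705 * 3 / 8 = 0.4764... ≤ 0.48`. -/
theorem stepA (n : ℕ) :
    ((univ.filter (fun B : Fin n → Fin n → Bool => ∃ x : Fin n → ZMod 3,
      3 ≤ (univ.filter (fun k => x k ≠ 0)).card ∧
      20 * (univ.filter (fun k => x k ≠ 0)).card < n ∧ ∀ i, dot x (B i) = 0)).card : ℝ) ≤
      (48 / 100 : ℝ) ^ n * 2 ^ (n ^ 2) := by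
  let X : Finset (Fin n → ZMod 3) := univ.filter (fun x =>
    3 ≤ (univ.filter (fun k => x k ≠ 0)).card ∧ 20 * (univ.filter (fun k => x k ≠ 0)).card < n)
  have h1 : (univ.filter (fun B : Fin n → Fin n → Bool => ∃ x : Fin n → ZMod 3,
      3 ≤ (univ.filter (fun k => x k ≠ 0)).card ∧
      20 * (univ.filter (fun k => x k ≠ 0)).card < n ∧ ∀ i, dot x (B i) = 0)).card ≤
      (univ.filter (fun B : Fin n → Fin n → Bool => ∃ x ∈ X, ∀ i, dot x (B i) = 0)).card := by
    refine card_le_card fun B hB => ?_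
    obtain ⟨x, hx1, hx2, hx3⟩ := (mem_filter.1 hB).2
    exact mem_filter.2 ⟨mem_univ _, x, mem_filter.2 ⟨mem_univ _, hx1, hx2⟩, hx3⟩
  have h2 := h1.trans (union1 n 3 X)
  have h3 : ∀ x ∈ X, ((cnt x 0 : ℕ) : ℝ) ^ n ≤ ((3 / 8 : ℝ) * 2 ^ n) ^ n := by
    intro x hx
    have h4 := cnt_three_le x (mem_filter.1 hx).2.1 0
    rw [Fintype.card_fin] at h4
    have h5 : (8 : ℝ) * (cnt x 0 : ℝ) ≤ 3 * 2 ^ n := by exact_mod_cast h4
    apply pow_le_pow_left₀ (by positivity)
    linarith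
  have h4 : (X.card : ℝ) ≤ (12705 / 10000 : ℝ) ^ n := by
    refine le_trans ?_ (card_small_support n)
    have h5 : X.card ≤ (univ.filter (fun x : Fin n → ZMod 3 =>
        20 * (univ.filter (fun k => x k ≠ 0)).card < n)).card :=
      card_le_card fun x hx => mem_filter.2 ⟨mem_univ _, (mem_filter.1 hx).2.2⟩
    exact_mod_cast h5
  calc ((univ.filter (fun B : Fin n → Fin n → Bool => ∃ x : Fin n → ZMod 3,
      3 ≤ (univ.filter (fun k => x k ≠ 0)).card ∧
      20 * (univ.filter (fun k => x k ≠ 0)).card < n ∧ ∀ i, dot x (B i) = 0)).card : ℝ)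
      ≤ ((∑ x ∈ X, (cnt x 0) ^ n : ℕ) : ℝ) := by exact_mod_cast h2
    _ = ∑ x ∈ X, ((cnt x 0 : ℕ) : ℝ) ^ n := by push_cast; rfl
    _ ≤ ∑ _x ∈ X, ((3 / 8 : ℝ) * 2 ^ n) ^ n := sum_le_sum h3
    _ = (X.card : ℝ) * ((3 / 8 : ℝ) * 2 ^ n) ^ n := by rw [sum_const, nsmul_eq_mul]
    _ ≤ (12705 / 10000 : ℝ) ^ n * ((3 / 8 : ℝ) * 2 ^ n) ^ n :=
        mul_le_mul_of_nonneg_right h4 (by positivity)
    _ = (12705 / 10000 * (3 / 8) : ℝ) ^ n * 2 ^ (n ^ 2) := by
        rw [mul_pow (3 / 8 : ℝ), ← mul_assoc, ← mul_pow, ← pow_mul, sq]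
    _ ≤ (48 / 100 : ℝ) ^ n * 2 ^ (n ^ 2) := by
        apply mul_le_mul_of_nonneg_right _ (by positivity)
        apply pow_le_pow_left₀ (by norm_num)
        norm_num

end Pool.Agent.W_MP_a45265_h99
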