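import Mathlib
import Pool.Agent.W_MP_a45265_h99.Basic

set_option autoImplicit false

/-!
# The Fourier identity and the duality of moments
-/

namespace Pool.Agent.W_MP_a45265_h99

open Finset

theorem abs_cc_le {q : ℕ} [NeZero q] (t : ZMod q) : |cc t| ≤ 1 := by
  unfold cc
  refine (Complex.abs_re_le_norm _).trans ?_
  rw [AddChar.norm_apply]

theorem cc_zero {q : ℕ} [NeZero q] : cc (0 : ZMod q) = 1 := by
  unfold cc
  rw [AddChar.map_zero_eq_one, Complex.one_re]

theorem fi_char_sum {I : Type} {q : ℕ} [NeZero q] (s : Finset I) (f : I → ZMod q) :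
    (ZMod.stdAddChar (∑ i ∈ s, f i) : ℂ) = ∏ i ∈ s, (ZMod.stdAddChar (f i) : ℂ) := by
  classical
  induction s using Finset.induction_on with
  | empty => rw [Finset.sum_empty, Finset.prod_empty, AddChar.map_zero_eq_one]
  | insert a s ha ih =>
    rw [Finset.sum_insert ha, Finset.prod_insert ha, AddChar.map_add_eq_mul, ih]

/-- Proof. `cc t = (χ(t) + χ(-t)) / 2` for `χ = ZMod.stdAddChar` (complex conjugation:
`χ(-t) = conj χ(t)`). Expand `∏_i (χ(x τ_i) + χ(-x τ_i)) = ∑_e χ(x * dot τ e)` over the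
sign patterns, and use `∑_x χ(x c) = q` if `c = 0` and `0` otherwise (`AddChar.sum_mulShift`,
`ZMod.isPrimitive_stdAddChar`). -/
theorem fourier_id {I : Type} [Fintype I] [DecidableEq I] (q : ℕ) [NeZero q] (τ : I → ZMod q) :
    ∑ x : ZMod q, ∏ i, cc (x * τ i) = (q : ℝ) * (cnt τ 0 : ℝ) / 2 ^ Fintype.card I := by
  have hcc : ∀ t : ZMod q, ((cc t : ℝ) : ℂ) =
      (∑ b : Bool, (ZMod.stdAddChar (sg b • t) : ℂ)) / 2 := by
    intro t
    rw [Fintype.sum_bool]
    have h1 : (ZMod.stdAddChar (sg false • t) : ℂ) = (starRingEnd ℂ) (ZMod.stdAddChar t) := by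
      rw [← AddChar.map_neg_eq_conj]
      congr 1
      simp [sg]
    have h2 : (ZMod.stdAddChar (sg true • t) : ℂ) = ZMod.stdAddChar t := by
      congr 1
      simp [sg]
    rw [h1, h2, Complex.add_conj]
    unfold cc
    push_cast
    ring
  have hchi : ∀ (x : ZMod q), ((∏ i, cc (x * τ i) : ℝ) : ℂ) =
      (∑ e : I → Bool, (ZMod.stdAddChar (x * dot τ e) : ℂ)) / 2 ^ Fintype.card I := by
    intro x
    rw [Complex.ofReal_prod]
    simp only [hcc]
    rw [Finset.prod_div_distrib, Finset.prod_const, Finset.card_univ]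
    congr 1
    rw [Finset.prod_univ_sum, Fintype.piFinset_univ]
    refine Finset.sum_congr rfl fun e _ => ?_
    rw [← fi_char_sum]
    congr 1
    unfold dot
    rw [Finset.mul_sum]
    refine Finset.sum_congr rfl fun i _ => ?_
    rw [mul_smul_comm]
  have hsum : ∀ e : I → Bool, ∑ x : ZMod q, (ZMod.stdAddChar (x * dot τ e) : ℂ) =
      if dot τ e = 0 then (q : ℂ) else 0 := by
    intro e
    rw [AddChar.sum_mulShift (dot τ e) (ZMod.isPrimitive_stdAddChar q), ZMod.card]
    split_ifs <;> simp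
  have hC : ((∑ x : ZMod q, ∏ i, cc (x * τ i) : ℝ) : ℂ) =
      (((q : ℝ) * (cnt τ 0 : ℝ) / 2 ^ Fintype.card I : ℝ) : ℂ) := by
    rw [Complex.ofReal_sum]
    simp only [hchi]
    rw [← Finset.sum_div, Finset.sum_comm]
    simp only [hsum]
    rw [← Finset.sum_filter, Finset.sum_const, nsmul_eq_mul]
    unfold cnt
    push_cast
    ring
  exact_mod_cast hC

/-- Proof. Expand the power: `DD^s = ∑_{t ∈ HS} ∏_i ∏_k cc (t_i x_k)` (`Finset.sum_pow'`,
`Finset.prod_univ_sum` with `Fintype.piFinset`); exchange the sums; the sum over `x` of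
`∏_k ∏_i cc (t_i x_k)` is `(∑_y ∏_i cc (y t_i))^n = (3^j cnt t 0 / 2^s)^n` by `fourier_id`. -/
theorem moment_id (n s j0 j : ℕ) :
    ∑ x : Fin n → ZMod (3 ^ j), DD j0 j x ^ s = ((3 : ℝ) ^ j) ^ n * mom j0 j s n := by
  have hHS : HS j0 j s = Fintype.piFinset
      (fun _ : Fin s => univ.filter (fun t : ZMod (3 ^ j) => (3 ^ j0 : ℕ) • t ≠ 0)) := by
    ext t
    simp only [HS, Finset.mem_filter, Finset.mem_univ, true_and, Fintype.mem_piFinset]
  have h1 : ∀ x : Fin n → ZMod (3 ^ j), DD j0 j x ^ s =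
      ∑ t ∈ HS j0 j s, ∏ k : Fin n, ∏ i : Fin s, cc (x k * t i) := by
    intro x
    have h2 : DD j0 j x ^ s = ∏ _i : Fin s, DD j0 j x := by
      rw [Finset.prod_const, Finset.card_univ, Fintype.card_fin]
    rw [h2]
    unfold DD
    rw [Finset.prod_univ_sum, ← hHS]
    refine Finset.sum_congr rfl fun t _ => ?_
    rw [Finset.prod_comm]
    refine Finset.prod_congr rfl fun k _ => Finset.prod_congr rfl fun i _ => ?_
    rw [mul_comm]
  simp only [h1]
  rw [Finset.sum_comm]
  unfold mom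
  rw [Finset.mul_sum]
  refine Finset.sum_congr rfl fun t _ => ?_
  have h3 : ∑ x : Fin n → ZMod (3 ^ j), ∏ k : Fin n, ∏ i : Fin s, cc (x k * t i) =
      ∏ _k : Fin n, ∑ y : ZMod (3 ^ j), ∏ i : Fin s, cc (y * t i) := by
    rw [Finset.prod_univ_sum, Fintype.piFinset_univ]
  rw [h3, Finset.prod_const, Finset.card_univ, Fintype.card_fin, fourier_id, Fintype.card_fin,
    ← mul_pow]
  congr 1
  push_cast
  ring

theorem mom_nonneg (j0 j s n : ℕ) : 0 ≤ mom j0 j s n := by
  unfold mom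
  refine Finset.sum_nonneg fun t _ => ?_
  positivity

end Pool.Agent.W_MP_a45265_h99
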