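import Mathlib
import Pool.Agent.W_MP_a45265_h99.Basic

set_option autoImplicit false

/-!
# Families of relations: heavy fibres force many relations
-/

namespace Pool.Agent.W_MP_a45265_h99

open Finset

/-- One step: two patterns agreeing outside a set `A` of `z + 1` coordinates.

Proof. Let `P` be the set of patterns with `dot τ e = c`, `|P| * 2^z ≥ 2^|J|`. The map restricting
a pattern to the complement of `A` has at most `2^(|J| - z - 1) < |P|` values, so two different
patterns `e, e'` of `P` agree outside `A`. Let `v i = 0` if `e i = e' i` and `v i = v3 e i` otherwise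
(so `(v i).valMinAbs = sg (e i)` there). Then `2 • ∑ v_i τ_i = dot τ e - dot τ e' = 0`, and there is
no `2`-torsion. -/
theorem exists_relation (z : ℕ) {J G : Type} [Fintype J] [DecidableEq J] [AddCommGroup G]
    [DecidableEq G] (hG : ∀ g : G, (2 : ℕ) • g = 0 → g = 0) (A : Finset J) (hA : A.card = z + 1)
    (τ : J → G) (c : G) (hc : 2 ^ Fintype.card J ≤ 2 ^ z * cnt τ c) :
    ∃ v : J → ZMod 3, v ≠ 0 ∧ (∀ i, i ∉ A → v i = 0) ∧ Kill τ v := by
  classical
  have hJ : z + 1 ≤ Fintype.card J := by
    rw [← hA]
    exact Finset.card_le_univ A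
  have hcardc : Fintype.card {i // i ∉ A} = Fintype.card J - (z + 1) := by
    rw [Fintype.card_subtype_compl, Fintype.card_coe, hA]
  have hlt : (univ : Finset ({i // i ∉ A} → Bool)).card <
      (univ.filter (fun e : J → Bool => dot τ e = c)).card := by
    rw [Finset.card_univ, Fintype.card_fun, Fintype.card_bool, hcardc]
    by_contra hle
    push Not at hle
    have h1 : cnt τ c ≤ 2 ^ (Fintype.card J - (z + 1)) := hle
    have h2 : 2 ^ z * cnt τ c ≤ 2 ^ z * 2 ^ (Fintype.card J - (z + 1)) :=
      Nat.mul_le_mul_left _ h1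
    rw [← pow_add] at h2
    have h3 : z + (Fintype.card J - (z + 1)) < Fintype.card J := by omega
    have h4 : 2 ^ (z + (Fintype.card J - (z + 1))) < 2 ^ Fintype.card J :=
      Nat.pow_lt_pow_right (by norm_num) h3
    omega
  obtain ⟨e, he, e', he', hne, heq⟩ := Finset.exists_ne_map_eq_of_card_lt_of_maps_to hlt
    (f := fun (e : J → Bool) => fun i : {i // i ∉ A} => e i) (fun _ _ => Finset.mem_univ _)
  have he1 : dot τ e = c := (Finset.mem_filter.1 he).2
  have he2 : dot τ e' = c := (Finset.mem_filter.1 he').2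
  refine ⟨fun i => if e i = e' i then 0 else v3 e i, ?_, ?_, ?_⟩
  · obtain ⟨i, hi⟩ := Function.ne_iff.1 hne
    intro h0
    have h1 := congrFun h0 i
    simp only [hi, if_false, Pi.zero_apply] at h1
    exact v3_ne_zero e i h1
  · intro i hi
    have h1 : e i = e' i := congrFun heq ⟨i, hi⟩
    simp only [h1, if_true]
  · apply hG
    have h1 : ∀ i, (2 : ℕ) • ((if e i = e' i then (0 : ZMod 3) else v3 e i).valMinAbs • τ i) =
        sg (e i) • τ i - sg (e' i) • τ i := by
      intro i
      by_cases h : e i = e' i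
      · rw [if_pos h, h, sub_self, ZMod.valMinAbs_zero, zero_smul, smul_zero]
      · rw [if_neg h, valMinAbs_v3]
        have h2 : e' i = !(e i) := by
          revert h
          cases e i <;> cases e' i <;> simp
        rw [h2, sg_not, neg_smul, sub_neg_eq_add, two_nsmul]
    show (2 : ℕ) • ∑ i, (if e i = e' i then (0 : ZMod 3) else v3 e i).valMinAbs • τ i = 0
    rw [Finset.smul_sum, Finset.sum_congr rfl (fun i _ => h1 i), Finset.sum_sub_distrib]
    have h3 : ∑ i, sg (e i) • τ i = c := he1
    have h4 : ∑ i, sg (e' i) • τ i = c := he2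
    rw [h3, h4, sub_self]

theorem lemR_dot {J G : Type} [Fintype J] [DecidableEq J] [AddCommGroup G] (τ : J → G) (p : J)
    (e : J → Bool) :
    dot τ e = sg (e p) • τ p + dot (fun i : {i // i ≠ p} => τ i) (fun i => e i) := by
  unfold dot
  rw [Fintype.sum_eq_add_sum_subtype_ne (fun i => sg (e i) • τ i) p]

theorem lemR_cnt {J G : Type} [Fintype J] [DecidableEq J] [AddCommGroup G]
    [DecidableEq G] (τ : J → G) (c : G) (p : J) :
    cnt τ c = ∑ b : Bool, cnt (fun i : {i // i ≠ p} => τ i) (c - sg b • τ p) := by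
  unfold cnt
  simp only [Finset.card_filter]
  rw [← Fintype.sum_prod_type' (f := fun (b : Bool) (e : {i // i ≠ p} → Bool) =>
    if dot (fun i : {i // i ≠ p} => τ i) e = c - sg b • τ p then 1 else 0)]
  apply Fintype.sum_equiv (Equiv.funSplitAt p Bool)
  intro e
  rw [lemR_dot τ p e]
  apply if_congr _ rfl rfl
  rw [eq_sub_iff_add_eq, add_comm]
  rfl

theorem lemR_card {J : Type} [Fintype J] [DecidableEq J] (p : J) :
    Fintype.card J = Fintype.card {i // i ≠ p} + 1 := by
  have h := Fintype.card_subtype_compl (fun i => i = p)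
  rw [Fintype.card_subtype_eq] at h
  have h1 : 0 < Fintype.card J := Fintype.card_pos_iff.2 ⟨p⟩
  have h2 : Fintype.card {i // i ≠ p} = Fintype.card J - 1 := h
  omega

/-- Removing one coordinate keeps the fibre heavy.

Proof. `cnt τ c = cnt τ' (c - τ p) + cnt τ' (c + τ p)` where `τ'` is the restriction to the other
coordinates; one of the two numbers is at least half of `cnt τ c`. -/
theorem cnt_remove (z : ℕ) {J G : Type} [Fintype J] [DecidableEq J] [AddCommGroup G]
    [DecidableEq G] (τ : J → G) (c : G) (p : J) (hc : 2 ^ Fintype.card J ≤ 2 ^ z * cnt τ c) :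
    ∃ c' : G, 2 ^ Fintype.card {i // i ≠ p} ≤ 2 ^ z * cnt (fun i : {i // i ≠ p} => τ i) c' := by
  rw [lemR_cnt τ c p, Fintype.sum_bool, lemR_card p, pow_succ] at hc
  by_contra hcon
  push Not at hcon
  have h1 := hcon (c - sg true • τ p)
  have h2 := hcon (c - sg false • τ p)
  rw [Nat.mul_add] at hc
  omega

/-- Extension by zero. -/
def lemR_ext {J : Type} [DecidableEq J] (p : J) :
    ({i // i ≠ p} → ZMod 3) →ₗ[ZMod 3] (J → ZMod 3) where
  toFun w := fun i => if h : i ≠ p then w ⟨i, h⟩ else 0
  map_add' w w' := by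
    funext i
    simp only [Pi.add_apply]
    split_ifs
    · rfl
    · rw [add_zero]
  map_smul' c w := by
    funext i
    simp only [Pi.smul_apply]
    split_ifs
    · rfl
    · exact (smul_zero c).symm

theorem lemR_ext_ne {J : Type} [DecidableEq J] (p : J) (w : {i // i ≠ p} → ZMod 3)
    (i : {i // i ≠ p}) : lemR_ext p w i = w i := by
  have : lemR_ext p w i = if h : (i : J) ≠ p then w ⟨i, h⟩ else 0 := rfl
  rw [this, dif_pos i.2]

theorem lemR_ext_p {J : Type} [DecidableEq J] (p : J) (w : {i // i ≠ p} → ZMod 3) :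
    lemR_ext p w p = 0 := by
  have : lemR_ext p w p = if h : p ≠ p then w ⟨p, h⟩ else 0 := rfl
  rw [this, dif_neg (by simp)]

theorem lemR_ext_inj {J : Type} [DecidableEq J] (p : J) :
    Function.Injective (lemR_ext p : ({i // i ≠ p} → ZMod 3) →ₗ[ZMod 3] (J → ZMod 3)) := by
  intro w w' h
  funext i
  rw [← lemR_ext_ne p w i, ← lemR_ext_ne p w' i, h]

theorem lemR_kill {J G : Type} [Fintype J] [DecidableEq J] [AddCommGroup G] (τ : J → G) (p : J)
    (w : {i // i ≠ p} → ZMod 3) (hw : Kill (fun i : {i // i ≠ p} => τ i) w) :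
    Kill τ (lemR_ext p w) := by
  unfold Kill at hw ⊢
  rw [Fintype.sum_eq_add_sum_subtype_ne _ p, lemR_ext_p, ZMod.valMinAbs_zero, zero_smul, zero_add,
    ← hw]
  refine Finset.sum_congr rfl fun i _ => ?_
  rw [lemR_ext_ne]

theorem lemR_rank {J : Type} [Fintype J] [DecidableEq J] (p : J) (v : J → ZMod 3) (hv : v p ≠ 0)
    (A' : Finset ({i // i ≠ p} → ZMod 3)) :
    Module.finrank (ZMod 3) (Submodule.span (ZMod 3) (A' : Set ({i // i ≠ p} → ZMod 3))) + 1 ≤
      Module.finrank (ZMod 3) (Submodule.span (ZMod 3)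
        ((insert v (A'.image (lemR_ext p)) : Finset (J → ZMod 3)) : Set (J → ZMod 3))) := by
  set S := Submodule.span (ZMod 3) (A' : Set ({i // i ≠ p} → ZMod 3)) with hS
  have h1 : Module.finrank (ZMod 3) (S.map (lemR_ext p)) = Module.finrank (ZMod 3) S :=
    (LinearEquiv.finrank_eq (Submodule.equivMapOfInjective _ (lemR_ext_inj p) S)).symm
  rw [← h1]
  apply Submodule.finrank_lt_finrank_of_lt
  rw [lt_iff_le_not_ge]
  constructor
  · rw [hS, Submodule.map_span]
    apply Submodule.span_mono
    rw [Finset.coe_insert, Finset.coe_image]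
    exact Set.subset_insert _ _
  · intro hle
    have h2 : v ∈ S.map (lemR_ext p) := by
      apply hle
      apply Submodule.subset_span
      rw [Finset.coe_insert]
      exact Set.mem_insert _ _
    obtain ⟨w, -, hw⟩ := h2
    apply hv
    rw [← hw, lemR_ext_p]

theorem lemR_aux (z n : ℕ) : ∀ (J : Type) [Fintype J] [DecidableEq J], Fintype.card J = n →
    ∃ Q : Finset (Finset (J → ZMod 3)), Q.card ≤ 3 ^ ((z + 1) * Fintype.card J) ∧
      ∀ (G : Type) [AddCommGroup G] [DecidableEq G], (∀ g : G, (2 : ℕ) • g = 0 → g = 0) →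
        ∀ (τ : J → G) (c : G), 2 ^ Fintype.card J ≤ 2 ^ z * cnt τ c →
          ∃ A ∈ Q, (∀ v ∈ A, Kill τ v) ∧
            Fintype.card J ≤ z + Module.finrank (ZMod 3)
              (Submodule.span (ZMod 3) (A : Set (J → ZMod 3))) := by
  induction n with
  | zero =>
    intro J _ _ hJ
    refine ⟨{∅}, ?_, ?_⟩
    · rw [Finset.card_singleton]
      exact Nat.one_le_pow _ _ (by norm_num)
    · intro G _ _ _ τ c _
      refine ⟨∅, Finset.mem_singleton_self _, by simp, ?_⟩
      rw [hJ]
      exact Nat.zero_le _
  | succ n ih =>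
    intro J _ _ hJ
    rcases Nat.lt_or_ge z (n + 1) with hz | hz
    · obtain ⟨A, -, hA⟩ := Finset.exists_subset_card_eq (s := (univ : Finset J)) (n := z + 1)
        (by rw [Finset.card_univ, hJ]; omega)
      have hp : ∀ v : J → ZMod 3, ∃ p : J, v ≠ 0 → v p ≠ 0 := by
        intro v
        by_cases hv : v = 0
        · have h0 : 0 < Fintype.card J := by omega
          obtain ⟨p⟩ := Fintype.card_pos_iff.1 h0
          exact ⟨p, fun h => absurd hv h⟩
        · obtain ⟨p, hp⟩ := Function.ne_iff.1 hv
          exact ⟨p, fun _ => hp⟩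
      choose p hp using hp
      have hcard : ∀ q : J, Fintype.card {i // i ≠ q} = n := by
        intro q
        have := lemR_card q
        omega
      have ih' := fun q : J => ih {i // i ≠ q} (hcard q)
      choose Qp hQp1 hQp2 using ih'
      set V : Finset (J → ZMod 3) := univ.filter (fun v => ∀ i, i ∉ A → v i = 0) with hV
      have hVcard : V.card ≤ 3 ^ (z + 1) := by
        have h1 : Fintype.card ({i // i ∈ A} → ZMod 3) = 3 ^ (z + 1) := by
          rw [Fintype.card_fun, ZMod.card, Fintype.card_coe, hA]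
        rw [← h1, ← Finset.card_univ]
        apply Finset.card_le_card_of_injOn (fun v => fun i : {i // i ∈ A} => v i)
        · intro v _
          exact Finset.mem_coe.2 (Finset.mem_univ _)
        · intro v hv v' hv' h
          have hv1 := (Finset.mem_filter.1 (Finset.mem_coe.1 hv)).2
          have hv2 := (Finset.mem_filter.1 (Finset.mem_coe.1 hv')).2
          funext i
          by_cases hi : i ∈ A
          · exact congrFun h ⟨i, hi⟩
          · rw [hv1 i hi, hv2 i hi]
      refine ⟨V.biUnion (fun v => (Qp (p v)).image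
        (fun A' => insert v (A'.image (lemR_ext (p v))))), ?_, ?_⟩
      · have h1 := Finset.card_biUnion_le_card_mul V (fun v => (Qp (p v)).image
          (fun A' => insert v (A'.image (lemR_ext (p v))))) (3 ^ ((z + 1) * n)) (by
            intro v _
            refine Finset.card_image_le.trans ?_
            have := hQp1 (p v)
            rwa [hcard] at this)
        refine h1.trans ?_
        refine (Nat.mul_le_mul_right _ hVcard).trans ?_
        rw [← pow_add, hJ]
        apply Nat.pow_le_pow_right (by norm_num)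
        rw [Nat.mul_add, Nat.mul_one, Nat.add_comm]
      · intro G _ _ hG τ c hc
        obtain ⟨v, hv0, hvA, hvK⟩ := exists_relation z hG A hA τ c hc
        obtain ⟨c', hc'⟩ := cnt_remove z τ c (p v) hc
        obtain ⟨A', hA'Q, hA'K, hA'r⟩ := hQp2 (p v) G hG (fun i : {i // i ≠ p v} => τ i) c' hc'
        refine ⟨insert v (A'.image (lemR_ext (p v))), ?_, ?_, ?_⟩
        · rw [Finset.mem_biUnion]
          refine ⟨v, ?_, Finset.mem_image_of_mem _ hA'Q⟩
          rw [hV, Finset.mem_filter]
          exact ⟨Finset.mem_univ _, hvA⟩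
        · intro w hw
          rw [Finset.mem_insert, Finset.mem_image] at hw
          rcases hw with rfl | ⟨w', hw', rfl⟩
          · exact hvK
          · exact lemR_kill τ (p v) w' (hA'K w' hw')
        · have h1 := lemR_rank (p v) v (hp v hv0) A'
          have h2 := lemR_card (p v)
          omega
    · refine ⟨{∅}, ?_, ?_⟩
      · rw [Finset.card_singleton]
        exact Nat.one_le_pow _ _ (by norm_num)
      · intro G _ _ _ τ c _
        refine ⟨∅, Finset.mem_singleton_self _, by simp, ?_⟩
        rw [hJ]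
        omega

/-- Proof by induction on `|J|`, for all `J`. If `|J| ≤ z` take `Q = {∅}`. Otherwise fix a set `A` of
`z + 1` elements. For every `v : J → ZMod 3` with `v ≠ 0`, supported in `A` (there are at most
`3^(z+1)`), choose `p = p(v)` with `v p ≠ 0` and let `Q_p` be the family for `{i // i ≠ p}`
(cardinality `|J| - 1`). `Q` is the set of all `{v} ∪ {extension by zero of w : w ∈ A'}`, `A' ∈ Q_p`.
Given `τ, c`, use `exists_relation` for `v`, `cnt_remove` and the induction hypothesis for the
restriction of `τ`. Extension by zero preserves `Kill` and the rank, and `v` is not in the span of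
the extended vectors because these vanish at `p`; so the rank grows by one. -/
theorem lemR (z : ℕ) (J : Type) [Fintype J] [DecidableEq J] :
    ∃ Q : Finset (Finset (J → ZMod 3)), Q.card ≤ 3 ^ ((z + 1) * Fintype.card J) ∧
      ∀ (G : Type) [AddCommGroup G] [DecidableEq G], (∀ g : G, (2 : ℕ) • g = 0 → g = 0) →
        ∀ (τ : J → G) (c : G), 2 ^ Fintype.card J ≤ 2 ^ z * cnt τ c →
          ∃ A ∈ Q, (∀ v ∈ A, Kill τ v) ∧
            Fintype.card J ≤ z + Module.finrank (ZMod 3)
              (Submodule.span (ZMod 3) (A : Set (J → ZMod 3))) :=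
  lemR_aux z _ J rfl

end Pool.Agent.W_MP_a45265_h99
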