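import Mathlib
import Pool.Agent.W_MP_a45265_h99.Basic

set_option autoImplicit false

/-!
# Pivots and the Odlyzko bound
-/

namespace Pool.Agent.W_MP_a45265_h99

open Finset

variable {I : Type} [Fintype I] [DecidableEq I]

/-- The coordinate functionals on a subspace. -/
def Odl_f (D : Submodule (ZMod 3) (I → ZMod 3)) (i : I) : Module.Dual (ZMod 3) D :=
  (LinearMap.proj i).comp D.subtype

omit [Fintype I] [DecidableEq I] in
theorem Odl_f_apply (D : Submodule (ZMod 3) (I → ZMod 3)) (i : I) (v : D) :
    Odl_f D i v = v.1 i := rfl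

theorem Odl_pivots (D : Submodule (ZMod 3) (I → ZMod 3)) (s : Set I)
    (hs : LinearIndepOn (ZMod 3) (Odl_f D) s) :
    ∃ J : Finset I, s ⊆ (J : Set I) ∧ J.card = Module.finrank (ZMod 3) D ∧
      ∀ v ∈ D, (∀ i ∈ J, v i = 0) → v = 0 := by
  classical
  obtain ⟨b, -, hsb, hspan, hli⟩ := exists_linearIndepOn_extension hs (Set.subset_univ s)
  have hvan : ∀ v ∈ D, (∀ i ∈ b, v i = 0) → v = 0 := by
    intro v hv h
    funext i
    have h1 : Odl_f D i ∈ Submodule.span (ZMod 3) (Odl_f D '' b) := hspan ⟨i, Set.mem_univ i, rfl⟩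
    have h2 : Submodule.span (ZMod 3) (Odl_f D '' b) ≤
        LinearMap.ker (Module.Dual.eval (ZMod 3) D ⟨v, hv⟩) := by
      rw [Submodule.span_le]
      rintro _ ⟨j, hj, rfl⟩
      exact h j hj
    exact h2 h1
  refine ⟨b.toFinset, by rw [Set.coe_toFinset]; exact hsb, ?_, ?_⟩
  · apply le_antisymm
    · have h3 : LinearIndependent (ZMod 3) (fun i : b => Odl_f D i) := hli
      have h4 := h3.fintype_card_le_finrank
      rw [Subspace.dual_finrank_eq] at h4
      rw [Set.toFinset_card]
      exact h4
    · have h5 : Function.Injective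
          ((LinearMap.funLeft (ZMod 3) (ZMod 3) (fun i : b => (i : I))).comp D.subtype) := by
        rw [← LinearMap.ker_eq_bot, LinearMap.ker_eq_bot']
        intro v hv
        refine Subtype.ext (hvan v.1 v.2 fun i hi => ?_)
        exact congrFun hv ⟨i, hi⟩
      have h6 := LinearMap.finrank_le_finrank_of_injective h5
      rw [Module.finrank_fintype_fun_eq_card] at h6
      rw [Set.toFinset_card]
      exact h6
  · intro v hv h
    refine hvan v hv fun i hi => h i ?_
    rw [Set.mem_toFinset]
    exact hi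

/-- Pivot coordinates: a subspace `D` of `F_3^I` is determined by `dim D` suitable coordinates,
one of which may be prescribed if it does not vanish on `D`.

Proof. The coordinate functionals restricted to `D` span the dual space of `D` (their common kernel
is `0`). The functional of `i0` is not zero; extend it to a basis of the dual of `D` consisting of
coordinate functionals. (Or: take `J` containing `i0`, of minimal cardinality (inclusion) such that `v ∈ D`
vanishing on `J` is `0`.) -/
theorem exists_pivots_of_mem (D : Submodule (ZMod 3) (I → ZMod 3)) (i0 : I)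
    (h : ∃ v ∈ D, v i0 ≠ 0) :
    ∃ J : Finset I, i0 ∈ J ∧ J.card = Module.finrank (ZMod 3) D ∧
      ∀ v ∈ D, (∀ i ∈ J, v i = 0) → v = 0 := by
  have h0 : Odl_f D i0 ≠ 0 := by
    obtain ⟨v, hv, hv0⟩ := h
    intro h1
    exact hv0 (LinearMap.congr_fun h1 ⟨v, hv⟩)
  have hs : LinearIndepOn (ZMod 3) (Odl_f D) {i0} := by
    rw [linearIndepOn_singleton_iff]
    exact h0
  obtain ⟨J, h1, h2, h3⟩ := Odl_pivots D {i0} hs
  exact ⟨J, Finset.mem_coe.1 (h1 rfl), h2, h3⟩

theorem exists_pivots (D : Submodule (ZMod 3) (I → ZMod 3)) :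
    ∃ J : Finset I, J.card = Module.finrank (ZMod 3) D ∧
      ∀ v ∈ D, (∀ i ∈ J, v i = 0) → v = 0 := by
  obtain ⟨J, -, h2, h3⟩ := Odl_pivots D ∅ (linearIndepOn_empty _ _)
  exact ⟨J, h2, h3⟩

/-- Odlyzko: a set of sign patterns of affine dimension `d` over `F_3` has at most `2 ^ d` elements.

Proof. Pivots for `dir S`; if `e, e' ∈ S` agree on the pivots then `v3 e - v3 e' ∈ dir S` vanishes on
the pivots, so `e = e'` (`v3_injective`). Hence `S` injects into `J → Bool`. -/
theorem card_le_two_pow_dd (S : Finset (I → Bool)) : S.card ≤ 2 ^ dd S := by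
  obtain ⟨J, hJ, hpiv⟩ := exists_pivots (dir S)
  have h1 : S.card ≤ Fintype.card ({i // i ∈ J} → Bool) := by
    rw [← Finset.card_univ]
    refine Finset.card_le_card_of_injOn (fun e => fun i : {i // i ∈ J} => e i)
      (fun e _ => Finset.mem_coe.2 (Finset.mem_univ _)) ?_
    intro e he e' he' hee
    have h2 : v3 e - v3 e' ∈ dir S :=
      vsub_mem_vectorSpan _ ⟨e, he, rfl⟩ ⟨e', he', rfl⟩
    have h3 := hpiv _ h2 fun i hi => by
      rw [Pi.sub_apply, sub_eq_zero, v3_eq_iff]
      exact congrFun hee ⟨i, hi⟩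
    exact v3_injective (sub_eq_zero.1 h3)
  rw [Fintype.card_fun, Fintype.card_bool, Fintype.card_coe, hJ] at h1
  exact h1

theorem dd_le_card (S : Finset (I → Bool)) : dd S ≤ Fintype.card I := by
  have h1 := Submodule.finrank_le (dir S)
  rw [Module.finrank_fintype_fun_eq_card] at h1
  exact h1

end Pool.Agent.W_MP_a45265_h99
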