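import Mathlib
import Pool.Agent.W_MP_a45265_h99.Basic

set_option autoImplicit false

/-!
# The rank function of a subspace of `F_3^I` on sets of coordinates
-/

namespace Pool.Agent.W_MP_a45265_h99

open Finset

variable {I : Type} [Fintype I] [DecidableEq I]

/-- Rank and nullity for the image of a subspace. -/
theorem finrank_inf_ker_add {V W : Type} [AddCommGroup V] [Module (ZMod 3) V]
    [FiniteDimensional (ZMod 3) V] [AddCommGroup W] [Module (ZMod 3) W]
    (P : Submodule (ZMod 3) V) (f : V →ₗ[ZMod 3] W) :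
    Module.finrank (ZMod 3) (P ⊓ LinearMap.ker f : Submodule (ZMod 3) V) +
      Module.finrank (ZMod 3) (P.map f) = Module.finrank (ZMod 3) P := by
  have h1 := LinearMap.finrank_range_add_finrank_ker (f.domRestrict P)
  have h2 : LinearMap.range (f.domRestrict P) = P.map f := by
    rw [LinearMap.range_domRestrict]
  have h3 : Module.finrank (ZMod 3) (LinearMap.ker (f.domRestrict P)) =
      Module.finrank (ZMod 3) (P ⊓ LinearMap.ker f : Submodule (ZMod 3) V) := by
    have h4 : LinearMap.ker (f.domRestrict P) = (LinearMap.ker f).comap P.subtype := by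
      ext x
      simp [LinearMap.mem_ker]
    rw [h4, ← Submodule.finrank_map_subtype_eq P ((LinearMap.ker f).comap P.subtype),
      Submodule.map_comap_subtype]
  rw [h2, h3] at h1
  omega

theorem rY_le_card (D : Submodule (ZMod 3) (I → ZMod 3)) (Y : Finset I) : rY D Y ≤ Y.card := by
  unfold rY
  refine (Submodule.finrank_le _).trans ?_
  rw [Module.finrank_fintype_fun_eq_card, Fintype.card_coe]

/-- Restriction in two steps. -/
theorem map_res_res (D : Submodule (ZMod 3) (I → ZMod 3)) {K Y : Finset I} (h : K ⊆ Y) :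
    D.map (LinearMap.funLeft (ZMod 3) (ZMod 3) (fun i : {i // i ∈ K} => (i : I))) =
      (D.map (LinearMap.funLeft (ZMod 3) (ZMod 3) (fun i : {i // i ∈ Y} => (i : I)))).map
        (LinearMap.funLeft (ZMod 3) (ZMod 3)
          (fun i : {i // i ∈ K} => (⟨(i : I), h i.2⟩ : {i // i ∈ Y}))) := by
  rw [← Submodule.map_comp]
  rfl

theorem rY_mono (D : Submodule (ZMod 3) (I → ZMod 3)) {K Y : Finset I} (h : K ⊆ Y) :
    rY D K ≤ rY D Y := by
  unfold rY
  rw [map_res_res D h]
  exact Submodule.finrank_map_le _ _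

theorem rY_insert_le (D : Submodule (ZMod 3) (I → ZMod 3)) (a : I) (Y : Finset I) :
    rY D (insert a Y) ≤ rY D Y + 1 := by
  unfold rY
  rw [map_res_res D (subset_insert a Y)]
  set P := D.map (LinearMap.funLeft (ZMod 3) (ZMod 3) (fun i : {i // i ∈ insert a Y} => (i : I)))
  set f := LinearMap.funLeft (ZMod 3) (ZMod 3)
    (fun i : {i // i ∈ Y} => (⟨(i : I), subset_insert a Y i.2⟩ : {i // i ∈ insert a Y})) with hf
  have h1 := finrank_inf_ker_add P f
  have h2 : Module.finrank (ZMod 3)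
      (P ⊓ LinearMap.ker f : Submodule (ZMod 3) ({i // i ∈ insert a Y} → ZMod 3)) ≤ 1 := by
    let ev : (P ⊓ LinearMap.ker f : Submodule (ZMod 3) ({i // i ∈ insert a Y} → ZMod 3)) →ₗ[ZMod 3]
        ZMod 3 := (LinearMap.proj (⟨a, mem_insert_self a Y⟩ : {i // i ∈ insert a Y})).comp
          (Submodule.subtype _)
    have hinj : Function.Injective ev := by
      rw [← LinearMap.ker_eq_bot, LinearMap.ker_eq_bot']
      rintro ⟨x, hx⟩ h3
      have h4 : x ⟨a, mem_insert_self a Y⟩ = 0 := h3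
      have h5 : f x = 0 := LinearMap.mem_ker.1 (Submodule.mem_inf.1 hx).2
      apply Subtype.ext
      funext i
      obtain ⟨i, hi⟩ := i
      rcases mem_insert.1 hi with rfl | h6
      · exact h4
      · exact congrFun h5 ⟨i, h6⟩
    have h3 := LinearMap.finrank_le_finrank_of_injective hinj
    rwa [Module.finrank_self] at h3
  omega

theorem rY_le_finrank (D : Submodule (ZMod 3) (I → ZMod 3)) (Y : Finset I) :
    rY D Y ≤ Module.finrank (ZMod 3) D := by
  unfold rY
  exact Submodule.finrank_map_le _ _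

/-- Rank and nullity for the restriction to `Y`. -/
theorem finrank_ker_add (D : Submodule (ZMod 3) (I → ZMod 3)) (Y : Finset I) :
    Module.finrank (ZMod 3) (D ⊓ LinearMap.ker (LinearMap.funLeft (ZMod 3) (ZMod 3)
      (fun i : {i // i ∈ Y} => (i : I))) : Submodule (ZMod 3) (I → ZMod 3)) + rY D Y =
      Module.finrank (ZMod 3) D := by
  unfold rY
  exact finrank_inf_ker_add D _

/-- Restriction to `Y` and then to a subset. -/
theorem rY_map (D : Submodule (ZMod 3) (I → ZMod 3)) (Y : Finset I) (K : Finset {i // i ∈ Y}) :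
    rY (D.map (LinearMap.funLeft (ZMod 3) (ZMod 3) (fun i : {i // i ∈ Y} => (i : I)))) K =
      rY D (K.map (Function.Embedding.subtype _)) := by
  unfold rY
  let e : {k // k ∈ K} ≃ {i // i ∈ K.map (Function.Embedding.subtype _)} :=
    K.equivMap (Function.Embedding.subtype _)
  have h1 : (D.map (LinearMap.funLeft (ZMod 3) (ZMod 3) (fun i : {i // i ∈ Y} => (i : I)))).map
      (LinearMap.funLeft (ZMod 3) (ZMod 3) (fun i : {k // k ∈ K} => (i : {i // i ∈ Y}))) =
      (D.map (LinearMap.funLeft (ZMod 3) (ZMod 3)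
        (fun i : {i // i ∈ K.map (Function.Embedding.subtype _)} => (i : I)))).map
        (LinearEquiv.funCongrLeft (ZMod 3) (ZMod 3) e : _ →ₗ[ZMod 3] _) := by
    rw [← Submodule.map_comp, ← Submodule.map_comp]
    rfl
  rw [h1]
  exact LinearEquiv.finrank_map_eq _ _

theorem dir_mono {S' S : Finset (I → Bool)} (h : S' ⊆ S) : dir S' ≤ dir S :=
  vectorSpan_mono _ (Set.image_mono (coe_subset.2 h))

theorem dd_mono {S' S : Finset (I → Bool)} (h : S' ⊆ S) : dd S' ≤ dd S :=
  Submodule.finrank_mono (dir_mono h)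

/-- A subspace contains the direction space if it contains the differences. -/
theorem dir_le {S : Finset (I → Bool)} {P : Submodule (ZMod 3) (I → ZMod 3)}
    (h : ∀ e ∈ S, ∀ e' ∈ S, v3 e - v3 e' ∈ P) : dir S ≤ P := by
  unfold dir
  rw [vectorSpan_def, Submodule.span_le]
  rintro _ ⟨_, ⟨e, he, rfl⟩, _, ⟨e', he', rfl⟩, rfl⟩
  exact h e he e' he'

theorem sub_mem_dir {S : Finset (I → Bool)} {e e' : I → Bool} (he : e ∈ S) (he' : e' ∈ S) :
    v3 e - v3 e' ∈ dir S :=
  vsub_mem_vectorSpan _ ⟨e, he, rfl⟩ ⟨e', he', rfl⟩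

theorem dir_cst {S : Finset (I → Bool)} {i : I} (h : Cst S i) : ∀ x ∈ dir S, x i = 0 := by
  obtain ⟨b, hb⟩ := h
  have h1 : dir S ≤ LinearMap.ker (LinearMap.proj i : (I → ZMod 3) →ₗ[ZMod 3] ZMod 3) := by
    apply dir_le
    intro e he e' he'
    rw [LinearMap.mem_ker]
    show v3 e i - v3 e' i = 0
    rw [sub_eq_zero, v3_eq_iff, hb e he, hb e' he']
  intro x hx
  exact LinearMap.mem_ker.1 (h1 hx)

theorem v3_not {e : I → Bool} {i j : I} (h : e i = !e j) : v3 e i = -v3 e j := by
  unfold v3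
  rw [h, sg_not, Int.cast_neg]

theorem dir_par {S : Finset (I → Bool)} {i j : I} (h : Par S i j) :
    ∀ x ∈ dir S, x j = 0 → x i = 0 := by
  rcases h with h | h
  · have h1 : dir S ≤ LinearMap.ker ((LinearMap.proj i : (I → ZMod 3) →ₗ[ZMod 3] ZMod 3) -
        (LinearMap.proj j : (I → ZMod 3) →ₗ[ZMod 3] ZMod 3)) := by
      apply dir_le
      intro e he e' he'
      rw [LinearMap.mem_ker]
      show (v3 e i - v3 e' i) - (v3 e j - v3 e' j) = 0
      have e1 : v3 e i = v3 e j := by unfold v3; rw [h e he]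
      have e2 : v3 e' i = v3 e' j := by unfold v3; rw [h e' he']
      rw [e1, e2, sub_self]
    intro x hx hj
    have h2 : x i - x j = 0 := LinearMap.mem_ker.1 (h1 hx)
    rw [sub_eq_zero] at h2
    rw [h2, hj]
  · have h1 : dir S ≤ LinearMap.ker ((LinearMap.proj i : (I → ZMod 3) →ₗ[ZMod 3] ZMod 3) +
        (LinearMap.proj j : (I → ZMod 3) →ₗ[ZMod 3] ZMod 3)) := by
      apply dir_le
      intro e he e' he'
      rw [LinearMap.mem_ker]
      show (v3 e i - v3 e' i) + (v3 e j - v3 e' j) = 0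
      rw [v3_not (h e he), v3_not (h e' he')]
      ring
    intro x hx hj
    have h2 : x i + x j = 0 := LinearMap.mem_ker.1 (h1 hx)
    rw [hj, add_zero] at h2
    exact h2

/-- A subset of `S` on which the coordinates in `Y` are constant has smaller dimension.

Proof. `dir S'` is contained in `dir S` and in the kernel of the restriction to `Y`; use
`finrank_ker_add`. -/
theorem dd_slice {S' S : Finset (I → Bool)} (h : S' ⊆ S) (Y : Finset I)
    (hY : ∀ e ∈ S', ∀ e' ∈ S', ∀ i ∈ Y, e i = e' i) : dd S' + rY (dir S) Y ≤ dd S := by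
  have h1 := finrank_ker_add (dir S) Y
  have h2 : dir S' ≤ dir S ⊓ LinearMap.ker (LinearMap.funLeft (ZMod 3) (ZMod 3)
      (fun i : {i // i ∈ Y} => (i : I))) := by
    apply dir_le
    intro e he e' he'
    refine Submodule.mem_inf.2 ⟨sub_mem_dir (h he) (h he'), ?_⟩
    rw [LinearMap.mem_ker]
    funext i
    show v3 e i - v3 e' i = 0
    rw [sub_eq_zero, v3_eq_iff]
    exact hY e he e' he' i i.2
  have h3 := Submodule.finrank_mono h2
  unfold dd
  omega

/-- Two patterns which differ at `a` and agree at `b`. -/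
theorem exists_diff (S : Finset (I → Bool)) (a b : I) (ha : ¬ Cst S a) (hp : ¬ Par S a b) :
    ∃ e ∈ S, ∃ e' ∈ S, e a ≠ e' a ∧ e b = e' b := by
  by_contra hcon
  push Not at hcon
  have h1 : ∃ e0 ∈ S, ∃ e1 ∈ S, e0 a ≠ e1 a := by
    by_contra h2
    push Not at h2
    rcases S.eq_empty_or_nonempty with h3 | ⟨e0, h3⟩
    · exact ha ⟨true, fun e he => absurd (h3 ▸ he) (notMem_empty e)⟩
    · exact ha ⟨e0 a, fun e he => h2 e he e0 h3⟩
  obtain ⟨e0, h0, e1, h1, h01⟩ := h1
  have h01' := hcon e0 h0 e1 h1 h01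
  apply hp
  have key : ∀ e ∈ S, (e0 a = e0 b → e a = e b) ∧ (e0 a ≠ e0 b → e a = !e b) := by
    intro e he
    have h3 := hcon e he e0 h0
    have h4 := hcon e he e1 h1
    revert h3 h4 h01 h01'
    generalize e a = x1
    generalize e b = x2
    generalize e0 a = x3
    generalize e0 b = x4
    generalize e1 a = x5
    generalize e1 b = x6
    cases x3 <;> cases x5 <;> cases x4 <;> cases x6 <;> cases x1 <;> cases x2 <;> simp
  by_cases h5 : e0 a = e0 b
  · exact Or.inl fun e he => (key e he).1 h5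
  · exact Or.inr fun e he => (key e he).2 h5

theorem Par.symm {S : Finset (I → Bool)} {i j : I} (h : Par S i j) : Par S j i := by
  rcases h with h | h
  · exact Or.inl fun e he => (h e he).symm
  · exact Or.inr fun e he => by rw [h e he, Bool.not_not]

/-- The rank of one nonconstant coordinate is `1`, and of two nonconstant nonparallel coordinates
is `2`.

Proof. If the restriction of `dir S` to `{a}` is zero, then all `e ∈ S` agree at `a`. If the
restriction to `{a, b}` is at most one-dimensional, there is a nonzero relation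
`α x_a + β x_b = 0` on `dir S`; if one of `α, β` is zero, a coordinate is constant. Otherwise
`x_a = ± x_b` on `dir S`, so `v3 e a ∓ v3 e b` is a constant `c` on `S`. If `c = 0` the coordinates are
parallel. If `c ≠ 0` then the values `v3 e a`, `∓ v3 e b` in `{1, -1}` with sum `c ≠ 0` are both
equal to `-c` (`1 + 1 = -1`, `-1 - 1 = 1`, `1 - 1 = 0`), so both coordinates are constant. -/
theorem rY_pair (S : Finset (I → Bool)) (a b : I) (hab : a ≠ b) (ha : ¬ Cst S a) (hb : ¬ Cst S b)
    (hp : ¬ Par S a b) : rY (dir S) {a, b} = 2 := by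
  obtain ⟨e1, h1, e2, h2, h12, h12'⟩ := exists_diff S a b ha hp
  obtain ⟨e3, h3, e4, h4, h34, h34'⟩ := exists_diff S b a hb fun h => hp h.symm
  have u1 : (v3 e1 - v3 e2) a ≠ 0 := by
    rw [Pi.sub_apply, sub_ne_zero]
    exact fun h => h12 ((v3_eq_iff _ _ _).1 h)
  have u2 : (v3 e1 - v3 e2) b = 0 := by
    rw [Pi.sub_apply, sub_eq_zero, v3_eq_iff]
    exact h12'
  have u3 : (v3 e3 - v3 e4) b ≠ 0 := by
    rw [Pi.sub_apply, sub_ne_zero]
    exact fun h => h34 ((v3_eq_iff _ _ _).1 h)
  have u4 : (v3 e3 - v3 e4) a = 0 := by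
    rw [Pi.sub_apply, sub_eq_zero, v3_eq_iff]
    exact h34'
  have htop : (dir S).map (LinearMap.funLeft (ZMod 3) (ZMod 3)
      (fun i : {i // i ∈ ({a, b} : Finset I)} => (i : I))) = ⊤ := by
    rw [eq_top_iff]
    intro w _
    have hma : a ∈ ({a, b} : Finset I) := by simp
    have hmb : b ∈ ({a, b} : Finset I) := by simp
    refine Submodule.mem_map.2 ⟨(w ⟨a, hma⟩ / (v3 e1 - v3 e2) a) • (v3 e1 - v3 e2) +
      (w ⟨b, hmb⟩ / (v3 e3 - v3 e4) b) • (v3 e3 - v3 e4),
      Submodule.add_mem _ (Submodule.smul_mem _ _ (sub_mem_dir h1 h2))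
        (Submodule.smul_mem _ _ (sub_mem_dir h3 h4)), ?_⟩
    funext i
    obtain ⟨i, hi⟩ := i
    show (w ⟨a, hma⟩ / (v3 e1 - v3 e2) a) * (v3 e1 - v3 e2) i +
      (w ⟨b, hmb⟩ / (v3 e3 - v3 e4) b) * (v3 e3 - v3 e4) i = w ⟨i, hi⟩
    rcases mem_insert.1 hi with rfl | h5
    · rw [u4, mul_zero, add_zero, div_mul_cancel₀ _ u1]
    · obtain rfl := mem_singleton.1 h5
      rw [u2, mul_zero, zero_add, div_mul_cancel₀ _ u3]
  unfold rY
  rw [htop, finrank_top, Module.finrank_fintype_fun_eq_card, Fintype.card_coe, card_pair hab]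

theorem rY_single (S : Finset (I → Bool)) (a : I) (ha : ¬ Cst S a) : rY (dir S) {a} = 1 := by
  have h1 : ∃ e0 ∈ S, ∃ e1 ∈ S, e0 a ≠ e1 a := by
    by_contra h2
    push Not at h2
    rcases S.eq_empty_or_nonempty with h3 | ⟨e0, h3⟩
    · exact ha ⟨true, fun e he => absurd (h3 ▸ he) (notMem_empty e)⟩
    · exact ha ⟨e0 a, fun e he => h2 e he e0 h3⟩
  obtain ⟨e1, h1, e2, h2, h12⟩ := h1
  have u1 : (v3 e1 - v3 e2) a ≠ 0 := by
    rw [Pi.sub_apply, sub_ne_zero]
    exact fun h => h12 ((v3_eq_iff _ _ _).1 h)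
  have htop : (dir S).map (LinearMap.funLeft (ZMod 3) (ZMod 3)
      (fun i : {i // i ∈ ({a} : Finset I)} => (i : I))) = ⊤ := by
    rw [eq_top_iff]
    intro w _
    have hma : a ∈ ({a} : Finset I) := by simp
    refine Submodule.mem_map.2 ⟨(w ⟨a, hma⟩ / (v3 e1 - v3 e2) a) • (v3 e1 - v3 e2),
      Submodule.smul_mem _ _ (sub_mem_dir h1 h2), ?_⟩
    funext i
    obtain ⟨i, hi⟩ := i
    obtain rfl := mem_singleton.1 hi
    show (w ⟨i, hma⟩ / (v3 e1 - v3 e2) i) * (v3 e1 - v3 e2) i = w ⟨i, hi⟩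
    rw [div_mul_cancel₀ _ u1]
  unfold rY
  rw [htop, finrank_top, Module.finrank_fintype_fun_eq_card, Fintype.card_coe, card_singleton]

/-- If every coordinate is constant or parallel to one in `E`, then `S` and its direction space are
determined by the coordinates in `E`. -/
theorem dd_eq_rY (S : Finset (I → Bool)) (E : Finset I)
    (h : ∀ i, Cst S i ∨ ∃ j ∈ E, Par S i j) : dd S = rY (dir S) E := by
  have h1 := finrank_ker_add (dir S) E
  have h2 : (dir S ⊓ LinearMap.ker (LinearMap.funLeft (ZMod 3) (ZMod 3)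
      (fun i : {i // i ∈ E} => (i : I))) : Submodule (ZMod 3) (I → ZMod 3)) = ⊥ := by
    rw [eq_bot_iff]
    intro x hx
    obtain ⟨hx1, hx2⟩ := Submodule.mem_inf.1 hx
    rw [LinearMap.mem_ker] at hx2
    rw [Submodule.mem_bot]
    funext i
    rcases h i with h3 | ⟨j, hj, h3⟩
    · exact dir_cst h3 x hx1
    · exact dir_par h3 x hx1 (congrFun hx2 ⟨j, hj⟩)
  rw [h2, finrank_bot, zero_add] at h1
  exact h1.symm

theorem pat_eq_card (S : Finset (I → Bool)) (E : Finset I)
    (h : ∀ i, Cst S i ∨ ∃ j ∈ E, Par S i j) : pat S E = S.card := by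
  unfold pat
  apply card_image_of_injOn
  intro e he e' he' h1
  have he1 : e ∈ S := he
  have he2 : e' ∈ S := he'
  funext i
  rcases h i with ⟨b, h3⟩ | ⟨j, hj, h3⟩
  · rw [h3 e he1, h3 e' he2]
  · have h4 : e j = e' j := congrFun h1 ⟨j, hj⟩
    rcases h3 with h3 | h3
    · rw [h3 e he1, h3 e' he2, h4]
    · rw [h3 e he1, h3 e' he2, h4]

end Pool.Agent.W_MP_a45265_h99
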