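import Mathlib
import Pool.Agent.W_MP_a45265_h99.Odl
import Pool.Agent.W_MP_a45265_h99.Rank

set_option autoImplicit false

/-!
# The extremal subset
-/

namespace Pool.Agent.W_MP_a45265_h99

open Finset

variable {I : Type} [Fintype I] [DecidableEq I]

/-- The most popular pattern. -/
theorem exists_popular (S : Finset (I → Bool)) (hS : S.Nonempty) (Y : Finset I) :
    ∃ T ⊆ S, T.Nonempty ∧ (∀ e ∈ T, ∀ e' ∈ T, ∀ i ∈ Y, e i = e' i) ∧
      (S.card : ℝ) ≤ (T.card : ℝ) * (pat S Y : ℝ) := by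
  classical
  set f : (I → Bool) → ({i // i ∈ Y} → Bool) := fun e i => e i with hf
  have hne : (S.image f).Nonempty := hS.image f
  have hpos : (0 : ℝ) < ((S.image f).card : ℝ) := by
    exact_mod_cast hne.card_pos
  have hSpos : (0 : ℝ) < (S.card : ℝ) := by
    exact_mod_cast hS.card_pos
  obtain ⟨p, _, hp⟩ := Finset.exists_le_card_fiber_of_nsmul_le_card_of_maps_to
    (s := S) (t := S.image f) (f := f) (b := (S.card : ℝ) / ((S.image f).card : ℝ))
    (fun a ha => mem_image_of_mem f ha) hne (by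
      rw [nsmul_eq_mul, mul_div_cancel₀ _ hpos.ne'])
  have h1 : (0 : ℝ) < ((S.filter fun x => f x = p).card : ℝ) :=
    lt_of_lt_of_le (div_pos hSpos hpos) hp
  refine ⟨S.filter fun x => f x = p, filter_subset _ _, ?_, ?_, ?_⟩
  · rw [← card_pos]
    exact_mod_cast h1
  · intro e he e' he' i hi
    have h2 := (mem_filter.1 he).2
    have h3 := (mem_filter.1 he').2
    exact congrFun (h2.trans h3.symm) ⟨i, hi⟩
  · rw [div_le_iff₀ hpos] at hp
    exact hp

/-- Proof. Let `S'` minimise `Ψ(S') = (103/104) dd S' - log_2 |S'|` over the nonempty subsets of `S`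
(`Finset.exists_min_image`, `Real.logb 2`).
(1) `Ψ(S') ≤ Ψ(S)` says `(dd S' - log_2 |S'|) + (dd S - dd S') / 104 ≤ dd S - log_2 |S| ≤ Y`. Both
terms on the left are nonnegative (`card_le_two_pow_dd`, `dd_mono`), which gives the second and the
third claim.
(2) For `Y'` let `p` be the most popular pattern of `S'` on `Y'` and `S'' ⊆ S'` the set of elements with
pattern `p`: `|S''| * pat S' Y' ≥ |S'|` and `dd S'' + rY (dir S') Y' ≤ dd S'` (`dd_slice`). Then
`Ψ(S') ≤ Ψ(S'')` gives `(103/104) rY (dir S') Y' ≤ log_2 (pat S' Y')`. -/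
theorem exists_reg (S : Finset (I → Bool)) (hS : S.Nonempty) (Y : ℕ)
    (hY : 2 ^ dd S ≤ 2 ^ Y * S.card) :
    ∃ S' ⊆ S, S'.Nonempty ∧ 2 ^ dd S' ≤ 2 ^ Y * S'.card ∧ dd S ≤ dd S' + 104 * Y ∧
      ∀ Y' : Finset I, 2 ^ (103 * rY (dir S') Y') ≤ (pat S' Y') ^ 104 := by
  classical
  -- a natural number statement from logarithms
  have key : ∀ a b c : ℕ, 0 < c → (a : ℝ) ≤ b + Real.logb 2 c → 2 ^ a ≤ 2 ^ b * c := by
    intro a b c hc h
    have hc' : (0 : ℝ) < (c : ℝ) := by exact_mod_cast hc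
    have h1 : (2 : ℝ) ^ (a : ℝ) ≤ (2 : ℝ) ^ ((b : ℝ) + Real.logb 2 c) :=
      Real.rpow_le_rpow_of_exponent_le (by norm_num) h
    rw [Real.rpow_add (by norm_num), Real.rpow_logb (by norm_num) (by norm_num) hc',
      Real.rpow_natCast, Real.rpow_natCast] at h1
    exact_mod_cast h1
  have key2 : ∀ a b c : ℕ, 0 < c → 2 ^ a ≤ 2 ^ b * c → (a : ℝ) ≤ b + Real.logb 2 c := by
    intro a b c hc h
    have hc' : (0 : ℝ) < (c : ℝ) := by exact_mod_cast hc
    have h1 : (2 : ℝ) ^ a ≤ (2 : ℝ) ^ b * (c : ℝ) := by exact_mod_cast h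
    have h2 : Real.logb 2 ((2 : ℝ) ^ a) ≤ Real.logb 2 ((2 : ℝ) ^ b * (c : ℝ)) :=
      Real.logb_le_logb_of_le (by norm_num) (by positivity) h1
    rw [Real.logb_mul (by positivity) hc'.ne', Real.logb_pow, Real.logb_pow,
      Real.logb_self_eq_one (by norm_num), mul_one, mul_one] at h2
    exact h2
  let Ψ : Finset (I → Bool) → ℝ := fun T => (103 / 104 : ℝ) * (dd T : ℝ) - Real.logb 2 (T.card : ℝ)
  obtain ⟨S', hS', hmin⟩ := Finset.exists_min_image (S.powerset.filter fun T => T.Nonempty) Ψ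
    ⟨S, mem_filter.2 ⟨mem_powerset_self S, hS⟩⟩
  rw [mem_filter, mem_powerset] at hS'
  obtain ⟨hsub, hne⟩ := hS'
  have hmin' : ∀ T ⊆ S, T.Nonempty → Ψ S' ≤ Ψ T := fun T hT hT' =>
    hmin T (mem_filter.2 ⟨mem_powerset.2 hT, hT'⟩)
  have h1 := hmin' S subset_rfl hS
  simp only [Ψ] at h1
  have h2 : (dd S : ℝ) ≤ Y + Real.logb 2 (S.card : ℝ) := key2 _ _ _ hS.card_pos hY
  have h3 : (dd S' : ℝ) ≤ (dd S : ℝ) := by exact_mod_cast dd_mono hsub
  have h4 : Real.logb 2 (S'.card : ℝ) ≤ (dd S' : ℝ) := by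
    have h5 : ((S'.card : ℕ) : ℝ) ≤ (2 : ℝ) ^ dd S' := by exact_mod_cast card_le_two_pow_dd S'
    have h6 : (0 : ℝ) < (S'.card : ℝ) := by exact_mod_cast hne.card_pos
    have h7 := Real.logb_le_logb_of_le (b := 2) (by norm_num) h6 h5
    rw [Real.logb_pow, Real.logb_self_eq_one (by norm_num), mul_one] at h7
    exact h7
  refine ⟨S', hsub, hne, key _ _ _ hne.card_pos (by linarith), ?_, fun Y' => ?_⟩
  · have h5 : (dd S : ℝ) ≤ (dd S' : ℝ) + 104 * (Y : ℝ) := by linarith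
    exact_mod_cast h5
  · obtain ⟨T, hT, hTne, hTc, hTcard⟩ := exists_popular S' hne Y'
    have h5 := hmin' T (hT.trans hsub) hTne
    simp only [Ψ] at h5
    have h6 : (dd T : ℝ) + (rY (dir S') Y' : ℝ) ≤ (dd S' : ℝ) := by
      exact_mod_cast dd_slice hT Y' hTc
    have hp1 : (0 : ℝ) < (S'.card : ℝ) := by exact_mod_cast hne.card_pos
    have hp2 : (0 : ℝ) < (T.card : ℝ) := by exact_mod_cast hTne.card_pos
    have hp3 : 0 < pat S' Y' := by
      unfold pat
      exact (hne.image _).card_pos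
    have hp3' : (0 : ℝ) < (pat S' Y' : ℝ) := by exact_mod_cast hp3
    have h7 : Real.logb 2 (S'.card : ℝ) ≤ Real.logb 2 (T.card : ℝ) + Real.logb 2 (pat S' Y' : ℝ) := by
      rw [← Real.logb_mul hp2.ne' hp3'.ne']
      exact Real.logb_le_logb_of_le (by norm_num) hp1 hTcard
    have h8 : ((103 * rY (dir S') Y' : ℕ) : ℝ) ≤ ((0 : ℕ) : ℝ) + Real.logb 2 (((pat S' Y') ^ 104 : ℕ) : ℝ) := by
      push_cast
      rw [Real.logb_pow]
      push_cast
      linarith
    have h9 := key _ _ _ (pow_pos hp3 104) h8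
    simpa using h9

end Pool.Agent.W_MP_a45265_h99
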