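import Mathlib
import Pool.Agent.W_MP_a45265_h99.Rank

set_option autoImplicit false

/-!
# Four disjoint co-independent sets
-/

namespace Pool.Agent.W_MP_a45265_h99

open Finset

variable {I : Type} [Fintype I] [DecidableEq I]

/-- The rank of the images in `F_3^I / D` of the unit vectors with index in `A` (dual rank formula).

Proof. Let `F_3^A` be the span of the unit vectors with index in `A` (dimension `|A|`). The span of the
images is the image of `F_3^A`, so its dimension is `|A| - dim (D ⊓ F_3^A)`; and
`D ⊓ F_3^A` is the kernel of the restriction of `D` to the coordinates outside `A`, of dimension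
`dim D - rY D Aᶜ` (`finrank_ker_add`). -/
theorem finrank_span_quot (D : Submodule (ZMod 3) (I → ZMod 3)) (A : Finset I) :
    Module.finrank (ZMod 3) (Submodule.span (ZMod 3)
      ((fun i => D.mkQ (Pi.single i (1 : ZMod 3))) '' (A : Set I))) +
      Module.finrank (ZMod 3) D = A.card + rY D Aᶜ := by
  classical
  have : Fact (Nat.Prime 3) := ⟨Nat.prime_three⟩
  -- the span of the unit vectors
  let E : Submodule (ZMod 3) (I → ZMod 3) :=
    Submodule.span (ZMod 3) ((fun i => (Pi.single i (1 : ZMod 3) : I → ZMod 3)) '' (A : Set I))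
  have hE1 : Module.finrank (ZMod 3) E = A.card := by
    have hli : LinearIndependent (ZMod 3)
        (fun i : {i // i ∈ A} => (Pi.single (i : I) (1 : ZMod 3) : I → ZMod 3)) := by
      have h := (Pi.basisFun (ZMod 3) I).linearIndependent
      have h2 := h.comp (fun i : {i // i ∈ A} => (i : I)) Subtype.val_injective
      convert h2 using 1
      funext i
      simp [Pi.basisFun_apply]
    have h3 := finrank_span_eq_card hli
    have h4 : Set.range (fun i : {i // i ∈ A} => (Pi.single (i : I) (1 : ZMod 3) : I → ZMod 3)) =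
        (fun i => (Pi.single i (1 : ZMod 3) : I → ZMod 3)) '' (A : Set I) := by
      ext x
      constructor
      · rintro ⟨⟨i, hi⟩, rfl⟩
        exact ⟨i, hi, rfl⟩
      · rintro ⟨i, hi, rfl⟩
        exact ⟨⟨i, hi⟩, rfl⟩
    rw [h4] at h3
    rw [h3]
    simp
  have hE2 : E = LinearMap.ker (LinearMap.funLeft (ZMod 3) (ZMod 3)
      (fun i : {i // i ∈ Aᶜ} => (i : I))) := by
    apply le_antisymm
    · rw [Submodule.span_le]
      rintro _ ⟨i, hi, rfl⟩
      rw [SetLike.mem_coe, LinearMap.mem_ker]
      funext j
      rw [LinearMap.funLeft_apply]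
      have hj : (j : I) ≠ i := by
        intro hji
        have := j.2
        rw [mem_compl, hji] at this
        exact this hi
      simp [hj]
    · intro x hx
      rw [LinearMap.mem_ker] at hx
      have h1 : x = ∑ i ∈ A, x i • (Pi.single i (1 : ZMod 3) : I → ZMod 3) := by
        funext j
        rw [Finset.sum_apply]
        by_cases hj : j ∈ A
        · rw [Finset.sum_eq_single j]
          · simp
          · intro b _ hb
            simp [hb.symm]
          · intro h
            exact absurd hj h
        · have h2 : x j = 0 := by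
            have h3 := congrFun hx ⟨j, mem_compl.2 hj⟩
            rwa [LinearMap.funLeft_apply] at h3
          rw [h2]
          symm
          apply Finset.sum_eq_zero
          intro i hi
          have hij : j ≠ i := fun h => hj (h ▸ hi)
          simp [hij]
      rw [h1]
      exact Submodule.sum_mem _ fun i hi => Submodule.smul_mem _ _
        (Submodule.subset_span ⟨i, hi, rfl⟩)
  have h5 : Submodule.span (ZMod 3)
      ((fun i => D.mkQ (Pi.single i (1 : ZMod 3))) '' (A : Set I)) = E.map D.mkQ := by
    rw [Submodule.map_span, ← Set.image_comp]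
    rfl
  have h6 := LinearMap.finrank_range_add_finrank_ker (D.mkQ ∘ₗ E.subtype)
  have h7 : LinearMap.range (D.mkQ ∘ₗ E.subtype) = E.map D.mkQ := by
    rw [LinearMap.range_comp, Submodule.range_subtype]
  have h8 : Module.finrank (ZMod 3) (LinearMap.ker (D.mkQ ∘ₗ E.subtype)) =
      Module.finrank (ZMod 3) (D ⊓ E : Submodule (ZMod 3) (I → ZMod 3)) := by
    rw [LinearMap.ker_comp, Submodule.ker_mkQ, ← Submodule.finrank_map_subtype_eq,
      Submodule.map_comap_subtype, inf_comm]
  rw [h7, h8, hE1] at h6
  have h9 := finrank_ker_add D Aᶜ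
  rw [← hE2] at h9
  rw [h5]
  omega

/-- One step of the greedy choice. -/
theorem exists_block (D : Submodule (ZMod 3) (I → ZMod 3))
    (h : ∀ K : Finset I, K.card ≤ 3 * (Fintype.card I - Module.finrank (ZMod 3) D) →
      26 * (K.card - rY D K) ≤ K.card) (K : Finset I)
    (hK : K.card ≤ 3 * (Fintype.card I - Module.finrank (ZMod 3) D)) :
    ∃ J : Finset I, Disjoint J K ∧
      J.card = (Fintype.card I - Module.finrank (ZMod 3) D) -
        3 * (Fintype.card I - Module.finrank (ZMod 3) D) / 26 ∧
      LinearIndependent (ZMod 3)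
        (fun i : {i // i ∈ J} => D.mkQ (Pi.single (i : I) (1 : ZMod 3))) := by
  classical
  have : Fact (Nat.Prime 3) := ⟨Nat.prime_three⟩
  have h1 := finrank_span_quot D Kᶜ
  rw [compl_compl, card_compl] at h1
  have h2 := h K hK
  have h3 := rY_le_card D K
  have h4 : K.card ≤ Fintype.card I := card_le_univ K
  have h5 : Module.finrank (ZMod 3) D ≤ Fintype.card I := by
    have := Submodule.finrank_le D
    rwa [Module.finrank_fintype_fun_eq_card] at this
  obtain ⟨κ, a, ha, hsp, hli⟩ := exists_linearIndependent' (K := ZMod 3)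
    (fun i : {i // i ∈ Kᶜ} => D.mkQ (Pi.single (i : I) (1 : ZMod 3)))
  have hfin : Finite κ := Finite.of_injective a ha
  have hft := Fintype.ofFinite κ
  have h6 := finrank_span_eq_card hli
  have h7 : Set.range (fun i : {i // i ∈ Kᶜ} => D.mkQ (Pi.single (i : I) (1 : ZMod 3))) =
      (fun i => D.mkQ (Pi.single i (1 : ZMod 3))) '' ((Kᶜ : Finset I) : Set I) := by
    ext x
    constructor
    · rintro ⟨⟨i, hi⟩, rfl⟩
      exact ⟨i, hi, rfl⟩
    · rintro ⟨i, hi, rfl⟩
      exact ⟨⟨i, hi⟩, rfl⟩
  rw [hsp, h7] at h6
  -- the set of indices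
  let J0 : Finset I := univ.image fun k : κ => ((a k : {i // i ∈ Kᶜ}) : I)
  have hinj : Function.Injective fun k : κ => ((a k : {i // i ∈ Kᶜ}) : I) :=
    Subtype.val_injective.comp ha
  have hJ0 : J0.card = Fintype.card κ := by
    rw [card_image_of_injective _ hinj, card_univ]
  have hle : (Fintype.card I - Module.finrank (ZMod 3) D) -
      3 * (Fintype.card I - Module.finrank (ZMod 3) D) / 26 ≤ J0.card := by
    rw [hJ0]
    omega
  obtain ⟨J, hJ, hJc⟩ := exists_subset_card_eq hle
  refine ⟨J, ?_, hJc, ?_⟩
  · rw [disjoint_left]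
    intro i hi hiK
    obtain ⟨k, _, hk⟩ := mem_image.1 (hJ hi)
    have := (a k).2
    rw [mem_compl, hk] at this
    exact this hiK
  · have hpre : ∀ i : {i // i ∈ J}, ∃ k : κ, ((a k : {i // i ∈ Kᶜ}) : I) = i := by
      intro i
      obtain ⟨k, _, hk⟩ := mem_image.1 (hJ i.2)
      exact ⟨k, hk⟩
    choose f hf using hpre
    have hfinj : Function.Injective f := by
      intro i j hij
      apply Subtype.ext
      rw [← hf i, ← hf j, hij]
    have h8 := hli.comp f hfinj
    have e : (fun i : {i // i ∈ J} => D.mkQ (Pi.single (i : I) (1 : ZMod 3))) =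
        ((fun i : {i // i ∈ Kᶜ} => D.mkQ (Pi.single (i : I) (1 : ZMod 3))) ∘ a) ∘ f := by
      funext i
      show _ = D.mkQ (Pi.single ((a (f i) : {i // i ∈ Kᶜ}) : I) (1 : ZMod 3))
      rw [hf i]
    rw [e]
    exact h8

/-- Let `ν = |I| - dim D`. If all sets `K` of at most `3 ν` coordinates satisfy
`26 (|K| - rY D K) ≤ |K|`, then there are four disjoint sets of `ν - ⌊3 ν / 26⌋` coordinates whose
unit vectors are independent modulo `D`.

Proof. Greedy: let `a = ν - 3 ν / 26`. Given `t ≤ 3` disjoint such sets, let `K` be their union,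
`|K| = t a ≤ 3 ν`. By `finrank_span_quot` for `A = Kᶜ` the images of the unit vectors with index
outside `K` have rank `|I| - |K| + rY D K - dim D = ν - (|K| - rY D K) ≥ ν - 3 ν / 26 = a`, so there is an
independent family of size `a` among them. -/
theorem exists_blocks (D : Submodule (ZMod 3) (I → ZMod 3))
    (h : ∀ K : Finset I, K.card ≤ 3 * (Fintype.card I - Module.finrank (ZMod 3) D) →
      26 * (K.card - rY D K) ≤ K.card) :
    ∃ J : Fin 4 → Finset I, (∀ t t', t ≠ t' → Disjoint (J t) (J t')) ∧
      (∀ t, (J t).card = (Fintype.card I - Module.finrank (ZMod 3) D) -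
        3 * (Fintype.card I - Module.finrank (ZMod 3) D) / 26) ∧
      ∀ t, LinearIndependent (ZMod 3)
        (fun i : {i // i ∈ J t} => D.mkQ (Pi.single (i : I) (1 : ZMod 3))) := by
  have hb := exists_block D h
  generalize Fintype.card I - Module.finrank (ZMod 3) D = ν at h hb ⊢
  have hq : 3 * ν / 26 ≤ ν := by omega
  generalize 3 * ν / 26 = q at hb hq ⊢
  obtain ⟨J0, -, c0, l0⟩ := hb ∅ (by simp)
  obtain ⟨J1, d1, c1, l1⟩ := hb J0 (by rw [c0]; omega)
  have hc01 : (J1 ∪ J0).card ≤ 2 * (ν - q) := by
    refine (card_union_le _ _).trans ?_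
    rw [c0, c1]
    omega
  obtain ⟨J2, d2, c2, l2⟩ := hb (J1 ∪ J0) (by omega)
  have hc012 : (J2 ∪ (J1 ∪ J0)).card ≤ 3 * (ν - q) := by
    refine (card_union_le _ _).trans ?_
    rw [c2]
    omega
  obtain ⟨J3, d3, c3, l3⟩ := hb (J2 ∪ (J1 ∪ J0)) (by omega)
  rw [disjoint_union_right] at d2
  rw [disjoint_union_right, disjoint_union_right] at d3
  refine ⟨![J0, J1, J2, J3], ?_, ?_, ?_⟩
  · intro t t' htt
    fin_cases t <;> fin_cases t'
    · exact absurd rfl htt
    · exact d1.symm
    · exact d2.2.symm
    · exact d3.2.2.symm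
    · exact d1
    · exact absurd rfl htt
    · exact d2.1.symm
    · exact d3.2.1.symm
    · exact d2.2
    · exact d2.1
    · exact absurd rfl htt
    · exact d3.1.symm
    · exact d3.2.2
    · exact d3.2.1
    · exact d3.1
    · exact absurd rfl htt
  · intro t
    fin_cases t
    · exact c0
    · exact c1
    · exact c2
    · exact c3
  · intro t
    fin_cases t
    · exact l0
    · exact l1
    · exact l2
    · exact l3

end Pool.Agent.W_MP_a45265_h99
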