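import Mathlib
import Pool.Agent.W_MP_a45265_h99.Basic

set_option autoImplicit false

/-!
# Fourier analysis and AM-GM: concentration is bounded by the return probability of copies
-/

namespace Pool.Agent.W_MP_a45265_h99

open Finset

/-- the value of a character on the two signs -/
theorem FourA_pair {G : Type} [AddCommGroup G] [Finite G] (χ : AddChar G ℂ) (x : G) :
    ∑ b : Bool, χ (sg b • x) = ((2 * (χ x).re : ℝ) : ℂ) := by
  rw [Fintype.sum_bool]
  have h1 : sg true • x = x := by simp [sg]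
  have h2 : sg false • x = -x := by simp [sg]
  rw [h1, h2, AddChar.map_neg_eq_conj, Complex.add_conj]

/-- a character maps sums to products -/
theorem FourA_map_sum {I G : Type} [AddCommGroup G] (χ : AddChar G ℂ) (s : Finset I) (f : I → G) :
    χ (∑ i ∈ s, f i) = ∏ i ∈ s, χ (f i) := by
  classical
  induction s using Finset.induction_on with
  | empty => rw [Finset.sum_empty, Finset.prod_empty, AddChar.map_zero_eq_one]
  | insert a s ha ih => rw [Finset.sum_insert ha, Finset.prod_insert ha, AddChar.map_add_eq_mul, ih]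

/-- Fourier inversion for the number of sign patterns -/
theorem FourA_inv {I G : Type} [Fintype I] [DecidableEq I] [AddCommGroup G] [Fintype G]
    [DecidableEq G] (g : I → G) (c : G) :
    (cnt g c : ℂ) * Fintype.card G =
      ∑ χ : AddChar G ℂ, χ (-c) * ((∏ i, (2 * (χ (g i)).re) : ℝ) : ℂ) := by
  have h1 : ∀ χ : AddChar G ℂ, χ (-c) * ((∏ i, (2 * (χ (g i)).re) : ℝ) : ℂ) =
      ∑ e : I → Bool, χ (dot g e - c) := by
    intro χ
    rw [Complex.ofReal_prod]
    have h2 : ∀ i, ((2 * (χ (g i)).re : ℝ) : ℂ) = ∑ b : Bool, χ (sg b • g i) :=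
      fun i => (FourA_pair χ (g i)).symm
    rw [Finset.prod_congr rfl fun i _ => h2 i, Finset.prod_univ_sum, Fintype.piFinset_univ,
      Finset.mul_sum]
    refine Finset.sum_congr rfl fun e _ => ?_
    rw [sub_eq_add_neg, AddChar.map_add_eq_mul, mul_comm]
    congr 1
    unfold dot
    rw [FourA_map_sum]
  rw [Finset.sum_congr rfl fun χ _ => h1 χ, Finset.sum_comm]
  have h3 : ∀ e : I → Bool, ∑ χ : AddChar G ℂ, χ (dot g e - c) =
      if dot g e = c then (Fintype.card G : ℂ) else 0 := by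
    intro e
    rw [AddChar.sum_apply_eq_ite]
    simp only [sub_eq_zero]
  rw [Finset.sum_congr rfl fun e _ => h3 e, ← Finset.sum_filter, Finset.sum_const, nsmul_eq_mul]
  rfl

/-- the zero count of `T` copies -/
theorem FourA_copies {I G : Type} [Fintype I] [DecidableEq I] [AddCommGroup G] [Fintype G]
    [DecidableEq G] (g : I → G) (T : ℕ) :
    (((univ.filter (fun f : Fin T → I → Bool => ∑ k, dot g (f k) = 0)).card : ℝ)) *
      Fintype.card G = 2 ^ (T * Fintype.card I) *
        ∑ χ : AddChar G ℂ, ∏ i, ((χ (g i)).re) ^ T := by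
  have h1 := FourA_inv (fun p : Fin T × I => g p.2) 0
  have h2 : (univ.filter (fun f : Fin T → I → Bool => ∑ k, dot g (f k) = 0)).card =
      cnt (fun p : Fin T × I => g p.2) 0 := by
    unfold cnt
    refine Finset.card_bij (fun f _ => fun p => f p.1 p.2) ?_ ?_ ?_
    · intro f hf
      rw [Finset.mem_filter] at hf ⊢
      refine ⟨Finset.mem_univ _, ?_⟩
      rw [← hf.2]
      unfold dot
      rw [Fintype.sum_prod_type]
    · intro f _ f' _ h
      funext k i
      exact congrFun h (k, i)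
    · intro f hf
      refine ⟨fun k i => f (k, i), ?_, rfl⟩
      rw [Finset.mem_filter] at hf ⊢
      refine ⟨Finset.mem_univ _, ?_⟩
      rw [← hf.2]
      unfold dot
      rw [Fintype.sum_prod_type]
  rw [h2]
  have h3 : ∀ χ : AddChar G ℂ, ∏ p : Fin T × I, (2 * (χ (g p.2)).re) =
      2 ^ (T * Fintype.card I) * ∏ i, ((χ (g i)).re) ^ T := by
    intro χ
    rw [Finset.prod_mul_distrib, Finset.prod_const, Finset.card_univ, Fintype.card_prod,
      Fintype.card_fin]
    congr 1
    rw [Fintype.prod_prod_type, Finset.prod_comm]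
    refine Finset.prod_congr rfl fun i _ => ?_
    change ∏ _x : Fin T, (χ (g i)).re = (χ (g i)).re ^ T
    rw [Finset.prod_const, Finset.card_univ, Fintype.card_fin]
  have h4 : ((cnt (fun p : Fin T × I => g p.2) 0 : ℝ) : ℂ) * ((Fintype.card G : ℝ) : ℂ) =
      ((2 ^ (T * Fintype.card I) * ∑ χ : AddChar G ℂ, ∏ i, ((χ (g i)).re) ^ T : ℝ) : ℂ) := by
    rw [Complex.ofReal_natCast, Complex.ofReal_natCast, h1, Finset.mul_sum, Complex.ofReal_sum]
    refine Finset.sum_congr rfl fun χ _ => ?_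
    rw [neg_zero, AddChar.map_zero_eq_one, one_mul, h3]
  exact_mod_cast h4

theorem FourA_amgm {T : ℕ} (hT0 : 0 < T) (u : Fin T → ℝ) (hu : ∀ t, 0 ≤ u t) :
    ∏ t, u t ≤ (1 / T) * ∑ t, u t ^ T := by
  have hT : (0 : ℝ) < T := by exact_mod_cast hT0
  have h1 := Real.geom_mean_le_arith_mean_weighted (Finset.univ : Finset (Fin T))
    (fun _ => (1 : ℝ) / T) (fun t => u t ^ T) (fun _ _ => by positivity) (by
      rw [Finset.sum_const, Finset.card_univ, Fintype.card_fin, nsmul_eq_mul]
      field_simp) (fun t _ => pow_nonneg (hu t) T)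
  rw [← Finset.mul_sum] at h1
  refine le_trans (le_of_eq ?_) h1
  refine Finset.prod_congr rfl fun t _ => ?_
  rw [one_div, Real.pow_rpow_inv_natCast (hu t) hT0.ne']

/-- Let `J t` (`t < T`, `T` even) be pairwise disjoint sets of indices such that for each `t` the
probability that `T` independent copies of `∑_{i ∈ J t} ± g i` have sum `0` is at most `β`. Then
every value is taken by `∑ ± g i` with probability at most `β`.

Proof. For an additive character `χ : AddChar G ℂ` put `a_i = Re χ(g_i) = (χ(g_i) + χ(-g_i)) / 2`,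
a real number in `[-1, 1]`. By orthogonality (`AddChar.sum_apply_eq_ite`)
`cnt g c = (1/|G|) ∑_e ∑_χ χ(dot g e - c) = (2^|I| / |G|) ∑_χ χ(-c) ∏_i a_i`
(expand the product `∏_i (χ(g_i) + χ(-g_i))` over the sign patterns, `Finset.prod_add` or
`Finset.prod_univ_sum` with the index type `Bool`). So
`cnt g c ≤ (2^|I| / |G|) ∑_χ ∏_i |a_i| ≤ (2^|I| / |G|) ∑_χ ∏_t u_t(χ)` with
`u_t(χ) = ∏_{i ∈ J t} |a_i|` (the factors outside the disjoint union are at most `1`).
By AM-GM (`Real.inner_le_nnorm_mul_nnorm` is not needed; use `Real.geom_mean_le_arith_mean` or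
`Real.geom_mean_le_arith_mean_weighted`, or `inner_le`) `∏_t u_t ≤ (1/T) ∑_t u_t ^ T`, and
`u_t ^ T = ∏_{i ∈ J t} a_i ^ T` because `T` is even. Finally the same expansion for the
`T |J t|` signs gives `(1/|G|) ∑_χ ∏_{i ∈ J t} a_i ^ T = 2^(-T |J t|) #{f : ... = 0} ≤ β`. -/
theorem fourier_amgm {I G : Type} [Fintype I] [DecidableEq I] [AddCommGroup G] [Finite G]
    [DecidableEq G] (g : I → G) (T : ℕ) (hT : Even T) (hT0 : 0 < T) (J : Fin T → Finset I)
    (hJ : ∀ t t', t ≠ t' → Disjoint (J t) (J t')) (β : ℝ)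
    (hβ : ∀ t, ((univ.filter (fun f : Fin T → {i // i ∈ J t} → Bool =>
      ∑ k, dot (fun i : {i // i ∈ J t} => g i) (f k) = 0)).card : ℝ) ≤
        β * 2 ^ (T * (J t).card))
    (c : G) : (cnt g c : ℝ) ≤ 2 ^ (Fintype.card I) * β := by
  have : Fintype G := Fintype.ofFinite G
  have hG : (0 : ℝ) < Fintype.card G := by exact_mod_cast Fintype.card_pos
  have hTr : (0 : ℝ) < T := by exact_mod_cast hT0
  -- the numbers `a`
  have ha : ∀ (χ : AddChar G ℂ) (i : I), |(χ (g i)).re| ≤ 1 := fun χ i =>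
    (Complex.abs_re_le_norm _).trans (AddChar.norm_apply χ (g i)).le
  -- first bound
  have h1 : (cnt g c : ℝ) * Fintype.card G ≤
      ∑ χ : AddChar G ℂ, 2 ^ (Fintype.card I) * ∏ i, |(χ (g i)).re| := by
    have h2 := congrArg (fun z : ℂ => ‖z‖) (FourA_inv g c)
    simp only [norm_mul, Complex.norm_natCast] at h2
    rw [h2]
    refine (norm_sum_le _ _).trans (Finset.sum_le_sum fun χ _ => ?_)
    rw [norm_mul, AddChar.norm_apply, one_mul, Complex.norm_real, Real.norm_eq_abs,
      Finset.abs_prod]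
    refine le_of_eq ?_
    have h3 : ∀ i, |2 * (χ (g i)).re| = 2 * |(χ (g i)).re| := fun i => by
      rw [abs_mul, abs_two]
    rw [Finset.prod_congr rfl fun i _ => h3 i, Finset.prod_mul_distrib, Finset.prod_const,
      Finset.card_univ]
  -- restriction to the disjoint union
  have h2 : ∀ χ : AddChar G ℂ, ∏ i, |(χ (g i)).re| ≤ ∏ t, ∏ i ∈ J t, |(χ (g i)).re| := by
    intro χ
    rw [← Finset.prod_biUnion (fun t _ t' _ h => hJ t t' h)]
    rw [← Finset.prod_mul_prod_compl (Finset.univ.biUnion J)]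
    refine mul_le_of_le_one_right (Finset.prod_nonneg fun i _ => abs_nonneg _) ?_
    exact Finset.prod_le_one (fun i _ => abs_nonneg _) fun i _ => ha χ i
  have h3 : ∀ χ : AddChar G ℂ, ∏ t, ∏ i ∈ J t, |(χ (g i)).re| ≤
      (1 / T) * ∑ t, ∏ i ∈ J t, ((χ (g i)).re) ^ T := by
    intro χ
    refine (FourA_amgm hT0 _ fun t => Finset.prod_nonneg fun i _ => abs_nonneg _).trans
      (le_of_eq ?_)
    congr 1
    refine Finset.sum_congr rfl fun t _ => ?_
    rw [← Finset.prod_pow]
    exact Finset.prod_congr rfl fun i _ => hT.pow_abs _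
  have h4 : ∀ t, ∑ χ : AddChar G ℂ, ∏ i ∈ J t, ((χ (g i)).re) ^ T ≤ β * Fintype.card G := by
    intro t
    have h5 := FourA_copies (fun i : {i // i ∈ J t} => g i) T
    have h6 : ∀ χ : AddChar G ℂ, ∏ i : {i // i ∈ J t}, ((χ (g i)).re) ^ T =
        ∏ i ∈ J t, ((χ (g i)).re) ^ T := fun χ =>
      Finset.prod_coe_sort (J t) fun i => ((χ (g i)).re) ^ T
    rw [Finset.sum_congr rfl fun χ _ => h6 χ, Fintype.card_coe] at h5
    have h7 := mul_le_mul_of_nonneg_right (hβ t) hG.le
    rw [h5] at h7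
    have h8 : (0 : ℝ) < 2 ^ (T * (J t).card) := by positivity
    refine le_of_mul_le_mul_left ?_ h8
    refine h7.trans (le_of_eq ?_)
    ring
  have h5 : (cnt g c : ℝ) * Fintype.card G ≤ (2 ^ (Fintype.card I) * β) * Fintype.card G := by
    calc (cnt g c : ℝ) * Fintype.card G
        ≤ ∑ χ : AddChar G ℂ, 2 ^ (Fintype.card I) * ∏ i, |(χ (g i)).re| := h1
      _ ≤ ∑ χ : AddChar G ℂ, 2 ^ (Fintype.card I) *
            ((1 / T) * ∑ t, ∏ i ∈ J t, ((χ (g i)).re) ^ T) :=
          Finset.sum_le_sum fun χ _ => mul_le_mul_of_nonneg_left ((h2 χ).trans (h3 χ))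
            (by positivity)
      _ = 2 ^ (Fintype.card I) * ((1 / T) * ∑ t, ∑ χ : AddChar G ℂ,
            ∏ i ∈ J t, ((χ (g i)).re) ^ T) := by
          rw [← Finset.mul_sum, ← Finset.mul_sum, Finset.sum_comm]
      _ ≤ 2 ^ (Fintype.card I) * ((1 / T) * ∑ _t : Fin T, β * Fintype.card G) := by
          refine mul_le_mul_of_nonneg_left (mul_le_mul_of_nonneg_left
            (Finset.sum_le_sum fun t _ => h4 t) (by positivity)) (by positivity)
      _ = (2 ^ (Fintype.card I) * β) * Fintype.card G := by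
          rw [Finset.sum_const, Finset.card_univ, Fintype.card_fin, nsmul_eq_mul]
          field_simp
  exact le_of_mul_le_mul_right h5 hG

end Pool.Agent.W_MP_a45265_h99
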