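import Mathlib
import Pool.Agent.W_MP_a45265_h99.FourA

set_option autoImplicit false

/-!
# Two corollaries of `fourier_amgm`
-/

namespace Pool.Agent.W_MP_a45265_h99

open Finset

variable {I G : Type} [Fintype I] [DecidableEq I] [AddCommGroup G] [Finite G] [DecidableEq G]

/-- The sum of signs. -/
private theorem sum_sg {K : Type} [Fintype K] (b : K → Bool) :
    ∑ k, sg (b k) = 2 * ((univ.filter (fun k => b k = true)).card : ℤ) - (Fintype.card K : ℤ) := by
  have h1 : ∀ k, sg (b k) = 2 * (if b k = true then (1 : ℤ) else 0) - 1 := by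
    intro k
    cases h : b k <;> simp [sg]
  simp only [h1]
  rw [sum_sub_distrib, ← mul_sum, sum_boole, sum_const, card_univ]
  simp

/-- If `2 m` of the `g i` have order larger than `2 m`, then every value is taken with probability at
most `C(2m, m) / 4^m`.

Proof. `fourier_amgm` with `T = 2 m`, `J t = {a_t}` for distinct `a_t ∈ U`,
`β = C(2m, m) / 4^m`: for a single element `a`, `∑_k ± g a = N • g a` with `N = ∑_k ± 1`,
`|N| ≤ 2 m`, so the sum is `0` iff `N = 0`, and `N = 0` for `C(2m, m)` patterns (subsets of `Fin (2m)` of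
cardinality `m`). -/
theorem singles (g : I → G) (m : ℕ) (hm : 0 < m) (U : Finset I) (hU : 2 * m ≤ U.card)
    (hg : ∀ i ∈ U, ∀ k : ℕ, 0 < k → k ≤ 2 * m → k • g i ≠ 0) (c : G) :
    4 ^ m * cnt g c ≤ Nat.centralBinom m * 2 ^ Fintype.card I := by
  -- distinct elements of `U`
  have hcard : Fintype.card (Fin (2 * m)) ≤ Fintype.card {i // i ∈ U} := by
    rw [Fintype.card_fin, Fintype.card_coe]
    exact hU
  obtain ⟨em⟩ := Function.Embedding.nonempty_of_card_le hcard
  have h4 : (0 : ℝ) < 4 ^ m := by positivity
  have key := fourier_amgm g (2 * m) (even_two_mul m) (by omega)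
    (fun t => {((em t : {i // i ∈ U}) : I)}) (by
      intro t t' htt
      rw [Finset.disjoint_singleton]
      intro h
      exact htt (em.injective (Subtype.ext h))) ((Nat.centralBinom m : ℝ) / 4 ^ m) (by
      intro t
      set a : I := ((em t : {i // i ∈ U}) : I) with ha
      have haU : a ∈ U := (em t).2
      have h1 : ((Nat.centralBinom m : ℝ) / 4 ^ m) * 2 ^ (2 * m * ({a} : Finset I).card) =
          Nat.centralBinom m := by
        rw [card_singleton, mul_one, pow_mul]
        norm_num
      rw [h1]
      norm_cast
      rw [Nat.centralBinom_eq_two_mul_choose]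
      have h2 : ((univ : Finset (Fin (2 * m))).powersetCard m).card = (2 * m).choose m := by
        rw [card_powersetCard, card_univ, Fintype.card_fin]
      rw [← h2]
      refine card_le_card_of_injOn
        (fun f => univ.filter (fun k => f k ⟨a, mem_singleton_self a⟩ = true)) ?_ ?_
      · intro f hf
        have hf' : ∑ k, dot (fun i : {i // i ∈ ({a} : Finset I)} => g i) (f k) = 0 := by
          simpa using hf
        have h3 : ∀ k, dot (fun i : {i // i ∈ ({a} : Finset I)} => g i) (f k) =
            sg (f k ⟨a, mem_singleton_self a⟩) • g a := by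
          intro k
          unfold dot
          have hu : (univ : Finset {i // i ∈ ({a} : Finset I)}) = {⟨a, mem_singleton_self a⟩} := by
            ext x
            simp only [mem_univ, mem_singleton, true_iff]
            exact Subtype.ext (mem_singleton.1 x.2)
          rw [hu, sum_singleton]
        simp only [h3] at hf'
        rw [← sum_smul, sum_sg] at hf'
        set q := (univ.filter (fun k => f k ⟨a, mem_singleton_self a⟩ = true)).card with hq
        have hqle : q ≤ 2 * m := by
          refine (card_le_univ _).trans ?_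
          rw [Fintype.card_fin]
        rw [Fintype.card_fin] at hf'
        have hzero : (2 * (q : ℤ) - ((2 * m : ℕ) : ℤ)) = 0 := by
          by_contra hne
          set z : ℤ := 2 * (q : ℤ) - ((2 * m : ℕ) : ℤ) with hz
          have h5 : 0 < z.natAbs := Int.natAbs_pos.2 hne
          have h6 : z.natAbs ≤ 2 * m := by omega
          apply hg a haU z.natAbs h5 h6
          rcases Int.natAbs_eq z with h7 | h7
          · rw [← natCast_zsmul, ← h7]
            exact hf'
          · have h8 : ((z.natAbs : ℕ) : ℤ) = -z := by omega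
            rw [← natCast_zsmul, h8, neg_smul, hf', neg_zero]
        rw [mem_coe, mem_powersetCard]
        refine ⟨subset_univ _, ?_⟩
        show q = m
        omega
      · intro f _ f' _ hff
        funext k i
        have hi : i = ⟨a, mem_singleton_self a⟩ := Subtype.ext (mem_singleton.1 i.2)
        rw [hi]
        have h5 := Finset.ext_iff.1 hff k
        simp only [mem_filter, mem_univ, true_and] at h5
        exact Bool.eq_iff_iff.2 h5) c
  have h5 : (4 : ℝ) ^ m * cnt g c ≤ Nat.centralBinom m * 2 ^ Fintype.card I := by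
    calc (4 : ℝ) ^ m * cnt g c ≤ 4 ^ m * (2 ^ (Fintype.card I) * (Nat.centralBinom m / 4 ^ m)) :=
          mul_le_mul_of_nonneg_left key h4.le
      _ = Nat.centralBinom m * 2 ^ Fintype.card I := by
          field_simp
  exact_mod_cast h5

/-- Four disjoint `F_3`-independent sets of size `a`: every value is taken with probability at most
`(3/8)^a`.

Proof. `fourier_amgm` with `T = 4`, `β = (3/8)^a`: by independence
`∑_k dot g (f k) = ∑_i (∑_k ± 1) • g i = 0` iff for every `i ∈ J t` the number `∑_k ± 1`
(four signs) is `0` in `ZMod 3`; this holds for `6` of the `16` patterns. So the number of `f` is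
`6^a`, and `6^a = (3/8)^a * 2^(4a)`. -/
theorem four_blocks [Module (ZMod 3) G] (g : I → G) (a : ℕ) (J : Fin 4 → Finset I)
    (hJ : ∀ t t', t ≠ t' → Disjoint (J t) (J t')) (hc : ∀ t, (J t).card = a)
    (hind : ∀ t, LinearIndependent (ZMod 3) (fun i : {i // i ∈ J t} => g i)) (c : G) :
    8 ^ a * cnt g c ≤ 3 ^ a * 2 ^ Fintype.card I := by
  have key := fourier_amgm g 4 (by decide) (by norm_num) J hJ ((3 / 8 : ℝ) ^ a) (by
    intro t
    have h1 : ((3 / 8 : ℝ) ^ a) * 2 ^ (4 * (J t).card) = 6 ^ a := by
      rw [hc t, pow_mul, ← mul_pow]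
      norm_num
    rw [h1]
    norm_cast
    set S : Finset (Fin 4 → Bool) :=
      univ.filter (fun b => ((∑ k, sg (b k) : ℤ) : ZMod 3) = 0) with hS
    have hScard : S.card = 6 := by
      rw [hS]
      decide
    have h2 : (Fintype.piFinset (fun _ : {i // i ∈ J t} => S)).card = 6 ^ a := by
      rw [Fintype.card_piFinset, prod_const, card_univ, Fintype.card_coe, hc t, hScard]
    rw [← h2]
    refine card_le_card_of_injOn (fun f => fun i k => f k i) ?_ ?_
    · intro f hf
      have hf' : ∑ k, dot (fun i : {i // i ∈ J t} => g i) (f k) = 0 := by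
        simpa using hf
      rw [mem_coe, Fintype.mem_piFinset]
      unfold dot at hf'
      rw [sum_comm] at hf'
      have h3 : ∑ i : {i // i ∈ J t}, ((∑ k, sg (f k i) : ℤ) : ZMod 3) • g i = 0 := by
        rw [← hf']
        refine sum_congr rfl fun i _ => ?_
        rw [Int.cast_smul_eq_zsmul, sum_smul]
      have h4 := Fintype.linearIndependent_iff.1 (hind t) _ h3
      intro i
      rw [hS, mem_filter]
      exact ⟨mem_univ _, h4 i⟩
    · intro f _ f' _ hff
      funext k i
      exact congrFun (congrFun hff i) k) c
  have h8 : (0 : ℝ) < 8 ^ a := by positivity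
  have h5 : (8 : ℝ) ^ a * cnt g c ≤ 3 ^ a * 2 ^ Fintype.card I := by
    calc (8 : ℝ) ^ a * cnt g c ≤ 8 ^ a * (2 ^ (Fintype.card I) * (3 / 8) ^ a) :=
          mul_le_mul_of_nonneg_left key h8.le
      _ = 3 ^ a * 2 ^ Fintype.card I := by
          rw [div_pow]
          field_simp
  exact_mod_cast h5

end Pool.Agent.W_MP_a45265_h99
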