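import Mathlib
import Pool.Agent.W_MP_a45265_h99.FourB
import Pool.Agent.W_MP_a45265_h99.Blocks

set_option autoImplicit false

/-!
# Few patterns on a sparse set of coordinates of large nullity
-/

namespace Pool.Agent.W_MP_a45265_h99

open Finset

variable {I : Type} [Fintype I] [DecidableEq I]

/-- The arithmetic: `(3/8)^a 2^ν ≤ 2^(-ν/4)` for `a = ν - ⌊3 ν / 26⌋`, from `3^46 ≤ 2^73`:
`26 a ≥ 23 ν`, and `(8/3)^(46 * 2 ν) ≥ 2^(130 ν)`. -/
theorem arith_F (ν : ℕ) : 3 ^ (4 * (ν - 3 * ν / 26)) * 2 ^ (5 * ν) ≤ 8 ^ (4 * (ν - 3 * ν / 26)) := by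
  have h1 : 23 * ν ≤ 26 * (ν - 3 * ν / 26) := by omega
  generalize ν - 3 * ν / 26 = a at h1 ⊢
  have h8 : (8 : ℕ) ^ (4 * a) = 2 ^ (12 * a) := by
    rw [show (8 : ℕ) = 2 ^ 3 by norm_num, ← pow_mul]
    congr 1
    ring
  rw [h8]
  apply (Nat.pow_le_pow_iff_left (n := 46) (by norm_num)).1
  calc (3 ^ (4 * a) * 2 ^ (5 * ν)) ^ 46 = (3 ^ 46) ^ (4 * a) * 2 ^ (230 * ν) := by
        rw [mul_pow, ← pow_mul, ← pow_mul, ← pow_mul]
        congr 2 <;> ring
    _ ≤ (2 ^ 73) ^ (4 * a) * 2 ^ (230 * ν) :=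
        Nat.mul_le_mul_right _ (Nat.pow_le_pow_left (by norm_num) _)
    _ = 2 ^ (292 * a + 230 * ν) := by
        rw [← pow_mul, ← pow_add]
        congr 1
        ring
    _ ≤ 2 ^ (552 * a) := Nat.pow_le_pow_right (by norm_num) (by omega)
    _ = (2 ^ (12 * a)) ^ 46 := by
        rw [← pow_mul]
        congr 1
        ring

/-- The signed sum of the classes of the unit vectors is the class of the vector. -/
theorem lf_dot {ι : Type} [Fintype ι] [DecidableEq ι] (D : Submodule (ZMod 3) (ι → ZMod 3))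
    (e : ι → Bool) : dot (fun i => D.mkQ (Pi.single i (1 : ZMod 3))) e = D.mkQ (v3 e) := by
  unfold dot
  have h1 : v3 e = ∑ i, sg (e i) • (Pi.single i (1 : ZMod 3) : ι → ZMod 3) := by
    funext j
    rw [Finset.sum_apply, Finset.sum_eq_single j]
    · simp [v3]
    · intro i _ hij
      simp [Pi.single_apply, Ne.symm hij]
    · intro hj
      exact absurd (mem_univ j) hj
  rw [h1, map_sum]
  refine sum_congr rfl fun i _ => ?_
  rw [map_zsmul]

/-- Proof. We may assume `S` nonempty (otherwise `pat = 0`). Let `D` be the restriction of `dir S` to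
`Y`, a subspace of `F_3^Y` of dimension `r = rY (dir S) Y`, `ν = |Y| - r`. By `rY_map` the
hypothesis gives the hypothesis of `exists_blocks` for `D`. Let `g i = D.mkQ (Pi.single i 1)`
(`i ∈ Y`). For a pattern `p` of `S` on `Y` the signed sum `dot g p` is the class of `v3 p` modulo `D`,
and it is the same for all patterns of `S` (differences are in `D`). So `pat S Y ≤ cnt g c`, and
`four_blocks` gives `8^a pat ≤ 3^a 2^(r + ν)`. Take the fourth power and use `arith_F`. -/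
theorem lemF (S : Finset (I → Bool)) (Y : Finset I)
    (h : ∀ K ⊆ Y, K.card ≤ 3 * (Y.card - rY (dir S) Y) →
      26 * (K.card - rY (dir S) K) ≤ K.card) :
    (pat S Y) ^ 4 * 2 ^ (Y.card - rY (dir S) Y) ≤ 2 ^ (4 * rY (dir S) Y) := by
  classical
  rcases S.eq_empty_or_nonempty with hS | ⟨e0, he0⟩
  · subst hS
    simp [pat]
  have hr : rY (dir S) Y ≤ Y.card := rY_le_card _ _
  obtain ⟨ν, hν⟩ : ∃ ν, Y.card = rY (dir S) Y + ν := ⟨Y.card - rY (dir S) Y, by omega⟩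
  let D : Submodule (ZMod 3) ({i // i ∈ Y} → ZMod 3) :=
    (dir S).map (LinearMap.funLeft (ZMod 3) (ZMod 3) (fun i : {i // i ∈ Y} => (i : I)))
  have hD : Module.finrank (ZMod 3) D = rY (dir S) Y := rfl
  have hcard : Fintype.card {i // i ∈ Y} = Y.card := Fintype.card_coe Y
  have hν2 : Fintype.card {i // i ∈ Y} - Module.finrank (ZMod 3) D = ν := by
    rw [hcard, hD]
    omega
  have hν3 : Y.card - rY (dir S) Y = ν := by omega
  rw [hν3] at h ⊢
  obtain ⟨J, hJ, hJc, hJi⟩ := exists_blocks D (by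
    intro K hK
    rw [hν2] at hK
    have h1 := h (K.map (Function.Embedding.subtype _)) (by
      intro i hi
      obtain ⟨j, -, rfl⟩ := Finset.mem_map.1 hi
      exact j.2) (by
      rw [Finset.card_map]
      exact hK)
    rw [Finset.card_map] at h1
    rw [rY_map]
    exact h1)
  rw [hν2] at hJc
  have hres : ∀ e ∈ S, dot (fun i => D.mkQ (Pi.single i (1 : ZMod 3)))
      (fun i : {i // i ∈ Y} => e i) =
      dot (fun i => D.mkQ (Pi.single i (1 : ZMod 3))) (fun i : {i // i ∈ Y} => e0 i) := by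
    intro e he
    rw [lf_dot, lf_dot, ← sub_eq_zero, ← map_sub, Submodule.mkQ_apply,
      Submodule.Quotient.mk_eq_zero]
    refine ⟨v3 e - v3 e0, ?_, rfl⟩
    exact vsub_mem_vectorSpan _ ⟨e, he, rfl⟩ ⟨e0, he0, rfl⟩
  have hpat : pat S Y ≤ cnt (fun i : {i // i ∈ Y} => D.mkQ (Pi.single i (1 : ZMod 3)))
      (dot (fun i => D.mkQ (Pi.single i (1 : ZMod 3))) (fun i : {i // i ∈ Y} => e0 i)) := by
    unfold pat cnt
    apply Finset.card_le_card
    intro q hq
    obtain ⟨e, he, rfl⟩ := Finset.mem_image.1 hq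
    rw [Finset.mem_filter]
    exact ⟨mem_univ _, hres e he⟩
  have h4 := four_blocks (fun i : {i // i ∈ Y} => D.mkQ (Pi.single i (1 : ZMod 3)))
    (ν - 3 * ν / 26) J hJ hJc hJi
    (dot (fun i => D.mkQ (Pi.single i (1 : ZMod 3))) (fun i : {i // i ∈ Y} => e0 i))
  have h5 : 8 ^ (ν - 3 * ν / 26) * pat S Y ≤ 3 ^ (ν - 3 * ν / 26) * 2 ^ (rY (dir S) Y + ν) := by
    rw [← hν, ← hcard]
    exact (Nat.mul_le_mul_left _ hpat).trans h4
  have h6 := arith_F ν
  generalize hrr : rY (dir S) Y = r at *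
  generalize pat S Y = x at *
  generalize ν - 3 * ν / 26 = a at *
  have h7 : (8 ^ a * x) ^ 4 ≤ (3 ^ a * 2 ^ (r + ν)) ^ 4 := Nat.pow_le_pow_left h5 4
  have h8 : 0 < 8 ^ (4 * a) * 2 ^ (4 * ν) := by positivity
  apply Nat.le_of_mul_le_mul_left _ h8
  calc 8 ^ (4 * a) * 2 ^ (4 * ν) * (x ^ 4 * 2 ^ ν) = (8 ^ a * x) ^ 4 * 2 ^ (5 * ν) := by
        rw [mul_pow, ← pow_mul, show 5 * ν = 4 * ν + ν by ring, pow_add, mul_comm a 4]
        ring
    _ ≤ (3 ^ a * 2 ^ (r + ν)) ^ 4 * 2 ^ (5 * ν) := Nat.mul_le_mul_right _ h7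
    _ = (3 ^ (4 * a) * 2 ^ (5 * ν)) * 2 ^ (4 * (r + ν)) := by
        rw [mul_pow, ← pow_mul, ← pow_mul, mul_comm a 4, mul_comm (r + ν) 4]
        ring
    _ ≤ 8 ^ (4 * a) * 2 ^ (4 * (r + ν)) := Nat.mul_le_mul_right _ h6
    _ = 8 ^ (4 * a) * 2 ^ (4 * ν) * 2 ^ (4 * r) := by
        rw [mul_add, pow_add]
        ring

end Pool.Agent.W_MP_a45265_h99
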