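import Mathlib
import Pool.Agent.W_MP_a45265_h99.LemF
import Pool.Agent.W_MP_a45265_h99.Three

set_option autoImplicit false

/-!
# Regular sets are sparse on representatives
-/

namespace Pool.Agent.W_MP_a45265_h99

open Finset

variable {I : Type} [Fintype I] [DecidableEq I]

omit [DecidableEq I] in
theorem sp_rY_le_of_functional (D : Submodule (ZMod 3) (I → ZMod 3)) (Y : Finset I)
    (f : ({i // i ∈ Y} → ZMod 3) →ₗ[ZMod 3] ZMod 3) (hf : f ≠ 0)
    (h : ∀ x ∈ D, f (fun i => x i) = 0) : rY D Y + 1 ≤ Y.card := by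
  have h1 : D.map (LinearMap.funLeft (ZMod 3) (ZMod 3) (fun i : {i // i ∈ Y} => (i : I)))
      ≤ LinearMap.ker f := by
    rintro _ ⟨x, hx, rfl⟩
    exact h x hx
  have h2 : rY D Y ≤ Module.finrank (ZMod 3) (LinearMap.ker f) := Submodule.finrank_mono h1
  have h3 := Module.Dual.finrank_ker_add_one_of_ne_zero (f := f) hf
  rw [Module.finrank_fintype_fun_eq_card, Fintype.card_coe] at h3
  omega

/-- Three coordinates, any two of rank two, with total rank two: at most three patterns.

Proof. The restriction of `dir S` to `K` is a plane in `F_3^K`, the zero set of a functional `w ≠ 0`;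
if `w i = 0` for some `i ∈ K` then `K.erase i` would have rank at most `1`. So all three
coefficients are nonzero and `∑ w_i v3 e i` is constant on `S`; `cnt_three_le` (index type
`{i // i ∈ K}`) gives at most `3` patterns. -/
theorem pat_three (S : Finset (I → Bool)) (K : Finset I) (hK : K.card = 3)
    (h2 : ∀ i ∈ K, rY (dir S) (K.erase i) = 2) (h : rY (dir S) K = 2) : pat S K ≤ 3 := by
  rcases S.eq_empty_or_nonempty with rfl | ⟨e0, he0⟩
  · simp [pat]
  have hlt : (dir S).map (LinearMap.funLeft (ZMod 3) (ZMod 3)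
      (fun i : {i // i ∈ K} => (i : I))) < ⊤ := by
    refine lt_top_iff_ne_top.2 fun htop => ?_
    have h3 : rY (dir S) K = Module.finrank (ZMod 3) (⊤ : Submodule (ZMod 3) ({i // i ∈ K} → ZMod 3)) := by
      unfold rY
      rw [htop]
    rw [finrank_top, Module.finrank_fintype_fun_eq_card, Fintype.card_coe, hK] at h3
    omega
  obtain ⟨f, hf0, hf⟩ := Submodule.exists_le_ker_of_lt_top _ hlt
  have hfD : ∀ x ∈ dir S, f (fun i => x i) = 0 := by
    intro x hx
    exact hf ⟨x, hx, rfl⟩
  let w : {i // i ∈ K} → ZMod 3 := fun i => f (Pi.single i 1)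
  have hfw : ∀ x : {i // i ∈ K} → ZMod 3, f x = ∑ i, x i * w i := by
    intro x
    have h3 := f.pi_apply_eq_sum_univ x
    rw [h3]
    refine Finset.sum_congr rfl fun i _ => ?_
    rw [smul_eq_mul]
    congr 2
    funext j
    simp [Pi.single_apply, eq_comm]
  have hw : ∀ i, w i ≠ 0 := by
    intro i hi
    -- the functional on `K.erase i`
    let emb : {j // j ∈ K.erase i.1} → {j // j ∈ K} := fun j => ⟨j.1, Finset.mem_of_mem_erase j.2⟩
    let f' : ({j // j ∈ K.erase i.1} → ZMod 3) →ₗ[ZMod 3] ZMod 3 :=
      ∑ j : {j // j ∈ K.erase i.1}, (w (emb j)) • LinearMap.proj j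
    have hf'a : ∀ y, f' y = ∑ j : {j // j ∈ K.erase i.1}, y j * w (emb j) := by
      intro y
      simp only [f', LinearMap.sum_apply, LinearMap.smul_apply, LinearMap.proj_apply, smul_eq_mul]
      exact Finset.sum_congr rfl fun j _ => mul_comm _ _
    have hsum : ∀ y : {j // j ∈ K} → ZMod 3,
        ∑ j : {j // j ∈ K.erase i.1}, y (emb j) * w (emb j) = ∑ j, y j * w j := by
      intro y
      have h5 : ∑ j, y j * w j = ∑ j ∈ univ.erase i, y j * w j := by
        rw [← Finset.add_sum_erase univ _ (Finset.mem_univ i), hi, mul_zero, zero_add]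
      rw [h5]
      refine Finset.sum_bij (fun j _ => emb j) ?_ ?_ ?_ ?_
      · intro j _
        refine Finset.mem_erase.2 ⟨?_, Finset.mem_univ _⟩
        intro hji
        exact (Finset.mem_erase.1 j.2).1 (congrArg Subtype.val hji)
      · intro j _ j' _ hjj
        have hv : (emb j).1 = (emb j').1 := congrArg Subtype.val hjj
        exact Subtype.ext hv
      · intro j hj
        have hne : j.1 ≠ i.1 := fun hji => (Finset.mem_erase.1 hj).1 (Subtype.ext hji)
        exact ⟨⟨j.1, Finset.mem_erase.2 ⟨hne, j.2⟩⟩, Finset.mem_univ _, rfl⟩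
      · intro j _
        rfl
    have hf'0 : f' ≠ 0 := by
      intro h0
      apply hf0
      refine LinearMap.ext fun y => ?_
      rw [hfw, ← hsum, ← hf'a (fun j => y (emb j)), h0]
      rfl
    have h6 := sp_rY_le_of_functional (dir S) (K.erase i.1) f' hf'0 (by
      intro x hx
      rw [hf'a]
      have h7 := hsum (fun j => x j)
      have h8 := hfD x hx
      rw [hfw] at h8
      rw [← h8, ← h7])
    rw [Finset.card_erase_of_mem i.2, hK, h2 i.1 i.2] at h6
    omega
  have hc : ∀ e ∈ S, f (fun i => v3 e i) = f (fun i => v3 e0 i) := by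
    intro e he
    have h3 : v3 e - v3 e0 ∈ dir S := vsub_mem_vectorSpan _ ⟨e, he, rfl⟩ ⟨e0, he0, rfl⟩
    have h4 := hfD _ h3
    have h5 : (fun i : {i // i ∈ K} => (v3 e - v3 e0) i) =
        (fun i : {i // i ∈ K} => v3 e i) - fun i : {i // i ∈ K} => v3 e0 i := rfl
    rw [h5, map_sub, sub_eq_zero] at h4
    exact h4
  have h9 : pat S K ≤ cnt w (f (fun i => v3 e0 i)) := by
    unfold pat cnt
    refine Finset.card_le_card ?_
    intro p hp
    obtain ⟨e, he, rfl⟩ := Finset.mem_image.1 hp
    refine Finset.mem_filter.2 ⟨Finset.mem_univ _, ?_⟩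
    rw [← hc e he, hfw]
    unfold dot
    refine Finset.sum_congr rfl fun i _ => ?_
    rw [zsmul_eq_mul]
    rfl
  have h10 := cnt_three_le w (by
    rw [Finset.filter_true_of_mem (fun i _ => hw i), Finset.card_univ, Fintype.card_coe, hK])
    (f (fun i => v3 e0 i))
  rw [Fintype.card_coe, hK] at h10
  omega

/-- Proof. Suppose not and take a violating `K ⊆ E` of minimal cardinality; let
`r = rY (dir S) K`, `ν = |K| - r`, so `26 ν > |K|`, in particular `ν ≥ 1`, and all proper subsets of
`K` are not violating. `|K| ≥ 3` by `rY_single`, `rY_pair`.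
If `|K| = 3`: any two elements have rank `2` (`rY_pair`), so `r = 2`, `pat S K ≤ 3`
(`pat_three`), and `hreg` gives `2^206 ≤ 3^104`, false.
If `|K| ≥ 4`: with `a ∈ K`, `K.erase a` is not violating and `r ≥ rY (K.erase a)`, so
`26 ν ≤ 26 + (|K| - 1)`, so `3 ν < |K|`. Hence all `K' ⊆ K` with `|K'| ≤ 3 ν` are proper subsets, not
violating, and `lemF` gives `pat^4 2^ν ≤ 2^(4 r)`. Then
`2^(103 r) 2^(26 ν) ≤ (pat^4 2^ν)^26 ≤ 2^(104 r)`, so `26 ν ≤ r ≤ |K|`, a contradiction. -/
theorem reg_sparse (S : Finset (I → Bool))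
    (hreg : ∀ Y' : Finset I, 2 ^ (103 * rY (dir S) Y') ≤ (pat S Y') ^ 104) (E : Finset I)
    (hE : ∀ i ∈ E, ¬ Cst S i) (hE2 : ∀ i ∈ E, ∀ j ∈ E, i ≠ j → ¬ Par S i j) :
    ∀ K ⊆ E, 26 * (K.card - rY (dir S) K) ≤ K.card := by
  intro K
  induction K using Finset.strongInduction with
  | H K ih =>
    intro hKE
    have hrc := rY_le_card (dir S) K
    rcases Nat.lt_or_ge K.card 3 with hlt | hge
    · have h3 : rY (dir S) K = K.card := by
        interval_cases hk : K.card
        · omega
        · obtain ⟨a, rfl⟩ := Finset.card_eq_one.1 hk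
          exact rY_single S a (hE a (hKE (Finset.mem_singleton_self a)))
        · obtain ⟨a, b, hab, rfl⟩ := Finset.card_eq_two.1 hk
          have ha : a ∈ E := hKE (by simp)
          have hb : b ∈ E := hKE (by simp)
          exact rY_pair S a b hab (hE a ha) (hE b hb) (hE2 a ha b hb hab)
      rw [h3]
      simp
    · rcases Nat.eq_or_lt_of_le hge with h3 | h4
      · by_contra hcon
        have h2 : ∀ i ∈ K, rY (dir S) (K.erase i) = 2 := by
          intro i hi
          have hk : (K.erase i).card = 2 := by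
            rw [Finset.card_erase_of_mem hi]
            omega
          obtain ⟨a, b, hab, hE'⟩ := Finset.card_eq_two.1 hk
          have ha : a ∈ E := hKE (Finset.mem_of_mem_erase (a := i) (by rw [hE']; simp))
          have hb : b ∈ E := hKE (Finset.mem_of_mem_erase (a := i) (by rw [hE']; simp))
          rw [hE']
          exact rY_pair S a b hab (hE a ha) (hE b hb) (hE2 a ha b hb hab)
        obtain ⟨a, ha⟩ : K.Nonempty := Finset.card_pos.1 (by omega)
        have h5 := rY_mono (dir S) (Finset.erase_subset a K)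
        rw [h2 a ha] at h5
        have h6 : rY (dir S) K = 2 := by omega
        have h7 := pat_three S K h3.symm h2 h6
        have h8 := hreg K
        rw [h6] at h8
        have h9 := h8.trans (Nat.pow_le_pow_left h7 104)
        norm_num at h9
      · by_contra hcon
        push Not at hcon
        obtain ⟨a, ha⟩ : K.Nonempty := Finset.card_pos.1 (by omega)
        have h5 := ih (K.erase a) (Finset.erase_ssubset ha) ((Finset.erase_subset a K).trans hKE)
        have h6 := rY_mono (dir S) (Finset.erase_subset a K)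
        rw [Finset.card_erase_of_mem ha] at h5
        have h7 := lemF S K (by
          intro K' hK' hc
          refine ih K' (Finset.ssubset_iff_subset_ne.2 ⟨hK', ?_⟩) (hK'.trans hKE)
          rintro rfl
          omega)
        have h8 := hreg K
        have h9 : 2 ^ (103 * rY (dir S) K) * 2 ^ (26 * (K.card - rY (dir S) K)) ≤
            2 ^ (104 * rY (dir S) K) := by
          calc 2 ^ (103 * rY (dir S) K) * 2 ^ (26 * (K.card - rY (dir S) K))
              ≤ (pat S K) ^ 104 * 2 ^ (26 * (K.card - rY (dir S) K)) :=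
                Nat.mul_le_mul_right _ h8
            _ = ((pat S K) ^ 4 * 2 ^ (K.card - rY (dir S) K)) ^ 26 := by
                rw [mul_pow, ← pow_mul, ← pow_mul, mul_comm (K.card - rY (dir S) K) 26]
            _ ≤ (2 ^ (4 * rY (dir S) K)) ^ 26 := Nat.pow_le_pow_left h7 26
            _ = 2 ^ (104 * rY (dir S) K) := by
                rw [← pow_mul]
                congr 1
                ring
        rw [← pow_add] at h9
        have h10 := (Nat.pow_le_pow_iff_right (by norm_num : 1 < 2)).1 h9
        omega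

end Pool.Agent.W_MP_a45265_h99
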