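import Mathlib
import Pool.Agent.W_MP_a45265_h99.Sparse
import Pool.Agent.W_MP_a45265_h99.ExReg

set_option autoImplicit false

/-!
# The structure lemma for sets of sign patterns
-/

namespace Pool.Agent.W_MP_a45265_h99

open Finset

variable {I : Type} [Fintype I] [DecidableEq I]

/-- Representatives of the nonconstant coordinates modulo equality up to sign.

Proof. Take `E` maximal among the sets of nonconstant, pairwise nonparallel coordinates
(`Par S` is symmetric; if `i` is not constant and not parallel to any `j ∈ E` then `insert i E` is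
larger). -/
theorem exists_reps (S : Finset (I → Bool)) :
    ∃ E : Finset I, (∀ i ∈ E, ¬ Cst S i) ∧ (∀ i ∈ E, ∀ j ∈ E, i ≠ j → ¬ Par S i j) ∧
      ∀ i, Cst S i ∨ ∃ j ∈ E, Par S i j := by
  classical
  have hsymm : ∀ i j, Par S i j → Par S j i := by
    rintro i j (h | h)
    · exact Or.inl fun e he => (h e he).symm
    · refine Or.inr fun e he => ?_
      rw [h e he, Bool.not_not]
  let P : Finset I → Prop := fun E =>
    (∀ i ∈ E, ¬ Cst S i) ∧ (∀ i ∈ E, ∀ j ∈ E, i ≠ j → ¬ Par S i j)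
  have hP0 : (univ.filter P).Nonempty := by
    refine ⟨∅, mem_filter.2 ⟨mem_univ _, ?_, ?_⟩⟩
    · intro i hi
      exact absurd hi (notMem_empty i)
    · intro i hi
      exact absurd hi (notMem_empty i)
  obtain ⟨E, hE, hmax⟩ := exists_max_image (univ.filter P) card hP0
  obtain ⟨hE1, hE2⟩ := (mem_filter.1 hE).2
  refine ⟨E, hE1, hE2, fun i => ?_⟩
  by_contra hcon
  push Not at hcon
  obtain ⟨hc, hp⟩ := hcon
  have hi : i ∉ E := fun h => hp i h (Or.inl fun e _ => rfl)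
  have hP : P (insert i E) := by
    refine ⟨?_, ?_⟩
    · intro j hj
      rcases mem_insert.1 hj with rfl | hj
      · exact hc
      · exact hE1 j hj
    · intro j hj k hk hjk
      rcases mem_insert.1 hj with hji | hj'
      · rcases mem_insert.1 hk with hki | hk'
        · exact absurd (hji.trans hki.symm) hjk
        · rw [hji]
          exact hp k hk'
      · rcases mem_insert.1 hk with hki | hk'
        · rw [hki]
          exact fun h => hp j hj' (hsymm _ _ h)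
        · exact hE2 j hj' k hk' hjk
  have h1 := hmax (insert i E) (mem_filter.2 ⟨mem_univ _, hP⟩)
  rw [card_insert_of_notMem hi] at h1
  omega

/-- Proof. Take `S'` from `exists_reg` and `E` from `exists_reps`. By `reg_sparse` all `K ⊆ E` satisfy
the hypothesis of `lemF`, so with `r = rY (dir S') E = dd S'` (`dd_eq_rY`), `ν = |E| - r` and
`pat S' E = |S'|` (`pat_eq_card`): `|S'|^4 2^ν ≤ 2^(4 dd S') ≤ 2^(4 Y) |S'|^4`, so `ν ≤ 4 Y`. -/
theorem lemS (S : Finset (I → Bool)) (hS : S.Nonempty) (Y : ℕ)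
    (hY : 2 ^ dd S ≤ 2 ^ Y * S.card) :
    ∃ S' ⊆ S, S'.Nonempty ∧ 2 ^ dd S' ≤ 2 ^ Y * S'.card ∧ dd S ≤ dd S' + 104 * Y ∧
      ∃ E : Finset I, (∀ i ∈ E, ¬ Cst S' i) ∧ (∀ i ∈ E, ∀ j ∈ E, i ≠ j → ¬ Par S' i j) ∧
        (∀ i, Cst S' i ∨ ∃ j ∈ E, Par S' i j) ∧ E.card ≤ dd S' + 4 * Y := by
  obtain ⟨S', hS'S, hne, h1, h2, hreg⟩ := exists_reg S hS Y hY
  obtain ⟨E, hE1, hE2, hE3⟩ := exists_reps S'
  refine ⟨S', hS'S, hne, h1, h2, E, hE1, hE2, hE3, ?_⟩
  have hsp := reg_sparse S' hreg E hE1 hE2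
  have hF := lemF S' E fun K hK _ => hsp K hK
  rw [← dd_eq_rY S' E hE3, pat_eq_card S' E hE3] at hF
  have h3 : 2 ^ (4 * dd S') ≤ 2 ^ (4 * Y) * S'.card ^ 4 := by
    calc 2 ^ (4 * dd S') = (2 ^ dd S') ^ 4 := by rw [← pow_mul, mul_comm]
      _ ≤ (2 ^ Y * S'.card) ^ 4 := Nat.pow_le_pow_left h1 4
      _ = 2 ^ (4 * Y) * S'.card ^ 4 := by rw [mul_pow, ← pow_mul, mul_comm Y 4]
  have h4 : S'.card ^ 4 * 2 ^ (E.card - dd S') ≤ S'.card ^ 4 * 2 ^ (4 * Y) := by
    calc S'.card ^ 4 * 2 ^ (E.card - dd S') ≤ 2 ^ (4 * dd S') := hF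
      _ ≤ 2 ^ (4 * Y) * S'.card ^ 4 := h3
      _ = S'.card ^ 4 * 2 ^ (4 * Y) := mul_comm _ _
  have hpos : 0 < S'.card ^ 4 := pow_pos (card_pos.2 hne) 4
  have h5 : 2 ^ (E.card - dd S') ≤ 2 ^ (4 * Y) := Nat.le_of_mul_le_mul_left h4 hpos
  have h6 : E.card - dd S' ≤ 4 * Y := (Nat.pow_le_pow_iff_right (by norm_num)).1 h5
  omega

end Pool.Agent.W_MP_a45265_h99
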