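import Mathlib
import Pool.Agent.W_MP_a45265_h99.LemS

set_option autoImplicit false

/-!
# The structure theorem for the zero patterns of a tuple
-/

namespace Pool.Agent.W_MP_a45265_h99

open Finset

variable {I G : Type} [Fintype I] [DecidableEq I] [AddCommGroup G] [DecidableEq G]

/-- The class data of a set `S` of patterns with representatives `E`.

Proof. For `i ∈ E` put `φ i = (some i, true)`; for `i ∉ E` constant with value `b` on `S` put
`φ i = (none, b)`; for the other `i` choose `j ∈ E` parallel to `i` and put `φ i = (some j, b)` with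
`b = true` if `e i = e j` on `S`, `b = false` if `e i = !e j` on `S`. (For `i ∉ E` one has
`φ i ≠ (some i, true)` since `j ∈ E`.) -/
theorem exists_cd (S : Finset (I → Bool)) (E : Finset I)
    (h : ∀ i, Cst S i ∨ ∃ j ∈ E, Par S i j) :
    ∃ φ : CD I, reps φ = E ∧ Valid φ ∧
      (∀ i b, φ i = (none, b) → ∀ e ∈ S, e i = b) ∧
      (∀ i j b, φ i = (some j, b) → ∀ e ∈ S, sg (e i) = sg b * sg (e j)) := by
  have key : ∀ i : I, ∃ q : Option I × Bool, (i ∈ E → q = (some i, true)) ∧
      (i ∉ E → q ≠ (some i, true)) ∧ (∀ b, q = (none, b) → ∀ e ∈ S, e i = b) ∧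
      (∀ j b, q = (some j, b) → j ∈ E ∧ ∀ e ∈ S, sg (e i) = sg b * sg (e j)) := by
    intro i
    by_cases hi : i ∈ E
    · refine ⟨(some i, true), fun _ => rfl, fun h => absurd hi h, fun b hb => ?_, fun j b hb => ?_⟩
      · simp at hb
      · simp only [Prod.mk.injEq, Option.some.injEq] at hb
        obtain ⟨rfl, rfl⟩ := hb
        exact ⟨hi, fun e _ => by simp [sg]⟩
    · rcases h i with ⟨b, hb⟩ | ⟨j, hj, hp | hp⟩
      · refine ⟨(none, b), fun h => absurd h hi, fun _ => by simp, fun b' hb' => ?_,
          fun j b' hb' => ?_⟩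
        · simp only [Prod.mk.injEq, true_and] at hb'
          rw [← hb']
          exact hb
        · simp at hb'
      · have hij : j ≠ i := fun h => hi (h ▸ hj)
        refine ⟨(some j, true), fun h => absurd h hi, fun _ => by simp [hij], fun b' hb' => ?_,
          fun j' b' hb' => ?_⟩
        · simp at hb'
        · simp only [Prod.mk.injEq, Option.some.injEq] at hb'
          obtain ⟨rfl, rfl⟩ := hb'
          refine ⟨hj, fun e he => ?_⟩
          rw [hp e he]
          simp [sg]
      · have hij : j ≠ i := fun h => hi (h ▸ hj)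
        refine ⟨(some j, false), fun h => absurd h hi, fun _ => by simp, fun b' hb' => ?_,
          fun j' b' hb' => ?_⟩
        · simp at hb'
        · simp only [Prod.mk.injEq, Option.some.injEq] at hb'
          obtain ⟨rfl, rfl⟩ := hb'
          refine ⟨hj, fun e he => ?_⟩
          rw [hp e he, sg_not]
          have : sg false = -1 := rfl
          rw [this, neg_one_mul]
  choose φ h1 h2 h3 h4 using key
  have hreps : reps φ = E := by
    ext i
    simp only [reps, Finset.mem_filter, Finset.mem_univ, true_and]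
    constructor
    · intro hi
      by_contra hE
      exact h2 i hE hi
    · exact h1 i
  refine ⟨φ, hreps, ?_, fun i b hb => h3 i b hb, fun i j b hb => (h4 i j b hb).2⟩
  intro i j b hb
  rw [hreps]
  exact (h4 i j b hb).1

theorem strT_sg_inj {a b : Bool} (h : sg a = sg b) : a = b := by
  revert h
  cases a <;> cases b <;> simp [sg]

omit [DecidableEq G] in
theorem strT_dot (φ : CD I) (hV : Valid φ) (τ : I → G) (e : I → Bool)
    (hn : ∀ i b, φ i = (none, b) → e i = b)
    (hs : ∀ i j b, φ i = (some j, b) → sg (e i) = sg b * sg (e j)) :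
    dot τ e = (∑ i ∈ univ.filter (fun i => (φ i).1 = none), sg (φ i).2 • τ i) +
      dot (bar φ τ) (fun j => e j) := by
  have h1 : dot τ e = ∑ o : Option I, ∑ i ∈ univ.filter (fun i => (φ i).1 = o),
      sg (e i) • τ i := by
    unfold dot
    rw [Finset.sum_fiberwise]
  rw [h1, Fintype.sum_option]
  congr 1
  · refine Finset.sum_congr rfl fun i hi => ?_
    have hi' := (Finset.mem_filter.1 hi).2
    have h2 : φ i = (none, (φ i).2) := by
      rw [← hi']
    rw [hn i _ h2]
  · have h2 : ∑ j : I, ∑ i ∈ univ.filter (fun i => (φ i).1 = some j), sg (e i) • τ i =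
        ∑ j ∈ reps φ, ∑ i ∈ univ.filter (fun i => (φ i).1 = some j), sg (e i) • τ i := by
      symm
      apply Finset.sum_subset (Finset.subset_univ _)
      intro j _ hj
      apply Finset.sum_eq_zero
      intro i hi
      have hi' := (Finset.mem_filter.1 hi).2
      exfalso
      apply hj
      apply hV i j (φ i).2
      rw [← hi']
    rw [h2, ← Finset.sum_coe_sort]
    unfold dot bar
    refine Finset.sum_congr rfl fun j _ => ?_
    rw [Finset.smul_sum]
    refine Finset.sum_congr rfl fun i hi => ?_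
    have hi' := (Finset.mem_filter.1 hi).2
    have h3 : φ i = (some (j : I), (φ i).2) := by
      rw [← hi']
    rw [hs i j _ h3, smul_smul, mul_comm]

/-- Proof. Apply `lemS` to `S = Zs τ`, get `S'`, `E`; take `φ` from `exists_cd` for `S'` and `E`. For
`e ∈ S'`: `0 = dot τ e = dot (bar φ τ) (e|_E) + ∑_{i constant} ± τ_i`, and the last sum does not
depend on `e ∈ S'`, call it `-c`. So the restrictions to `E` of the elements of `S'`
(`pat S' E = |S'|` many, `pat_eq_card`) are patterns with signed sum `c` of `bar φ τ`: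
`|S'| ≤ cnt (bar φ τ) c`. Then `2^|E| ≤ 2^(dd S' + 4 Y) ≤ 2^(5 Y) |S'|`, and
`dd (Zs τ) ≤ dd S' + 104 Y ≤ |E| + 104 Y` (`dd_eq_rY`, `rY_le_card`). -/
theorem str (τ : I → G) (Y : ℕ) (h0 : (Zs τ).Nonempty)
    (hY : 2 ^ dd (Zs τ) ≤ 2 ^ Y * (Zs τ).card) :
    ∃ φ : CD I, Valid φ ∧ dd (Zs τ) ≤ (reps φ).card + 104 * Y ∧
      ∃ c : G, 2 ^ (reps φ).card ≤ 2 ^ (5 * Y) * cnt (bar φ τ) c := by
  obtain ⟨S', hS', -, hS'Y, hdd, E, -, -, hE3, hEc⟩ := lemS (Zs τ) h0 Y hY
  obtain ⟨φ, hreps, hV, hn, hs⟩ := exists_cd S' E hE3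
  refine ⟨φ, hV, ?_, -(∑ i ∈ univ.filter (fun i => (φ i).1 = none), sg (φ i).2 • τ i), ?_⟩
  · rw [hreps]
    have h1 := dd_eq_rY S' E hE3
    have h2 := rY_le_card (dir S') E
    omega
  · have hcard : S'.card ≤
        cnt (bar φ τ) (-(∑ i ∈ univ.filter (fun i => (φ i).1 = none), sg (φ i).2 • τ i)) := by
      apply Finset.card_le_card_of_injOn (fun e => fun j : {i // i ∈ reps φ} => e j)
      · intro e he
        have he' : e ∈ S' := he
        have h1 := strT_dot φ hV τ e (fun i b hb => hn i b hb e he')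
          (fun i j b hb => hs i j b hb e he')
        have h2 : dot τ e = 0 := (Finset.mem_filter.1 (hS' he')).2
        rw [h2] at h1
        rw [Finset.mem_coe, Finset.mem_filter]
        exact ⟨Finset.mem_univ _, (neg_eq_of_add_eq_zero_right h1.symm).symm⟩
      · intro e he e' he' heq
        have he1 : e ∈ S' := he
        have he2 : e' ∈ S' := he'
        funext i
        rcases hφ : φ i with ⟨o, b⟩
        cases o with
        | none => rw [hn i b hφ e he1, hn i b hφ e' he2]
        | some j =>
          apply strT_sg_inj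
          rw [hs i j b hφ e he1, hs i j b hφ e' he2]
          have h1 : e j = e' j := congrFun heq ⟨j, hV i j b hφ⟩
          rw [h1]
    calc 2 ^ (reps φ).card ≤ 2 ^ (dd S' + 4 * Y) := by
          rw [hreps]
          exact Nat.pow_le_pow_right (by norm_num) hEc
      _ = 2 ^ dd S' * 2 ^ (4 * Y) := pow_add _ _ _
      _ ≤ (2 ^ Y * S'.card) * 2 ^ (4 * Y) := Nat.mul_le_mul_right _ hS'Y
      _ = 2 ^ (5 * Y) * S'.card := by ring
      _ ≤ _ := Nat.mul_le_mul_left _ hcard

end Pool.Agent.W_MP_a45265_h99
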