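import Mathlib
import Pool.Agent.W_MP_a45265_h99.StrT
import Pool.Agent.W_MP_a45265_h99.LemR

set_option autoImplicit false

/-!
# Certificates
-/

namespace Pool.Agent.W_MP_a45265_h99

open Finset

variable {I G : Type} [Fintype I] [DecidableEq I] [AddCommGroup G] [DecidableEq G]

/-- The number of class data with at least `m0` representatives.

Proof. Choose the set `R = reps φ` (`2^s` choices); then `φ i` is fixed for `i ∈ R`, and for `i ∉ R`
it is one of the `2 (|R| + 1) ≤ 2 s + 2` pairs `(none, b)`, `(some j, b)` with `j ∈ R`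
(`Fintype.card_piFinset`). And `s - |R| ≤ s - m0`. -/
theorem card_valid (m0 : ℕ) :
    (univ.filter (fun φ : CD I => Valid φ ∧ m0 ≤ (reps φ).card)).card ≤
      2 ^ Fintype.card I * (2 * Fintype.card I + 2) ^ (Fintype.card I - m0) := by
  set opts : Finset I → I → Finset (Option I × Bool) := fun R i =>
    if i ∈ R then {(some i, true)} else (insert none (R.image some)) ×ˢ (univ : Finset Bool)
    with hopts
  have hsub : (univ.filter (fun φ : CD I => Valid φ ∧ m0 ≤ (reps φ).card)) ⊆
      ((univ : Finset (Finset I)).filter (fun R => m0 ≤ R.card)).biUnion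
        (fun R => Fintype.piFinset (opts R)) := by
    intro φ hφ
    obtain ⟨hV, hm⟩ := (Finset.mem_filter.1 hφ).2
    rw [Finset.mem_biUnion]
    refine ⟨reps φ, Finset.mem_filter.2 ⟨Finset.mem_univ _, hm⟩, ?_⟩
    rw [Fintype.mem_piFinset]
    intro i
    by_cases hi : i ∈ reps φ
    · have h1 : φ i = (some i, true) := (Finset.mem_filter.1 hi).2
      simp only [hopts, if_pos hi, h1, Finset.mem_singleton]
    · simp only [hopts, if_neg hi, Finset.mem_product, Finset.mem_univ, and_true,
        Finset.mem_insert, Finset.mem_image]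
      rcases hφi : φ i with ⟨o, b⟩
      cases o with
      | none => exact Or.inl rfl
      | some j => exact Or.inr ⟨j, hV i j b hφi, rfl⟩
  have hcard : ∀ R ∈ ((univ : Finset (Finset I)).filter (fun R => m0 ≤ R.card)),
      (Fintype.piFinset (opts R)).card ≤ (2 * Fintype.card I + 2) ^ (Fintype.card I - m0) := by
    intro R hR
    have hm : m0 ≤ R.card := (Finset.mem_filter.1 hR).2
    rw [Fintype.card_piFinset, ← Finset.prod_mul_prod_compl R]
    have h1 : ∏ i ∈ R, (opts R i).card = 1 := by
      apply Finset.prod_eq_one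
      intro i hi
      simp only [hopts, if_pos hi, Finset.card_singleton]
    have h2 : ∏ i ∈ Rᶜ, (opts R i).card ≤ (2 * Fintype.card I + 2) ^ (Rᶜ).card := by
      apply Finset.prod_le_pow_card
      intro i hi
      have hi' : i ∉ R := Finset.mem_compl.1 hi
      simp only [hopts, if_neg hi', Finset.card_product, Finset.card_univ, Fintype.card_bool]
      have h3 : (insert none (R.image some) : Finset (Option I)).card ≤ R.card + 1 :=
        (Finset.card_insert_le _ _).trans (Nat.add_le_add_right Finset.card_image_le 1)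
      have h4 : R.card ≤ Fintype.card I := Finset.card_le_univ R
      omega
    rw [h1, one_mul]
    refine h2.trans (Nat.pow_le_pow_right (by omega) ?_)
    rw [Finset.card_compl]
    omega
  refine (Finset.card_le_card hsub).trans ?_
  refine (Finset.card_biUnion_le_card_mul _ _ _ hcard).trans ?_
  apply Nat.mul_le_mul_right
  refine (Finset.card_le_univ _).trans ?_
  rw [Fintype.card_finset]

theorem certA_valMinAbs (b : Bool) (x : ZMod 3) :
    (((sg b : ℤ) : ZMod 3) * x).valMinAbs = sg b * x.valMinAbs := by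
  revert x
  cases b <;> decide

theorem certA_rep (φ : CD I) (i : I) (hi : i ∈ reps φ) : φ i = (some i, true) :=
  (Finset.mem_filter.1 hi).2

theorem certA_lft_some (φ : CD I) (v : {i // i ∈ reps φ} → ZMod 3) (i j : I) (hj : j ∈ reps φ)
    (h : (φ i).1 = some j) : lft φ v i = ((sg (φ i).2 : ℤ) : ZMod 3) * v ⟨j, hj⟩ := by
  unfold lft
  rw [h]
  simp only [dif_pos hj]

theorem certA_lft_none (φ : CD I) (v : {i // i ∈ reps φ} → ZMod 3) (i : I)
    (h : (φ i).1 = none) : lft φ v i = 0 := by
  unfold lft
  rw [h]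

/-- `lft φ` as a linear map. -/
def certA_lin (φ : CD I) : ({i // i ∈ reps φ} → ZMod 3) →ₗ[ZMod 3] (I → ZMod 3) where
  toFun := lft φ
  map_add' v w := by
    funext i
    rw [Pi.add_apply]
    unfold lft
    rcases (φ i).1 with _ | j
    · simp only [add_zero]
    · by_cases hj : j ∈ reps φ
      · simp only [dif_pos hj, Pi.add_apply, mul_add]
      · simp only [dif_neg hj, add_zero]
  map_smul' c v := by
    funext i
    rw [Pi.smul_apply]
    unfold lft
    rcases (φ i).1 with _ | j
    · simp only [smul_zero]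
    · by_cases hj : j ∈ reps φ
      · simp only [dif_pos hj, Pi.smul_apply, smul_eq_mul, RingHom.id_apply]
        ring
      · simp only [dif_neg hj, smul_zero]

/-- The lift `lft φ` is linear, injective (on representatives it is the identity), and relations of
`bar φ τ` lift to relations of `τ`: `∑_i (lft φ v i) τ_i = ∑_j v_j bar φ τ j`
(here `(± v).valMinAbs = ± v.valMinAbs` in `ZMod 3`). -/
theorem kill_lft (φ : CD I) (hφ : Valid φ) (τ : I → G) (v : {i // i ∈ reps φ} → ZMod 3)
    (h : Kill (bar φ τ) v) : Kill τ (lft φ v) := by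
  unfold Kill at h ⊢
  have h1 : ∑ i, (lft φ v i).valMinAbs • τ i = ∑ o : Option I,
      ∑ i ∈ univ.filter (fun i => (φ i).1 = o), (lft φ v i).valMinAbs • τ i := by
    rw [Finset.sum_fiberwise]
  rw [h1, Fintype.sum_option]
  have h2 : ∑ i ∈ univ.filter (fun i => (φ i).1 = none), (lft φ v i).valMinAbs • τ i = 0 := by
    apply Finset.sum_eq_zero
    intro i hi
    rw [certA_lft_none φ v i (Finset.mem_filter.1 hi).2, ZMod.valMinAbs_zero, zero_smul]
  have h3 : ∑ j : I, ∑ i ∈ univ.filter (fun i => (φ i).1 = some j), (lft φ v i).valMinAbs • τ i =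
      ∑ j ∈ reps φ, ∑ i ∈ univ.filter (fun i => (φ i).1 = some j),
        (lft φ v i).valMinAbs • τ i := by
    symm
    apply Finset.sum_subset (Finset.subset_univ _)
    intro j _ hj
    apply Finset.sum_eq_zero
    intro i hi
    have hi' := (Finset.mem_filter.1 hi).2
    exact absurd (hφ i j (φ i).2 (by rw [← hi'])) hj
  rw [h2, zero_add, h3, ← Finset.sum_coe_sort, ← h]
  refine Finset.sum_congr rfl fun j _ => ?_
  unfold bar
  rw [Finset.smul_sum]
  refine Finset.sum_congr rfl fun i hi => ?_
  rw [certA_lft_some φ v i j j.2 (Finset.mem_filter.1 hi).2, certA_valMinAbs, smul_smul, mul_comm]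

theorem lft_apply (φ : CD I) (v : {i // i ∈ reps φ} → ZMod 3) (i : {i // i ∈ reps φ}) :
    lft φ v i = v i := by
  have h := certA_rep φ i i.2
  rw [certA_lft_some φ v i i i.2 (by rw [h]), h]
  show ((sg true : ℤ) : ZMod 3) * v i = v i
  have h2 : ((sg true : ℤ) : ZMod 3) = 1 := by decide
  rw [h2, one_mul]

theorem finrank_lft (φ : CD I) (A : Finset ({i // i ∈ reps φ} → ZMod 3)) :
    Module.finrank (ZMod 3) (Submodule.span (ZMod 3) (A : Set ({i // i ∈ reps φ} → ZMod 3))) ≤
      Module.finrank (ZMod 3) (Submodule.span (ZMod 3)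
        ((A.image (lft φ) : Finset (I → ZMod 3)) : Set (I → ZMod 3))) := by
  have hinj : Function.Injective (certA_lin φ) := by
    intro v w h
    funext i
    rw [← lft_apply φ v i, ← lft_apply φ w i]
    exact congrFun h (i : I)
  have h1 : Submodule.span (ZMod 3)
      ((A.image (lft φ) : Finset (I → ZMod 3)) : Set (I → ZMod 3)) =
      (Submodule.span (ZMod 3) (A : Set ({i // i ∈ reps φ} → ZMod 3))).map (certA_lin φ) := by
    rw [Submodule.map_span, Finset.coe_image]
    rfl
  rw [h1]
  exact ((LinearEquiv.finrank_eq (Submodule.equivMapOfInjective _ hinj _))).le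

/-- Completing a set of vectors by few sign vectors.

Proof. Let `U` be the span of `A`, of dimension at least `r - t`. The span of `U` and `v3 '' S` has
dimension at least `dd S = r` (`dir_Zs`), so adding successively elements of `v3 '' S` outside the
current span one reaches dimension at least `r` after at most `t` steps; pad the list with arbitrary
elements of `S`. -/
theorem exists_completion (τ : I → G) (h0 : (Zs τ).Nonempty) (t : ℕ)
    (A : Finset (I → ZMod 3))
    (hA : dd (Zs τ) ≤ Module.finrank (ZMod 3) (Submodule.span (ZMod 3) (A : Set (I → ZMod 3))) + t) :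
    ∃ w : Fin t → (I → Bool), (∀ k, w k ∈ Zs τ) ∧
      dd (Zs τ) ≤ Module.finrank (ZMod 3) (Submodule.span (ZMod 3)
        ((A ∪ univ.image (fun k => v3 (w k)) : Finset (I → ZMod 3)) : Set (I → ZMod 3))) := by
  obtain ⟨e0, he0⟩ := h0
  induction t generalizing A with
  | zero =>
    refine ⟨fun k => k.elim0, fun k => k.elim0, ?_⟩
    rw [add_zero] at hA
    refine hA.trans (Submodule.finrank_mono (Submodule.span_mono ?_))
    rw [Finset.coe_union]
    exact Set.subset_union_left
  | succ t ih =>
    have step : ∀ (e : I → Bool) (A' : Finset (I → ZMod 3)), e ∈ Zs τ →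
        (A' ⊆ insert (v3 e) A) →
        dd (Zs τ) ≤ Module.finrank (ZMod 3)
          (Submodule.span (ZMod 3) (A' : Set (I → ZMod 3))) + t →
        ∃ w : Fin (t + 1) → (I → Bool), (∀ k, w k ∈ Zs τ) ∧
          dd (Zs τ) ≤ Module.finrank (ZMod 3) (Submodule.span (ZMod 3)
            ((A ∪ univ.image (fun k => v3 (w k)) : Finset (I → ZMod 3)) :
              Set (I → ZMod 3))) := by
      intro e A' he hsub hA'
      obtain ⟨w, hw, hr⟩ := ih A' hA'
      refine ⟨Fin.cons e w, ?_, ?_⟩
      · intro k
        refine Fin.cases ?_ (fun k => ?_) k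
        · rw [Fin.cons_zero]; exact he
        · rw [Fin.cons_succ]; exact hw k
      · refine hr.trans (Submodule.finrank_mono (Submodule.span_mono ?_))
        rw [Finset.coe_subset]
        intro x hx
        rw [Finset.mem_union, Finset.mem_image] at hx ⊢
        rcases hx with hx | ⟨k, -, hk⟩
        · rcases Finset.mem_insert.1 (hsub hx) with rfl | h
          · exact Or.inr ⟨0, Finset.mem_univ _, by rw [Fin.cons_zero]⟩
          · exact Or.inl h
        · exact Or.inr ⟨k.succ, Finset.mem_univ _, by rw [Fin.cons_succ]; exact hk⟩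
    by_cases hle : dd (Zs τ) ≤ Module.finrank (ZMod 3)
        (Submodule.span (ZMod 3) (A : Set (I → ZMod 3))) + t
    · exact step e0 A he0 (Finset.subset_insert _ _) hle
    · have hex : ∃ e ∈ Zs τ, v3 e ∉ Submodule.span (ZMod 3) (A : Set (I → ZMod 3)) := by
        by_contra hcon
        push Not at hcon
        apply hle
        have h1 : dir (Zs τ) ≤ Submodule.span (ZMod 3) (A : Set (I → ZMod 3)) := by
          rw [dir_Zs, Submodule.span_le]
          rintro _ ⟨e, he, rfl⟩
          exact hcon e he
        have h2 : dd (Zs τ) ≤ Module.finrank (ZMod 3)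
            (Submodule.span (ZMod 3) (A : Set (I → ZMod 3))) := Submodule.finrank_mono h1
        omega
      obtain ⟨e, he, hne⟩ := hex
      refine step e (insert (v3 e) A) he (Finset.Subset.refl _) ?_
      have h1 : Module.finrank (ZMod 3) (Submodule.span (ZMod 3) (A : Set (I → ZMod 3))) <
          Module.finrank (ZMod 3) (Submodule.span (ZMod 3)
            ((insert (v3 e) A : Finset (I → ZMod 3)) : Set (I → ZMod 3))) := by
        apply Submodule.finrank_lt_finrank_of_lt
        rw [lt_iff_le_not_ge]
        constructor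
        · apply Submodule.span_mono
          rw [Finset.coe_insert]
          exact Set.subset_insert _ _
        · intro hle'
          apply hne
          apply hle'
          apply Submodule.subset_span
          rw [Finset.coe_insert]
          exact Set.mem_insert _ _
      omega

/-- The certificate of `τ`.

Proof. `str` gives `φ` and `c`. Apply the property of `Q φ` to `bar φ τ` and `c`, get `A` with
`|reps φ| ≤ 5 Y + rank A`; lift by `kill_lft`, `finrank_lft`:
`dd (Zs τ) ≤ |reps φ| + 104 Y ≤ rank (A.image (lft φ)) + 109 Y`. Complete by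
`exists_completion` with `t = 109 Y`, and use `kill_v3`. -/
theorem exists_cert (hG : ∀ g : G, (2 : ℕ) • g = 0 → g = 0) (τ : I → G) (Y : ℕ)
    (h0 : (Zs τ).Nonempty) (hY : 2 ^ dd (Zs τ) ≤ 2 ^ Y * (Zs τ).card)
    (Q : ∀ φ : CD I, Finset (Finset ({i // i ∈ reps φ} → ZMod 3)))
    (hQ : ∀ (φ : CD I) (σ : {i // i ∈ reps φ} → G) (c : G),
      2 ^ Fintype.card {i // i ∈ reps φ} ≤ 2 ^ (5 * Y) * cnt σ c →
        ∃ A ∈ Q φ, (∀ v ∈ A, Kill σ v) ∧ Fintype.card {i // i ∈ reps φ} ≤ 5 * Y +
          Module.finrank (ZMod 3) (Submodule.span (ZMod 3)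
            (A : Set ({i // i ∈ reps φ} → ZMod 3)))) :
    ∃ φ : CD I, Valid φ ∧ dd (Zs τ) ≤ (reps φ).card + 104 * Y ∧ ∃ A ∈ Q φ,
      ∃ w : Fin (109 * Y) → (I → Bool),
        (∀ v ∈ (A.image (lft φ) ∪ univ.image (fun k => v3 (w k)) : Finset (I → ZMod 3)),
          Kill τ v) ∧
        dd (Zs τ) ≤ Module.finrank (ZMod 3) (Submodule.span (ZMod 3)
          ((A.image (lft φ) ∪ univ.image (fun k => v3 (w k)) : Finset (I → ZMod 3)) :
            Set (I → ZMod 3))) := by
  obtain ⟨φ, hV, hd, c, hc⟩ := str τ Y h0 hY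
  have hcard : Fintype.card {i // i ∈ reps φ} = (reps φ).card := Fintype.card_coe _
  rw [← hcard] at hc
  obtain ⟨A, hAQ, hAK, hAr⟩ := hQ φ (bar φ τ) c hc
  have h1 := finrank_lft φ A
  obtain ⟨w, hw, hr⟩ := exists_completion τ h0 (109 * Y) (A.image (lft φ)) (by
    rw [hcard] at hAr
    omega)
  refine ⟨φ, hV, hd, A, hAQ, w, ?_, hr⟩
  intro v hv
  rw [Finset.mem_union, Finset.mem_image, Finset.mem_image] at hv
  rcases hv with ⟨u, hu, rfl⟩ | ⟨k, -, rfl⟩
  · exact kill_lft φ hV τ u (hAK u hu)
  · rw [kill_v3]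
    exact (Finset.mem_filter.1 (hw k)).2

end Pool.Agent.W_MP_a45265_h99
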