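import Mathlib
import Pool.Agent.W_MP_a45265_h99.Basic

set_option autoImplicit false

/-!
# The number of solutions modulo `3^j` of relations of given rank modulo `3`
-/

namespace Pool.Agent.W_MP_a45265_h99

open Finset

/-- A vector over `F_3` orthogonal to a spanning set is zero. -/
theorem kc_orth {s : ℕ} (E : Set (Fin s → ZMod 3)) (hE : Submodule.span (ZMod 3) E = ⊤)
    (u : Fin s → ZMod 3) (hu : ∀ e ∈ E, ∑ i, e i * u i = 0) : u = 0 := by
  have h1 : ∀ x : Fin s → ZMod 3, ∑ i, x i * u i = 0 := by
    intro x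
    have hx : x ∈ Submodule.span (ZMod 3) E := by rw [hE]; trivial
    induction hx using Submodule.span_induction with
    | mem x hx => exact hu x hx
    | zero => simp
    | add x y _ _ hx hy =>
      simp only [Pi.add_apply, add_mul, sum_add_distrib, hx, hy, add_zero]
    | smul a x _ hx =>
      simp only [Pi.smul_apply, smul_eq_mul, mul_assoc, ← mul_sum, hx, mul_zero]
  funext i
  have h2 := h1 (Pi.single i 1)
  rw [sum_eq_single i] at h2
  · simpa using h2
  · intro k _ hk
    rw [Pi.single_eq_of_ne hk, zero_mul]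
  · intro h; exact absurd (mem_univ i) h

/-- The lifted relations of a spanning set have only the trivial solution modulo `3^j`. -/
theorem kc_dvd {s : ℕ} (E : Set (Fin s → ZMod 3)) (hE : Submodule.span (ZMod 3) E = ⊤) (j : ℕ)
    (D : Fin s → ℤ) (hD : ∀ e ∈ E, (3 ^ j : ℤ) ∣ ∑ i, (e i).valMinAbs * D i) :
    ∀ i, (3 ^ j : ℤ) ∣ D i := by
  induction j with
  | zero => intro i; simp
  | succ j ih =>
    have h1 := ih fun e he => (pow_dvd_pow 3 (Nat.le_succ j)).trans (hD e he)
    choose U hU using h1
    have h2 : (fun i => ((U i : ℤ) : ZMod 3)) = 0 := by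
      refine kc_orth E hE _ fun e he => ?_
      have h3 := hD e he
      have h4 : ∑ i, (e i).valMinAbs * D i = 3 ^ j * ∑ i, (e i).valMinAbs * U i := by
        rw [mul_sum]
        refine sum_congr rfl fun i _ => ?_
        rw [hU i]; ring
      rw [h4, pow_succ] at h3
      have h5 : (3 : ℤ) ∣ ∑ i, (e i).valMinAbs * U i :=
        Int.dvd_of_mul_dvd_mul_left (by positivity) h3
      have h6 : ((∑ i, (e i).valMinAbs * U i : ℤ) : ZMod 3) = 0 :=
        (ZMod.intCast_zmod_eq_zero_iff_dvd _ 3).2 (by exact_mod_cast h5)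
      push_cast at h6
      simpa using h6
    intro i
    have h3 : ((U i : ℤ) : ZMod 3) = 0 := congrFun h2 i
    have h4 : (3 : ℤ) ∣ U i := by
      have := (ZMod.intCast_zmod_eq_zero_iff_dvd (U i) 3).1 h3
      exact_mod_cast this
    rw [hU i, pow_succ]
    exact mul_dvd_mul_left _ h4

/-- Proof. Let `r` be the rank over `F_3` of `A`. Choose `r` independent vectors `v_1, …, v_r ∈ A`, and
`r` columns `C ⊆ Fin s` such that the `r × r` minor `(v_a i)_{a, i ∈ C}` is nonzero modulo `3`. Its
integer lift (`valMinAbs`) has determinant prime to `3`, so it is invertible over `ZMod (3^j)`.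
Hence a solution `t` is determined by its coordinates outside `C`: the number of solutions is at
most `(3^j)^(s - r)`. (For the columns: the evaluation functionals at `i : Fin s` restricted to
the span of `A` span its dual, choose a basis among them.)

Alternative: induction on `j`; reduction modulo `3^j` maps solutions modulo `3^(j+1)` to
solutions modulo `3^j`, and two solutions with the same image differ by `3^j σ` where `σ` is a
solution modulo `3`, of which there are `3^(s - r)`. -/
theorem ker_count (j s : ℕ) (A : Finset (Fin s → ZMod 3)) :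
    (univ.filter (fun t : Fin s → ZMod (3 ^ j) => ∀ v ∈ A, Kill t v)).card *
      (3 ^ j) ^ (Module.finrank (ZMod 3) (Submodule.span (ZMod 3) (A : Set (Fin s → ZMod 3)))) ≤
      (3 ^ j) ^ s := by
  classical
  obtain ⟨b, hbA, hbspan, hb⟩ := exists_linearIndependent (ZMod 3) (A : Set (Fin s → ZMod 3))
  obtain ⟨E, -, hbE, hEspan, hE⟩ := exists_linearIndepOn_id_extension
    (show LinearIndepOn (ZMod 3) id b from hb) (Set.subset_univ b)
  have hEtop : Submodule.span (ZMod 3) E = ⊤ := by
    rw [eq_top_iff]
    intro x _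
    exact hEspan (Set.mem_univ x)
  set b' : Finset (Fin s → ZMod 3) := (Set.toFinite b).toFinset with hb'
  set E' : Finset (Fin s → ZMod 3) := (Set.toFinite E).toFinset with hE'
  have hcb : Module.finrank (ZMod 3)
      (Submodule.span (ZMod 3) (A : Set (Fin s → ZMod 3))) = b'.card := by
    rw [← hbspan]
    have h1 := finrank_span_set_eq_card hb
    rw [h1, hb', Set.Finite.card_toFinset, Set.toFinset_card]
  have hcE : E'.card = s := by
    have h1 := finrank_span_set_eq_card hE
    rw [hEtop, finrank_top, Module.finrank_fin_fun, Set.toFinset_card] at h1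
    rw [hE', Set.Finite.card_toFinset, ← h1]
  have hsub : b' ⊆ E' := by
    intro x hx
    rw [hb', Set.Finite.mem_toFinset] at hx
    rw [hE', Set.Finite.mem_toFinset]
    exact hbE hx
  -- the map to the values on `E' \ b'`
  have hcard : (univ.filter (fun t : Fin s → ZMod (3 ^ j) => ∀ v ∈ A, Kill t v)).card ≤
      Fintype.card ({e // e ∈ E' \ b'} → ZMod (3 ^ j)) := by
    rw [← Finset.card_univ]
    refine card_le_card_of_injOn (fun t => fun e => ∑ i, ((e : Fin s → ZMod 3) i).valMinAbs • t i)
      (fun _ _ => mem_coe.2 (mem_univ _)) ?_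
    intro t ht t' ht' htt
    have hk : ∀ v ∈ A, Kill t v := (mem_filter.1 (mem_coe.1 ht)).2
    have hk' : ∀ v ∈ A, Kill t' v := (mem_filter.1 (mem_coe.1 ht')).2
    have h1 : ∀ e ∈ E, ∑ i, (e i).valMinAbs • (t i - t' i) = 0 := by
      intro e he
      simp only [smul_sub, sum_sub_distrib]
      by_cases heb : e ∈ b
      · have h2 := hk e (hbA heb)
        have h3 := hk' e (hbA heb)
        unfold Kill at h2 h3
        rw [h2, h3, sub_zero]
      · have h2 : e ∈ E' \ b' := by
          rw [mem_sdiff, hE', hb', Set.Finite.mem_toFinset, Set.Finite.mem_toFinset]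
          exact ⟨he, heb⟩
        have h3 := congrFun htt ⟨e, h2⟩
        rw [sub_eq_zero]
        exact h3
    have h2 := kc_dvd E hEtop j (fun i => ((t i - t' i).val : ℤ)) (by
      intro e he
      have h3 := h1 e he
      have h4 : ((∑ i, (e i).valMinAbs * ((t i - t' i).val : ℤ) : ℤ) : ZMod (3 ^ j)) = 0 := by
        rw [← h3]
        push_cast
        refine sum_congr rfl fun i _ => ?_
        rw [ZMod.natCast_zmod_val, zsmul_eq_mul]
      have h5 := (ZMod.intCast_zmod_eq_zero_iff_dvd _ (3 ^ j)).1 h4
      exact_mod_cast h5)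
    funext i
    have h3 := h2 i
    have h4 : (((t i - t' i).val : ℤ) : ZMod (3 ^ j)) = 0 :=
      (ZMod.intCast_zmod_eq_zero_iff_dvd _ (3 ^ j)).2 (by exact_mod_cast h3)
    rw [Int.cast_natCast, ZMod.natCast_zmod_val] at h4
    exact sub_eq_zero.1 h4
  rw [hcb]
  have h1 : Fintype.card ({e // e ∈ E' \ b'} → ZMod (3 ^ j)) = (3 ^ j) ^ (E' \ b').card := by
    rw [Fintype.card_fun, ZMod.card, Fintype.card_coe]
  rw [h1] at hcard
  calc _ ≤ (3 ^ j) ^ (E' \ b').card * (3 ^ j) ^ b'.card := Nat.mul_le_mul_right _ hcard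
    _ = (3 ^ j) ^ s := by
      rw [← pow_add, card_sdiff_add_card_eq_card hsub, hcE]

/-- No `2`-torsion. -/
theorem two_torsion (j : ℕ) (x : ZMod (3 ^ j)) (h : (2 : ℕ) • x = 0) : x = 0 := by
  have hu : IsUnit ((2 : ℕ) : ZMod (3 ^ j)) := by
    rw [ZMod.isUnit_iff_coprime]
    exact Nat.Coprime.pow_right _ (by norm_num)
  rw [nsmul_eq_mul] at h
  exact (hu.mul_right_eq_zero).1 h

end Pool.Agent.W_MP_a45265_h99
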