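import Mathlib
import Pool.Agent.W_MP_a45265_h99.CertA
import Pool.Agent.W_MP_a45265_h99.KerCnt

set_option autoImplicit false

/-!
# The number of tuples of given rank and density
-/

namespace Pool.Agent.W_MP_a45265_h99

open Finset

/-- Proof. For `φ : CD (Fin s)` let `Q φ` be the family of `lemR` with `z = 5 Y`,
`J = {i // i ∈ reps φ}`, of cardinality at most `3^((5 Y + 1) s)`. By `exists_cert` every `t` in the
set on the left is, for some certificate `(φ, A, w)` with `Valid φ`, `r - 104 Y ≤ |reps φ|`,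
`A ∈ Q φ`, killed by all vectors of `N = A.image (lft φ) ∪ range (v3 ∘ w)`, of rank at least `r`. For
each certificate with `rank N ≥ r` the number of such `t` is at most `(3^j)^(s - r)`
(`ker_count`). The number of certificates is at most
`2^s (2 s + 2)^(s - (r - 104 Y)) * 3^((5 Y + 1) s) * 2^(109 Y s)` (`card_valid`). Now
`s - (r - 104 Y) ≤ (s - r) + 104 Y` (note `r ≤ s`, `dd_le_card`),
`(2 s + 2)^(104 Y) ≤ (2^(s+1))^(104 Y) ≤ 2^(208 Y s)`,
`3^((5 Y + 1) s) ≤ 2^(2 (6 Y) s)`, `2^s ≤ 2^(Y s)`; in total `208 + 12 + 109 + 1 = 330`. -/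
theorem cert_count (j s r Y : ℕ) (hs : 1 ≤ s) (hY : 1 ≤ Y) :
    (univ.filter (fun t : Fin s → ZMod (3 ^ j) => (Zs t).Nonempty ∧ dd (Zs t) = r ∧
      2 ^ r ≤ 2 ^ Y * (Zs t).card)).card ≤
      2 ^ (330 * Y * s) * (2 * s + 2) ^ (s - r) * (3 ^ j) ^ (s - r) := by
  classical
  have hG : ∀ g : ZMod (3 ^ j), (2 : ℕ) • g = 0 → g = 0 := two_torsion j
  choose Q hQ1 hQ2 using fun φ : CD (Fin s) => lemR (5 * Y) {i // i ∈ reps φ}
  obtain ⟨m0, hm0⟩ : ∃ m0, m0 = r - 104 * Y := ⟨_, rfl⟩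
  obtain ⟨N, hN⟩ : ∃ N : ∀ φ : CD (Fin s), Finset ({i // i ∈ reps φ} → ZMod 3) →
      (Fin (109 * Y) → (Fin s → Bool)) → Finset (Fin s → ZMod 3),
      N = fun φ A w => A.image (lft φ) ∪ univ.image (fun k => v3 (w k)) := ⟨_, rfl⟩
  obtain ⟨K, hK⟩ : ∃ K : ∀ φ : CD (Fin s), Finset ({i // i ∈ reps φ} → ZMod 3) →
      (Fin (109 * Y) → (Fin s → Bool)) → Finset (Fin s → ZMod (3 ^ j)),
      K = fun φ A w => if r ≤ Module.finrank (ZMod 3) (Submodule.span (ZMod 3)
        (N φ A w : Set (Fin s → ZMod 3))) then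
          univ.filter (fun t : Fin s → ZMod (3 ^ j) => ∀ v ∈ N φ A w, Kill t v) else ∅ :=
    ⟨_, rfl⟩
  have hKcard : ∀ φ A w, (K φ A w).card ≤ (3 ^ j) ^ (s - r) := by
    intro φ A w
    rw [hK]
    dsimp only
    split_ifs with h
    · have h1 := ker_count j s (N φ A w)
      have h2 : Module.finrank (ZMod 3) (Submodule.span (ZMod 3)
          (N φ A w : Set (Fin s → ZMod 3))) ≤ s := by
        refine (Submodule.finrank_le _).trans ?_
        rw [Module.finrank_fintype_fun_eq_card, Fintype.card_fin]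
      obtain ⟨d, hd⟩ : ∃ d, d = Module.finrank (ZMod 3) (Submodule.span (ZMod 3)
          (N φ A w : Set (Fin s → ZMod 3))) := ⟨_, rfl⟩
      rw [← hd] at h1 h2 h
      have h3 : (3 ^ j) ^ s = (3 ^ j) ^ (s - d) * (3 ^ j) ^ d := by
        rw [← pow_add, Nat.sub_add_cancel h2]
      rw [h3] at h1
      have h4 := Nat.le_of_mul_le_mul_right h1 (by positivity)
      refine h4.trans (Nat.pow_le_pow_right (by positivity) ?_)
      omega
    · rw [Finset.card_empty]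
      exact Nat.zero_le _
  have hsub : univ.filter (fun t : Fin s → ZMod (3 ^ j) => (Zs t).Nonempty ∧ dd (Zs t) = r ∧
      2 ^ r ≤ 2 ^ Y * (Zs t).card) ⊆
      (univ.filter (fun φ : CD (Fin s) => Valid φ ∧ m0 ≤ (reps φ).card)).biUnion
        (fun φ => (Q φ).biUnion (fun A => (univ : Finset (Fin (109 * Y) → (Fin s → Bool))).biUnion
          (fun w => K φ A w))) := by
    intro t ht
    obtain ⟨-, h0, hdd, hYt⟩ := Finset.mem_filter.1 ht
    rw [← hdd] at hYt
    obtain ⟨φ, hφ, hr, A, hA, w, hkill, hrank⟩ := exists_cert hG t Y h0 hYt Q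
      (fun φ σ c h => hQ2 φ (ZMod (3 ^ j)) hG σ c h)
    refine Finset.mem_biUnion.2 ⟨φ, Finset.mem_filter.2 ⟨Finset.mem_univ _, hφ, ?_⟩, ?_⟩
    · omega
    · refine Finset.mem_biUnion.2 ⟨A, hA, Finset.mem_biUnion.2 ⟨w, Finset.mem_univ _, ?_⟩⟩
      rw [hdd] at hrank
      have hNe : N φ A w = A.image (lft φ) ∪ univ.image (fun k => v3 (w k)) := by rw [hN]
      rw [hK]
      dsimp only
      rw [hNe, if_pos hrank]
      exact Finset.mem_filter.2 ⟨Finset.mem_univ _, hkill⟩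
  refine (Finset.card_le_card hsub).trans ?_
  have hb : ∀ φ ∈ univ.filter (fun φ : CD (Fin s) => Valid φ ∧ m0 ≤ (reps φ).card),
      ((Q φ).biUnion (fun A => (univ : Finset (Fin (109 * Y) → (Fin s → Bool))).biUnion
          (fun w => K φ A w))).card ≤
        3 ^ ((5 * Y + 1) * s) * ((2 ^ s) ^ (109 * Y) * (3 ^ j) ^ (s - r)) := by
    intro φ _
    refine (Finset.card_biUnion_le_card_mul (Q φ) _ ((2 ^ s) ^ (109 * Y) * (3 ^ j) ^ (s - r))
      (fun A _ => ?_)).trans ?_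
    · refine (Finset.card_biUnion_le_card_mul univ _ ((3 ^ j) ^ (s - r))
        (fun w _ => hKcard φ A w)).trans ?_
      rw [Finset.card_univ, Fintype.card_fun, Fintype.card_fun, Fintype.card_bool,
        Fintype.card_fin, Fintype.card_fin]
    · refine Nat.mul_le_mul_right _ ((hQ1 φ).trans (Nat.pow_le_pow_right (by norm_num) ?_))
      refine Nat.mul_le_mul_left _ ?_
      have h1 : Fintype.card {i // i ∈ reps φ} ≤ Fintype.card (Fin s) :=
        Fintype.card_subtype_le _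
      rwa [Fintype.card_fin] at h1
  refine (Finset.card_biUnion_le_card_mul _ _ _ hb).trans ?_
  have hcv := card_valid (I := Fin s) m0
  rw [Fintype.card_fin] at hcv
  refine (Nat.mul_le_mul_right _ hcv).trans ?_
  have e1 : (2 * s + 2) ^ (s - m0) ≤ (2 * s + 2) ^ (s - r) * 2 ^ (208 * Y * s) := by
    have h1 : (2 * s + 2) ^ (s - m0) ≤ (2 * s + 2) ^ ((s - r) + 104 * Y) :=
      Nat.pow_le_pow_right (by omega) (by omega)
    have h2 : 2 * s + 2 ≤ 2 ^ (2 * s) := by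
      have h3 : s + 1 ≤ 2 ^ s := Nat.lt_two_pow_self
      have h4 : 2 ^ (s + 1) ≤ 2 ^ (2 * s) := Nat.pow_le_pow_right (by norm_num) (by omega)
      have h5 : 2 ^ (s + 1) = 2 * 2 ^ s := by ring
      omega
    have h3 : (2 * s + 2) ^ (104 * Y) ≤ 2 ^ (208 * Y * s) := by
      calc (2 * s + 2) ^ (104 * Y) ≤ (2 ^ (2 * s)) ^ (104 * Y) := Nat.pow_le_pow_left h2 _
        _ = 2 ^ (208 * Y * s) := by rw [← pow_mul]; congr 1; ring
    rw [pow_add] at h1
    exact h1.trans (Nat.mul_le_mul_left _ h3)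
  have e2 : 3 ^ ((5 * Y + 1) * s) ≤ 2 ^ (12 * Y * s) := by
    calc 3 ^ ((5 * Y + 1) * s) ≤ 4 ^ ((5 * Y + 1) * s) := Nat.pow_le_pow_left (by norm_num) _
      _ = 2 ^ (2 * ((5 * Y + 1) * s)) := by
          rw [pow_mul 2 2]
          norm_num
      _ ≤ 2 ^ (12 * Y * s) := by
          apply Nat.pow_le_pow_right (by norm_num)
          nlinarith
  have e3 : 2 ^ s ≤ 2 ^ (Y * s) := by
    apply Nat.pow_le_pow_right (by norm_num)
    nlinarith
  have e4 : (2 ^ s) ^ (109 * Y) = 2 ^ (109 * Y * s) := by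
    rw [← pow_mul]; congr 1; ring
  rw [e4]
  calc 2 ^ s * (2 * s + 2) ^ (s - m0) *
        (3 ^ ((5 * Y + 1) * s) * (2 ^ (109 * Y * s) * (3 ^ j) ^ (s - r)))
      ≤ 2 ^ (Y * s) * ((2 * s + 2) ^ (s - r) * 2 ^ (208 * Y * s)) *
        (2 ^ (12 * Y * s) * (2 ^ (109 * Y * s) * (3 ^ j) ^ (s - r))) := by
        refine Nat.mul_le_mul (Nat.mul_le_mul e3 e1) (Nat.mul_le_mul_right _ e2)
    _ = (2 ^ (Y * s) * 2 ^ (208 * Y * s) * 2 ^ (12 * Y * s) * 2 ^ (109 * Y * s)) *
        (2 * s + 2) ^ (s - r) * (3 ^ j) ^ (s - r) := by ring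
    _ = 2 ^ (330 * Y * s) * (2 * s + 2) ^ (s - r) * (3 ^ j) ^ (s - r) := by
        rw [← pow_add, ← pow_add, ← pow_add]
        congr 3
        ring

end Pool.Agent.W_MP_a45265_h99
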