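import Mathlib
import Pool.Agent.W_MP_a45265_h99.StrT
import Pool.Agent.W_MP_a45265_h99.FourB

set_option autoImplicit false

/-!
# Few singleton classes, hence small rank
-/

namespace Pool.Agent.W_MP_a45265_h99

open Finset

/-- Proof. `str` gives `φ, c` with `2^m' ≤ 2^(5 Y) cnt (bar φ t) c`, `m' = |reps φ|`. Let `U` be the set
of representatives `j` such that no `i ≠ j` has `(φ i).1 = some j`; for `j ∈ U` one has
`bar φ t j = t j` (the only index in its class is `j`, with `φ j = (some j, true)`). If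
`|U| ≥ 2 m` then `singles` gives `4^m cnt ≤ C(2m, m) 2^m'`, so
`4^m ≤ C(2m, m) 2^(5 Y)`, a contradiction. So `|U| < 2 m`. Choosing for every
`j ∈ reps φ \ U` an index `i ≠ j` with `(φ i).1 = some j` (so `i` is not a representative) shows
`s ≥ m' + (m' - |U|)`. Hence `2 m' ≤ s + 2 m` and `2 dd ≤ 2 m' + 208 Y`. -/
theorem sing_bound {G : Type} [AddCommGroup G] [Finite G] [DecidableEq G] {s : ℕ}
    (t : Fin s → G) (m Y : ℕ) (hm : 0 < m)
    (hmY : Nat.centralBinom m * 2 ^ (5 * Y) < 4 ^ m)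
    (ht : ∀ i, ∀ k : ℕ, 0 < k → k ≤ 2 * m → k • t i ≠ 0)
    (h0 : (Zs t).Nonempty) (hY : 2 ^ dd (Zs t) ≤ 2 ^ Y * (Zs t).card) :
    2 * dd (Zs t) ≤ s + 2 * m + 208 * Y := by
  classical
  obtain ⟨φ, _, hdd, c, hc⟩ := str t Y h0 hY
  set U : Finset {i // i ∈ reps φ} :=
    univ.filter (fun j => ∀ i, (φ i).1 = some (j : Fin s) → i = j) with hU
  have hrep : ∀ j : {i // i ∈ reps φ}, φ (j : Fin s) = (some (j : Fin s), true) := by
    intro j
    have h1 := j.2
    unfold reps at h1
    exact (mem_filter.1 h1).2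
  have hbar : ∀ j ∈ U, bar φ t j = t j := by
    intro j hj
    have h1 : univ.filter (fun i => (φ i).1 = some (j : Fin s)) = {(j : Fin s)} := by
      ext i
      rw [mem_filter, mem_singleton]
      constructor
      · rintro ⟨_, h⟩
        exact (mem_filter.1 hj).2 i h
      · rintro rfl
        exact ⟨mem_univ _, by rw [hrep]⟩
    unfold bar
    rw [h1, sum_singleton, hrep]
    simp [sg]
  have hUc : U.card < 2 * m := by
    by_contra hcon
    push Not at hcon
    have h1 := singles (bar φ t) m hm U hcon (by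
      intro j hj k hk hk2
      rw [hbar j hj]
      exact ht j k hk hk2) c
    rw [Fintype.card_coe] at h1
    have h2 : 4 ^ m * 2 ^ (reps φ).card ≤ Nat.centralBinom m * 2 ^ (5 * Y) * 2 ^ (reps φ).card := by
      calc 4 ^ m * 2 ^ (reps φ).card ≤ 4 ^ m * (2 ^ (5 * Y) * cnt (bar φ t) c) :=
            Nat.mul_le_mul_left _ hc
        _ = 2 ^ (5 * Y) * (4 ^ m * cnt (bar φ t) c) := by ring
        _ ≤ 2 ^ (5 * Y) * (Nat.centralBinom m * 2 ^ (reps φ).card) := Nat.mul_le_mul_left _ h1
        _ = Nat.centralBinom m * 2 ^ (5 * Y) * 2 ^ (reps φ).card := by ring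
    have h3 := Nat.le_of_mul_le_mul_right h2 (by positivity)
    omega
  -- the other classes have a second element
  have hcount : (reps φ).card ≤ U.card + (s - (reps φ).card) := by
    have h1 : (univ : Finset {i // i ∈ reps φ}).card ≤ U.card + (Uᶜ).card := by
      rw [card_compl, ← card_univ]
      omega
    have h2 : (Uᶜ).card ≤ ((reps φ)ᶜ).card := by
      have h3 : ∀ j : {i // i ∈ reps φ}, ∃ i : Fin s, j ∈ Uᶜ →
          ((φ i).1 = some (j : Fin s) ∧ i ≠ j) := by
        intro j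
        by_cases hj : j ∈ Uᶜ
        · have hj' := hj
          rw [mem_compl, hU, mem_filter] at hj'
          push Not at hj'
          obtain ⟨i, hi⟩ := hj' (mem_univ _)
          exact ⟨i, fun _ => hi⟩
        · exact ⟨j, fun h => absurd h hj⟩
      choose f hf using h3
      have hf1 := fun j hj => (hf j hj).1
      have hf2 := fun j hj => (hf j hj).2
      refine card_le_card_of_injOn f ?_ ?_
      · intro j hj
        rw [mem_coe, mem_compl]
        intro hmem
        unfold reps at hmem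
        have h4 := (mem_filter.1 hmem).2
        have h5 := hf1 j hj
        rw [h4] at h5
        exact hf2 j hj (Option.some.inj h5)
      · intro j hj j' hj' hjj
        have h4 := hf1 j hj
        have h5 := hf1 j' hj'
        rw [hjj, h5] at h4
        exact Subtype.ext (Option.some.inj h4.symm)
    have h3 : ((reps φ)ᶜ).card = s - (reps φ).card := by
      rw [card_compl, Fintype.card_fin]
    rw [card_univ, Fintype.card_coe] at h1
    omega
  have hle : (reps φ).card ≤ s := by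
    refine (card_le_univ _).trans ?_
    rw [Fintype.card_fin]
  omega

/-- The central binomial coefficient is small compared with `4^m`.

Proof. `centralBinom m ^ 2 * (2 m + 1) ≤ 16 ^ m` by induction (`Nat.succ_mul_centralBinom_succ`):
`4 (2m+1)^2 (2m+3) ≤ 16 (m+1)^2 (2m+1)`. So it suffices that `N^2 < 2 m + 1`. -/
theorem exists_centralBinom (N : ℕ) : ∃ m : ℕ, 0 < m ∧ Nat.centralBinom m * N < 4 ^ m := by
  have key : ∀ m : ℕ, Nat.centralBinom m ^ 2 * (2 * m + 1) ≤ 16 ^ m := by
    intro m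
    induction m with
    | zero => simp
    | succ m ih =>
      have h1 := Nat.succ_mul_centralBinom_succ m
      have h2 : (m + 1) ^ 2 * (Nat.centralBinom (m + 1) ^ 2 * (2 * (m + 1) + 1)) ≤
          (m + 1) ^ 2 * 16 ^ (m + 1) := by
        calc (m + 1) ^ 2 * (Nat.centralBinom (m + 1) ^ 2 * (2 * (m + 1) + 1))
            = ((m + 1) * Nat.centralBinom (m + 1)) ^ 2 * (2 * m + 3) := by ring
          _ = (2 * (2 * m + 1) * Nat.centralBinom m) ^ 2 * (2 * m + 3) := by rw [h1]
          _ = (4 * (2 * m + 1) * (2 * m + 3)) * (Nat.centralBinom m ^ 2 * (2 * m + 1)) := by ring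
          _ ≤ (4 * (2 * m + 1) * (2 * m + 3)) * 16 ^ m := Nat.mul_le_mul_left _ ih
          _ ≤ (16 * (m + 1) ^ 2) * 16 ^ m := by
              apply Nat.mul_le_mul_right
              nlinarith
          _ = (m + 1) ^ 2 * 16 ^ (m + 1) := by ring
      exact Nat.le_of_mul_le_mul_left h2 (by positivity)
  refine ⟨N ^ 2 + 1, by positivity, ?_⟩
  have h1 := key (N ^ 2 + 1)
  have h2 : 0 < Nat.centralBinom (N ^ 2 + 1) := Nat.centralBinom_pos _
  have h3 : (Nat.centralBinom (N ^ 2 + 1) * N) ^ 2 < (4 ^ (N ^ 2 + 1)) ^ 2 := by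
    calc (Nat.centralBinom (N ^ 2 + 1) * N) ^ 2
        = Nat.centralBinom (N ^ 2 + 1) ^ 2 * N ^ 2 := by ring
      _ < Nat.centralBinom (N ^ 2 + 1) ^ 2 * (2 * (N ^ 2 + 1) + 1) := by
          apply Nat.mul_lt_mul_of_pos_left _ (by positivity)
          omega
      _ ≤ 16 ^ (N ^ 2 + 1) := h1
      _ = (4 ^ (N ^ 2 + 1)) ^ 2 := by
          rw [← pow_mul, mul_comm, pow_mul]
          norm_num
  exact lt_of_pow_lt_pow_left₀ 2 (by positivity) h3

/-- Elements of high order in `ZMod (3^j)`: if `3^j0 • x ≠ 0` then `k • x ≠ 0` for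
`0 < k ≤ 3^j0`.

Proof. `x` has order `3^i` (it divides `3^j`), and `3^i` does not divide `3^j0`, so `i > j0`. If
`k • x = 0` then `3^i ∣ k`, so `k ≥ 3^i > 3^j0`. -/
theorem high_order (j0 j : ℕ) (x : ZMod (3 ^ j)) (hx : (3 ^ j0 : ℕ) • x ≠ 0) (k : ℕ)
    (hk : 0 < k) (hk2 : k ≤ 3 ^ j0) : k • x ≠ 0 := by
  intro h
  have h1 : addOrderOf x ∣ 3 ^ j := by
    rw [addOrderOf_dvd_iff_nsmul_eq_zero, nsmul_eq_mul, ZMod.natCast_self, zero_mul]
  obtain ⟨i, _, hi⟩ := (Nat.dvd_prime_pow Nat.prime_three).1 h1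
  have h2 : addOrderOf x ∣ k := addOrderOf_dvd_iff_nsmul_eq_zero.2 h
  rw [hi] at h2
  have h3 : 3 ^ i ≤ 3 ^ j0 := (Nat.le_of_dvd hk h2).trans hk2
  have h4 : i ≤ j0 := (Nat.pow_le_pow_iff_right (by norm_num)).1 h3
  apply hx
  rw [← addOrderOf_dvd_iff_nsmul_eq_zero, hi]
  exact pow_dvd_pow 3 h4

end Pool.Agent.W_MP_a45265_h99
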