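import Mathlib
import Pool.Agent.W_MP_a45265_h99.CertC
import Pool.Agent.W_MP_a45265_h99.SingT

set_option autoImplicit false

/-!
# The main estimate for the dual moments
-/

namespace Pool.Agent.W_MP_a45265_h99

open Finset

/-- The contribution of rank `r` and density index `Y`.

Proof. `cert_count`; each term is at most `(2^r / (2^(Y-1) 2^s))^n`. Write
`(2 s + 2)^(s-r) (3^j)^(s-r) / 2^((s-r) n) = ((s + 1) 3^j / 2^(n-1))^(s-r)` (`n ≥ 1`, `r ≤ s`). If the
set is empty there is nothing to prove (note `r ≤ s` if it is not empty, by `dd_le_card`). -/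
theorem part_bound (n s j r Y : ℕ) (hn : 1 ≤ n) (hs : 1 ≤ s) (hY : 1 ≤ Y) (hr : r ≤ s) :
    ∑ t ∈ univ.filter (fun t : Fin s → ZMod (3 ^ j) => (Zs t).Nonempty ∧ dd (Zs t) = r ∧
      2 ^ r ≤ 2 ^ Y * (Zs t).card ∧ 2 ^ (Y - 1) * (Zs t).card ≤ 2 ^ r),
        ((cnt t 0 : ℝ) / 2 ^ s) ^ n ≤
      (2 : ℝ) ^ (330 * Y * s) / 2 ^ ((Y - 1) * n) *
        (((s : ℝ) + 1) * 3 ^ j / 2 ^ (n - 1)) ^ (s - r) := by
  have hterm : ∀ t ∈ univ.filter (fun t : Fin s → ZMod (3 ^ j) => (Zs t).Nonempty ∧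
      dd (Zs t) = r ∧ 2 ^ r ≤ 2 ^ Y * (Zs t).card ∧ 2 ^ (Y - 1) * (Zs t).card ≤ 2 ^ r),
      ((cnt t 0 : ℝ) / 2 ^ s) ^ n ≤ ((2 : ℝ) ^ r / (2 ^ (Y - 1) * 2 ^ s)) ^ n := by
    intro t ht
    simp only [mem_filter, mem_univ, true_and] at ht
    have h1 : (2 : ℝ) ^ (Y - 1) * (cnt t 0 : ℝ) ≤ 2 ^ r := by
      rw [← card_Zs]
      exact_mod_cast ht.2.2.2
    refine pow_le_pow_left₀ (by positivity) ?_ n
    rw [div_le_div_iff₀ (by positivity) (by positivity)]
    have h2 : (0 : ℝ) < 2 ^ s := by positivity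
    calc (cnt t 0 : ℝ) * (2 ^ (Y - 1) * 2 ^ s) = (2 ^ (Y - 1) * (cnt t 0 : ℝ)) * 2 ^ s := by ring
      _ ≤ 2 ^ r * 2 ^ s := mul_le_mul_of_nonneg_right h1 h2.le
  have hcard : (univ.filter (fun t : Fin s → ZMod (3 ^ j) => (Zs t).Nonempty ∧
      dd (Zs t) = r ∧ 2 ^ r ≤ 2 ^ Y * (Zs t).card ∧ 2 ^ (Y - 1) * (Zs t).card ≤ 2 ^ r)).card ≤
      2 ^ (330 * Y * s) * (2 * s + 2) ^ (s - r) * (3 ^ j) ^ (s - r) := by
    refine (card_le_card ?_).trans (cert_count j s r Y hs hY)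
    intro t ht
    simp only [mem_filter, mem_univ, true_and] at ht ⊢
    exact ⟨ht.1, ht.2.1, ht.2.2.1⟩
  refine (sum_le_card_nsmul _ _ _ hterm).trans ?_
  rw [nsmul_eq_mul]
  have hcard' : ((univ.filter (fun t : Fin s → ZMod (3 ^ j) => (Zs t).Nonempty ∧
      dd (Zs t) = r ∧ 2 ^ r ≤ 2 ^ Y * (Zs t).card ∧ 2 ^ (Y - 1) * (Zs t).card ≤ 2 ^ r)).card : ℝ) ≤
      2 ^ (330 * Y * s) * (2 * s + 2) ^ (s - r) * (3 ^ j) ^ (s - r) := by
    exact_mod_cast hcard
  refine (mul_le_mul_of_nonneg_right hcard' (by positivity)).trans (le_of_eq ?_)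
  obtain ⟨d, rfl⟩ : ∃ d, s = r + d := ⟨s - r, by omega⟩
  obtain ⟨N, rfl⟩ : ∃ N, n = N + 1 := ⟨n - 1, by omega⟩
  have e1 : r + d - r = d := by omega
  have e2 : N + 1 - 1 = N := by omega
  rw [e1, e2]
  have h3 : ((2 : ℝ) ^ r / (2 ^ (Y - 1) * 2 ^ (r + d))) ^ (N + 1) =
      1 / 2 ^ ((Y - 1) * (N + 1)) * (1 / (2 ^ (N + 1)) ^ d) := by
    have h4 : (2 : ℝ) ^ r / (2 ^ (Y - 1) * 2 ^ (r + d)) = 1 / 2 ^ (Y - 1) * (1 / 2 ^ d) := by
      rw [pow_add 2 r d]
      field_simp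
    rw [h4, mul_pow, div_pow, div_pow, one_pow, ← pow_mul, ← pow_mul, ← pow_mul,
      mul_comm (N + 1) d]
  have h5 : ((((r + d : ℕ) : ℝ) + 1) * 3 ^ j / 2 ^ N) ^ d =
      (2 * ((r + d : ℕ) : ℝ) + 2) ^ d * (3 ^ j) ^ d * (1 / (2 ^ (N + 1)) ^ d) := by
    rw [pow_succ, div_pow, mul_pow, mul_pow]
    have h6 : (2 * ((r + d : ℕ) : ℝ) + 2) = 2 * (((r + d : ℕ) : ℝ) + 1) := by ring
    rw [h6, mul_pow]
    field_simp
  rw [h3, h5]
  ring

/-- Proof. Let `m > 0` with `centralBinom m * 2^(5 * 29) < 4^m` (`exists_centralBinom`), `j0` with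
`2 m ≤ 3^j0`, `C4 = 2 m + 208 * 29`. Let `a = (s + 1) 3^j / 2^(n-1) ≤ 1`.
For `t ∈ HS j0 j s` with `cnt t 0 ≠ 0` let `r = dd (Zs t) ≤ s` and let `Y ≥ 1` be minimal with
`2^r ≤ 2^Y |Zs t|`; then `Y ≤ s` (as `2^r ≤ 2^s`, `|Zs t| ≥ 1`, `s ≥ 1`), and
`2^(Y-1) |Zs t| ≤ 2^r` (for `Y = 1` this is `card_le_two_pow_dd`, for `Y ≥ 2` minimality). So the sum is
at most the sum over `r ≤ s`, `1 ≤ Y ≤ s` of the sums over the sets of `part_bound` intersected with
`HS j0 j s`.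
If `Y ≤ 29`: if the intersected set is not empty then `2 r ≤ s + 2 m + 208 * 29 = s + C4` by `sing_bound`
(with `high_order`; `centralBinom m * 2^(5 Y) < 4^m`), so `s - r ≥ (s - C4) / 2`, and the term is at most
`2^(330 * 29 * s) a^((s - C4)/2)` (`a ≤ 1`). There are at most `29 (s + 1)` such terms and
`29 (s + 1) ≤ 2^(330 s)`; `330 * 29 + 330 = 9900`.
If `Y ≥ 30`: `a^(s-r) ≤ 1` and `330 Y s ≤ Y n / 4` (since `1320 s ≤ n`), so the term is at most
`2^(Y n/4 - (Y-1) n) ≤ 2^(-21 n)` in the sense `4 * 330 Y s + 84 n ≤ 4 (Y-1) n`; there are at most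
`(s + 1) s ≤ 2^n` such terms. -/
theorem momA : ∃ j0 C4 : ℕ, ∀ n s j : ℕ, 1 ≤ n → 1 ≤ s → 1320 * s ≤ n →
    ((s : ℝ) + 1) * 3 ^ j ≤ 2 ^ (n - 1) →
    mom j0 j s n ≤ 2 ^ (9900 * s) * (((s : ℝ) + 1) * 3 ^ j / 2 ^ (n - 1)) ^ ((s - C4) / 2) +
      1 / 2 ^ (20 * n) := by
  obtain ⟨m, hm, hmC⟩ := exists_centralBinom (2 ^ (5 * 29))
  refine ⟨2 * m, 2 * m + 208 * 29, fun n s j hn hs hns ha => ?_⟩
  have hj0 : 2 * m ≤ 3 ^ (2 * m) := (Nat.lt_pow_self (by norm_num)).le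
  set a : ℝ := ((s : ℝ) + 1) * 3 ^ j / 2 ^ (n - 1) with haa
  have ha0 : 0 ≤ a := by positivity
  have ha1 : a ≤ 1 := by
    rw [haa, div_le_one (by positivity)]
    exact ha
  set f : (Fin s → ZMod (3 ^ j)) → ℝ := fun t => ((cnt t 0 : ℝ) / 2 ^ s) ^ n with hf
  have hf0 : ∀ t, 0 ≤ f t := fun t => by
    rw [hf]
    positivity
  set P : ℕ × ℕ → (Fin s → ZMod (3 ^ j)) → Prop := fun p t => (Zs t).Nonempty ∧
    dd (Zs t) = p.1 ∧ 2 ^ p.1 ≤ 2 ^ p.2 * (Zs t).card ∧ 2 ^ (p.2 - 1) * (Zs t).card ≤ 2 ^ p.1 with hP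
  set R : Finset (ℕ × ℕ) := range (s + 1) ×ˢ Icc 1 s with hR
  classical
  -- every tuple with a zero pattern has a rank and a density index
  have hex : ∀ t : Fin s → ZMod (3 ^ j), (Zs t).Nonempty → ∃ p ∈ R, P p t := by
    intro t ht
    have hr : dd (Zs t) ≤ s := by
      have := dd_le_card (Zs t)
      rwa [Fintype.card_fin] at this
    have hz : 1 ≤ (Zs t).card := ht.card_pos
    have hz2 : (Zs t).card ≤ 2 ^ dd (Zs t) := card_le_two_pow_dd (Zs t)
    have hsY : 1 ≤ s ∧ 2 ^ dd (Zs t) ≤ 2 ^ s * (Zs t).card := by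
      refine ⟨hs, ?_⟩
      calc 2 ^ dd (Zs t) ≤ 2 ^ s * 1 := by
            rw [mul_one]
            exact Nat.pow_le_pow_right (by norm_num) hr
        _ ≤ 2 ^ s * (Zs t).card := Nat.mul_le_mul_left _ hz
    have hexY : ∃ Y, 1 ≤ Y ∧ 2 ^ dd (Zs t) ≤ 2 ^ Y * (Zs t).card := ⟨s, hsY⟩
    set Y := Nat.find hexY with hY
    have hYs : 1 ≤ Y ∧ 2 ^ dd (Zs t) ≤ 2 ^ Y * (Zs t).card := Nat.find_spec hexY
    have hYle : Y ≤ s := Nat.find_le hsY
    refine ⟨(dd (Zs t), Y), ?_, ht, rfl, hYs.2, ?_⟩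
    · rw [hR, mem_product, mem_range, mem_Icc]
      exact ⟨by omega, hYs.1, hYle⟩
    · show 2 ^ (Y - 1) * (Zs t).card ≤ 2 ^ dd (Zs t)
      rcases Nat.eq_or_lt_of_le hYs.1 with h1 | h1
      · rw [← h1]
        simpa using hz2
      · have h2 : Y - 1 < Y := by omega
        have h3 := Nat.find_min hexY h2
        by_contra h4
        exact h3 ⟨by omega, by omega⟩
  -- splitting of the moment
  have hsplit : mom (2 * m) j s n ≤ ∑ p ∈ R, ∑ t ∈ (HS (2 * m) j s).filter (P p), f t := by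
    have h1 : ∑ p ∈ R, ∑ t ∈ (HS (2 * m) j s).filter (P p), f t =
        ∑ t ∈ HS (2 * m) j s, ∑ p ∈ R, if P p t then f t else 0 := by
      rw [sum_comm]
      refine sum_congr rfl fun p _ => ?_
      rw [sum_filter]
    rw [h1]
    unfold mom
    refine sum_le_sum fun t _ => ?_
    show f t ≤ _
    by_cases ht : (Zs t).Nonempty
    · obtain ⟨p, hp, hPp⟩ := hex t ht
      have h2 := single_le_sum (f := fun p => if P p t then f t else 0)
        (fun q _ => by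
          show 0 ≤ (if P q t then f t else 0)
          split_ifs
          · exact hf0 t
          · exact le_refl _) hp
      simp only [hPp, if_true] at h2
      exact h2
    · have h3 : cnt t 0 = 0 := by
        rw [← card_Zs, card_eq_zero]
        exact not_nonempty_iff_eq_empty.1 ht
      have h4 : f t = 0 := by
        show ((cnt t 0 : ℝ) / 2 ^ s) ^ n = 0
        rw [h3, Nat.cast_zero, zero_div]
        exact zero_pow (by omega)
      rw [h4]
      refine sum_nonneg fun q _ => ?_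
      split_ifs
      · exact le_refl _
      · exact le_refl _
  set A : ℝ := 2 ^ (9570 * s) * a ^ ((s - (2 * m + 208 * 29)) / 2) with hA
  set B : ℝ := 1 / 2 ^ (21 * n) with hB
  have hA0 : 0 ≤ A := by positivity
  have hB0 : 0 ≤ B := by positivity
  -- the bound for one part
  have hpart : ∀ p ∈ R, ∑ t ∈ (HS (2 * m) j s).filter (P p), f t ≤ if p.2 ≤ 29 then A else B := by
    rintro ⟨r, Y⟩ hp
    rw [hR, mem_product, mem_range, mem_Icc] at hp
    obtain ⟨hr, hY1, hYs⟩ := hp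
    simp only at hr hY1 hYs
    have hr' : r ≤ s := by omega
    have hb : ∑ t ∈ (HS (2 * m) j s).filter (P (r, Y)), f t ≤
        (2 : ℝ) ^ (330 * Y * s) / 2 ^ ((Y - 1) * n) * a ^ (s - r) := by
      refine le_trans ?_ (part_bound n s j r Y hn hs hY1 hr')
      refine sum_le_sum_of_subset_of_nonneg ?_ fun t _ _ => hf0 t
      intro t ht
      rw [mem_filter] at ht ⊢
      exact ⟨mem_univ _, ht.2⟩
    by_cases hY : Y ≤ 29
    · simp only [hY, if_true]
      rcases Finset.eq_empty_or_nonempty ((HS (2 * m) j s).filter (P (r, Y))) with he | ⟨t, ht⟩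
      · rw [he, sum_empty]
        exact hA0
      · rw [mem_filter] at ht
        obtain ⟨htH, ht1, ht2, ht3, _⟩ := ht
        simp only at ht2 ht3
        have hsb := sing_bound t m Y hm
          (lt_of_le_of_lt (Nat.mul_le_mul_left _
            (Nat.pow_le_pow_right (by norm_num) (by omega))) hmC)
          (fun i k hk hk2 => by
            unfold HS at htH
            rw [mem_filter] at htH
            exact high_order (2 * m) j (t i) (htH.2 i) k hk (hk2.trans hj0)) ht1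
          (by rw [ht2]; exact ht3)
        rw [ht2] at hsb
        have hexp : (s - (2 * m + 208 * 29)) / 2 ≤ s - r := by omega
        refine hb.trans ?_
        have h1 : (2 : ℝ) ^ (330 * Y * s) / 2 ^ ((Y - 1) * n) ≤ 2 ^ (9570 * s) := by
          refine (div_le_self (by positivity) (one_le_pow₀ (by norm_num))).trans ?_
          refine pow_le_pow_right₀ (by norm_num) ?_
          have : 330 * Y ≤ 9570 := by omega
          exact Nat.mul_le_mul_right _ this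
        have h2 : a ^ (s - r) ≤ a ^ ((s - (2 * m + 208 * 29)) / 2) :=
          pow_le_pow_of_le_one ha0 ha1 hexp
        exact mul_le_mul h1 h2 (pow_nonneg ha0 _) (by positivity)
    · simp only [hY, if_false]
      refine hb.trans ?_
      have h1 : (2 : ℝ) ^ (330 * Y * s) / 2 ^ ((Y - 1) * n) ≤ B := by
        rw [hB, div_le_div_iff₀ (by positivity) (by positivity), one_mul, ← pow_add]
        refine pow_le_pow_right₀ (by norm_num) ?_
        obtain ⟨Z, rfl⟩ : ∃ Z, Y = Z + 30 := ⟨Y - 30, by omega⟩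
        have e : Z + 30 - 1 = Z + 29 := by omega
        rw [e]
        nlinarith [Nat.mul_le_mul_left Z hns]
      have h2 : a ^ (s - r) ≤ 1 := pow_le_one₀ ha0 ha1
      calc (2 : ℝ) ^ (330 * Y * s) / 2 ^ ((Y - 1) * n) * a ^ (s - r) ≤ B * 1 :=
            mul_le_mul h1 h2 (pow_nonneg ha0 _) hB0
        _ = B := mul_one _
  -- the sum of the bounds
  have hsum : ∑ p ∈ R, (if p.2 ≤ 29 then A else B) ≤ ((s + 1) * 29 : ℕ) * A +
      ((s + 1) * s : ℕ) * B := by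
    rw [sum_ite, sum_const, sum_const, nsmul_eq_mul, nsmul_eq_mul]
    refine add_le_add (mul_le_mul_of_nonneg_right ?_ hA0) (mul_le_mul_of_nonneg_right ?_ hB0)
    · have h1 : (R.filter (fun p => p.2 ≤ 29)).card ≤ (range (s + 1) ×ˢ Icc 1 29).card := by
        refine card_le_card ?_
        intro p hp
        rw [mem_filter, hR, mem_product, mem_Icc] at hp
        rw [mem_product, mem_Icc]
        exact ⟨hp.1.1, hp.1.2.1, hp.2⟩
      rw [card_product, card_range, Nat.card_Icc] at h1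
      exact_mod_cast h1
    · have h1 : (R.filter (fun p => ¬ p.2 ≤ 29)).card ≤ R.card := card_filter_le _ _
      rw [hR, card_product, card_range, Nat.card_Icc] at h1
      have h2 : s + 1 - 1 = s := by omega
      rw [h2] at h1
      exact_mod_cast h1
  refine hsplit.trans ((sum_le_sum hpart).trans (hsum.trans ?_))
  have hs2 : s + 1 ≤ 2 ^ s := Nat.lt_pow_self (by norm_num)
  refine add_le_add ?_ ?_
  · have h1 : (s + 1) * 29 ≤ 2 ^ (330 * s) := by
      calc (s + 1) * 29 ≤ 2 ^ s * 2 ^ (5 * s) := by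
            refine Nat.mul_le_mul hs2 ?_
            calc 29 ≤ 2 ^ 5 := by norm_num
              _ ≤ 2 ^ (5 * s) := Nat.pow_le_pow_right (by norm_num) (by omega)
        _ = 2 ^ (s + 5 * s) := (pow_add _ _ _).symm
        _ ≤ 2 ^ (330 * s) := Nat.pow_le_pow_right (by norm_num) (by omega)
    have h2 : (((s + 1) * 29 : ℕ) : ℝ) ≤ 2 ^ (330 * s) := by exact_mod_cast h1
    calc (((s + 1) * 29 : ℕ) : ℝ) * A ≤ 2 ^ (330 * s) * A := mul_le_mul_of_nonneg_right h2 hA0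
      _ = 2 ^ (9900 * s) * a ^ ((s - (2 * m + 208 * 29)) / 2) := by
          rw [hA, ← mul_assoc, ← pow_add]
          congr 2
          omega
  · have h1 : (s + 1) * s ≤ 2 ^ n := by
      calc (s + 1) * s ≤ 2 ^ s * 2 ^ s := Nat.mul_le_mul hs2 (by omega)
        _ = 2 ^ (s + s) := (pow_add _ _ _).symm
        _ ≤ 2 ^ n := Nat.pow_le_pow_right (by norm_num) (by omega)
    have h2 : (((s + 1) * s : ℕ) : ℝ) ≤ 2 ^ n := by exact_mod_cast h1
    refine (mul_le_mul_of_nonneg_right h2 hB0).trans (le_of_eq ?_)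
    have h3 : (2 : ℝ) ^ (21 * n) = 2 ^ n * 2 ^ (20 * n) := by
      rw [← pow_add]
      congr 1
      omega
    rw [hB, h3]
    field_simp

end Pool.Agent.W_MP_a45265_h99
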