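import Mathlib
import Pool.Agent.W_MP_a45265_h99.MomA
import Pool.Agent.W_MP_a45265_h99.FI

set_option autoImplicit false

/-!
# The dual moment of order about `20 n / log_2 n`
-/

namespace Pool.Agent.W_MP_a45265_h99

open Finset

/-- `sN n / n → 0` in the form needed: for every `K`, eventually `K * sN n ≤ n`; and
`sN n ≥ 2 * (10 n / log_2 n)` real division.

Proof. `Nat.log 2 n → ∞`. -/
theorem sN_small (K : ℕ) : ∃ n0 : ℕ, ∀ n ≥ n0, K * sN n ≤ n := by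
  refine ⟨2 ^ (40 * (K + 1)) + 4 * K, fun n hn => ?_⟩
  have h1 : 40 * (K + 1) ≤ Nat.log 2 n := by
    apply Nat.le_log_of_pow_le (by norm_num)
    omega
  have h2 : 10 * n / Nat.log 2 n ≤ 10 * n / (40 * (K + 1)) :=
    Nat.div_le_div_left h1 (by omega)
  have h3 : 40 * (K + 1) * (10 * n / (40 * (K + 1))) ≤ 10 * n := Nat.mul_div_le _ _
  unfold sN
  have h4 : K * (10 * n / Nat.log 2 n) ≤ (K + 1) * (10 * n / (40 * (K + 1))) :=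
    Nat.mul_le_mul (Nat.le_succ K) h2
  have h5 : 40 * (K + 1) * (10 * n / (40 * (K + 1))) =
      40 * ((K + 1) * (10 * n / (40 * (K + 1)))) := by ring
  have h6 : K * (2 * (10 * n / Nat.log 2 n + 1)) = 2 * (K * (10 * n / Nat.log 2 n)) + 2 * K := by
    ring
  have h7 : 0 < 2 ^ (40 * (K + 1)) := Nat.pow_pos (by norm_num)
  rw [h6]
  generalize 2 ^ (40 * (K + 1)) = P at *
  omega

/-- `10 n ≤ (Nat.log 2 n) * (sN n / 2)`, since `sN n / 2 = ⌊10 n / L⌋ + 1 > 10 n / L`. -/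
theorem sN_large (n : ℕ) (hn : 2 ≤ n) : 10 * n ≤ Nat.log 2 n * (sN n / 2) := by
  have h1 : 0 < Nat.log 2 n := Nat.log_pos (by norm_num) hn
  have h2 : sN n / 2 = 10 * n / Nat.log 2 n + 1 := by
    unfold sN
    omega
  rw [h2]
  exact (Nat.lt_mul_div_succ (10 * n) h1).le

theorem momC_aux (A C4 n h : ℕ) (hn : 2 ≤ n) (a : ℝ) (ha0 : 0 ≤ a) (ha : (2 : ℝ) ^ A * a * n ≤ 1)
    (hh : 10 * n ≤ Nat.log 2 n * h) :
    (2 : ℝ) ^ (A * h) * a ^ ((2 * h - C4) / 2) ≤ 2 ^ (A * C4) * (n : ℝ) ^ C4 / 2 ^ (10 * n) := by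
  obtain ⟨m, hm⟩ : ∃ m, m = (2 * h - C4) / 2 := ⟨_, rfl⟩
  rw [← hm]
  have hmh : h ≤ m + C4 := by omega
  have hn0 : (0 : ℝ) < n := by
    have : 0 < n := by omega
    exact_mod_cast this
  have hn1 : (1 : ℝ) ≤ n := by
    have : 1 ≤ n := by omega
    exact_mod_cast this
  have h1 : (2 : ℝ) ^ (A * h) ≤ 2 ^ (A * C4) * (2 ^ A) ^ m := by
    rw [← pow_mul, ← pow_add]
    apply pow_le_pow_right₀ (by norm_num)
    calc A * h ≤ A * (m + C4) := Nat.mul_le_mul_left _ hmh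
      _ = A * C4 + A * m := by ring
  have h2 : ((2 : ℝ) ^ A * a * n) ^ m ≤ 1 := pow_le_one₀ (by positivity) ha
  have h3 : (2 : ℝ) ^ (10 * n) ≤ (n : ℝ) ^ m * (n : ℝ) ^ C4 := by
    calc (2 : ℝ) ^ (10 * n) ≤ 2 ^ (Nat.log 2 n * h) := pow_le_pow_right₀ (by norm_num) hh
      _ = ((2 : ℝ) ^ Nat.log 2 n) ^ h := by rw [pow_mul]
      _ ≤ (n : ℝ) ^ h := by
          apply pow_le_pow_left₀ (by positivity)
          exact_mod_cast Nat.pow_log_le_self 2 (by omega)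
      _ ≤ (n : ℝ) ^ (m + C4) := pow_le_pow_right₀ hn1 hmh
      _ = (n : ℝ) ^ m * (n : ℝ) ^ C4 := by rw [pow_add]
  rw [le_div_iff₀ (by positivity)]
  calc (2 : ℝ) ^ (A * h) * a ^ m * 2 ^ (10 * n)
      ≤ (2 ^ (A * C4) * (2 ^ A) ^ m) * a ^ m * ((n : ℝ) ^ m * (n : ℝ) ^ C4) := by
        apply mul_le_mul _ h3 (by positivity) (by positivity)
        exact mul_le_mul_of_nonneg_right h1 (by positivity)
    _ = 2 ^ (A * C4) * (n : ℝ) ^ C4 * ((2 : ℝ) ^ A * a * n) ^ m := by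
        rw [mul_pow, mul_pow]; ring
    _ ≤ 2 ^ (A * C4) * (n : ℝ) ^ C4 * 1 := mul_le_mul_of_nonneg_left h2 (by positivity)
    _ = 2 ^ (A * C4) * (n : ℝ) ^ C4 := mul_one _

/-- Proof. Take `j0, C4` from `momA`, `s = sN n`. For `n` large `1320 s ≤ n` and, as
`3^j / 2^(n-1) ≤ 3 W / n^2`, `a := (s+1) 3^j / 2^(n-1) ≤ (s + 1) 3 W / n^2`, and
`2^19800 a ≤ 1 / n` for `n` large (`sN_small` with `K = 2^19800 * 6 W`). Now
`2^(9900 s) a^((s - C4)/2) ≤ 2^(19800 (C4 + 2)) (2^19800 a)^((s - C4)/2) ≤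
2^(19800 (C4 + 2)) n^(-(s - C4)/2)`, and `n^((s-C4)/2) n^(C4 + 1) ≥ n^(s/2) ≥ 2^(L s/2) ≥ 2^(10 n)` with
`L = Nat.log 2 n`, `2^L ≤ n` (`sN_large`). So the first term is at most
`2^(19800 (C4 + 2)) n^(C4 + 1) / 2^(10 n)`, and the bound holds with `C = C4 + 3` for `n` large. -/
theorem momC : ∃ j0 C C4 : ℕ,
    (∀ n s j : ℕ, 1 ≤ n → 1 ≤ s → 1320 * s ≤ n →
      ((s : ℝ) + 1) * 3 ^ j ≤ 2 ^ (n - 1) →
      mom j0 j s n ≤ 2 ^ (9900 * s) * (((s : ℝ) + 1) * 3 ^ j / 2 ^ (n - 1)) ^ ((s - C4) / 2) +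
        1 / 2 ^ (20 * n)) ∧
    ∀ W : ℕ, ∃ n0 : ℕ, ∀ n ≥ n0, ∀ j : ℕ, n ^ 2 * 3 ^ j ≤ 3 * W * 2 ^ (n - 1) →
      mom j0 j (sN n) n ≤ (n : ℝ) ^ C / 2 ^ (10 * n) := by
  obtain ⟨j0, C4, hA⟩ := momA
  refine ⟨j0, C4 + 2, C4, hA, fun W => ?_⟩
  obtain ⟨A, hAA⟩ : ∃ A : ℕ, A = 19800 := ⟨_, rfl⟩
  obtain ⟨P, hP⟩ : ∃ P : ℕ, P = 2 ^ A := ⟨_, rfl⟩
  obtain ⟨n1, hn1⟩ := sN_small 1320
  obtain ⟨n2, hn2⟩ := sN_small (P * (6 * W))
  obtain ⟨Q, hQ⟩ : ∃ Q : ℕ, Q = 2 ^ (A * C4) := ⟨_, rfl⟩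
  refine ⟨n1 + n2 + 2 + Q, fun n hn j hj => ?_⟩
  have hP1 : 1 ≤ P := by
    rw [hP]
    exact Nat.one_le_two_pow
  have hnn1 := hn1 n (by omega)
  have hnn2 := hn2 n (by omega)
  have hn3 : 2 ≤ n := by omega
  have hn4 : 2 ^ (A * C4) ≤ n := by
    rw [← hQ]
    omega
  obtain ⟨h, hh⟩ : ∃ h, sN n = 2 * h ∧ 1 ≤ h := ⟨10 * n / Nat.log 2 n + 1, rfl, Nat.succ_pos _⟩
  obtain ⟨hs, hh1⟩ := hh
  have hlarge := sN_large n hn3
  rw [hs] at hlarge hnn1 hnn2 ⊢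
  have hlarge' : 10 * n ≤ Nat.log 2 n * h := by
    rwa [show 2 * h / 2 = h from by omega] at hlarge
  have hn0 : (0 : ℝ) < n := by
    have : 0 < n := by omega
    exact_mod_cast this
  -- the quantity a
  have hj' : ((n : ℝ) ^ 2) * 3 ^ j ≤ 3 * W * 2 ^ (n - 1) := by exact_mod_cast hj
  have hkey : (P : ℝ) * (3 * W) * (((2 * h : ℕ) : ℝ) + 1) ≤ n := by
    have h1 : P * (3 * W) * (2 * h + 1) ≤ n := by
      calc P * (3 * W) * (2 * h + 1) ≤ P * (3 * W) * (2 * (2 * h)) :=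
            Nat.mul_le_mul_left _ (by omega)
        _ = P * (6 * W) * (2 * h) := by ring
        _ ≤ n := hnn2
    exact_mod_cast h1
  have ha : (P : ℝ) * ((((2 * h : ℕ) : ℝ) + 1) * 3 ^ j / 2 ^ (n - 1)) * n ≤ 1 := by
    have e1 : (P : ℝ) * ((((2 * h : ℕ) : ℝ) + 1) * 3 ^ j / 2 ^ (n - 1)) * n
        = ((P : ℝ) * (((2 * h : ℕ) : ℝ) + 1) * (3 ^ j * n)) / 2 ^ (n - 1) := by ring
    rw [e1, div_le_one (by positivity)]
    have h2 : (3 : ℝ) ^ j * n * n ≤ 3 * W * 2 ^ (n - 1) := by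
      calc (3 : ℝ) ^ j * n * n = (n : ℝ) ^ 2 * 3 ^ j := by ring
        _ ≤ _ := hj'
    have h3 : (P : ℝ) * (((2 * h : ℕ) : ℝ) + 1) * (3 ^ j * n) * n ≤ 2 ^ (n - 1) * n := by
      calc (P : ℝ) * (((2 * h : ℕ) : ℝ) + 1) * (3 ^ j * n) * n
          = (P : ℝ) * (((2 * h : ℕ) : ℝ) + 1) * (3 ^ j * n * n) := by ring
        _ ≤ (P : ℝ) * (((2 * h : ℕ) : ℝ) + 1) * (3 * W * 2 ^ (n - 1)) :=
            mul_le_mul_of_nonneg_left h2 (by positivity)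
        _ = (P : ℝ) * (3 * W) * (((2 * h : ℕ) : ℝ) + 1) * 2 ^ (n - 1) := by ring
        _ ≤ n * 2 ^ (n - 1) := mul_le_mul_of_nonneg_right hkey (by positivity)
        _ = 2 ^ (n - 1) * n := by ring
    exact le_of_mul_le_mul_right h3 hn0
  have ha1 : (((2 * h : ℕ) : ℝ) + 1) * 3 ^ j ≤ 2 ^ (n - 1) := by
    have hP1' : (1 : ℝ) ≤ P := by exact_mod_cast hP1
    have hn1' : (1 : ℝ) ≤ n := by
      have : 1 ≤ n := by omega
      exact_mod_cast this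
    have h4 : (((2 * h : ℕ) : ℝ) + 1) * 3 ^ j / 2 ^ (n - 1) ≤ 1 := by
      have h5 : 0 ≤ (((2 * h : ℕ) : ℝ) + 1) * 3 ^ j / 2 ^ (n - 1) := by positivity
      calc (((2 * h : ℕ) : ℝ) + 1) * 3 ^ j / 2 ^ (n - 1)
          = 1 * ((((2 * h : ℕ) : ℝ) + 1) * 3 ^ j / 2 ^ (n - 1)) * 1 := by ring
        _ ≤ (P : ℝ) * ((((2 * h : ℕ) : ℝ) + 1) * 3 ^ j / 2 ^ (n - 1)) * n := by
            apply mul_le_mul _ hn1' (by norm_num) (by positivity)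
            exact mul_le_mul_of_nonneg_right hP1' h5
        _ ≤ 1 := ha
    rwa [div_le_one (by positivity)] at h4
  have hmain := hA n (2 * h) j (by omega) (by omega) hnn1 ha1
  have haux := momC_aux A C4 n h hn3 ((((2 * h : ℕ) : ℝ) + 1) * 3 ^ j / 2 ^ (n - 1))
    (by positivity) (by
      have e2 : (P : ℝ) = 2 ^ A := by rw [hP]; push_cast; rfl
      rw [← e2]
      exact ha) hlarge'
  have e3 : 9900 * (2 * h) = A * h := by rw [hAA]; ring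
  rw [e3] at hmain
  have h6 : (2 : ℝ) ^ (A * C4) ≤ n := by exact_mod_cast hn4
  have h7 : (2 : ℝ) ≤ n := by exact_mod_cast hn3
  have h8 : (1 : ℝ) ≤ (n : ℝ) ^ (C4 + 1) := one_le_pow₀ (by linarith)
  have h9 : (1 : ℝ) / 2 ^ (20 * n) ≤ (n : ℝ) ^ (C4 + 1) / 2 ^ (10 * n) := by
    apply div_le_div₀ (by positivity) h8 (by positivity)
    exact pow_le_pow_right₀ (by norm_num) (by omega)
  have h10 : (2 : ℝ) ^ (A * C4) * (n : ℝ) ^ C4 / 2 ^ (10 * n) ≤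
      (n : ℝ) ^ (C4 + 1) / 2 ^ (10 * n) := by
    apply div_le_div_of_nonneg_right _ (by positivity)
    calc (2 : ℝ) ^ (A * C4) * (n : ℝ) ^ C4 ≤ n * (n : ℝ) ^ C4 :=
          mul_le_mul_of_nonneg_right h6 (by positivity)
      _ = (n : ℝ) ^ (C4 + 1) := by ring
  have h11 : (n : ℝ) ^ (C4 + 1) / 2 ^ (10 * n) + (n : ℝ) ^ (C4 + 1) / 2 ^ (10 * n)
      ≤ (n : ℝ) ^ (C4 + 2) / 2 ^ (10 * n) := by
    rw [← add_div]
    apply div_le_div_of_nonneg_right _ (by positivity)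
    calc (n : ℝ) ^ (C4 + 1) + (n : ℝ) ^ (C4 + 1) = 2 * (n : ℝ) ^ (C4 + 1) := by ring
      _ ≤ n * (n : ℝ) ^ (C4 + 1) := mul_le_mul_of_nonneg_right h7 (by positivity)
      _ = (n : ℝ) ^ (C4 + 2) := by ring
  linarith

end Pool.Agent.W_MP_a45265_h99
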