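import Mathlib
import Pool.Agent.W_MP_a45265_h99.Defs

set_option autoImplicit false

/-!
# Elementary inequalities for the exponential function and falling factorials
-/

namespace Pool.Agent.W_MP_a45265_h99

open Finset

theorem et_mono (n : ℕ) (x : ℝ) : HasDerivAt (fun y : ℝ => y ^ (n + 1) / ((n + 1).factorial : ℝ))
    (x ^ n / (n.factorial : ℝ)) x := by
  refine ((hasDerivAt_pow (n + 1) x).div_const ((n + 1).factorial : ℝ)).congr_deriv ?_
  rw [Nat.factorial_succ, Nat.add_sub_cancel]
  have h3 : (n.factorial : ℝ) ≠ 0 := by exact_mod_cast n.factorial_ne_zero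
  push_cast
  have h4 : (n : ℝ) + 1 ≠ 0 := by positivity
  field_simp

theorem et_hasDerivAt (n : ℕ) (x : ℝ) :
    HasDerivAt (fun y : ℝ => ∑ k ∈ range (n + 1), y ^ k / (k.factorial : ℝ))
      (∑ k ∈ range n, x ^ k / (k.factorial : ℝ)) x := by
  induction n with
  | zero =>
    simp only [zero_add, range_one, sum_singleton, pow_zero, range_zero, sum_empty]
    exact hasDerivAt_const x _
  | succ n ih =>
    have h1 := et_mono n x
    have h5 : (fun y : ℝ => ∑ k ∈ range (n + 1 + 1), y ^ k / (k.factorial : ℝ)) =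
        fun y : ℝ => (∑ k ∈ range (n + 1), y ^ k / (k.factorial : ℝ)) +
          y ^ (n + 1) / ((n + 1).factorial : ℝ) := by
      funext y
      rw [sum_range_succ]
    rw [h5, sum_range_succ]
    exact ih.add h1

theorem et_zero (n : ℕ) : ∑ k ∈ range (n + 1), (0 : ℝ) ^ k / (k.factorial : ℝ) = 1 := by
  rw [sum_range_succ', sum_eq_zero]
  · simp
  · intro k _
    simp

theorem et_hasDerivAt' (n : ℕ) (x : ℝ) :
    HasDerivAt (fun y : ℝ => Real.exp y - ∑ k ∈ range (n + 1), y ^ k / (k.factorial : ℝ))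
      (Real.exp x - ∑ k ∈ range n, x ^ k / (k.factorial : ℝ)) x :=
  (Real.hasDerivAt_exp x).sub (et_hasDerivAt n x)

theorem et_cont (n : ℕ) :
    Continuous (fun y : ℝ => Real.exp y - ∑ k ∈ range (n + 1), y ^ k / (k.factorial : ℝ)) := by
  fun_prop

/-- if `exp ≤ P_n` on the negative axis then `P_(n+1) ≤ exp` there -/
theorem et_step1 (n : ℕ)
    (h : ∀ x ≤ (0 : ℝ), Real.exp x ≤ ∑ k ∈ range n, x ^ k / (k.factorial : ℝ)) :
    ∀ x ≤ (0 : ℝ), ∑ k ∈ range (n + 1), x ^ k / (k.factorial : ℝ) ≤ Real.exp x := by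
  intro x hx
  have h1 : AntitoneOn (fun y : ℝ => Real.exp y - ∑ k ∈ range (n + 1), y ^ k / (k.factorial : ℝ))
      (Set.Iic 0) := by
    apply antitoneOn_of_deriv_nonpos (convex_Iic 0) (et_cont n).continuousOn
    · intro y _
      exact (et_hasDerivAt' n y).differentiableAt.differentiableWithinAt
    · intro y hy
      rw [(et_hasDerivAt' n y).deriv]
      rw [interior_Iic] at hy
      linarith [h y (le_of_lt hy)]
  have h2 := h1 hx (Set.mem_Iic.2 le_rfl) hx
  simp only [Real.exp_zero, et_zero] at h2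
  linarith

theorem et_step2 (n : ℕ)
    (h : ∀ x ≤ (0 : ℝ), ∑ k ∈ range n, x ^ k / (k.factorial : ℝ) ≤ Real.exp x) :
    ∀ x ≤ (0 : ℝ), Real.exp x ≤ ∑ k ∈ range (n + 1), x ^ k / (k.factorial : ℝ) := by
  intro x hx
  have h1 : MonotoneOn (fun y : ℝ => Real.exp y - ∑ k ∈ range (n + 1), y ^ k / (k.factorial : ℝ))
      (Set.Iic 0) := by
    apply monotoneOn_of_deriv_nonneg (convex_Iic 0) (et_cont n).continuousOn
    · intro y _
      exact (et_hasDerivAt' n y).differentiableAt.differentiableWithinAt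
    · intro y hy
      rw [(et_hasDerivAt' n y).deriv]
      rw [interior_Iic] at hy
      linarith [h y (le_of_lt hy)]
  have h2 := h1 hx (Set.mem_Iic.2 le_rfl) hx
  simp only [Real.exp_zero, et_zero] at h2
  linarith

/-- the tail of the exponential series on the positive axis -/
theorem et_tail (n : ℕ) : ∀ x : ℝ, 0 ≤ x →
    Real.exp x - ∑ k ∈ range n, x ^ k / (k.factorial : ℝ) ≤
      x ^ n / (n.factorial : ℝ) * Real.exp x := by
  induction n with
  | zero =>
    intro x _
    simp
  | succ n ih =>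
    intro x hx
    have hd : ∀ y : ℝ, HasDerivAt (fun y : ℝ => y ^ (n + 1) / ((n + 1).factorial : ℝ) * Real.exp y)
        (y ^ n / (n.factorial : ℝ) * Real.exp y + y ^ (n + 1) / ((n + 1).factorial : ℝ) *
          Real.exp y) y := by
      intro y
      exact (et_mono n y).mul (Real.hasDerivAt_exp y)
    have hd2 := fun y => (hd y).sub (et_hasDerivAt' n y)
    have h1 : MonotoneOn (fun y : ℝ => y ^ (n + 1) / ((n + 1).factorial : ℝ) * Real.exp y -
        (Real.exp y - ∑ k ∈ range (n + 1), y ^ k / (k.factorial : ℝ))) (Set.Ici 0) := by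
      apply monotoneOn_of_deriv_nonneg (convex_Ici 0)
      · apply Continuous.continuousOn
        fun_prop
      · intro y _
        exact (hd2 y).differentiableAt.differentiableWithinAt
      · intro y hy
        rw [interior_Ici] at hy
        have hy0 : 0 < y := hy
        have h2 := (hd2 y).deriv
        have h3 : 0 ≤ y ^ n / (n.factorial : ℝ) * Real.exp y +
            y ^ (n + 1) / ((n + 1).factorial : ℝ) * Real.exp y -
            (Real.exp y - ∑ k ∈ range n, y ^ k / (k.factorial : ℝ)) := by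
          have h4 := ih y hy0.le
          have h5 : 0 ≤ y ^ (n + 1) / ((n + 1).factorial : ℝ) * Real.exp y := by positivity
          linarith
        rw [← h2] at h3
        exact h3
    have h2 := h1 (Set.mem_Ici.2 le_rfl) (Set.mem_Ici.2 hx) hx
    simp only [Real.exp_zero, et_zero] at h2
    rw [zero_pow (Nat.succ_ne_zero n), zero_div, zero_mul] at h2
    linarith

/-- For `x ≤ 0` the partial sums of the exponential series alternate around `exp x`; by induction on `m`,
taking derivatives (`exp - P_{S+1}` has derivative `exp - P_S` and vanishes at `0`). -/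
theorem exp_alt (m : ℕ) (x : ℝ) (hx : x ≤ 0) :
    Real.exp x ≤ ∑ k ∈ range (2 * m + 1), x ^ k / k.factorial ∧
      ∑ k ∈ range (2 * m + 2), x ^ k / k.factorial ≤ Real.exp x := by
  have key : ∀ m : ℕ, ∀ x ≤ (0 : ℝ), Real.exp x ≤ ∑ k ∈ range (2 * m + 1), x ^ k / k.factorial := by
    intro m
    induction m with
    | zero =>
      intro x hx
      simp [hx]
    | succ m ih =>
      have h1 := et_step2 (2 * m + 2) (et_step1 (2 * m + 1) ih)
      exact h1
  exact ⟨key m x hx, et_step1 (2 * m + 1) (key m) x hx⟩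

/-- Proof. For `x ≤ 0` use `exp_alt`. For `0 ≤ x ≤ X` Taylor's formula with Lagrange
remainder (or: the tail of the series is at most `x^(S+1)/(S+1)! * exp x`, since
`(S+1+i)! ≥ (S+1)! i!`). -/
theorem exp_le_trunc (S : ℕ) (hS : Even S) (X x : ℝ) (hX : 0 ≤ X) (hx : x ≤ X) :
    Real.exp x ≤ ∑ k ∈ range (S + 1), x ^ k / k.factorial +
      X ^ (S + 1) * Real.exp X / (S + 1).factorial := by
  have hrem : 0 ≤ X ^ (S + 1) * Real.exp X / (S + 1).factorial := by positivity
  rcases le_total x 0 with h0 | h0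
  · obtain ⟨m, hm⟩ := hS
    have h1 := (exp_alt m x h0).1
    have h2 : S = 2 * m := by omega
    rw [h2] at hrem ⊢
    linarith
  · have h1 := et_tail (S + 1) x h0
    have h2 : x ^ (S + 1) / ((S + 1).factorial : ℝ) * Real.exp x ≤
        X ^ (S + 1) * Real.exp X / (S + 1).factorial := by
      rw [div_mul_eq_mul_div]
      apply div_le_div_of_nonneg_right _ (by positivity)
      exact mul_le_mul (pow_le_pow_left₀ h0 hx _) (Real.exp_le_exp.2 hx) (Real.exp_pos _).le
        (by positivity)
    linarith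

theorem trunc_nonneg (S : ℕ) (hS : Even S) (x : ℝ) :
    0 ≤ ∑ k ∈ range (S + 1), x ^ k / k.factorial := by
  rcases le_total x 0 with h0 | h0
  · obtain ⟨m, hm⟩ := hS
    have h1 := (exp_alt m x h0).1
    have h2 : S = 2 * m := by omega
    rw [h2]
    exact (Real.exp_pos x).le.trans h1
  · exact sum_nonneg fun k _ => by positivity

/-- Proof. `k.descFactorial n = ∏_{i<n} (k - i)` (zero if `k < n`), and
`(k - i) / m ≤ exp ((k - i)/m - 1)`, `∑_{i<n} i = n (n-1) / 2`. -/
theorem descFactorial_le (k n : ℕ) (m : ℝ) (hm : 0 < m) :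
    (k.descFactorial n : ℝ) ≤
      m ^ n * Real.exp (n * (k / m - 1) - n * (n - 1) / (2 * m)) := by
  induction n with
  | zero => simp
  | succ n ih =>
    rw [Nat.descFactorial_succ]
    push_cast
    have h1 : ((k - n : ℕ) : ℝ) ≤ m * Real.exp ((k - n) / m - 1) := by
      rcases le_total n k with hnk | hnk
      · rw [Nat.cast_sub hnk]
        have h2 := Real.add_one_le_exp (((k : ℝ) - n) / m - 1)
        have h3 : (k : ℝ) - n = m * ((((k : ℝ) - n) / m - 1) + 1) := by
          field_simp
          ring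
        calc (k : ℝ) - n = m * ((((k : ℝ) - n) / m - 1) + 1) := h3
          _ ≤ m * Real.exp (((k : ℝ) - n) / m - 1) := by
            exact mul_le_mul_of_nonneg_left h2 hm.le
      · rw [Nat.sub_eq_zero_of_le hnk]
        push_cast
        positivity
    have h4 : m ^ (n + 1) * Real.exp (((n : ℝ) + 1) * (k / m - 1) -
        ((n : ℝ) + 1) * ((n : ℝ) + 1 - 1) / (2 * m)) =
        (m * Real.exp ((k - n) / m - 1)) *
          (m ^ n * Real.exp (n * (k / m - 1) - n * (n - 1) / (2 * m))) := by
      have h5 : ((n : ℝ) + 1) * (k / m - 1) - ((n : ℝ) + 1) * ((n : ℝ) + 1 - 1) / (2 * m) =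
          ((k - n) / m - 1) + (n * (k / m - 1) - n * (n - 1) / (2 * m)) := by
        field_simp
        ring
      rw [h5, Real.exp_add]
      ring
    rw [h4]
    exact mul_le_mul h1 ih (by positivity) (by positivity)

theorem exp_sub_le (t : ℝ) (h0 : 0 ≤ t) (h1 : t ≤ 1) :
    Real.exp t - 1 - t ≤ t ^ 2 / 2 + t ^ 3 := by
  have h2 := et_tail 3 t h0
  have h3 : ∑ k ∈ range 3, t ^ k / (k.factorial : ℝ) = 1 + t + t ^ 2 / 2 := by
    simp [sum_range_succ, Nat.factorial]
  have h4 : Real.exp t ≤ 6 := by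
    have h5 : Real.exp t ≤ Real.exp 1 := Real.exp_le_exp.2 h1
    have h6 := Real.exp_one_lt_d9
    linarith
  have h7 : t ^ 3 / ((3 : ℕ).factorial : ℝ) * Real.exp t ≤ t ^ 3 := by
    have h8 : ((3 : ℕ).factorial : ℝ) = 6 := by norm_num [Nat.factorial]
    rw [h8]
    have h9 : t ^ 3 / 6 * Real.exp t ≤ t ^ 3 / 6 * 6 :=
      mul_le_mul_of_nonneg_left h4 (by positivity)
    linarith
  rw [h3] at h2
  linarith

end Pool.Agent.W_MP_a45265_h99
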