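import Mathlib
import Pool.Agent.W_MP_a45265_h99.Odl
import Pool.Agent.W_MP_a45265_h99.Three

set_option autoImplicit false

/-!
# Very dense sets of zero patterns are coincidence cubes
-/

namespace Pool.Agent.W_MP_a45265_h99

open Finset

variable {I G : Type} [Fintype I] [DecidableEq I] [AddCommGroup G] [DecidableEq G]

/-- The coordinates on `D` are combinations of the pivot coordinates. -/
theorem exists_coeff (D : Submodule (ZMod 3) (I → ZMod 3)) (J : Finset I)
    (hJ : J.card = Module.finrank (ZMod 3) D) (hinj : ∀ v ∈ D, (∀ i ∈ J, v i = 0) → v = 0) :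
    ∃ w : I → {k // k ∈ J} → ZMod 3,
      (∀ i, ∀ v ∈ D, v i = ∑ k : {k // k ∈ J}, w i k * v k) ∧
      ∀ i (hi : i ∈ J), ∀ k, w i k = if k = ⟨i, hi⟩ then 1 else 0 := by
  classical
  let ρ : D →ₗ[ZMod 3] ({k // k ∈ J} → ZMod 3) :=
    (LinearMap.funLeft (ZMod 3) (ZMod 3) (fun k : {k // k ∈ J} => (k : I))).comp D.subtype
  have hρ : ∀ (v : D) (k : {k // k ∈ J}), ρ v k = (v : I → ZMod 3) k := fun v k => rfl
  have hi : Function.Injective ρ := by
    rw [injective_iff_map_eq_zero]
    intro v hv
    apply Subtype.ext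
    refine hinj v v.2 fun i hi => ?_
    have := congrFun hv ⟨i, hi⟩
    rw [hρ] at this
    exact this
  have hd : Module.finrank (ZMod 3) D = Module.finrank (ZMod 3) ({k // k ∈ J} → ZMod 3) := by
    rw [Module.finrank_pi, Fintype.card_coe, hJ]
  have hsurj : Function.Surjective ρ := (LinearMap.injective_iff_surjective_of_finrank_eq_finrank hd).1 hi
  choose b hb using fun k : {k // k ∈ J} => hsurj (Pi.single k 1)
  refine ⟨fun i k => (b k : I → ZMod 3) i, ?_, ?_⟩
  · intro i v hv
    have h1 : (⟨v, hv⟩ : D) = ∑ k : {k // k ∈ J}, v k • b k := by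
      apply hi
      rw [map_sum]
      funext j
      rw [Finset.sum_apply]
      simp only [map_smul, hb, Pi.smul_apply, Pi.single_apply, smul_eq_mul]
      rw [Finset.sum_eq_single j]
      · simp [hρ]
      · intro k _ hk
        rw [if_neg (Ne.symm hk), mul_zero]
      · intro h
        exact absurd (mem_univ _) h
    have h2 := congrArg (fun x : D => (x : I → ZMod 3) i) h1
    simp only [Submodule.coe_sum, Submodule.coe_smul, Finset.sum_apply, Pi.smul_apply,
      smul_eq_mul] at h2
    rw [h2]
    exact Finset.sum_congr rfl fun k _ => mul_comm _ _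
  · intro i hi k
    have h1 := congrFun (hb k) ⟨i, hi⟩
    rw [hρ, Pi.single_apply] at h1
    change (b k : I → ZMod 3) i = _
    rw [h1]
    simp only [eq_comm]

theorem sg_cast_ne_zero (b : Bool) : ((sg b : ℤ) : ZMod 3) ≠ 0 := by
  cases b <;> decide

theorem sg_mul_cast_inj {a b c : Bool} (h : ((sg a : ℤ) : ZMod 3) = ((sg b : ℤ) : ZMod 3) * ((sg c : ℤ) : ZMod 3)) :
    sg a = sg b * sg c := by
  revert h
  revert a b c
  decide

theorem exists_sg (x : ZMod 3) (hx : x ≠ 0) : ∃ b : Bool, x = ((sg b : ℤ) : ZMod 3) := by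
  revert x
  decide

omit [DecidableEq G] in
/-- regrouping a signed sum along classes -/
theorem dot_classes (τ : I → G) (J : Finset I) (κ : I → I) (σ : I → Bool) (hκ : ∀ i, κ i ∈ J)
    (e : I → Bool) (he : ∀ i, sg (e i) = sg (σ i) * sg (e (κ i))) :
    dot τ e = dot (fun k : {k // k ∈ J} => ∑ i ∈ univ.filter (fun i => κ i = k), sg (σ i) • τ i)
      (fun k => e k) := by
  unfold dot
  have h1 : ∑ k : {k // k ∈ J}, sg (e k) • (∑ i ∈ univ.filter (fun i => κ i = (k : I)), sg (σ i) • τ i) =
      ∑ k ∈ J, sg (e k) • (∑ i ∈ univ.filter (fun i => κ i = k), sg (σ i) • τ i) :=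
    Finset.sum_coe_sort J (fun k => sg (e k) • (∑ i ∈ univ.filter (fun i => κ i = k), sg (σ i) • τ i))
  rw [h1]
  rw [← Finset.sum_fiberwise_of_maps_to (s := univ) (t := J) (g := κ) (fun i _ => hκ i)]
  refine Finset.sum_congr rfl fun k _ => ?_
  rw [Finset.smul_sum]
  refine Finset.sum_congr rfl fun i hi => ?_
  rw [Finset.mem_filter] at hi
  rw [he i, hi.2, smul_smul, mul_comm]

/-- If the zero patterns have density more than `3/4` in the cube on a pivot set `J`, then all
coordinates are, up to sign, coordinates in `J`, and all sign patterns on `J` occur.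

Proof. `D = dir (Zs τ)` is the span of `v3 '' Zs τ` (`dir_Zs`), and `v i0 ≠ 0` for `v = v3 e`,
`e ∈ Zs τ` (nonempty by `h`). Take pivots `J ∋ i0` (`exists_pivots_of_mem`), `|J| = dd (Zs τ)`. The
restriction to `J` is injective on `D`, so on `Zs τ`; let `T ⊆ (J → Bool)` be the image,
`4 |T| > 3 * 2^|J|`. For `i ∈ I` the functional `v ↦ v i` on `D` is a combination
`v i = ∑_{k ∈ J} w_k v k` (the functionals `v ↦ v k`, `k ∈ J`, have trivial common kernel on `D`, so
they span the dual of `D`). If at least two `w_k` are nonzero then for at least a quarter of the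
patterns on `J` the sum `∑ w_k (± 1)` is `0` (`cnt_two_ge`), but it is `v3 e i ≠ 0` for the patterns in
`T`: contradiction. It is not zero, so exactly one `w_k = ± 1` is nonzero: `e i = e k` for all
`e ∈ Zs τ` or `e i = !e k` for all `e ∈ Zs τ`. So `dot τ e = ∑_{k ∈ J} ± τ̄_k` with the signed class sums
`τ̄_k`. If some `τ̄_k ≠ 0` then `T`, the set of zero patterns of `τ̄` on `J`, has at most
`2^|J| / 2` elements (`cnt_half_le`), a contradiction. So all `τ̄_k = 0` and every assignment of signs
on `J` extends to a zero pattern. -/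
theorem cubic_struct (hG : ∀ x : G, (2 : ℕ) • x = 0 → x = 0) (τ : I → G)
    (h : 3 * 2 ^ dd (Zs τ) < 4 * (Zs τ).card) (i0 : I) :
    ∃ (J : Finset I) (κ : I → I) (σ : I → Bool), i0 ∈ J ∧ J.card = dd (Zs τ) ∧
      (∀ i, κ i ∈ J) ∧ (∀ k ∈ J, κ k = k ∧ σ k = true) ∧
      (∀ k ∈ J, ∑ i ∈ univ.filter (fun i => κ i = k), sg (σ i) • τ i = 0) ∧
      (∀ e : I → Bool, e ∈ Zs τ ↔ ∀ i, sg (e i) = sg (σ i) * sg (e (κ i))) := by
  classical
  have hne : (Zs τ).Nonempty := by
    rw [← Finset.card_pos]
    omega
  obtain ⟨e1, he1⟩ := hne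
  set D := dir (Zs τ) with hD
  have hmem : ∀ e ∈ Zs τ, v3 e ∈ D := by
    intro e he
    rw [hD, dir_Zs]
    exact Submodule.subset_span ⟨e, he, rfl⟩
  obtain ⟨J, hi0, hJ, hinj⟩ := exists_pivots_of_mem D i0 ⟨v3 e1, hmem e1 he1, v3_ne_zero e1 i0⟩
  obtain ⟨w, hw1, hw2⟩ := exists_coeff D J hJ hinj
  -- the image of the zero patterns
  have hinj' : Set.InjOn (fun (e : I → Bool) (k : {k // k ∈ J}) => e k) (Zs τ : Set (I → Bool)) := by
    intro e he e' he' hee
    have h1 : v3 e - v3 e' ∈ D := D.sub_mem (hmem e he) (hmem e' he')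
    have h2 := hinj _ h1 (fun i hi => by
      rw [Pi.sub_apply, sub_eq_zero, v3_eq_iff]
      exact congrFun hee ⟨i, hi⟩)
    exact v3_injective (sub_eq_zero.1 h2)
  have hT : ((Zs τ).image (fun (e : I → Bool) (k : {k // k ∈ J}) => e k)).card = (Zs τ).card :=
    Finset.card_image_of_injOn hinj'
  have hJd : J.card = dd (Zs τ) := hJ
  have hcardJ : Fintype.card {k // k ∈ J} = dd (Zs τ) := by rw [Fintype.card_coe, hJd]
  -- values of the coordinates
  have hval : ∀ e ∈ Zs τ, ∀ i, v3 e i = dot (w i) (fun k : {k // k ∈ J} => e k) := by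
    intro e he i
    rw [hw1 i _ (hmem e he)]
    unfold dot
    refine Finset.sum_congr rfl fun k _ => ?_
    rw [zsmul_eq_mul, mul_comm]
    rfl
  -- exactly one coefficient
  have hone : ∀ i, ∃ k : {k // k ∈ J}, ∃ s : Bool, ∀ e ∈ Zs τ,
      v3 e i = ((sg s : ℤ) : ZMod 3) * v3 e k ∧ (∀ hi : i ∈ J, k = ⟨i, hi⟩ ∧ s = true) := by
    intro i
    have hle : (univ.filter (fun k => w i k ≠ 0)).card ≤ 1 := by
      by_contra hcon
      have h2 := cnt_two_ge (w i) (by omega)
      rw [hcardJ] at h2
      have hdisj : Disjoint ((Zs τ).image (fun (e : I → Bool) (k : {k // k ∈ J}) => e k))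
          (univ.filter (fun u : {k // k ∈ J} → Bool => dot (w i) u = 0)) := by
        rw [Finset.disjoint_left]
        intro u hu hu'
        rw [Finset.mem_image] at hu
        obtain ⟨e, he, rfl⟩ := hu
        rw [Finset.mem_filter] at hu'
        exact v3_ne_zero e i ((hval e he i).trans hu'.2)
      have h3 := Finset.card_union_of_disjoint hdisj
      have h4 := Finset.card_le_univ (((Zs τ).image (fun (e : I → Bool) (k : {k // k ∈ J}) => e k)) ∪
          (univ.filter (fun u : {k // k ∈ J} → Bool => dot (w i) u = 0)))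
      rw [h3, hT, Fintype.card_fun, Fintype.card_bool, hcardJ] at h4
      change _ + cnt (w i) 0 ≤ _ at h4
      omega
    have hge : (univ.filter (fun k => w i k ≠ 0)).card ≠ 0 := by
      intro hcon
      rw [Finset.card_eq_zero, Finset.filter_eq_empty_iff] at hcon
      apply v3_ne_zero e1 i
      rw [hw1 i _ (hmem e1 he1)]
      apply Finset.sum_eq_zero
      intro k hk
      have := hcon hk
      rw [not_not] at this
      rw [this, zero_mul]
    have h1 : (univ.filter (fun k => w i k ≠ 0)).card = 1 := by omega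
    obtain ⟨k, hk⟩ := Finset.card_eq_one.1 h1
    have hk' : ∀ j, w i j ≠ 0 ↔ j = k := by
      intro j
      have := Finset.ext_iff.1 hk j
      simpa using this
    obtain ⟨s, hs⟩ := exists_sg (w i k) ((hk' k).2 rfl)
    refine ⟨k, s, fun e he => ⟨?_, fun hi => ?_⟩⟩
    · rw [hw1 i _ (hmem e he), Finset.sum_eq_single k, hs]
      · intro j _ hj
        have : w i j = 0 := by
          by_contra hcon
          exact hj ((hk' j).1 hcon)
        rw [this, zero_mul]
      · intro hcon
        exact absurd (mem_univ _) hcon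
    · have h5 : k = ⟨i, hi⟩ := by
        have := hw2 i hi k
        by_contra hcon
        rw [if_neg hcon] at this
        exact (hk' k).2 rfl this
      refine ⟨h5, ?_⟩
      have h6 := hw2 i hi k
      rw [if_pos h5, hs] at h6
      revert h6
      cases s
      · decide
      · intro _; rfl
  choose κ0 σ hκσ using hone
  have hκJ : ∀ k ∈ J, (κ0 k : I) = k ∧ σ k = true := by
    intro k hk
    obtain ⟨h1, h2⟩ := (hκσ k e1 he1).2 hk
    exact ⟨by rw [h1], h2⟩
  have hfor : ∀ e ∈ Zs τ, ∀ i, sg (e i) = sg (σ i) * sg (e (κ0 i)) := by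
    intro e he i
    exact sg_mul_cast_inj (hκσ i e he).1
  have hdc := fun (e : I → Bool) (he : ∀ i, sg (e i) = sg (σ i) * sg (e (κ0 i))) =>
    dot_classes τ J (fun i => (κ0 i : I)) σ (fun i => (κ0 i).2) e he
  have hzero : ∀ k ∈ J, ∑ i ∈ univ.filter (fun i => (κ0 i : I) = k), sg (σ i) • τ i = 0 := by
    intro k hk
    by_contra hcon
    have h2 := cnt_half_le hG
      (fun k : {k // k ∈ J} => ∑ i ∈ univ.filter (fun i => (κ0 i : I) = k), sg (σ i) • τ i) ⟨k, hk⟩ hcon 0
    have h3 : (Zs τ).card ≤
        cnt (fun k : {k // k ∈ J} => ∑ i ∈ univ.filter (fun i => (κ0 i : I) = k), sg (σ i) • τ i) 0 := by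
      rw [← hT]
      apply Finset.card_le_card
      intro u hu
      rw [Finset.mem_image] at hu
      obtain ⟨e, he, rfl⟩ := hu
      rw [Finset.mem_filter]
      refine ⟨mem_univ _, ?_⟩
      rw [← hdc e (hfor e he)]
      exact (Finset.mem_filter.1 he).2
    rw [hcardJ] at h2
    have h4 : 0 < 2 ^ dd (Zs τ) := by positivity
    omega
  refine ⟨J, fun i => (κ0 i : I), σ, hi0, hJ, fun i => (κ0 i).2, hκJ, hzero, fun e => ⟨fun he => hfor e he, fun he => ?_⟩⟩
  unfold Zs
  rw [Finset.mem_filter]
  refine ⟨mem_univ _, ?_⟩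
  rw [hdc e he]
  unfold dot
  apply Finset.sum_eq_zero
  intro k _
  dsimp only
  rw [hzero k k.2, smul_zero]

/-- the extension of a pattern outside of `B` by the pattern `s` or its negative on `B` -/
def extB (B : Finset I) (σ : I → Bool) (b : Bool) (e' : {i // i ∉ B} → Bool) : I → Bool :=
  fun i => if h : i ∈ B then (if b then σ i else !σ i) else e' ⟨i, h⟩

omit [Fintype I] in
theorem extB_mem {B : Finset I} {σ : I → Bool} {b : Bool} {e' : {i // i ∉ B} → Bool} {i : I} (h : i ∈ B) :
    extB B σ b e' i = if b then σ i else !σ i := by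
  unfold extB
  rw [dif_pos h]

omit [Fintype I] in
theorem extB_not {B : Finset I} {σ : I → Bool} {b : Bool} {e' : {i // i ∉ B} → Bool} {i : I} (h : i ∉ B) :
    extB B σ b e' i = e' ⟨i, h⟩ := by
  unfold extB
  rw [dif_neg h]

omit [DecidableEq G] in
theorem dot_extB (τ : I → G) (B : Finset I) (σ : I → Bool)
    (h0 : dot (fun i : {i // i ∈ B} => τ i) (fun i => σ i) = 0) (b : Bool) (e' : {i // i ∉ B} → Bool) :
    dot τ (extB B σ b e') = dot (fun i : {i // i ∉ B} => τ i) e' := by
  classical
  rw [dot_split τ B]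
  have h1 : (fun i : {i // i ∈ B} => extB B σ b e' i) =
      fun i : {i // i ∈ B} => if b then σ i else !σ i := by
    funext i
    exact extB_mem i.2
  have h2 : (fun i : {i // i ∉ B} => extB B σ b e' i) = e' := by
    funext i
    exact extB_not i.2
  rw [h1, h2]
  cases b
  · have h3 : (fun i : {i // i ∈ B} => if (false : Bool) = true then σ i else !σ i) =
        fun i : {i // i ∈ B} => !(σ i) := by
      funext i
      simp
    rw [h3, dot_not (fun i : {i // i ∈ B} => τ i) (fun i => σ i), h0, neg_zero, zero_add]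
  · have h3 : (fun i : {i // i ∈ B} => if (true : Bool) = true then σ i else !σ i) =
        fun i : {i // i ∈ B} => σ i := by
      funext i
      simp
    rw [h3, h0, zero_add]

/-- Proof. Take `J, κ, σ` from `cubic_struct` and `B = {i : κ i = i0}`, with the signs `σ`. Then the
signed sum over `B` is zero; since `τ i0 ≠ 0` one has `B ≠ {i0}`, so `|B| ≥ 2`. The zero patterns of
`τ` are the patterns given by `e (κ i)` and `σ`; those of the restriction `τ'` to the complement of
`B` are the patterns given in the same way by the classes `k ∈ J \ {i0}`: every such pattern is a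
zero pattern since the class sums vanish, and conversely a zero pattern of `τ'` extended by `σ` on
`B` is a zero pattern of `τ`. So `Zs τ` is in bijection with `Bool × Zs τ'`, and
`|Zs τ'| = 2^(|J| - 1)`, `dd (Zs τ) = |J|`. Finally `dd (Zs τ') = |J| - 1`: it is at least that by
`card_le_two_pow_dd`, and at most that because the restriction of `dir (Zs τ')` to `J \ {i0}`
is injective. -/
theorem cubic_block (hG : ∀ x : G, (2 : ℕ) • x = 0 → x = 0) (τ : I → G) (hτ : ∀ i, τ i ≠ 0)
    (h : 3 * 2 ^ dd (Zs τ) < 4 * (Zs τ).card) (i0 : I) :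
    ∃ (B : Finset I) (h0 : i0 ∈ B) (σ : {i // i ∈ B} → Bool), σ ⟨i0, h0⟩ = true ∧ 2 ≤ B.card ∧
      dot (fun i : {i // i ∈ B} => τ i) σ = 0 ∧
      (Zs τ).card = 2 * (Zs (fun i : {i // i ∉ B} => τ i)).card ∧
      dd (Zs τ) = dd (Zs (fun i : {i // i ∉ B} => τ i)) + 1 := by
  classical
  obtain ⟨J, κ, σ, hi0, hJ, hκ, hκJ, hz, hiff⟩ := cubic_struct hG τ h i0
  set B : Finset I := univ.filter (fun i => κ i = i0) with hB
  have hmB : ∀ i, i ∈ B ↔ κ i = i0 := by
    intro i
    rw [hB, Finset.mem_filter]
    simp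
  have h0 : i0 ∈ B := (hmB i0).2 (hκJ i0 hi0).1
  have hσ0 : σ i0 = true := (hκJ i0 hi0).2
  have hdot : dot (fun i : {i // i ∈ B} => τ i) (fun i => σ i) = 0 := by
    unfold dot
    rw [Finset.sum_coe_sort B (fun i => sg (σ i) • τ i)]
    exact hz i0 hi0
  -- cardinality
  have hcard : (Zs τ).card = 2 * (Zs (fun i : {i // i ∉ B} => τ i)).card := by
    have h1 : 2 * (Zs (fun i : {i // i ∉ B} => τ i)).card =
        ((univ : Finset Bool) ×ˢ Zs (fun i : {i // i ∉ B} => τ i)).card := by
      rw [Finset.card_product, Finset.card_univ, Fintype.card_bool]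
    rw [h1]
    refine Finset.card_bij' (fun e _ => (e i0, fun i : {i // i ∉ B} => e i)) (fun p _ => extB B σ p.1 p.2)
      ?_ ?_ ?_ ?_
    · intro e he
      rw [Finset.mem_product]
      refine ⟨mem_univ _, ?_⟩
      have he' := (hiff e).1 he
      have h2 : e = extB B σ (e i0) (fun i : {i // i ∉ B} => e i) := by
        funext i
        by_cases hi : i ∈ B
        · rw [extB_mem hi]
          have h3 := he' i
          rw [(hmB i).1 hi] at h3
          revert h3
          cases e i <;> cases σ i <;> cases e i0 <;> decide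
        · rw [extB_not hi]
      have h3 := dot_extB τ B σ hdot (e i0) (fun i : {i // i ∉ B} => e i)
      rw [← h2] at h3
      unfold Zs
      rw [Finset.mem_filter]
      refine ⟨mem_univ _, ?_⟩
      rw [← h3]
      exact (Finset.mem_filter.1 he).2
    · intro p hp
      rw [Finset.mem_product] at hp
      unfold Zs
      rw [Finset.mem_filter]
      refine ⟨mem_univ _, ?_⟩
      rw [dot_extB τ B σ hdot]
      exact (Finset.mem_filter.1 hp.2).2
    · intro e he
      dsimp only
      funext i
      by_cases hi : i ∈ B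
      · rw [extB_mem hi]
        have h3 := (hiff e).1 he i
        rw [(hmB i).1 hi] at h3
        revert h3
        cases e i <;> cases σ i <;> cases e i0 <;> decide
      · rw [extB_not hi]
    · intro p hp
      apply Prod.ext
      · change extB B σ p.1 p.2 i0 = p.1
        rw [extB_mem h0, hσ0]
        cases p.1 <;> rfl
      · funext i
        change extB B σ p.1 p.2 i = p.2 i
        rw [extB_not i.2]
  have hB2 : 2 ≤ B.card := by
    by_contra hcon
    have h1 : 0 < B.card := Finset.card_pos.2 ⟨i0, h0⟩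
    have h2 : B.card = 1 := by omega
    obtain ⟨a, ha⟩ := Finset.card_eq_one.1 h2
    rw [ha, Finset.mem_singleton] at h0
    have h3 := hz i0 hi0
    rw [← hB, ha, Finset.sum_singleton, ← h0, hσ0] at h3
    apply hτ i0
    simpa [sg] using h3
  have hne : (Zs τ).Nonempty := by
    rw [← Finset.card_pos]
    omega
  obtain ⟨e1, he1⟩ := hne
  -- the dimension of the complement
  have hup : dd (Zs (fun i : {i // i ∉ B} => τ i)) < dd (Zs τ) := by
    let L : ({i // i ∉ B} → ZMod 3) →ₗ[ZMod 3] (I → ZMod 3) :=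
      { toFun := fun v i => if h : i ∉ B then v ⟨i, h⟩ else 0
        map_add' := by
          intro v v'
          funext i
          by_cases hi : i ∈ B <;> simp [hi]
        map_smul' := by
          intro c v
          funext i
          by_cases hi : i ∈ B <;> simp [hi] }
    have hLdef : ∀ v i, L v i = if h : i ∉ B then v ⟨i, h⟩ else 0 := fun v i => rfl
    have hLinj : Function.Injective L := by
      intro v v' hv
      funext i
      have := congrFun hv i
      rw [hLdef, hLdef, dif_pos i.2, dif_pos i.2] at this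
      exact this
    set D' : Submodule (ZMod 3) (I → ZMod 3) := dir (Zs τ) ⊓ LinearMap.ker (LinearMap.proj i0) with hD'
    have hlt : D' < dir (Zs τ) := by
      refine lt_of_le_of_ne inf_le_left fun heq => ?_
      have h1 : v3 e1 ∈ D' := by
        rw [heq, dir_Zs]
        exact Submodule.subset_span ⟨e1, he1, rfl⟩
      have h2 := (Submodule.mem_inf.1 h1).2
      rw [LinearMap.mem_ker, LinearMap.proj_apply] at h2
      exact v3_ne_zero e1 i0 h2
    have hmap : (dir (Zs (fun i : {i // i ∉ B} => τ i))).map L ≤ D' := by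
      rw [dir_Zs, Submodule.map_span, Submodule.span_le]
      rintro _ ⟨_, ⟨e', he', rfl⟩, rfl⟩
      rw [SetLike.mem_coe, hD', Submodule.mem_inf]
      constructor
      · have ht : ∀ b, extB B σ b e' ∈ Zs τ := by
          intro b
          unfold Zs
          rw [Finset.mem_filter]
          refine ⟨mem_univ _, ?_⟩
          rw [dot_extB τ B σ hdot]
          exact (Finset.mem_filter.1 he').2
        have h1 : L (v3 e') = -(v3 (extB B σ true e') + v3 (extB B σ false e')) := by
          funext i
          rw [hLdef, Pi.neg_apply, Pi.add_apply]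
          unfold v3
          by_cases hi : i ∈ B
          · rw [dif_neg (not_not.2 hi), extB_mem hi, extB_mem hi]
            cases σ i <;> decide
          · rw [dif_pos hi, extB_not hi, extB_not hi]
            cases e' ⟨i, hi⟩ <;> decide
        rw [h1, dir_Zs]
        exact Submodule.neg_mem _ (Submodule.add_mem _ (Submodule.subset_span ⟨_, ht true, rfl⟩)
          (Submodule.subset_span ⟨_, ht false, rfl⟩))
      · rw [LinearMap.mem_ker, LinearMap.proj_apply, hLdef, dif_neg (not_not.2 h0)]
    calc dd (Zs (fun i : {i // i ∉ B} => τ i))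
        = Module.finrank (ZMod 3) ((dir (Zs (fun i : {i // i ∉ B} => τ i))).map L) :=
          (Submodule.equivMapOfInjective L hLinj _).finrank_eq
      _ ≤ Module.finrank (ZMod 3) D' := Submodule.finrank_mono hmap
      _ < dd (Zs τ) := Submodule.finrank_lt_finrank_of_lt hlt
  have hlow : dd (Zs τ) ≤ dd (Zs (fun i : {i // i ∉ B} => τ i)) + 1 := by
    by_contra hcon
    have h1 := card_le_two_pow_dd (Zs (fun i : {i // i ∉ B} => τ i))
    obtain ⟨m, hm⟩ : ∃ m, dd (Zs τ) = dd (Zs (fun i : {i // i ∉ B} => τ i)) + 2 + m :=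
      ⟨dd (Zs τ) - (dd (Zs (fun i : {i // i ∉ B} => τ i)) + 2), by omega⟩
    rw [hm, hcard, pow_add, pow_add] at h
    have h2 : 1 ≤ 2 ^ m := Nat.one_le_two_pow
    nlinarith
  exact ⟨B, h0, fun i => σ i, hσ0, hB2, hdot, hcard, by omega⟩

end Pool.Agent.W_MP_a45265_h99
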