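import Mathlib
import Pool.Agent.W_MP_a45265_h99.Cubic
import Pool.Agent.W_MP_a45265_h99.KerCnt

set_option autoImplicit false

/-!
# The contribution of the coincidence cubes is a centred Poisson moment
-/

namespace Pool.Agent.W_MP_a45265_h99

open Finset

/-- The recursion for the moments. -/
theorem AA_succ (m : ℝ) (k : ℕ) : AA m (k + 1) =
    ∑ b : Fin k, (k.choose (b + 1) : ℝ) * (m⁻¹) ^ ((b : ℕ) + 1) * AA m (k - (b + 1)) := by
  rw [AA]

theorem AA_nonneg (m : ℝ) (hm : 0 < m) (k : ℕ) : 0 ≤ AA m k := by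
  induction k using Nat.strong_induction_on with
  | _ k ih =>
    cases k with
    | zero => rw [AA]; norm_num
    | succ k =>
      rw [AA_succ]
      apply Finset.sum_nonneg
      intro b _
      have h1 := ih (k - (b + 1)) (by omega)
      positivity

/-- The number of `τ` on a block with prescribed signed sum zero: `(3^j)^(|B| - 1)`.

Proof. The map `τ ↦ dot τ σ` is a surjective homomorphism `(ZMod (3^j))^B → ZMod (3^j)`
(or: `τ i0` is determined by the other coordinates). -/
theorem card_block (j : ℕ) {B : Type} [Fintype B] [DecidableEq B] (i0 : B) (σ : B → Bool) :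
    (univ.filter (fun τ : B → ZMod (3 ^ j) => dot τ σ = 0)).card ≤
      (3 ^ j) ^ (Fintype.card B - 1) := by
  have hcard : Fintype.card ({i : B // i ≠ i0} → ZMod (3 ^ j)) =
      (3 ^ j) ^ (Fintype.card B - 1) := by
    rw [Fintype.card_fun, ZMod.card, Fintype.card_subtype_compl, Fintype.card_subtype_eq]
  rw [← hcard, ← Finset.card_univ]
  apply Finset.card_le_card_of_injOn (fun τ => fun i : {i : B // i ≠ i0} => τ i)
  · intro τ _
    exact Finset.mem_coe.mpr (Finset.mem_univ _)
  · intro τ hτ τ' hτ' h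
    have h1 : dot τ σ = 0 := (Finset.mem_filter.mp (Finset.mem_coe.mp hτ)).2
    have h2 : dot τ' σ = 0 := (Finset.mem_filter.mp (Finset.mem_coe.mp hτ')).2
    have hoff : ∀ i, i ≠ i0 → τ i = τ' i := fun i hi => congrFun h ⟨i, hi⟩
    unfold dot at h1 h2
    rw [← Finset.add_sum_erase _ _ (Finset.mem_univ i0)] at h1 h2
    have h3 : ∑ x ∈ univ.erase i0, sg (σ x) • τ x = ∑ x ∈ univ.erase i0, sg (σ x) • τ' x := by
      apply Finset.sum_congr rfl
      intro x hx
      rw [hoff x (Finset.ne_of_mem_erase hx)]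
    rw [h3] at h1
    have h4 : sg (σ i0) • τ i0 = sg (σ i0) • τ' i0 := by
      have := h1.trans h2.symm
      exact add_right_cancel this
    have h5 : τ i0 = τ' i0 := by
      unfold sg at h4
      cases hσ : σ i0 <;> simpa [hσ] using h4
    funext i
    by_cases hi : i = i0
    · rw [hi]; exact h5
    · exact hoff i hi

/-- The number of sign patterns with a prescribed value. -/
theorem card_sgn {B : Type} [Fintype B] [DecidableEq B] (i0 : B) :
    (univ.filter (fun σ : B → Bool => σ i0 = true)).card = 2 ^ (Fintype.card B - 1) := by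
  have h1 : univ.filter (fun σ : B → Bool => σ i0 = true) =
      Fintype.piFinset (fun i : B => if i = i0 then {true} else (univ : Finset Bool)) := by
    ext σ
    simp only [Finset.mem_filter, Finset.mem_univ, true_and, Fintype.mem_piFinset]
    constructor
    · intro h i
      by_cases hi : i = i0
      · subst hi; simp [h]
      · simp [hi]
    · intro h
      have := h i0
      simpa using this
  rw [h1, Fintype.card_piFinset]
  have h2 : ∀ i : B, (if i = i0 then ({true} : Finset Bool) else univ).card =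
      if i = i0 then 1 else 2 := by
    intro i; by_cases hi : i = i0 <;> simp [hi]
  simp only [h2]
  rw [Finset.prod_ite]
  simp only [Finset.prod_const_one, one_mul, Finset.prod_const]
  congr 1
  rw [Finset.filter_not, Finset.card_sdiff_of_subset (Finset.filter_subset _ _),
    Finset.card_univ, Finset.filter_eq' univ i0]
  simp

/-- The index set of `cub_sum`. -/
noncomputable def CubS (j : ℕ) (I : Type) [Fintype I] [DecidableEq I] : Finset (I → ZMod (3 ^ j)) :=
  univ.filter (fun τ : I → ZMod (3 ^ j) => (∀ i, τ i ≠ 0) ∧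
      3 * 2 ^ dd (Zs τ) < 4 * (Zs τ).card)

/-- The weight in `cub_sum`. -/
noncomputable def cubW {j : ℕ} {I : Type} [Fintype I] [DecidableEq I] (n : ℕ) (τ : I → ZMod (3 ^ j)) : ℝ :=
  (((Zs τ).card : ℝ) / 2 ^ Fintype.card I) ^ n

theorem cubW_nonneg {j : ℕ} {I : Type} [Fintype I] [DecidableEq I] (n : ℕ) (τ : I → ZMod (3 ^ j)) :
    0 ≤ cubW n τ := by
  unfold cubW; positivity

/-- The relation between a family, a block and signs given by `cubic_block`. -/
def CubP {j : ℕ} {I : Type} [Fintype I] [DecidableEq I] (B : Finset I)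
    (σ : {i // i ∈ B} → Bool) (τ : I → ZMod (3 ^ j)) : Prop :=
  dot (fun i : {i // i ∈ B} => τ i) σ = 0 ∧
    (Zs τ).card = 2 * (Zs (fun i : {i // i ∉ B} => τ i)).card ∧
    dd (Zs τ) = dd (Zs (fun i : {i // i ∉ B} => τ i)) + 1

open Classical in
/-- The part of the sum with given block and given signs. -/
theorem cub_part (j n : ℕ) {I : Type} [Fintype I] [DecidableEq I] (B : Finset I) (i0 : I)
    (h0 : i0 ∈ B) (σ : {i // i ∈ B} → Bool) :
    ∑ τ ∈ (CubS j I).filter (fun τ => CubP B σ τ), cubW n τ ≤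
    (3 ^ j) ^ (B.card - 1) * ((2 : ℝ) ^ (B.card - 1))⁻¹ ^ n * ∑ τ' ∈ CubS j {i // i ∉ B}, cubW n τ' := by
  set c : ℝ := ((2 : ℝ) ^ (B.card - 1))⁻¹ ^ n with hc
  have hc0 : 0 ≤ c := by rw [hc]; positivity
  set P : Finset (({i // i ∈ B} → ZMod (3 ^ j)) × ({i // i ∉ B} → ZMod (3 ^ j))) :=
    (univ.filter (fun τ : {i // i ∈ B} → ZMod (3 ^ j) => dot τ σ = 0)) ×ˢ CubS j {i // i ∉ B} with hP
  set Q : Finset (I → ZMod (3 ^ j)) := (CubS j I).filter (fun τ => CubP B σ τ) with hQ
  let e : (I → ZMod (3 ^ j)) → ({i // i ∈ B} → ZMod (3 ^ j)) × ({i // i ∉ B} → ZMod (3 ^ j)) :=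
    fun τ => (fun i => τ i, fun i => τ i)
  have he : Function.Injective e := by
    intro τ τ' h
    funext i
    by_cases hi : i ∈ B
    · exact congrFun (congrArg Prod.fst h) ⟨i, hi⟩
    · exact congrFun (congrArg Prod.snd h) ⟨i, hi⟩
  have hcardI : Fintype.card {i // i ∉ B} + (B.card - 1) + 1 = Fintype.card I := by
    have h1 : Fintype.card {i // i ∉ B} = Fintype.card I - B.card := by
      rw [Fintype.card_subtype_compl, Fintype.card_coe]
    have h2 : B.card ≤ Fintype.card I := Finset.card_le_univ B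
    have h3 : 0 < B.card := Finset.card_pos.mpr ⟨i0, h0⟩
    omega
  have hw : ∀ τ ∈ Q, cubW n τ = c * cubW n (e τ).2 := by
    intro τ hτ
    have h1 : CubP B σ τ := (Finset.mem_filter.mp hτ).2
    have h2 : (Zs τ).card = 2 * (Zs (e τ).2).card := h1.2.1
    unfold cubW
    rw [h2, hc, ← mul_pow]
    congr 1
    rw [← hcardI, pow_succ, pow_add]
    push_cast
    field_simp
  have hm : ∀ τ ∈ Q, e τ ∈ P := by
    intro τ hτ
    have h1 : CubP B σ τ := (Finset.mem_filter.mp hτ).2
    have h2 := (Finset.mem_filter.mp (Finset.mem_filter.mp hτ).1).2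
    rw [hP, Finset.mem_product]
    refine ⟨Finset.mem_filter.mpr ⟨Finset.mem_univ _, h1.1⟩, Finset.mem_filter.mpr ⟨Finset.mem_univ _, ?_, ?_⟩⟩
    · intro i; exact h2.1 i
    · have h3 := h2.2
      rw [h1.2.1, h1.2.2, pow_succ] at h3
      show 3 * 2 ^ dd (Zs (fun i : {i // i ∉ B} => τ i)) < 4 * (Zs (fun i : {i // i ∉ B} => τ i)).card
      omega
  calc ∑ τ ∈ Q, cubW n τ = ∑ τ ∈ Q, c * cubW n (e τ).2 := Finset.sum_congr rfl hw
    _ = ∑ p ∈ Q.image e, c * cubW n p.2 := by
        rw [Finset.sum_image (fun x _ y _ h => he h)]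
    _ ≤ ∑ p ∈ P, c * cubW n p.2 := by
        apply Finset.sum_le_sum_of_subset_of_nonneg
        · intro p hp
          obtain ⟨τ, hτ, rfl⟩ := Finset.mem_image.mp hp
          exact hm τ hτ
        · intro p _ _
          exact mul_nonneg hc0 (cubW_nonneg _ _)
    _ = ((univ.filter (fun τ : {i // i ∈ B} → ZMod (3 ^ j) => dot τ σ = 0)).card : ℝ) *
          (c * ∑ τ' ∈ CubS j {i // i ∉ B}, cubW n τ') := by
        rw [hP, Finset.sum_product]
        simp only [Finset.sum_const, nsmul_eq_mul, ← Finset.mul_sum]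
    _ ≤ (3 ^ j) ^ (B.card - 1) * (c * ∑ τ' ∈ CubS j {i // i ∉ B}, cubW n τ') := by
        apply mul_le_mul_of_nonneg_right
        · have h1 := card_block j (⟨i0, h0⟩ : {i // i ∈ B}) σ
          rw [Fintype.card_coe] at h1
          exact_mod_cast h1
        · exact mul_nonneg hc0 (Finset.sum_nonneg fun _ _ => cubW_nonneg _ _)
    _ = (3 ^ j) ^ (B.card - 1) * c * ∑ τ' ∈ CubS j {i // i ∉ B}, cubW n τ' := by
        rw [mul_assoc]

/-- The group has no elements of order two. -/
theorem zmod_two_tf (j : ℕ) (x : ZMod (3 ^ j)) (h : (2 : ℕ) • x = 0) : x = 0 := by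
  have h1 : Nat.Coprime 2 (3 ^ j) := Nat.Coprime.pow_right j (by norm_num)
  have h2 : IsUnit ((2 : ℕ) : ZMod (3 ^ j)) := (ZMod.isUnit_iff_coprime 2 (3 ^ j)).mpr h1
  rw [nsmul_eq_mul] at h
  exact (IsUnit.mul_right_eq_zero h2).mp h

open Classical in
/-- Summation over all blocks and signs. -/
theorem cub_cover (j n : ℕ) {I : Type} [Fintype I] [DecidableEq I] (i0 : I) :
    ∑ τ ∈ CubS j I, cubW n τ ≤
      ∑ B ∈ univ.filter (fun B : Finset I => i0 ∈ B ∧ 2 ≤ B.card),
        2 ^ (B.card - 1) * ((3 ^ j) ^ (B.card - 1) * ((2 : ℝ) ^ (B.card - 1))⁻¹ ^ n *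
          ∑ τ' ∈ CubS j {i // i ∉ B}, cubW n τ') := by
  have h1 : ∀ τ ∈ CubS j I, cubW n τ ≤
      ∑ B ∈ univ.filter (fun B : Finset I => i0 ∈ B ∧ 2 ≤ B.card),
        ∑ σ ∈ univ.filter (fun σ : {i // i ∈ B} → Bool => ∀ h : i0 ∈ B, σ ⟨i0, h⟩ = true),
          if CubP B σ τ then cubW n τ else 0 := by
    intro τ hτ
    have h2 := (Finset.mem_filter.mp hτ).2
    obtain ⟨B, h0, σ, hσ, hB, hd, hc, hdd⟩ := cubic_block (zmod_two_tf j) τ h2.1 h2.2 i0
    have hnn : ∀ (B : Finset I) (σ : {i // i ∈ B} → Bool), 0 ≤ if CubP B σ τ then cubW n τ else 0 := by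
      intro B σ
      split_ifs
      · exact cubW_nonneg _ _
      · exact le_rfl
    have h3 : (if CubP B σ τ then cubW n τ else 0) = cubW n τ := if_pos ⟨hd, hc, hdd⟩
    calc cubW n τ = if CubP B σ τ then cubW n τ else 0 := h3.symm
      _ ≤ ∑ σ ∈ univ.filter (fun σ : {i // i ∈ B} → Bool => ∀ h : i0 ∈ B, σ ⟨i0, h⟩ = true),
          if CubP B σ τ then cubW n τ else 0 :=
          Finset.single_le_sum (f := fun σ => if CubP B σ τ then cubW n τ else 0)
            (fun σ _ => hnn B σ) (Finset.mem_filter.mpr ⟨Finset.mem_univ _, fun _ => hσ⟩)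
      _ ≤ _ :=
          Finset.single_le_sum (f := fun B => ∑ σ ∈ univ.filter
            (fun σ : {i // i ∈ B} → Bool => ∀ h : i0 ∈ B, σ ⟨i0, h⟩ = true),
            if CubP B σ τ then cubW n τ else 0)
            (fun B _ => Finset.sum_nonneg fun σ _ => hnn B σ)
            (Finset.mem_filter.mpr ⟨Finset.mem_univ _, h0, hB⟩)
  refine (Finset.sum_le_sum h1).trans ?_
  rw [Finset.sum_comm]
  apply Finset.sum_le_sum
  intro B hB
  have hB2 := (Finset.mem_filter.mp hB).2
  rw [Finset.sum_comm]
  have h4 : ∀ σ ∈ univ.filter (fun σ : {i // i ∈ B} → Bool => ∀ h : i0 ∈ B, σ ⟨i0, h⟩ = true),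
      (∑ τ ∈ CubS j I, if CubP B σ τ then cubW n τ else 0) ≤
        (3 ^ j) ^ (B.card - 1) * ((2 : ℝ) ^ (B.card - 1))⁻¹ ^ n *
          ∑ τ' ∈ CubS j {i // i ∉ B}, cubW n τ' := by
    intro σ _
    rw [← Finset.sum_filter]
    exact cub_part j n B i0 hB2.1 σ
  refine (Finset.sum_le_card_nsmul _ _ _ h4).trans ?_
  rw [nsmul_eq_mul]
  apply le_of_eq
  congr 1
  have h5 : (univ.filter (fun σ : {i // i ∈ B} → Bool => ∀ h : i0 ∈ B, σ ⟨i0, h⟩ = true)) =
      univ.filter (fun σ : {i // i ∈ B} → Bool => σ ⟨i0, hB2.1⟩ = true) := by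
    ext σ
    simp only [Finset.mem_filter, Finset.mem_univ, true_and]
    exact ⟨fun h => h hB2.1, fun h _ => h⟩
  rw [h5, card_sgn, Fintype.card_coe]
  push_cast
  rfl

/-- A sum over the sets containing a given point with a summand depending on the cardinality. -/
theorem sum_blocks {I : Type} [Fintype I] [DecidableEq I] (i0 : I) (k : ℕ)
    (hk : Fintype.card I = k + 1) (F : ℕ → ℝ) :
    ∑ B ∈ univ.filter (fun B : Finset I => i0 ∈ B ∧ 2 ≤ B.card), F B.card =
      ∑ b : Fin k, (k.choose (b + 1) : ℝ) * F (b + 2) := by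
  have h1 : ∑ B ∈ univ.filter (fun B : Finset I => i0 ∈ B ∧ 2 ≤ B.card), F B.card =
      ∑ C ∈ (univ.erase i0).powerset, (if C.card = 0 then 0 else F (C.card + 1)) := by
    rw [← Finset.sum_filter_add_sum_filter_not (univ.erase i0).powerset (fun C => C.card = 0)]
    have h2 : ∑ C ∈ (univ.erase i0).powerset.filter (fun C => C.card = 0),
        (if C.card = 0 then 0 else F (C.card + 1)) = 0 := by
      apply Finset.sum_eq_zero
      intro C hC
      rw [if_pos (Finset.mem_filter.mp hC).2]
    rw [h2, zero_add]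
    refine Finset.sum_bij' (fun B _ => B.erase i0) (fun C _ => insert i0 C) ?_ ?_ ?_ ?_ ?_
    · intro B hB
      have hB2 := (Finset.mem_filter.mp hB).2
      rw [Finset.mem_filter, Finset.mem_powerset, Finset.card_erase_of_mem hB2.1]
      refine ⟨Finset.erase_subset_erase _ (Finset.subset_univ _), ?_⟩
      have := hB2.2
      omega
    · intro C hC
      rw [Finset.mem_filter, Finset.mem_powerset] at hC
      have h3 : i0 ∉ C := fun h => by
        have := hC.1 h
        simp at this
      rw [Finset.mem_filter, Finset.card_insert_of_notMem h3]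
      refine ⟨Finset.mem_univ _, Finset.mem_insert_self _ _, ?_⟩
      have := hC.2
      omega
    · intro B hB
      exact Finset.insert_erase (Finset.mem_filter.mp hB).2.1
    · intro C hC
      rw [Finset.mem_filter, Finset.mem_powerset] at hC
      have h3 : i0 ∉ C := fun h => by
        have := hC.1 h
        simp at this
      exact Finset.erase_insert h3
    · intro B hB
      have hB2 := (Finset.mem_filter.mp hB).2
      have h4 := hB2.2
      rw [Finset.card_erase_of_mem hB2.1, if_neg (by omega)]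
      congr 1
      omega
  rw [h1, Finset.sum_powerset_apply_card (fun m => if m = 0 then 0 else F (m + 1))]
  have h5 : (univ.erase i0 : Finset I).card = k := by
    rw [Finset.card_erase_of_mem (Finset.mem_univ _), Finset.card_univ, hk]
    omega
  rw [h5, Finset.sum_range_succ']
  simp only [nsmul_eq_mul, if_true, mul_zero, add_zero]
  rw [Finset.sum_range]
  apply Finset.sum_congr rfl
  intro b _
  simp

/-- Proof by induction on `|I|`, for all `I`. If `I` is empty both sides are `1`
(`Zs` of the empty family is the set of the empty pattern). Otherwise fix `i0 ∈ I`, `|I| = k + 1`. By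
`cubic_block` every `τ` in the sum has a block `B ∋ i0`, `|B| = b + 2`, `b < k`, signs `σ` on `B` with
`σ i0 = true` (`2^(b+1)` choices), `τ|_B` with signed sum zero (at most `(3^j)^(b+1)` choices,
`card_block`), and `τ' = τ|_{Bᶜ}` again in the index set of the sum for `Bᶜ`
(`3 * 2^(dd') < 4 |Zs τ'|` since `|Zs τ| = 2 |Zs τ'|`, `dd = dd' + 1`), with
`|Zs τ| / 2^(k+1) = (|Zs τ'| / 2^(k-b-1)) / 2^(b+1)`. So the sum is at most
`∑_{b<k} C(k, b+1) * 2^(b+1) (3^j)^(b+1) 2^(-(b+1) n) * AA m (k - (b+1))`, and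
`2 * 3^j / 2^n = 1 / m`. The number of `B` is `C(k, b+1)`. -/
theorem cub_sum (j n : ℕ) (hn : 1 ≤ n) (I : Type) [Fintype I] [DecidableEq I] :
    ∑ τ ∈ univ.filter (fun τ : I → ZMod (3 ^ j) => (∀ i, τ i ≠ 0) ∧
      3 * 2 ^ dd (Zs τ) < 4 * (Zs τ).card),
        (((Zs τ).card : ℝ) / 2 ^ Fintype.card I) ^ n ≤
      AA (2 ^ (n - 1) / 3 ^ j) (Fintype.card I) := by
  classical
  have key : ∀ (N : ℕ) (I : Type) [Fintype I] [DecidableEq I], Fintype.card I = N →
      ∑ τ ∈ CubS j I, cubW n τ ≤ AA (2 ^ (n - 1) / 3 ^ j) N := by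
    intro N
    induction N using Nat.strong_induction_on with
    | _ N ih =>
      intro I _ _ hI
      cases N with
      | zero =>
        have : IsEmpty I := Fintype.card_eq_zero_iff.mp hI
        have h1 : ∀ τ ∈ CubS j I, cubW n τ ≤ 1 := by
          intro τ _
          unfold cubW
          apply pow_le_one₀ (by positivity)
          rw [div_le_one (by positivity), hI, pow_zero]
          have h2 : (Zs τ).card ≤ Fintype.card (I → Bool) := Finset.card_le_univ _
          rw [Fintype.card_fun, hI, pow_zero] at h2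
          exact_mod_cast h2
        have h2 : (CubS j I).card ≤ 1 := by
          have h3 : (CubS j I).card ≤ Fintype.card (I → ZMod (3 ^ j)) := Finset.card_le_univ _
          rw [Fintype.card_fun, hI, pow_zero] at h3
          exact h3
        have h3 := Finset.sum_le_card_nsmul _ _ _ h1
        rw [nsmul_eq_mul, mul_one] at h3
        rw [AA]
        refine h3.trans ?_
        exact_mod_cast h2
      | succ k =>
        have hne : Nonempty I := Fintype.card_pos_iff.mp (by omega)
        obtain ⟨i0⟩ := hne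
        refine (cub_cover j n i0).trans ?_
        have h1 : ∀ B ∈ univ.filter (fun B : Finset I => i0 ∈ B ∧ 2 ≤ B.card),
            2 ^ (B.card - 1) * ((3 ^ j) ^ (B.card - 1) * ((2 : ℝ) ^ (B.card - 1))⁻¹ ^ n *
              ∑ τ' ∈ CubS j {i // i ∉ B}, cubW n τ') ≤
            ((2 ^ (n - 1) / 3 ^ j : ℝ)⁻¹) ^ (B.card - 1) *
              AA (2 ^ (n - 1) / 3 ^ j) (k + 1 - B.card) := by
          intro B hB
          have hB2 := (Finset.mem_filter.mp hB).2
          have hcB : B.card ≤ k + 1 := by rw [← hI]; exact Finset.card_le_univ B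
          have h2 : Fintype.card {i // i ∉ B} = k + 1 - B.card := by
            rw [Fintype.card_subtype_compl, Fintype.card_coe, hI]
          have h3 := ih (k + 1 - B.card) (by have := hB2.2; omega) {i // i ∉ B} h2
          have h4 : (2 : ℝ) ^ (B.card - 1) * ((3 ^ j) ^ (B.card - 1) *
              ((2 : ℝ) ^ (B.card - 1))⁻¹ ^ n) =
              ((2 ^ (n - 1) / 3 ^ j : ℝ)⁻¹) ^ (B.card - 1) := by
            have h5 : ((2 : ℝ) ^ (B.card - 1))⁻¹ ^ n = (((2 : ℝ) ^ n)⁻¹) ^ (B.card - 1) := by
              rw [inv_pow, inv_pow, ← pow_mul, ← pow_mul, mul_comm]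
            rw [h5, ← mul_pow, ← mul_pow]
            congr 1
            have h6 : (2 : ℝ) ^ n = 2 ^ (n - 1) * 2 := by
              rw [← pow_succ]; congr 1; omega
            rw [h6]
            field_simp
          rw [← mul_assoc, h4]
          exact mul_le_mul_of_nonneg_left h3 (by positivity)
        refine (Finset.sum_le_sum h1).trans ?_
        rw [sum_blocks i0 k hI (fun c => ((2 ^ (n - 1) / 3 ^ j : ℝ)⁻¹) ^ (c - 1) *
              AA (2 ^ (n - 1) / 3 ^ j) (k + 1 - c)), AA_succ]
        apply le_of_eq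
        apply Finset.sum_congr rfl
        intro b _
        have e1 : (b : ℕ) + 2 - 1 = b + 1 := by omega
        have e2 : k + 1 - ((b : ℕ) + 2) = k - (b + 1) := by omega
        rw [e1, e2, mul_assoc]
  exact key (Fintype.card I) I rfl

end Pool.Agent.W_MP_a45265_h99
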