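import Mathlib
import Pool.Agent.W_MP_a45265_h99.CubRec

set_option autoImplicit false

/-!
# Generating function of the centred Poisson moments
-/

namespace Pool.Agent.W_MP_a45265_h99

open Finset

/-- Proof. Let `P(x) = ∑_{k ≤ S} AA m k x^k / k!` and `φ(x) = m (exp (x/m) - 1 - x/m)`,
`φ'(x) = exp (x/m) - 1 ≥ ∑_{1 ≤ b ≤ S} (x/m)^b / b!` for `x ≥ 0`. By the recursion of `AA`
`P'(x) = ∑_{k < S} AA m (k+1) x^k / k! = ∑_{k<S} ∑_{b=1}^{k} (x/m)^b / b! * AA m (k-b) x^(k-b) / (k-b)!
≤ φ'(x) P(x)` for `x ≥ 0` (all terms are nonnegative). So `P(x) exp (-φ(x))` is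
nonincreasing on `[0, ∞)` and equals `1` at `0`. -/
theorem genF (m : ℝ) (hm : 0 < m) (S : ℕ) (x : ℝ) (hx : 0 ≤ x) :
    ∑ k ∈ range (S + 1), AA m k * x ^ k / k.factorial ≤
      Real.exp (m * (Real.exp (x / m) - 1 - x / m)) := by
  set P : ℝ → ℝ := fun y => ∑ k ∈ range (S + 1), AA m k * y ^ k / k.factorial with hP
  set φ : ℝ → ℝ := fun y => m * (Real.exp (y / m) - 1 - y / m) with hφ
  set P' : ℝ → ℝ := fun y => ∑ k ∈ range S, AA m (k + 1) * y ^ k / k.factorial with hP'
  have hder : ∀ y, HasDerivAt P (P' y) y := by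
    intro y
    have h1 : HasDerivAt P (∑ k ∈ range (S + 1), AA m k * (k * y ^ (k - 1)) / k.factorial) y := by
      refine HasDerivAt.fun_sum fun k _ => ?_
      exact ((hasDerivAt_pow k y).const_mul (AA m k)).div_const _
    have h2 : ∑ k ∈ range (S + 1), AA m k * (k * y ^ (k - 1)) / k.factorial = P' y := by
      rw [Finset.sum_range_succ']
      simp only [Nat.cast_zero, zero_mul, mul_zero, zero_div, add_zero, hP']
      refine sum_congr rfl fun k _ => ?_
      rw [Nat.factorial_succ, Nat.add_sub_cancel]
      push_cast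
      have : (k.factorial : ℝ) ≠ 0 := by positivity
      have hk : ((k : ℝ) + 1) ≠ 0 := by positivity
      field_simp
    rw [← h2]
    exact h1
  have hφd : ∀ y, HasDerivAt φ (Real.exp (y / m) - 1) y := by
    intro y
    have h1 : HasDerivAt (fun y : ℝ => y / m) (1 / m) y := (hasDerivAt_id y).div_const m
    have h2 := ((h1.exp.sub_const 1).sub h1).const_mul m
    refine h2.congr_deriv ?_
    field_simp
  -- the key inequality
  have hkey : ∀ y, 0 ≤ y → P' y ≤ (Real.exp (y / m) - 1) * P y := by
    intro y hy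
    set u : ℕ → ℝ := fun b => (y / m) ^ b / b.factorial with hu
    set v : ℕ → ℝ := fun l => AA m l * y ^ l / l.factorial with hv
    have hu0 : ∀ b, 0 ≤ u b := fun b => by positivity
    have hv0 : ∀ l, 0 ≤ v l := fun l => by
      have := AA_nonneg m hm l
      positivity
    have e1 : P' y = ∑ k ∈ range S, ∑ b ∈ range k, u (b + 1) * v (k - (b + 1)) := by
      refine sum_congr rfl fun k _ => ?_
      rw [AA, Finset.sum_mul, Finset.sum_div, ← Fin.sum_univ_eq_sum_range
        (fun b => u (b + 1) * v (k - (b + 1)))]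
      refine sum_congr rfl fun b _ => ?_
      have hb : (b : ℕ) + 1 ≤ k := b.2
      simp only [hu, hv]
      have hc : ((k.choose ((b : ℕ) + 1) : ℕ) : ℝ) =
          k.factorial / ((((b : ℕ) + 1).factorial : ℝ) * (k - ((b : ℕ) + 1)).factorial) := by
        rw [Nat.choose_eq_factorial_div_factorial hb, Nat.cast_div
          (Nat.factorial_mul_factorial_dvd_factorial hb) (by positivity)]
        push_cast
        rfl
      rw [hc]
      have hyk : y ^ k = y ^ ((b : ℕ) + 1) * y ^ (k - ((b : ℕ) + 1)) := by
        rw [← pow_add]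
        congr 1
        omega
      rw [hyk]
      have f1 : (k.factorial : ℝ) ≠ 0 := by positivity
      have f2 : ((((b : ℕ) + 1).factorial : ℕ) : ℝ) ≠ 0 := by positivity
      have f3 : (((k - ((b : ℕ) + 1)).factorial : ℕ) : ℝ) ≠ 0 := by positivity
      rw [div_pow, inv_pow]
      field_simp
    have e2 : ∑ k ∈ range S, ∑ b ∈ range k, u (b + 1) * v (k - (b + 1)) =
        ∑ b ∈ range S, ∑ k ∈ (range S).filter (fun k => b < k), u (b + 1) * v (k - (b + 1)) := by
      refine Finset.sum_comm' fun k b => ?_
      simp only [mem_range, mem_filter]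
      omega
    have e3 : ∀ b ∈ range S, ∑ k ∈ (range S).filter (fun k => b < k), u (b + 1) * v (k - (b + 1)) ≤
        u (b + 1) * P y := by
      intro b _
      rw [← Finset.mul_sum]
      refine mul_le_mul_of_nonneg_left ?_ (hu0 _)
      have hinj : Set.InjOn (fun k => k - (b + 1)) ((range S).filter (fun k => b < k) : Set ℕ) := by
        intro k hk k' hk' h
        simp only [coe_filter, mem_range, Set.mem_ofPred_eq] at hk hk'
        simp only at h
        omega
      rw [← Finset.sum_image (f := v) (g := fun k => k - (b + 1)) (fun k hk k' hk' h => hinj hk hk' h)]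
      refine Finset.sum_le_sum_of_subset_of_nonneg ?_ (fun l _ _ => hv0 l)
      intro l hl
      rw [mem_image] at hl
      obtain ⟨k, hk, rfl⟩ := hl
      rw [mem_filter, mem_range] at hk
      rw [mem_range]
      omega
    have e4 : ∑ b ∈ range S, u (b + 1) ≤ Real.exp (y / m) - 1 := by
      have h := Real.sum_le_exp_of_nonneg (div_nonneg hy hm.le) (S + 1)
      rw [Finset.sum_range_succ'] at h
      simp only [pow_zero, Nat.factorial_zero, Nat.cast_one, div_one] at h
      linarith
    rw [e1, e2]
    refine le_trans (sum_le_sum e3) ?_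
    rw [← Finset.sum_mul]
    refine mul_le_mul_of_nonneg_right e4 ?_
    exact sum_nonneg fun l _ => hv0 l
  have hanti : AntitoneOn (fun y => P y * Real.exp (-φ y)) (Set.Ici 0) := by
    refine antitoneOn_of_deriv_nonpos (convex_Ici 0) ?_ ?_ ?_
    · refine Continuous.continuousOn ?_
      have c1 : Continuous P := continuous_iff_continuousAt.2 fun y => (hder y).continuousAt
      have c2 : Continuous φ := continuous_iff_continuousAt.2 fun y => (hφd y).continuousAt
      exact c1.mul (Real.continuous_exp.comp c2.neg)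
    · intro y _
      exact ((hder y).mul ((hφd y).neg.exp)).differentiableAt.differentiableWithinAt
    · intro y hy
      rw [interior_Ici] at hy
      have hd : HasDerivAt (fun y => P y * Real.exp (-φ y))
          (P' y * Real.exp (-φ y) + P y * (Real.exp (-φ y) * -(Real.exp (y / m) - 1))) y :=
        (hder y).mul ((hφd y).neg.exp)
      rw [hd.deriv]
      have h1 := hkey y (le_of_lt hy)
      have h2 : 0 < Real.exp (-φ y) := Real.exp_pos _
      nlinarith
  have h0 : P 0 * Real.exp (-φ 0) ≤ 1 := by
    have hP0 : P 0 = 1 := by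
      simp only [hP]
      rw [Finset.sum_range_succ']
      simp [AA]
    rw [hP0]
    simp [hφ]
  have h1 := hanti (Set.mem_Ici.2 le_rfl) (Set.mem_Ici.2 hx) hx
  simp only at h1
  have h2 : P x * Real.exp (-φ x) ≤ 1 := le_trans h1 h0
  rw [Real.exp_neg, mul_inv_le_iff₀ (Real.exp_pos _), one_mul] at h2
  exact h2

end Pool.Agent.W_MP_a45265_h99
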