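import Mathlib
import Pool.Agent.W_MP_a45265_h99.CubRec

set_option autoImplicit false

/-!
# Sharp bound for the low dual moments
-/

namespace Pool.Agent.W_MP_a45265_h99

open Finset

/-- independent vectors among the zero patterns -/
theorem MomB_exists {j s r : ℕ} {t : Fin s → ZMod (3 ^ j)} (h : dd (Zs t) = r) :
    ∃ f : Fin r → (Fin s → Bool), (∀ a, f a ∈ Zs t) ∧
      Module.finrank (ZMod 3) (Submodule.span (ZMod 3)
        ((univ.image (fun a => v3 (f a)) : Finset (Fin s → ZMod 3)) :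
          Set (Fin s → ZMod 3))) = r := by
  have h1 : Module.finrank (ZMod 3) (Submodule.span (ZMod 3)
      (v3 '' (Zs t : Set (Fin s → Bool)))) = r := by
    rw [← h]
    unfold dd
    rw [dir_Zs]
  clear h
  subst h1
  obtain ⟨g, hg1, hg2, -⟩ := Submodule.exists_fun_fin_finrank_span_eq (ZMod 3)
    (v3 '' (Zs t : Set (Fin s → Bool)))
  choose f hf1 hf2 using hg1
  refine ⟨f, fun a => hf1 a, ?_⟩
  have h2 : ((univ.image (fun a => v3 (f a)) : Finset (Fin s → ZMod 3)) :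
      Set (Fin s → ZMod 3)) = Set.range g := by
    rw [Finset.coe_image, Finset.coe_univ, Set.image_univ]
    congr 1
    funext a
    exact hf2 a
  rw [h2, hg2]

/-- Proof. Choose `r` independent vectors among `v3 '' Zs t` (`dir_Zs`): an `r`-tuple of sign patterns
(`2^(s r)` choices) killing `t` (`kill_v3`) and of rank `r`; `ker_count` for each tuple. -/
theorem dd_count (j s r : ℕ) :
    (univ.filter (fun t : Fin s → ZMod (3 ^ j) => dd (Zs t) = r)).card * (3 ^ j) ^ r ≤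
      2 ^ (s * r) * (3 ^ j) ^ s := by
  classical
  set F : Finset (Fin r → (Fin s → Bool)) := univ.filter fun f =>
    Module.finrank (ZMod 3) (Submodule.span (ZMod 3)
        ((univ.image (fun a => v3 (f a)) : Finset (Fin s → ZMod 3)) :
          Set (Fin s → ZMod 3))) = r with hF
  have h1 : (univ.filter (fun t : Fin s → ZMod (3 ^ j) => dd (Zs t) = r)) ⊆
      F.biUnion fun f => univ.filter (fun t : Fin s → ZMod (3 ^ j) =>
        ∀ v ∈ univ.image (fun a => v3 (f a)), Kill t v) := by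
    intro t ht
    rw [Finset.mem_filter] at ht
    obtain ⟨f, hf1, hf2⟩ := MomB_exists ht.2
    rw [Finset.mem_biUnion]
    refine ⟨f, ?_, ?_⟩
    · rw [hF, Finset.mem_filter]
      exact ⟨Finset.mem_univ _, hf2⟩
    · rw [Finset.mem_filter]
      refine ⟨Finset.mem_univ _, fun v hv => ?_⟩
      obtain ⟨a, -, rfl⟩ := Finset.mem_image.1 hv
      rw [kill_v3]
      exact (Finset.mem_filter.1 (hf1 a)).2
  have h2 : (univ.filter (fun t : Fin s → ZMod (3 ^ j) => dd (Zs t) = r)).card * (3 ^ j) ^ r ≤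
      ∑ f ∈ F, (univ.filter (fun t : Fin s → ZMod (3 ^ j) =>
        ∀ v ∈ univ.image (fun a => v3 (f a)), Kill t v)).card * (3 ^ j) ^ r := by
    rw [← Finset.sum_mul]
    exact Nat.mul_le_mul_right _ ((Finset.card_le_card h1).trans Finset.card_biUnion_le)
  refine h2.trans ?_
  have h3 : ∀ f ∈ F, (univ.filter (fun t : Fin s → ZMod (3 ^ j) =>
        ∀ v ∈ univ.image (fun a => v3 (f a)), Kill t v)).card * (3 ^ j) ^ r ≤ (3 ^ j) ^ s := by
    intro f hf
    rw [hF, Finset.mem_filter] at hf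
    have h4 := ker_count j s (univ.image (fun a => v3 (f a)))
    rw [hf.2] at h4
    exact h4
  refine (Finset.sum_le_sum h3).trans ?_
  rw [Finset.sum_const, smul_eq_mul]
  refine Nat.mul_le_mul_right _ ?_
  refine (Finset.card_le_univ F).trans (le_of_eq ?_)
  rw [Fintype.card_fun, Fintype.card_fun, Fintype.card_bool, Fintype.card_fin, Fintype.card_fin,
    pow_mul]

/-- the contribution of one dimension -/
theorem MomB_level (j s n r : ℕ) (hr : r ≤ s) (h : 3 ^ j ≤ 2 ^ n) :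
    ((univ.filter (fun t : Fin s → ZMod (3 ^ j) => dd (Zs t) = r)).card : ℝ) *
      ((2 : ℝ) ^ r / 2 ^ s) ^ n ≤ 2 ^ (s ^ 2) := by
  obtain ⟨k, rfl⟩ := Nat.exists_eq_add_of_le hr
  set c := (univ.filter (fun t : Fin (r + k) → ZMod (3 ^ j) => dd (Zs t) = r)).card with hc
  have h1 : c * (3 ^ j) ^ r ≤ 2 ^ ((r + k) * r) * (3 ^ j) ^ (r + k) := dd_count j (r + k) r
  have h2 : c ≤ 2 ^ ((r + k) * r) * (3 ^ j) ^ k := by
    have h3 : 0 < (3 ^ j) ^ r := by positivity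
    refine Nat.le_of_mul_le_mul_right ?_ h3
    calc c * (3 ^ j) ^ r ≤ 2 ^ ((r + k) * r) * (3 ^ j) ^ (r + k) := h1
      _ = 2 ^ ((r + k) * r) * (3 ^ j) ^ k * (3 ^ j) ^ r := by rw [pow_add]; ring
  have h3 : c ≤ 2 ^ ((r + k) * r) * (2 ^ n) ^ k :=
    h2.trans (Nat.mul_le_mul_left _ (Nat.pow_le_pow_left h k))
  have h4 : (c : ℝ) ≤ 2 ^ ((r + k) * r) * (2 ^ n) ^ k := by exact_mod_cast h3
  have h5 : ((2 : ℝ) ^ r / 2 ^ (r + k)) ^ n = 1 / (2 ^ n) ^ k := by
    rw [pow_add, ← div_div, div_self (by positivity), div_pow, one_pow, ← pow_mul, ← pow_mul,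
      mul_comm]
  rw [h5]
  have h6 : (0 : ℝ) < (2 ^ n) ^ k := by positivity
  calc (c : ℝ) * (1 / (2 ^ n) ^ k) ≤ (2 ^ ((r + k) * r) * (2 ^ n) ^ k) * (1 / (2 ^ n) ^ k) :=
        mul_le_mul_of_nonneg_right h4 (by positivity)
    _ = 2 ^ ((r + k) * r) := by field_simp
    _ ≤ 2 ^ ((r + k) ^ 2) := by
        refine pow_le_pow_right₀ one_le_two ?_
        rw [pow_two]
        exact Nat.mul_le_mul_left _ (Nat.le_add_right _ _)

/-- Proof. The `t ∈ HS j0 j s` have all `t i ≠ 0`. Those with `3 * 2^(dd (Zs t)) < 4 |Zs t|` contribute at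
most `AA m s` (`cub_sum`). For the others `|Zs t| / 2^s ≤ (3/4) 2^(r - s)` with
`r = dd (Zs t) ≤ s` (`dd_le_card`), and by `dd_count` they contribute at most
`∑_{r ≤ s} 2^(s r) (3^j)^(s-r) (3/4)^n 2^(-(s-r) n) ≤ (s+1) 2^(s^2) (3/4)^n` since `3^j ≤ 2^n`. -/
theorem momB (j0 j s n : ℕ) (hn : 1 ≤ n) (h : 3 ^ j ≤ 2 ^ n) :
    mom j0 j s n ≤ AA (2 ^ (n - 1) / 3 ^ j) s + ((s : ℝ) + 1) * 2 ^ (s ^ 2) * (3 / 4) ^ n := by
  classical
  unfold mom
  rw [← Finset.sum_filter_add_sum_filter_not (HS j0 j s)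
    (fun t => 3 * 2 ^ dd (Zs t) < 4 * (Zs t).card)]
  have hnn : ∀ t : Fin s → ZMod (3 ^ j), 0 ≤ ((cnt t 0 : ℝ) / 2 ^ s) ^ n := fun t => by positivity
  refine add_le_add ?_ ?_
  · have h1 : ∑ τ ∈ univ.filter (fun τ : Fin s → ZMod (3 ^ j) => (∀ i, τ i ≠ 0) ∧
        3 * 2 ^ dd (Zs τ) < 4 * (Zs τ).card), (((Zs τ).card : ℝ) / 2 ^ s) ^ n ≤
        AA (2 ^ (n - 1) / 3 ^ j) s := by
      have h0 := cub_sum j n hn (Fin s)
      rw [Fintype.card_fin] at h0
      convert h0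
    refine le_trans ?_ h1
    refine Finset.sum_le_sum_of_subset_of_nonneg ?_ fun t _ _ => hnn t
    intro t ht
    rw [Finset.mem_filter] at ht
    refine Finset.mem_filter.2 ⟨Finset.mem_univ _, fun i hi => ?_, ht.2⟩
    have h2 := (Finset.mem_filter.1 ht.1).2 i
    rw [hi, smul_zero] at h2
    exact h2 rfl
  · have h1 : ∀ t ∈ (HS j0 j s).filter (fun t => ¬ 3 * 2 ^ dd (Zs t) < 4 * (Zs t).card),
        ((cnt t 0 : ℝ) / 2 ^ s) ^ n ≤ (3 / 4) ^ n * ((2 : ℝ) ^ dd (Zs t) / 2 ^ s) ^ n := by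
      intro t ht
      have h2 := not_lt.1 (Finset.mem_filter.1 ht).2
      have h3 : (4 : ℝ) * (cnt t 0 : ℝ) ≤ 3 * 2 ^ dd (Zs t) := by exact_mod_cast h2
      rw [← mul_pow]
      refine pow_le_pow_left₀ (by positivity) ?_ n
      rw [← mul_div_assoc]
      refine div_le_div_of_nonneg_right ?_ (by positivity)
      linarith
    refine (Finset.sum_le_sum h1).trans ?_
    have h2 : ∑ t ∈ (HS j0 j s).filter (fun t => ¬ 3 * 2 ^ dd (Zs t) < 4 * (Zs t).card),
        (3 / 4 : ℝ) ^ n * ((2 : ℝ) ^ dd (Zs t) / 2 ^ s) ^ n ≤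
        ∑ t : Fin s → ZMod (3 ^ j), (3 / 4 : ℝ) ^ n * ((2 : ℝ) ^ dd (Zs t) / 2 ^ s) ^ n :=
      Finset.sum_le_sum_of_subset_of_nonneg (Finset.subset_univ _) fun t _ _ => by positivity
    refine h2.trans ?_
    have h3 : ∑ t : Fin s → ZMod (3 ^ j), (3 / 4 : ℝ) ^ n * ((2 : ℝ) ^ dd (Zs t) / 2 ^ s) ^ n =
        ∑ r ∈ range (s + 1), ∑ t ∈ univ.filter (fun t : Fin s → ZMod (3 ^ j) => dd (Zs t) = r),
          (3 / 4 : ℝ) ^ n * ((2 : ℝ) ^ dd (Zs t) / 2 ^ s) ^ n := by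
      rw [Finset.sum_fiberwise_of_maps_to]
      intro t _
      rw [Finset.mem_range]
      have := dd_le_card (Zs t)
      rw [Fintype.card_fin] at this
      omega
    rw [h3]
    have h4 : ∀ r ∈ range (s + 1), ∑ t ∈ univ.filter
        (fun t : Fin s → ZMod (3 ^ j) => dd (Zs t) = r),
          (3 / 4 : ℝ) ^ n * ((2 : ℝ) ^ dd (Zs t) / 2 ^ s) ^ n ≤ (3 / 4) ^ n * 2 ^ (s ^ 2) := by
      intro r hr
      have h5 : ∑ t ∈ univ.filter (fun t : Fin s → ZMod (3 ^ j) => dd (Zs t) = r),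
          (3 / 4 : ℝ) ^ n * ((2 : ℝ) ^ dd (Zs t) / 2 ^ s) ^ n =
          ∑ t ∈ univ.filter (fun t : Fin s → ZMod (3 ^ j) => dd (Zs t) = r),
          (3 / 4 : ℝ) ^ n * ((2 : ℝ) ^ r / 2 ^ s) ^ n := by
        refine Finset.sum_congr rfl fun t ht => ?_
        rw [(Finset.mem_filter.1 ht).2]
      rw [h5, Finset.sum_const, nsmul_eq_mul]
      have h6 := MomB_level j s n r (by rw [Finset.mem_range] at hr; omega) h
      calc _ = (3 / 4 : ℝ) ^ n * (((univ.filter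
            (fun t : Fin s → ZMod (3 ^ j) => dd (Zs t) = r)).card : ℝ) *
              ((2 : ℝ) ^ r / 2 ^ s) ^ n) := by ring
        _ ≤ _ := mul_le_mul_of_nonneg_left h6 (by positivity)
    refine (Finset.sum_le_sum h4).trans (le_of_eq ?_)
    rw [Finset.sum_const, Finset.card_range, nsmul_eq_mul]
    push_cast
    ring

end Pool.Agent.W_MP_a45265_h99
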