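import Mathlib
import Pool.Agent.W_MP_a45265_h99.MomB
import Pool.Agent.W_MP_a45265_h99.GenF
import Pool.Agent.W_MP_a45265_h99.ExpT
import Pool.Agent.W_MP_a45265_h99.FI

set_option autoImplicit false

/-!
# Top level: the range of small deviations
-/

namespace Pool.Agent.W_MP_a45265_h99

open Finset

theorem topI_moments (j0 J n S : ℕ) :
    ∑ x : Fin n → ZMod (3 ^ J), ∑ k ∈ range (S + 1), ((n : ℝ) * DD j0 J x) ^ k / k.factorial =
      ((3 : ℝ) ^ J) ^ n * ∑ k ∈ range (S + 1), mom j0 J k n * (n : ℝ) ^ k / k.factorial := by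
  rw [Finset.sum_comm, Finset.mul_sum]
  refine Finset.sum_congr rfl fun k _ => ?_
  have h1 := moment_id n k j0 J
  rw [← mul_div_assoc, ← mul_assoc, ← h1, Finset.sum_mul, Finset.sum_div]
  refine Finset.sum_congr rfl fun x _ => ?_
  rw [mul_pow, mul_comm]

/-- Exact part of the computation.

Proof. By `exp_le_trunc` (`x = n DD`) for the `x` in the set, and `trunc_nonneg` for the others,
the sum is at most `∑_x ∑_{k ≤ S} n^k DD^k / k! + (3^J)^n X^(S+1) exp X / (S+1)!`; by `moment_id` and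
`momB` the first part is at most
`(3^J)^n ∑_{k ≤ S} n^k / k! (AA m k + (k+1) 2^(k^2) (3/4)^n)`, `m = 2^(n-1) / 3^J`; by `genF` (`x = n`)
the `AA` part is at most `exp (m (exp (n/m) - 1 - n/m))`, and the rest is at most
`(S+1)^2 n^S 2^(S^2) (3/4)^n` for `n ≥ 1`. -/
theorem topI_exact (j0 J n S : ℕ) (hS : Even S) (hn : 1 ≤ n) (h : 3 ^ J ≤ 2 ^ n) (X : ℝ)
    (hX : 0 ≤ X) (F : Finset (Fin n → ZMod (3 ^ J)))
    (hF : ∀ x ∈ F, (n : ℝ) * DD j0 J x ≤ X) :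
    ∑ x ∈ F, Real.exp ((n : ℝ) * DD j0 J x) ≤
      ((3 : ℝ) ^ J) ^ n * (Real.exp ((2 ^ (n - 1) / 3 ^ J) *
        (Real.exp (n / (2 ^ (n - 1) / 3 ^ J)) - 1 - n / (2 ^ (n - 1) / 3 ^ J))) +
        ((S : ℝ) + 1) ^ 2 * n ^ S * 2 ^ (S ^ 2) * (3 / 4) ^ n +
        X ^ (S + 1) * Real.exp X / (S + 1).factorial) := by
  have hR : 0 ≤ X ^ (S + 1) * Real.exp X / ((S + 1).factorial : ℝ) := by positivity
  have hF0 : (F.card : ℝ) ≤ ((3 : ℝ) ^ J) ^ n := by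
    have h1 : F.card ≤ (3 ^ J) ^ n := by
      refine (Finset.card_le_univ F).trans ?_
      rw [Fintype.card_fun, ZMod.card, Fintype.card_fin]
    exact_mod_cast h1
  have hn' : (1 : ℝ) ≤ n := by exact_mod_cast hn
  calc ∑ x ∈ F, Real.exp ((n : ℝ) * DD j0 J x)
      ≤ ∑ x ∈ F, (∑ k ∈ range (S + 1), ((n : ℝ) * DD j0 J x) ^ k / k.factorial +
          X ^ (S + 1) * Real.exp X / (S + 1).factorial) :=
        Finset.sum_le_sum fun x hx => exp_le_trunc S hS X _ hX (hF x hx)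
    _ = ∑ x ∈ F, ∑ k ∈ range (S + 1), ((n : ℝ) * DD j0 J x) ^ k / k.factorial +
          F.card * (X ^ (S + 1) * Real.exp X / (S + 1).factorial) := by
        rw [Finset.sum_add_distrib, Finset.sum_const, nsmul_eq_mul]
    _ ≤ ∑ x : Fin n → ZMod (3 ^ J), ∑ k ∈ range (S + 1),
          ((n : ℝ) * DD j0 J x) ^ k / k.factorial +
          ((3 : ℝ) ^ J) ^ n * (X ^ (S + 1) * Real.exp X / (S + 1).factorial) := by
        apply add_le_add
        · apply Finset.sum_le_sum_of_subset_of_nonneg (Finset.subset_univ _)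
          intro x _ _
          exact trunc_nonneg S hS _
        · exact mul_le_mul_of_nonneg_right hF0 hR
    _ = ((3 : ℝ) ^ J) ^ n * (∑ k ∈ range (S + 1), mom j0 J k n * (n : ℝ) ^ k / k.factorial +
          X ^ (S + 1) * Real.exp X / (S + 1).factorial) := by
        rw [topI_moments]
        ring
    _ ≤ _ := by
        apply mul_le_mul_of_nonneg_left _ (by positivity)
        gcongr
        have h2 : ∀ k ∈ range (S + 1), mom j0 J k n * (n : ℝ) ^ k / k.factorial ≤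
            AA (2 ^ (n - 1) / 3 ^ J) k * (n : ℝ) ^ k / k.factorial +
              ((S : ℝ) + 1) * n ^ S * 2 ^ (S ^ 2) * (3 / 4) ^ n := by
          intro k hk
          have hkS : k ≤ S := Nat.lt_succ_iff.1 (Finset.mem_range.1 hk)
          have h3 := momB j0 J k n hn h
          have hkf : (1 : ℝ) ≤ (k.factorial : ℝ) := by
            exact_mod_cast Nat.one_le_iff_ne_zero.2 (Nat.factorial_ne_zero k)
          have h4 : mom j0 J k n * (n : ℝ) ^ k / k.factorial ≤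
              (AA (2 ^ (n - 1) / 3 ^ J) k + ((k : ℝ) + 1) * 2 ^ (k ^ 2) * (3 / 4) ^ n) *
                (n : ℝ) ^ k / k.factorial := by
            gcongr
          refine h4.trans ?_
          rw [add_mul, add_div]
          apply add_le_add le_rfl
          have h5 : ((k : ℝ) + 1) * 2 ^ (k ^ 2) * (3 / 4) ^ n * (n : ℝ) ^ k / k.factorial ≤
              ((k : ℝ) + 1) * 2 ^ (k ^ 2) * (3 / 4) ^ n * (n : ℝ) ^ k :=
            div_le_self (by positivity) hkf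
          refine h5.trans ?_
          have hkS' : (k : ℝ) ≤ S := by exact_mod_cast hkS
          have h6 : (2 : ℝ) ^ (k ^ 2) ≤ 2 ^ (S ^ 2) :=
            pow_le_pow_right₀ (by norm_num) (Nat.pow_le_pow_left hkS 2)
          have h7 : (n : ℝ) ^ k ≤ (n : ℝ) ^ S := pow_le_pow_right₀ hn' hkS
          calc ((k : ℝ) + 1) * 2 ^ (k ^ 2) * (3 / 4) ^ n * (n : ℝ) ^ k
              ≤ ((S : ℝ) + 1) * 2 ^ (S ^ 2) * (3 / 4) ^ n * (n : ℝ) ^ S := by gcongr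
            _ = _ := by ring
        have h8 : (0 : ℝ) < 2 ^ (n - 1) / 3 ^ J := by positivity
        have h9 := genF (2 ^ (n - 1) / 3 ^ J) h8 S (n : ℝ) (by positivity)
        calc ∑ k ∈ range (S + 1), mom j0 J k n * (n : ℝ) ^ k / k.factorial
            ≤ ∑ k ∈ range (S + 1), (AA (2 ^ (n - 1) / 3 ^ J) k * (n : ℝ) ^ k / k.factorial +
              ((S : ℝ) + 1) * n ^ S * 2 ^ (S ^ 2) * (3 / 4) ^ n) := Finset.sum_le_sum h2
          _ = ∑ k ∈ range (S + 1), AA (2 ^ (n - 1) / 3 ^ J) k * (n : ℝ) ^ k / k.factorial +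
              ((S : ℝ) + 1) ^ 2 * n ^ S * 2 ^ (S ^ 2) * (3 / 4) ^ n := by
              rw [Finset.sum_add_distrib, Finset.sum_const, Finset.card_range, nsmul_eq_mul]
              push_cast
              ring
          _ ≤ _ := by gcongr

theorem topI_c (k : ℕ) (X : ℝ) (hX : 0 ≤ X) (hk : 2 ≤ k) (h : 25 * X ≤ k) :
    X ^ k * Real.exp X / k.factorial ≤ 1 / 6 := by
  have hk' : (2 : ℝ) ≤ k := by exact_mod_cast hk
  have he1 := Real.exp_one_lt_d9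
  have he2 := Real.exp_one_gt_d9
  have he3 : Real.exp 3 ≤ 25 := by
    have h1 : Real.exp 3 = Real.exp 1 ^ 3 := by
      rw [← Real.exp_nat_mul]
      norm_num
    rw [h1]
    calc Real.exp 1 ^ 3 ≤ 2.7182818286 ^ 3 := by gcongr
      _ ≤ 25 := by norm_num
  have h1 : (X * Real.exp 3) ^ k ≤ (k : ℝ) ^ k := by
    apply pow_le_pow_left₀ (by positivity)
    calc X * Real.exp 3 ≤ X * 25 := by gcongr
      _ = 25 * X := by ring
      _ ≤ k := h
  have h2 : (k : ℝ) ^ k / k.factorial ≤ Real.exp k := Real.pow_div_factorial_le_exp k (by positivity) k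
  have h3 : Real.exp 3 ^ k = Real.exp (3 * k) := by
    rw [← Real.exp_nat_mul, mul_comm]
  have hfac : (0 : ℝ) < k.factorial := by positivity
  have h4 : X ^ k * Real.exp X / k.factorial ≤ Real.exp k * Real.exp (X - 3 * k) := by
    have h5 : X ^ k * Real.exp X / k.factorial =
        ((X * Real.exp 3) ^ k / k.factorial) * Real.exp (X - 3 * k) := by
      rw [mul_pow, h3, sub_eq_add_neg, Real.exp_add, Real.exp_neg]
      have h6 := (Real.exp_pos (3 * (k : ℝ))).ne'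
      field_simp
    rw [h5]
    apply mul_le_mul_of_nonneg_right _ (Real.exp_pos _).le
    exact (div_le_div_of_nonneg_right h1 hfac.le).trans h2
  refine h4.trans ?_
  rw [← Real.exp_add]
  have h7 : (k : ℝ) + (X - 3 * k) ≤ -2 := by linarith
  refine (Real.exp_le_exp.2 h7).trans ?_
  rw [Real.exp_neg, one_div]
  apply inv_anti₀ (by norm_num)
  have h8 : Real.exp 2 = Real.exp 1 ^ 2 := by
    rw [← Real.exp_nat_mul]
    norm_num
  rw [h8]
  calc (6 : ℝ) ≤ 2.7182818283 ^ 2 := by norm_num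
    _ ≤ Real.exp 1 ^ 2 := by gcongr

theorem topI_b : ∃ s0 : ℕ, ∀ s ≥ s0, ∀ n : ℕ, s ^ 2 ≤ n → n < (s + 1) ^ 2 →
    (((2 * (s / 8) : ℕ) : ℝ) + 1) ^ 2 * (n : ℝ) ^ (2 * (s / 8)) * 2 ^ ((2 * (s / 8)) ^ 2) *
      (3 / 4) ^ n ≤ 1 / 6 := by
  have h1 := tendsto_pow_const_mul_const_pow_of_abs_lt_one 3 (r := (4 / 5 : ℝ))
    (by rw [abs_of_pos (by norm_num)]; norm_num)
  have h2 := (h1.comp (Filter.tendsto_add_atTop_nat 1)).eventually
    (gt_mem_nhds (show (0 : ℝ) < 2 / 15 by norm_num))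
  obtain ⟨s1, hs1⟩ := Filter.eventually_atTop.1 h2
  refine ⟨s1 + 1, fun s hs n hn1 hn2 => ?_⟩
  have h3 := hs1 s (by omega)
  have h3' : ((s + 1 : ℕ) : ℝ) ^ 3 * (4 / 5) ^ (s + 1) < 2 / 15 := h3
  have h4 : ((s : ℝ) + 1) ^ 3 * (4 / 5) ^ s ≤ 1 / 6 := by
    rw [pow_succ (4 / 5 : ℝ)] at h3'
    push_cast at h3'
    nlinarith
  have hs0 : 1 ≤ s := by omega
  set S := 2 * (s / 8) with hSdef
  have hS1 : 4 * S ≤ s := by omega
  have hS2 : 16 * S ^ 2 ≤ n := by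
    have : (4 * S) ^ 2 ≤ s ^ 2 := Nat.pow_le_pow_left hS1 2
    calc 16 * S ^ 2 = (4 * S) ^ 2 := by ring
      _ ≤ s ^ 2 := this
      _ ≤ n := hn1
  have hp1 : (2 : ℝ) ^ (S ^ 2) * (3 / 4) ^ n ≤ (4 / 5) ^ n := by
    have h5 : (2 : ℝ) ^ (S ^ 2) ≤ (16 / 15) ^ n := by
      calc (2 : ℝ) ^ (S ^ 2) ≤ ((16 / 15) ^ 16) ^ (S ^ 2) := by
            apply pow_le_pow_left₀ (by norm_num)
            norm_num
        _ = (16 / 15) ^ (16 * S ^ 2) := by rw [← pow_mul]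
        _ ≤ (16 / 15) ^ n := pow_le_pow_right₀ (by norm_num) hS2
    calc (2 : ℝ) ^ (S ^ 2) * (3 / 4) ^ n ≤ (16 / 15) ^ n * (3 / 4) ^ n := by gcongr
      _ = (4 / 5) ^ n := by rw [← mul_pow]; norm_num
  have hp2 : (4 / 5 : ℝ) ^ n ≤ ((4 / 5) ^ s) ^ s := by
    rw [← pow_mul, ← pow_two]
    exact pow_le_pow_of_le_one (by norm_num) (by norm_num) hn1
  have hp3 : (n : ℝ) ^ S ≤ ((s : ℝ) + 1) ^ (2 * S) := by
    rw [pow_mul ((s : ℝ) + 1)]
    apply pow_le_pow_left₀ (by positivity)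
    exact_mod_cast hn2.le
  have hp4 : ((S : ℝ) + 1) ^ 2 ≤ ((s : ℝ) + 1) ^ 2 := by
    have : (S : ℝ) ≤ s := by
      have : S ≤ s := by omega
      exact_mod_cast this
    gcongr
  have hp5 : ((s : ℝ) + 1) ^ 2 * ((s : ℝ) + 1) ^ (2 * S) ≤ (((s : ℝ) + 1) ^ 3) ^ s := by
    rw [← pow_add, ← pow_mul]
    apply pow_le_pow_right₀
    · have : (0 : ℝ) ≤ s := by positivity
      linarith
    · omega
  calc ((S : ℝ) + 1) ^ 2 * (n : ℝ) ^ S * 2 ^ (S ^ 2) * (3 / 4) ^ n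
      = (((S : ℝ) + 1) ^ 2 * (n : ℝ) ^ S) * (2 ^ (S ^ 2) * (3 / 4) ^ n) := by ring
    _ ≤ (((s : ℝ) + 1) ^ 2 * ((s : ℝ) + 1) ^ (2 * S)) * (((4 / 5) ^ s) ^ s) := by
        gcongr
        exact hp1.trans hp2
    _ ≤ ((((s : ℝ) + 1) ^ 3) ^ s) * (((4 / 5) ^ s) ^ s) := by gcongr
    _ = (((s : ℝ) + 1) ^ 3 * (4 / 5) ^ s) ^ s := by rw [← mul_pow]
    _ ≤ (1 / 6) ^ s := by
        apply pow_le_pow_left₀ (by positivity) h4
    _ ≤ (1 / 6) ^ 1 := pow_le_pow_of_le_one (by norm_num) (by norm_num) hs0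
    _ = 1 / 6 := by norm_num

theorem topI_X : ∃ n1 : ℕ, ∀ n ≥ n1, (n : ℝ) ^ (2 / 5 : ℝ) ≤ √(n : ℝ) / 200 := by
  have h1 : Filter.Tendsto (fun n : ℕ => ((n : ℝ)) ^ (-(1 / 10 : ℝ))) Filter.atTop (nhds 0) :=
    (tendsto_rpow_neg_atTop (by norm_num : (0 : ℝ) < 1 / 10)).comp tendsto_natCast_atTop_atTop
  have h2 := h1.eventually (gt_mem_nhds (show (0 : ℝ) < 1 / 200 by norm_num))
  obtain ⟨n1, hn1⟩ := Filter.eventually_atTop.1 h2
  refine ⟨n1 + 1, fun n hn => ?_⟩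
  have h3 := hn1 n (by omega)
  have hpos : (0 : ℝ) < n := by
    have : 0 < n := by omega
    exact_mod_cast this
  have h4 : (n : ℝ) ^ (2 / 5 : ℝ) = √(n : ℝ) * (n : ℝ) ^ (-(1 / 10 : ℝ)) := by
    rw [Real.sqrt_eq_rpow, ← Real.rpow_add hpos]
    norm_num
  rw [h4]
  have h5 : (0 : ℝ) ≤ √(n : ℝ) := Real.sqrt_nonneg _
  calc √(n : ℝ) * (n : ℝ) ^ (-(1 / 10 : ℝ)) ≤ √(n : ℝ) * (1 / 200) := by gcongr
    _ = √(n : ℝ) / 200 := by ring

/-- Proof. `topI_exact` with `X = n^(2/5)` (real power), `S = 2 * ⌊√n / 8⌋` (`Nat.sqrt n / 8`). The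
two error terms tend to `0`: `S^2 ≤ n / 16`, `2^(n/16) (3/4)^n ≤ (0.8)^n`, and
`n^S (S+1)^2 = exp (o(n))`; `(S+1)! ≥ ((S+1)/e)^(S+1)` and `S + 1` is at least
`√n / 8 ≥ e^3 n^(2/5)` for `n` large, so `X^(S+1)/(S+1)! ≤ exp (-2 (S+1))` and
`exp X ≤ exp (S+1)`. For `n` large `3^J ≤ 2^n` follows from the hypothesis. -/
theorem topI (j0 W : ℕ) : ∃ n0 : ℕ, ∀ n ≥ n0, ∀ J : ℕ, n ^ 2 * 3 ^ J ≤ 3 * W * 2 ^ (n - 1) →
    ∀ F : Finset (Fin n → ZMod (3 ^ J)),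
      (∀ x ∈ F, (n : ℝ) * DD j0 J x ≤ (n : ℝ) ^ (2 / 5 : ℝ)) →
      ∑ x ∈ F, Real.exp ((n : ℝ) * DD j0 J x) ≤
        ((3 : ℝ) ^ J) ^ n * (Real.exp ((2 ^ (n - 1) / 3 ^ J) *
          (Real.exp (n / (2 ^ (n - 1) / 3 ^ J)) - 1 - n / (2 ^ (n - 1) / 3 ^ J))) + 1 / 3) := by
  obtain ⟨s0, hs0⟩ := topI_b
  obtain ⟨n1, hn1⟩ := topI_X
  refine ⟨s0 ^ 2 + n1 + 3 * W + 256, fun n hn J hJ F hF => ?_⟩
  have hn0 : 1 ≤ n := by omega
  have h3J : 3 ^ J ≤ 2 ^ n := by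
    have h1 : n ^ 2 * 3 ^ J ≤ n ^ 2 * 2 ^ (n - 1) := by
      refine hJ.trans (Nat.mul_le_mul_right _ ?_)
      have h2 : n ≤ n ^ 2 := Nat.le_self_pow (by norm_num) n
      have h3 : 3 * W ≤ n := by omega
      omega
    have h4 : 3 ^ J ≤ 2 ^ (n - 1) := Nat.le_of_mul_le_mul_left h1 (by positivity)
    exact h4.trans (Nat.pow_le_pow_right (by norm_num) (Nat.sub_le _ _))
  have hs : s0 ≤ Nat.sqrt n := by
    rw [Nat.le_sqrt']
    omega
  have hb := hs0 (Nat.sqrt n) hs n (Nat.sqrt_le' n) (Nat.lt_succ_sqrt' n)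
  have hX := hn1 n (by omega)
  have hsq : (16 : ℝ) ≤ √(n : ℝ) := by
    apply Real.le_sqrt_of_sq_le
    have h256 : (256 : ℝ) ≤ n := by
      have : 256 ≤ n := by omega
      exact_mod_cast this
    calc (16 : ℝ) ^ 2 = 256 := by norm_num
      _ ≤ n := h256
  have hsr : √(n : ℝ) < (Nat.sqrt n : ℝ) + 1 := by
    rw [Real.sqrt_lt' (by positivity)]
    exact_mod_cast Nat.lt_succ_sqrt' n
  have hSr : √(n : ℝ) / 8 ≤ ((2 * (Nat.sqrt n / 8) + 1 : ℕ) : ℝ) := by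
    have h1 : Nat.sqrt n ≤ 8 * (Nat.sqrt n / 8) + 7 := by omega
    have h2 : (Nat.sqrt n : ℝ) ≤ 8 * ((Nat.sqrt n / 8 : ℕ) : ℝ) + 7 := by exact_mod_cast h1
    push_cast
    linarith
  have hc := topI_c (2 * (Nat.sqrt n / 8) + 1) ((n : ℝ) ^ (2 / 5 : ℝ)) (by positivity) (by
      have h1 : (2 : ℝ) ≤ ((2 * (Nat.sqrt n / 8) + 1 : ℕ) : ℝ) := by linarith
      exact_mod_cast h1) (by linarith)
  have hex := topI_exact j0 J n (2 * (Nat.sqrt n / 8)) (even_two_mul _) hn0 h3J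
    ((n : ℝ) ^ (2 / 5 : ℝ)) (by positivity) F hF
  refine hex.trans ?_
  apply mul_le_mul_of_nonneg_left _ (by positivity)
  linarith

end Pool.Agent.W_MP_a45265_h99
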