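import Mathlib
import Pool.Agent.W_MP_a45265_h99.FI

set_option autoImplicit false

/-!
# The low order part of the Fourier sum
-/

namespace Pool.Agent.W_MP_a45265_h99

open Finset

theorem low_bound_finset (s : Finset ℂ) (h : ∀ z ∈ s, |z.re| < 1) :
    ∃ c : ℝ, 0 ≤ c ∧ c < 1 ∧ ∀ z ∈ s, |z.re| ≤ c := by
  classical
  induction s using Finset.induction_on with
  | empty => exact ⟨0, le_rfl, one_pos, fun z hz => absurd hz (Finset.notMem_empty z)⟩
  | insert a s _ ih =>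
    obtain ⟨c, h0, h1, h2⟩ := ih fun z hz => h z (Finset.mem_insert_of_mem hz)
    refine ⟨max c |a.re|, le_max_of_le_left h0, max_lt h1 (h a (Finset.mem_insert_self _ _)), ?_⟩
    intro z hz
    rcases Finset.mem_insert.1 hz with rfl | hz
    · exact le_max_right _ _
    · exact (h2 z hz).trans (le_max_left _ _)

theorem low_re_lt {N : ℕ} (hN : Odd N) {z : ℂ} (hz : z ^ N = 1) (hz1 : z ≠ 1) : |z.re| < 1 := by
  have hN0 : N ≠ 0 := by
    rintro rfl
    simp at hN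
  have hn : ‖z‖ = 1 := Complex.norm_eq_one_of_pow_eq_one hz hN0
  have h1 : z.re ^ 2 + z.im ^ 2 = 1 := by
    have h2 : Complex.normSq z = 1 := by
      rw [Complex.normSq_eq_norm_sq, hn, one_pow]
    rw [Complex.normSq_apply] at h2
    nlinarith
  have h3 : |z.re| ≤ 1 := by
    rw [← hn]
    exact Complex.abs_re_le_norm z
  refine lt_of_le_of_ne h3 fun h4 => ?_
  have h5 : z.re ^ 2 = 1 := by
    rw [← sq_abs, h4, one_pow]
  have h6 : z.im = 0 := by
    have : z.im ^ 2 = 0 := by linarith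
    exact pow_eq_zero_iff (two_ne_zero) |>.1 this
  rcases sq_eq_one_iff.1 h5 with h7 | h7
  · exact hz1 (Complex.ext (by rw [h7]; simp) (by rw [h6]; simp))
  · have h8 : z = -1 := Complex.ext (by rw [h7]; simp) (by rw [h6]; simp)
    rw [h8, hN.neg_one_pow] at hz
    norm_num at hz

/-- Proof. The numbers `χ(t)` (`χ = ZMod.stdAddChar` on `ZMod (3^j)`) with `3^j0 • t = 0`, `t ≠ 0` are
roots of unity `ζ ≠ 1` with `ζ^(3^j0) = 1` (`χ` is injective, `ZMod.injective_stdAddChar`). The set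
`Z` of all complex `ζ ≠ 1` with `ζ^(3^j0) = 1` is finite, does not contain `-1` (the exponent is odd),
and `|ζ| = 1`, so `|Re ζ| < 1` on `Z`. Take for `c` the maximum of `|Re ζ|` over `Z` and `0`. -/
theorem exists_cc_bound (j0 : ℕ) : ∃ c : ℝ, 0 ≤ c ∧ c < 1 ∧
    ∀ (j : ℕ) (t : ZMod (3 ^ j)), (3 ^ j0 : ℕ) • t = 0 → t ≠ 0 → |cc t| ≤ c := by
  classical
  have hodd : Odd (3 ^ j0) := Odd.pow (by decide)
  have hpos : 0 < 3 ^ j0 := by positivity
  obtain ⟨c, h0, h1, h2⟩ := low_bound_finset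
    ((Polynomial.nthRootsFinset (3 ^ j0) (1 : ℂ)).erase 1) (by
      intro z hz
      obtain ⟨hz1, hz2⟩ := Finset.mem_erase.1 hz
      exact low_re_lt hodd ((Polynomial.mem_nthRootsFinset hpos _).1 hz2) hz1)
  refine ⟨c, h0, h1, fun j t ht ht0 => ?_⟩
  refine h2 _ (Finset.mem_erase.2 ⟨?_, (Polynomial.mem_nthRootsFinset hpos _).2 ?_⟩)
  · intro h3
    apply ht0
    rw [← AddChar.map_zero_eq_one (ZMod.stdAddChar (N := 3 ^ j))] at h3
    exact ZMod.injective_stdAddChar h3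
  · rw [← AddChar.map_nsmul_eq_pow, ht, AddChar.map_zero_eq_one]

/-- Proof. By `fourier_id` (`mul_comm`) `3^j cnt x 0 / 2^n` is the sum over all `t` of
`∏_k cc (t x_k)`. The term `t = 0` is `1`; the terms with `3^j0 • t ≠ 0` are `DD`. The other terms,
at most `3^j0` many (the solutions of `3^j0 • t = 0` in `ZMod (3^j)`: a cyclic group has at most `N`
elements with `N • t = 0`, `IsCyclic.card_nsmul_eq_zero_le` or similar), are at most `c^(usz x)` in
absolute value, since for a unit `x_k` also `t x_k ≠ 0`, `3^j0 • (t x_k) = 0`. -/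
theorem low (j0 : ℕ) : ∃ c : ℝ, 0 ≤ c ∧ c < 1 ∧
    ∀ (n j : ℕ) (x : Fin n → ZMod (3 ^ j)),
      |(3 : ℝ) ^ j * (cnt x 0 : ℝ) / 2 ^ n - 1 - DD j0 j x| ≤ 3 ^ j0 * c ^ usz x := by
  classical
  obtain ⟨c, h0, h1, h2⟩ := exists_cc_bound j0
  refine ⟨c, h0, h1, fun n j x => ?_⟩
  have hF := fourier_id (3 ^ j) x
  rw [Fintype.card_fin] at hF
  have hF2 : (3 : ℝ) ^ j * (cnt x 0 : ℝ) / 2 ^ n = ∑ t : ZMod (3 ^ j), ∏ k, cc (t * x k) := by
    rw [hF]; push_cast; rfl
  have hsplit : ∑ t : ZMod (3 ^ j), ∏ k, cc (t * x k) = DD j0 j x +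
      ∑ t ∈ univ.filter (fun t : ZMod (3 ^ j) => (3 ^ j0 : ℕ) • t = 0), ∏ k, cc (t * x k) := by
    unfold DD
    rw [add_comm]
    exact (Finset.sum_filter_add_sum_filter_not univ
      (fun t : ZMod (3 ^ j) => (3 ^ j0 : ℕ) • t = 0) (fun t => ∏ k, cc (t * x k))).symm
  have hzero : (0 : ZMod (3 ^ j)) ∈ univ.filter (fun t : ZMod (3 ^ j) => (3 ^ j0 : ℕ) • t = 0) := by
    simp
  have hone : ∏ k, cc ((0 : ZMod (3 ^ j)) * x k) = 1 := by
    refine Finset.prod_eq_one fun k _ => ?_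
    rw [zero_mul, cc_zero]
  rw [hF2, hsplit, ← Finset.add_sum_erase _ _ hzero, hone]
  have hsimp : DD j0 j x + (1 + ∑ t ∈ (univ.filter (fun t : ZMod (3 ^ j) =>
      (3 ^ j0 : ℕ) • t = 0)).erase 0, ∏ k, cc (t * x k)) - 1 - DD j0 j x
      = ∑ t ∈ (univ.filter (fun t : ZMod (3 ^ j) =>
      (3 ^ j0 : ℕ) • t = 0)).erase 0, ∏ k, cc (t * x k) := by ring
  rw [hsimp]
  have hterm : ∀ t ∈ (univ.filter (fun t : ZMod (3 ^ j) => (3 ^ j0 : ℕ) • t = 0)).erase 0,
      |∏ k, cc (t * x k)| ≤ c ^ usz x := by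
    intro t ht
    obtain ⟨ht0, ht1⟩ := Finset.mem_erase.1 ht
    have ht2 : (3 ^ j0 : ℕ) • t = 0 := (Finset.mem_filter.1 ht1).2
    rw [Finset.abs_prod]
    have hle : ∀ k, |cc (t * x k)| ≤ if IsUnit (x k) then c else 1 := by
      intro k
      split_ifs with hk
      · refine h2 j _ ?_ ?_
        · rw [← smul_mul_assoc, ht2, zero_mul]
        · intro h
          exact ht0 ((hk.mul_left_eq_zero).1 h)
      · exact abs_cc_le _
    calc ∏ k, |cc (t * x k)| ≤ ∏ k, (if IsUnit (x k) then c else 1) :=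
          Finset.prod_le_prod (fun k _ => abs_nonneg _) fun k _ => hle k
      _ = c ^ usz x := by
          rw [Finset.prod_ite, Finset.prod_const, Finset.prod_const_one, mul_one]
          congr 1
          unfold usz
          rw [Nat.card_eq_fintype_card, Fintype.card_subtype]
  have hcard : (univ.filter (fun t : ZMod (3 ^ j) => (3 ^ j0 : ℕ) • t = 0)).card ≤ 3 ^ j0 :=
    IsAddCyclic.card_nsmul_eq_zero_le (by positivity)
  calc |∑ t ∈ (univ.filter (fun t : ZMod (3 ^ j) => (3 ^ j0 : ℕ) • t = 0)).erase 0,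
        ∏ k, cc (t * x k)|
      ≤ ∑ t ∈ (univ.filter (fun t : ZMod (3 ^ j) => (3 ^ j0 : ℕ) • t = 0)).erase 0,
        |∏ k, cc (t * x k)| := Finset.abs_sum_le_sum_abs _ _
    _ ≤ ∑ t ∈ (univ.filter (fun t : ZMod (3 ^ j) => (3 ^ j0 : ℕ) • t = 0)).erase 0,
        c ^ usz x := Finset.sum_le_sum hterm
    _ = (((univ.filter (fun t : ZMod (3 ^ j) => (3 ^ j0 : ℕ) • t = 0)).erase 0).card : ℝ)
        * c ^ usz x := by rw [Finset.sum_const, nsmul_eq_mul]
    _ ≤ 3 ^ j0 * c ^ usz x := by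
        have h3 : ((((univ.filter (fun t : ZMod (3 ^ j) => (3 ^ j0 : ℕ) • t = 0)).erase 0).card
            : ℕ) : ℝ) ≤ ((3 ^ j0 : ℕ) : ℝ) := by
          exact_mod_cast (Finset.card_erase_le).trans hcard
        push_cast at h3
        exact mul_le_mul_of_nonneg_right h3 (pow_nonneg h0 _)

end Pool.Agent.W_MP_a45265_h99
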