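import Mathlib
import Pool.Agent.W_MP_a45265_h99.FI
import Pool.Agent.W_MP_a45265_h99.Low

set_option autoImplicit false

/-!
# The first crossing has small probability
-/

namespace Pool.Agent.W_MP_a45265_h99

open Finset

/-- Markov for the moments: for even `s` and `a > 0` the number of `x` with `DD ≥ a` is at most
`a^(-s) ∑ DD^s = a^(-s) (3^j)^n mom`. -/
theorem markov_DD (n s j0 j : ℕ) (hs : Even s) (a : ℝ) (ha : 0 < a)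
    (X : Finset (Fin n → ZMod (3 ^ j))) (hX : ∀ x ∈ X, a ≤ DD j0 j x) :
    (X.card : ℝ) * a ^ s ≤ ((3 : ℝ) ^ j) ^ n * mom j0 j s n := by
  rw [← moment_id, ← nsmul_eq_mul, ← Finset.sum_const]
  calc ∑ _x ∈ X, a ^ s ≤ ∑ x ∈ X, DD j0 j x ^ s :=
        Finset.sum_le_sum fun x hx => pow_le_pow_left₀ ha.le (hX x hx) s
    _ ≤ ∑ x : Fin n → ZMod (3 ^ j), DD j0 j x ^ s :=
        Finset.sum_le_sum_of_subset_of_nonneg (Finset.subset_univ _) fun x _ _ => hs.pow_nonneg _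

/-- Proof. Let `c` be the constant of `low` for `j0`. For `x` in the sum `R = 3^j cnt x 0 / 2^n > 3` and
`usz x ≥ n / 20`, so `DD j0 j x ≥ 2 - 3^j0 c^(usz x) ≥ 1` for `n` large (`c^(usz x)` is small, as
`usz x ≥ n/20`). By `markov_DD` with `a = 1`, `s = sN n` the number of such `x` is at most
`(3^j)^n n^C / 2^(10 n)`. And `(cnt x 0)^n ≤ (9 * 2^n / 3^j)^n`. So the sum is at most
`9^n 2^(n^2) n^C / 2^(10 n)`, and `4^n 9^n n^C / 1024^n ≤ 1` for `n` large. -/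
theorem chainE (j0 C W : ℕ)
    (hmom : ∃ n0 : ℕ, ∀ n ≥ n0, ∀ j : ℕ, n ^ 2 * 3 ^ j ≤ 3 * W * 2 ^ (n - 1) →
      mom j0 j (sN n) n ≤ (n : ℝ) ^ C / 2 ^ (10 * n)) :
    ∃ n0 : ℕ, ∀ n ≥ n0, ∀ j : ℕ, n ^ 2 * 3 ^ j ≤ 3 * W * 2 ^ (n - 1) →
      4 ^ n * ∑ x ∈ univ.filter (fun x : Fin n → ZMod (3 ^ j) => n ≤ 20 * usz x ∧
        3 * 2 ^ n < 3 ^ j * cnt x 0 ∧ 3 ^ j * cnt x 0 ≤ 9 * 2 ^ n), (cnt x 0) ^ n ≤
      2 ^ (n ^ 2) := by
  obtain ⟨n1, hn1⟩ := hmom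
  obtain ⟨c, hc0, hc1, hlow⟩ := low j0
  obtain ⟨m0, hm0⟩ : ∃ m0 : ℕ, ∀ m ≥ m0, (3 : ℝ) ^ j0 * c ^ m ≤ 1 := by
    have h1 := (tendsto_pow_atTop_nhds_zero_of_lt_one hc0 hc1).const_mul ((3 : ℝ) ^ j0)
    rw [mul_zero] at h1
    have h2 := h1.eventually (ge_mem_nhds one_pos)
    exact Filter.eventually_atTop.1 h2
  obtain ⟨n2, hn2⟩ : ∃ n2 : ℕ, ∀ n ≥ n2, (n : ℝ) ^ C * (36 / 1024 : ℝ) ^ n ≤ 1 := by
    have h1 := tendsto_pow_const_mul_const_pow_of_abs_lt_one C (r := (36 / 1024 : ℝ)) (by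
      rw [abs_of_pos (by norm_num)]
      norm_num)
    have h2 := h1.eventually (ge_mem_nhds one_pos)
    exact Filter.eventually_atTop.1 h2
  refine ⟨max n1 (max n2 (20 * m0)), fun n hn j hj => ?_⟩
  have hna : n1 ≤ n := (le_max_left _ _).trans hn
  have hnb : n2 ≤ n := ((le_max_left _ _).trans (le_max_right _ _)).trans hn
  have hnc : 20 * m0 ≤ n := ((le_max_right _ _).trans (le_max_right _ _)).trans hn
  set F := univ.filter (fun x : Fin n → ZMod (3 ^ j) => n ≤ 20 * usz x ∧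
        3 * 2 ^ n < 3 ^ j * cnt x 0 ∧ 3 ^ j * cnt x 0 ≤ 9 * 2 ^ n) with hF
  have hDD : ∀ x ∈ F, (1 : ℝ) ≤ DD j0 j x := by
    intro x hx
    obtain ⟨-, h1, h2, -⟩ := Finset.mem_filter.1 hx
    have h3 := hlow n j x
    have h4 : (3 : ℝ) ^ j0 * c ^ usz x ≤ 1 := hm0 _ (by omega)
    have h5 : (3 : ℝ) < (3 : ℝ) ^ j * (cnt x 0 : ℝ) / 2 ^ n := by
      rw [lt_div_iff₀ (by positivity)]
      exact_mod_cast h2
    have h6 := (abs_le.1 (h3.trans h4)).2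
    linarith
  have hM := markov_DD n (sN n) j0 j (even_two_mul _) 1 one_pos F hDD
  rw [one_pow, mul_one] at hM
  have hmo := hn1 n hna j hj
  have hcnt : ∀ x ∈ F, ((cnt x 0 : ℝ)) ^ n ≤ (9 * 2 ^ n / 3 ^ j : ℝ) ^ n := by
    intro x hx
    obtain ⟨-, h1, h2, h3⟩ := Finset.mem_filter.1 hx
    refine pow_le_pow_left₀ (Nat.cast_nonneg _) ?_ n
    rw [le_div_iff₀ (by positivity), mul_comm]
    exact_mod_cast h3
  have hsum : (∑ x ∈ F, ((cnt x 0 : ℝ)) ^ n) ≤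
      ((3 : ℝ) ^ j) ^ n * ((n : ℝ) ^ C / 2 ^ (10 * n)) * (9 * 2 ^ n / 3 ^ j : ℝ) ^ n := by
    calc (∑ x ∈ F, ((cnt x 0 : ℝ)) ^ n) ≤ ∑ _x ∈ F, (9 * 2 ^ n / 3 ^ j : ℝ) ^ n :=
          Finset.sum_le_sum hcnt
      _ = (F.card : ℝ) * (9 * 2 ^ n / 3 ^ j : ℝ) ^ n := by rw [Finset.sum_const, nsmul_eq_mul]
      _ ≤ _ := by
          refine mul_le_mul_of_nonneg_right (hM.trans ?_) (by positivity)
          exact mul_le_mul_of_nonneg_left hmo (by positivity)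
  have hreal : (4 : ℝ) ^ n * (∑ x ∈ F, ((cnt x 0 : ℝ)) ^ n) ≤ 2 ^ (n ^ 2) := by
    have e : (4 : ℝ) ^ n * (((3 : ℝ) ^ j) ^ n * ((n : ℝ) ^ C / 2 ^ (10 * n)) *
        (9 * 2 ^ n / 3 ^ j : ℝ) ^ n) = ((n : ℝ) ^ C * (36 / 1024 : ℝ) ^ n) * 2 ^ (n ^ 2) := by
      have e1 : (2 : ℝ) ^ (10 * n) = 1024 ^ n := by
        rw [pow_mul]
        norm_num
      have e2 : (36 : ℝ) ^ n = 4 ^ n * 9 ^ n := by
        rw [← mul_pow]
        norm_num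
      have e4 : (2 : ℝ) ^ (n ^ 2) = (2 ^ n) ^ n := by
        rw [← pow_mul, sq]
      rw [div_pow, mul_pow, div_pow, e1, e2, e4]
      have e3 : ((3 : ℝ) ^ j) ^ n ≠ 0 := by positivity
      field_simp
    calc (4 : ℝ) ^ n * (∑ x ∈ F, ((cnt x 0 : ℝ)) ^ n) ≤ _ :=
          mul_le_mul_of_nonneg_left hsum (by positivity)
      _ = ((n : ℝ) ^ C * (36 / 1024 : ℝ) ^ n) * 2 ^ (n ^ 2) := e
      _ ≤ 1 * 2 ^ (n ^ 2) := mul_le_mul_of_nonneg_right (hn2 n hnb) (by positivity)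
      _ = 2 ^ (n ^ 2) := one_mul _
  exact_mod_cast hreal

end Pool.Agent.W_MP_a45265_h99
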