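import Mathlib
import Pool.Agent.W_MP_a45265_h99.Chain

set_option autoImplicit false

/-!
# Top level: the range of moderate deviations
-/

namespace Pool.Agent.W_MP_a45265_h99

open Finset

/-- Markov in one range.

Proof. `exp (n DD) ≤ exp b` and `markov_DD` with threshold `a / n`. -/
theorem range_bound (n s j0 J : ℕ) (hs : Even s) (hn : 1 ≤ n) (a b : ℝ) (ha : 0 < a)
    (F : Finset (Fin n → ZMod (3 ^ J)))
    (hF : ∀ x ∈ F, a ≤ (n : ℝ) * DD j0 J x ∧ (n : ℝ) * DD j0 J x ≤ b) :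
    ∑ x ∈ F, Real.exp ((n : ℝ) * DD j0 J x) ≤
      ((3 : ℝ) ^ J) ^ n * (Real.exp b * (n / a) ^ s * mom j0 J s n) := by
  have hn0 : (0 : ℝ) < n := by exact_mod_cast hn
  have h1 : (F.card : ℝ) * (a / n) ^ s ≤ ((3 : ℝ) ^ J) ^ n * mom j0 J s n := by
    refine markov_DD n s j0 J hs (a / n) (div_pos ha hn0) F fun x hx => ?_
    rw [div_le_iff₀ hn0, mul_comm]
    exact (hF x hx).1
  have h2 : ∑ x ∈ F, Real.exp ((n : ℝ) * DD j0 J x) ≤ F.card * Real.exp b := by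
    rw [← nsmul_eq_mul]
    exact Finset.sum_le_card_nsmul _ _ _ fun x hx => Real.exp_le_exp.2 (hF x hx).2
  have h3 : ((n : ℝ) / a) ^ s * (a / n) ^ s = 1 := by
    rw [← mul_pow, div_mul_div_comm, mul_comm a (n : ℝ), div_self (by positivity), one_pow]
  calc ∑ x ∈ F, Real.exp ((n : ℝ) * DD j0 J x) ≤ F.card * Real.exp b := h2
    _ = ((F.card : ℝ) * (a / n) ^ s) * (Real.exp b * (n / a) ^ s) := by
        have : ((F.card : ℝ) * (a / n) ^ s) * (Real.exp b * (n / a) ^ s) =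
          F.card * Real.exp b * (((n : ℝ) / a) ^ s * (a / n) ^ s) := by ring
        rw [this, h3, mul_one]
    _ ≤ (((3 : ℝ) ^ J) ^ n * mom j0 J s n) * (Real.exp b * (n / a) ^ s) :=
        mul_le_mul_of_nonneg_right h1 (by positivity)
    _ = ((3 : ℝ) ^ J) ^ n * (Real.exp b * (n / a) ^ s * mom j0 J s n) := by ring

theorem topII_pow (n k : ℕ) (r : ℝ) (hr : (1 / 10 : ℝ) * k = r) :
    (n : ℝ) ^ r = ((n : ℝ) ^ (1 / 10 : ℝ)) ^ k := by
  rw [← Real.rpow_natCast, ← Real.rpow_mul (Nat.cast_nonneg n), hr]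

theorem topII_asym (K : ℝ) (c : ℕ) : ∃ n0 : ℕ, ∀ n ≥ n0,
    1 ≤ n ∧ K ≤ (n : ℝ) ^ (1 / 10 : ℝ) ∧ c ≤ ⌈(n : ℝ) ^ (7 / 10 : ℝ)⌉₊ ∧
    ((⌈(n : ℝ) ^ (7 / 10 : ℝ)⌉₊ : ℕ) : ℝ) ^ (4 * c) *
      (1 / 2) ^ (⌈(n : ℝ) ^ (7 / 10 : ℝ)⌉₊) ≤ 1 / 6 := by
  have t1 : Filter.Tendsto (fun n : ℕ => (n : ℝ) ^ (1 / 10 : ℝ)) Filter.atTop Filter.atTop :=
    (tendsto_rpow_atTop (by norm_num)).comp tendsto_natCast_atTop_atTop
  have t2 : Filter.Tendsto (fun n : ℕ => ⌈(n : ℝ) ^ (7 / 10 : ℝ)⌉₊) Filter.atTop Filter.atTop :=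
    tendsto_nat_ceil_atTop.comp
      ((tendsto_rpow_atTop (by norm_num)).comp tendsto_natCast_atTop_atTop)
  have t3 : Filter.Tendsto (fun p : ℕ => (p : ℝ) ^ (4 * c) * (1 / 2) ^ p) Filter.atTop (nhds 0) :=
    tendsto_pow_const_mul_const_pow_of_abs_lt_one (4 * c) (by
      rw [abs_of_pos (by norm_num)]; norm_num)
  have e1 := t1.eventually_ge_atTop K
  have e2 := t2.eventually_ge_atTop c
  have e3 := (t3.comp t2).eventually (ge_mem_nhds (show (0 : ℝ) < 1 / 6 by norm_num))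
  obtain ⟨n0, h⟩ := Filter.eventually_atTop.1 (e1.and (e2.and e3))
  refine ⟨max n0 1, fun n hn => ?_⟩
  obtain ⟨h1, h2, h3⟩ := h n (le_of_max_le_left hn)
  exact ⟨le_of_max_le_right hn, h1, h2, h3⟩

theorem topII_main (K1 : ℝ) (hK1 : 1 ≤ K1) (W c p n : ℕ) (z Q : ℝ) (hW : 1 ≤ W) (hz1 : 1 ≤ z)
    (hz2 : 90 * K1 * W ≤ z) (hz3 : 5280 ≤ z) (hn : (n : ℝ) = z ^ 10) (hn1 : 1 ≤ n)
    (hp1 : z ^ 7 ≤ p) (hp2 : (p : ℝ) ≤ 2 * z ^ 7) (hcp : c ≤ p)
    (hpc : (p : ℝ) ^ (4 * c) * (1 / 2) ^ p ≤ 1 / 6) (hQ0 : 0 ≤ Q)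
    (hQ : Q ≤ 15 * W / z ^ 13) :
    Real.exp (z ^ 7) * (z ^ 6) ^ (2 * p) * (K1 ^ p * Q ^ ((2 * p - c) / 2) + 1 / 2 ^ (20 * n)) ≤
      1 / 3 := by
  have hz0 : 0 < z := lt_of_lt_of_le one_pos hz1
  have hWr : (1 : ℝ) ≤ W := by exact_mod_cast hW
  have hK0 : 0 < K1 := lt_of_lt_of_le one_pos hK1
  have hexp1 : Real.exp 1 ≤ 3 := by
    have := Real.exp_one_lt_d9
    linarith
  -- the first term
  set q : ℝ := 15 * W / z ^ 13 with hq
  have hq0 : 0 < q := by positivity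
  have hq1 : q ≤ 1 := by
    rw [hq, div_le_one (by positivity)]
    have h1 : (15 : ℝ) * W ≤ z := by
      have : (15 : ℝ) * W ≤ 90 * K1 * W :=
        mul_le_mul_of_nonneg_right (by linarith) (by positivity)
      linarith
    have h2 : z ≤ z ^ 13 := le_self_pow₀ hz1 (by norm_num)
    linarith
  have hqz : q ^ (p - c) ≤ (z ^ 13) ^ c * q ^ p := by
    have h1 : q ^ p = q ^ (p - c) * q ^ c := by rw [← pow_add, Nat.sub_add_cancel hcp]
    have h2 : 1 ≤ (z ^ 13) ^ c * q ^ c := by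
      rw [← mul_pow]
      apply one_le_pow₀
      rw [hq, mul_div_cancel₀ _ (by positivity)]
      linarith
    have h3 : 0 ≤ q ^ (p - c) := by positivity
    calc q ^ (p - c) = q ^ (p - c) * 1 := (mul_one _).symm
      _ ≤ q ^ (p - c) * ((z ^ 13) ^ c * q ^ c) := mul_le_mul_of_nonneg_left h2 h3
      _ = (z ^ 13) ^ c * q ^ p := by rw [h1]; ring
  have hQe : Q ^ ((2 * p - c) / 2) ≤ (z ^ 13) ^ c * q ^ p := by
    refine (pow_le_pow_left₀ hQ0 hQ _).trans ((pow_le_pow_of_le_one hq0.le hq1 ?_).trans hqz)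
    omega
  have hexp : Real.exp (z ^ 7) ≤ 3 ^ p := by
    calc Real.exp (z ^ 7) ≤ Real.exp (p : ℝ) := Real.exp_le_exp.2 hp1
      _ = (Real.exp 1) ^ p := by rw [← Real.exp_nat_mul, mul_one]
      _ ≤ 3 ^ p := pow_le_pow_left₀ (Real.exp_pos _).le hexp1 _
  have hbr : 3 * z ^ 12 * K1 * q ≤ 1 / 2 := by
    have h1 : 3 * z ^ 12 * K1 * q = 45 * K1 * W / z := by
      rw [hq]; field_simp; ring
    rw [h1, div_le_iff₀ hz0]
    linarith
  have hT1 : Real.exp (z ^ 7) * (z ^ 6) ^ (2 * p) * (K1 ^ p * Q ^ ((2 * p - c) / 2)) ≤ 1 / 6 := by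
    have h1 : (z ^ 6) ^ (2 * p) = (z ^ 12) ^ p := by
      rw [← pow_mul, ← pow_mul]; congr 1; ring
    rw [h1]
    calc Real.exp (z ^ 7) * (z ^ 12) ^ p * (K1 ^ p * Q ^ ((2 * p - c) / 2))
        ≤ 3 ^ p * (z ^ 12) ^ p * (K1 ^ p * ((z ^ 13) ^ c * q ^ p)) := by
          refine mul_le_mul (mul_le_mul_of_nonneg_right hexp (by positivity)) ?_
            (by positivity) (by positivity)
          exact mul_le_mul_of_nonneg_left hQe (by positivity)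
      _ = (z ^ 13) ^ c * (3 * z ^ 12 * K1 * q) ^ p := by
          rw [mul_pow, mul_pow, mul_pow]; ring
      _ ≤ (p : ℝ) ^ (4 * c) * (1 / 2) ^ p := by
          refine mul_le_mul ?_ (pow_le_pow_left₀ (by positivity) hbr _) (by positivity)
            (by positivity)
          rw [pow_mul]
          refine pow_le_pow_left₀ (by positivity) ?_ _
          calc z ^ 13 ≤ z ^ 28 := pow_le_pow_right₀ hz1 (by norm_num)
            _ = (z ^ 7) ^ 4 := by rw [← pow_mul]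
            _ ≤ (p : ℝ) ^ 4 := pow_le_pow_left₀ (by positivity) hp1 _
      _ ≤ 1 / 6 := hpc
  -- the second term
  have hT2 : Real.exp (z ^ 7) * (z ^ 6) ^ (2 * p) * (1 / 2 ^ (20 * n)) ≤ 1 / 6 := by
    have h1 : Real.exp (z ^ 7) ≤ Real.exp (n : ℝ) := by
      rw [hn]
      exact Real.exp_le_exp.2 (pow_le_pow_right₀ hz1 (by norm_num))
    have h2 : (z ^ 6) ^ (2 * p) ≤ Real.exp (n : ℝ) := by
      have h3 : (z ^ 6) ^ (2 * p) = Real.exp (Real.log z * ((6 * (2 * p) : ℕ) : ℝ)) := by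
        rw [← pow_mul, Real.exp_mul, Real.exp_log hz0, Real.rpow_natCast]
      rw [h3, hn]
      refine Real.exp_le_exp.2 ?_
      have h4 : Real.log z ≤ z := (Real.log_le_sub_one_of_pos hz0).trans (by linarith)
      have h5 : 0 ≤ Real.log z := Real.log_nonneg hz1
      push_cast
      calc Real.log z * (6 * (2 * (p : ℝ))) ≤ z * (6 * (2 * (2 * z ^ 7))) := by
            refine mul_le_mul h4 ?_ (by positivity) hz0.le
            linarith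
        _ = 24 * z ^ 8 := by ring
        _ ≤ z ^ 2 * z ^ 8 := by
            refine mul_le_mul_of_nonneg_right ?_ (by positivity)
            nlinarith
        _ = z ^ 10 := by ring
    have h6 : Real.exp (n : ℝ) = (Real.exp 1) ^ n := by rw [← Real.exp_nat_mul, mul_one]
    calc Real.exp (z ^ 7) * (z ^ 6) ^ (2 * p) * (1 / 2 ^ (20 * n))
        ≤ Real.exp (n : ℝ) * Real.exp (n : ℝ) * (1 / 2 ^ (20 * n)) :=
          mul_le_mul_of_nonneg_right (mul_le_mul h1 h2 (by positivity) (Real.exp_pos _).le)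
            (by positivity)
      _ ≤ 3 ^ n * 3 ^ n * (1 / 2 ^ (20 * n)) := by
          have h7 : Real.exp (n : ℝ) ≤ 3 ^ n := by
            rw [h6]; exact pow_le_pow_left₀ (Real.exp_pos _).le hexp1 _
          exact mul_le_mul_of_nonneg_right (mul_le_mul h7 h7 (Real.exp_pos _).le (by positivity))
            (by positivity)
      _ = (9 / 2 ^ 20) ^ n := by
          rw [← mul_pow, pow_mul, div_pow, mul_one_div]
          norm_num
      _ ≤ (1 / 6) ^ n := pow_le_pow_left₀ (by positivity) (by norm_num) _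
      _ ≤ 1 / 6 := by
          have := pow_le_pow_of_le_one (show (0 : ℝ) ≤ 1 / 6 by norm_num) (by norm_num) hn1
          simpa using this
  calc Real.exp (z ^ 7) * (z ^ 6) ^ (2 * p) * (K1 ^ p * Q ^ ((2 * p - c) / 2) + 1 / 2 ^ (20 * n))
      = Real.exp (z ^ 7) * (z ^ 6) ^ (2 * p) * (K1 ^ p * Q ^ ((2 * p - c) / 2)) +
        Real.exp (z ^ 7) * (z ^ 6) ^ (2 * p) * (1 / 2 ^ (20 * n)) := by ring
    _ ≤ 1 / 6 + 1 / 6 := add_le_add hT1 hT2
    _ = 1 / 3 := by norm_num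

/-- Proof. `range_bound` with `a = n^(2/5)`, `b = n^(7/10)`, `s = 2 ⌈n^(7/10)⌉`, and `hA`. Since
`3^J / 2^(n-1) ≤ 3 W / n^2`, the first term is at most
`exp b * (n/a)^s * 2^(9900 s) * (3 W (s+1) / n^2)^((s - C4)/2)`. With `p = s / 2` one has
`(s - C4)/2 ≥ p - C4`, and `3 W (s+1) / n^2 ≤ 1` is at least `n^(-2)`, so the power is at most
`n^(2 C4) (3 W (s+1)/n^2)^p`; in total at most
`n^(2 C4) [ e * 2^19800 * (n/a)^2 * 3 W (s+1) / n^2 ]^p = n^(2 C4) [ e 2^19800 3 W (s+1) n^(-4/5) ]^p`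
(`exp b ≤ e^p`), and `(s+1) n^(-4/5) ≤ 4 n^(-1/10) → 0`, `p ≥ n^(7/10)`, so it tends to `0`
(the bracket is eventually at most `1/2`). The second term is at most
`exp (n^(7/10)) * n^s / 2^(20 n) → 0`. -/
theorem topII (j0 C4 W : ℕ)
    (hA : ∀ n s j : ℕ, 1 ≤ n → 1 ≤ s → 1320 * s ≤ n → ((s : ℝ) + 1) * 3 ^ j ≤ 2 ^ (n - 1) →
      mom j0 j s n ≤ 2 ^ (9900 * s) * (((s : ℝ) + 1) * 3 ^ j / 2 ^ (n - 1)) ^ ((s - C4) / 2) +
        1 / 2 ^ (20 * n)) :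
    ∃ n0 : ℕ, ∀ n ≥ n0, ∀ J : ℕ, n ^ 2 * 3 ^ J ≤ 3 * W * 2 ^ (n - 1) →
      ∀ F : Finset (Fin n → ZMod (3 ^ J)),
        (∀ x ∈ F, (n : ℝ) ^ (2 / 5 : ℝ) ≤ (n : ℝ) * DD j0 J x ∧
          (n : ℝ) * DD j0 J x ≤ (n : ℝ) ^ (7 / 10 : ℝ)) →
        ∑ x ∈ F, Real.exp ((n : ℝ) * DD j0 J x) ≤ ((3 : ℝ) ^ J) ^ n * (1 / 3) := by
  rcases Nat.eq_zero_or_pos W with hW0 | hW
  · subst hW0
    refine ⟨1, fun n hn J hJ => ?_⟩
    exfalso
    have h1 : 0 < n ^ 2 * 3 ^ J := by positivity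
    omega
  obtain ⟨K1, hK1', hK2'⟩ : ∃ K1 : ℝ, 1 ≤ K1 ∧ ∀ p : ℕ, (2 : ℝ) ^ (9900 * (2 * p)) = K1 ^ p :=
    ⟨2 ^ 19800, one_le_pow₀ (by norm_num), fun p => by rw [← pow_mul]; congr 1; ring⟩
  obtain ⟨n0, hn0⟩ := topII_asym (max (max 1 (90 * K1 * W)) 5280) C4
  refine ⟨n0, fun n hn J hJ F hF => ?_⟩
  obtain ⟨hn1, hz, hcp, hpc⟩ := hn0 n hn
  set z : ℝ := (n : ℝ) ^ (1 / 10 : ℝ) with hzdef
  set p : ℕ := ⌈(n : ℝ) ^ (7 / 10 : ℝ)⌉₊ with hpdef
  have hz1 : 1 ≤ z := (le_max_left _ _).trans ((le_max_left _ _).trans hz)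
  have hz2 : 90 * K1 * W ≤ z := (le_max_right _ _).trans ((le_max_left _ _).trans hz)
  have hz3 : 5280 ≤ z := (le_max_right _ _).trans hz
  have hz0 : 0 < z := lt_of_lt_of_le one_pos hz1
  have hnz : (n : ℝ) = z ^ 10 := by
    have := topII_pow n 10 1 (by norm_num)
    rwa [Real.rpow_one] at this
  have h7 : (n : ℝ) ^ (7 / 10 : ℝ) = z ^ 7 := topII_pow n 7 _ (by norm_num)
  have h4 : (n : ℝ) ^ (2 / 5 : ℝ) = z ^ 4 := topII_pow n 4 _ (by norm_num)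
  have hp1 : z ^ 7 ≤ p := by rw [← h7]; exact Nat.le_ceil _
  have hp2' : (p : ℝ) < z ^ 7 + 1 := by rw [← h7]; exact Nat.ceil_lt_add_one (by positivity)
  have hz7 : 1 ≤ z ^ 7 := one_le_pow₀ hz1
  have hp2 : (p : ℝ) ≤ 2 * z ^ 7 := by linarith
  have hWr : (1 : ℝ) ≤ W := by exact_mod_cast hW
  have hnpos : (0 : ℝ) < n := by exact_mod_cast hn1
  -- the ratio
  have hJ' : (n : ℝ) ^ 2 * 3 ^ J ≤ 3 * W * 2 ^ (n - 1) := by exact_mod_cast hJ
  have hQ : (((2 * p : ℕ) : ℝ) + 1) * 3 ^ J / 2 ^ (n - 1) ≤ 15 * W / z ^ 13 := by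
    rw [div_le_div_iff₀ (by positivity) (by positivity)]
    have h1 : (((2 * p : ℕ) : ℝ) + 1) ≤ 5 * z ^ 7 := by push_cast; linarith
    have h2 : z ^ 20 * 3 ^ J ≤ 3 * W * 2 ^ (n - 1) := by
      have e : (n : ℝ) ^ 2 = z ^ 20 := by rw [hnz, ← pow_mul]
      rw [← e]; exact hJ'
    calc (((2 * p : ℕ) : ℝ) + 1) * 3 ^ J * z ^ 13 ≤ 5 * z ^ 7 * 3 ^ J * z ^ 13 := by
          refine mul_le_mul_of_nonneg_right (mul_le_mul_of_nonneg_right h1 (by positivity))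
            (by positivity)
      _ = 5 * (z ^ 20 * 3 ^ J) := by ring
      _ ≤ 5 * (3 * W * 2 ^ (n - 1)) := by linarith
      _ = 15 * W * 2 ^ (n - 1) := by ring
  have hq1 : 15 * (W : ℝ) / z ^ 13 ≤ 1 := by
    rw [div_le_one (by positivity)]
    have h1 : (15 : ℝ) * W ≤ z := by
      have : (15 : ℝ) * W ≤ 90 * K1 * W :=
        mul_le_mul_of_nonneg_right (by linarith) (by positivity)
      linarith
    exact h1.trans (le_self_pow₀ hz1 (by norm_num))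
  have hcond1 : (((2 * p : ℕ) : ℝ) + 1) * 3 ^ J ≤ 2 ^ (n - 1) := by
    have := hQ.trans hq1
    rwa [div_le_one (by positivity)] at this
  have hcond2 : 1320 * (2 * p) ≤ n := by
    have h1 : ((1320 * (2 * p) : ℕ) : ℝ) ≤ (n : ℝ) := by
      rw [hnz]
      push_cast
      have h2 : z ^ 10 = z ^ 3 * z ^ 7 := by ring
      have h3 : z ≤ z ^ 3 := le_self_pow₀ hz1 (by norm_num)
      calc (1320 : ℝ) * (2 * (p : ℝ)) ≤ 1320 * (2 * (2 * z ^ 7)) := by linarith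
        _ = 5280 * z ^ 7 := by ring
        _ ≤ z ^ 3 * z ^ 7 := mul_le_mul_of_nonneg_right (hz3.trans h3) (by positivity)
        _ = z ^ 10 := h2.symm
    exact_mod_cast h1
  have hp0 : 1 ≤ p := by
    have : (1 : ℝ) ≤ p := hz7.trans hp1
    exact_mod_cast this
  have hmom := hA n (2 * p) J hn1 (by omega) hcond2 hcond1
  have hrb := range_bound n (2 * p) j0 J (even_two_mul p) hn1 ((n : ℝ) ^ (2 / 5 : ℝ))
    ((n : ℝ) ^ (7 / 10 : ℝ)) (by positivity) F hF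
  refine hrb.trans (mul_le_mul_of_nonneg_left ?_ (by positivity))
  rw [h7, h4]
  have hdiv : (n : ℝ) / z ^ 4 = z ^ 6 := by
    rw [hnz]; field_simp
  rw [hdiv]
  have hK2 : (2 : ℝ) ^ (9900 * (2 * p)) = K1 ^ p := hK2' p
  rw [hK2] at hmom
  refine (mul_le_mul_of_nonneg_left hmom (by positivity)).trans ?_
  exact topII_main K1 hK1' W C4 p n z _ hW hz1 hz2 hz3 hnz hn1 hp1 hp2 hcp hpc (by positivity) hQ

end Pool.Agent.W_MP_a45265_h99
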