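import Mathlib
import Pool.Agent.W_MP_a45265_h99.TopII

set_option autoImplicit false

/-!
# Top level: the range of large deviations
-/

namespace Pool.Agent.W_MP_a45265_h99

open Finset

/-- the exponent -/
theorem topIII_nat (n : ℕ) (hn : 2 ^ 24 ≤ n) :
    3 * ((Nat.log 2 n + 1) * sN n) ≤ 65 * n := by
  unfold sN
  set L := Nat.log 2 n with hL
  have hn0 : n ≠ 0 := by
    rintro rfl
    norm_num at hn
  have hL24 : 24 ≤ L := by
    rw [hL]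
    exact (Nat.le_log_iff_pow_le (by norm_num) hn0).2 hn
  have hLn : 2 ^ L ≤ n := Nat.pow_log_le_self 2 hn0
  have h4 : 4 * (L + 1) ≤ 2 ^ L := by
    have key : ∀ k : ℕ, 5 ≤ k → 4 * (k + 1) ≤ 2 ^ k := by
      intro k hk
      induction k, hk using Nat.le_induction with
      | base => norm_num
      | succ k hk ih =>
        rw [pow_succ]
        omega
    exact key L (by omega)
  have hD : (10 * n / L) * L ≤ 10 * n := Nat.div_mul_le_self _ _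
  set D := 10 * n / L with hDdef
  have hD2 : D * 24 ≤ 10 * n := (Nat.mul_le_mul_left D hL24).trans hD
  have e : 3 * ((L + 1) * (2 * (D + 1))) = 6 * (D * L) + 6 * D + 6 * (L + 1) := by ring
  rw [e]
  omega

theorem topIII_exp21 : Real.exp 21 ≤ 2 ^ 31 := by
  have h1 : Real.exp 21 = Real.exp 1 ^ 21 := by
    rw [← Real.exp_nat_mul]; norm_num
  rw [h1]
  have h2 : Real.exp 1 ≤ 2.7182818286 := Real.exp_one_lt_d9.le
  calc Real.exp 1 ^ 21 ≤ (2.7182818286 : ℝ) ^ 21 := pow_le_pow_left₀ (Real.exp_pos _).le h2 _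
    _ ≤ 2 ^ 31 := by norm_num

theorem topIII_asym (C : ℕ) : ∃ n0 : ℕ, ∀ n ≥ n0, 2 ^ 24 ≤ n ∧
    ((n : ℝ) ^ C) ^ 10 * (2 ^ (96 * n) / 2 ^ (100 * n)) ≤ (1 / 3) ^ 10 := by
  have t3 : Filter.Tendsto (fun p : ℕ => (p : ℝ) ^ (C * 10) * (1 / 16) ^ p) Filter.atTop
      (nhds 0) :=
    tendsto_pow_const_mul_const_pow_of_abs_lt_one (C * 10) (by
      rw [abs_of_pos (by norm_num)]; norm_num)
  have e3 := t3.eventually (ge_mem_nhds (show (0 : ℝ) < (1 / 3) ^ 10 by norm_num))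
  obtain ⟨n0, h⟩ := Filter.eventually_atTop.1 e3
  refine ⟨max n0 (2 ^ 24), fun n hn => ⟨le_of_max_le_right hn, ?_⟩⟩
  have h1 := h n (le_of_max_le_left hn)
  have e1 : (2 : ℝ) ^ (96 * n) / 2 ^ (100 * n) = (1 / 16) ^ n := by
    have e2 : (2 : ℝ) ^ (100 * n) = 2 ^ (96 * n) * 16 ^ n := by
      rw [show (16 : ℝ) = 2 ^ 4 by norm_num, ← pow_mul, ← pow_add]
      congr 1
      ring
    rw [e2, one_div, inv_pow, div_mul_eq_div_div, div_self (by positivity), one_div]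
  rw [e1, ← pow_mul]
  exact h1

/-- Proof. `range_bound` with `a = n^(7/10)`, `b = 2.1 n`, `s = sN n = 2 (⌊10 n / L⌋ + 1)`,
`L = Nat.log 2 n`, `n < 2^(L+1)`. The bound is
`exp (2.1 n) * (n^(3/10))^s * n^C / 2^(10 n)`. Here `(n^(3/10))^s ≤ 2^((3/10)(L+1) s)` and
`(L + 1) s ≤ 20 n (L+1)/L + 2 (L+1)`, so `(3/10)(L+1) s ≤ 6 n + 6 n / L + L + 1 ≤ 6.5 n` for `n` large;
`exp (2.1) ≤ 2^(3.1)` (`2.7182818286^21 ≤ 2^31`). So the bound is at most `n^C 2^(9.6 n - 10 n) → 0`. -/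
theorem topIII (j0 C W : ℕ)
    (hmom : ∃ n0 : ℕ, ∀ n ≥ n0, ∀ j : ℕ, n ^ 2 * 3 ^ j ≤ 3 * W * 2 ^ (n - 1) →
      mom j0 j (sN n) n ≤ (n : ℝ) ^ C / 2 ^ (10 * n)) :
    ∃ n0 : ℕ, ∀ n ≥ n0, ∀ J : ℕ, n ^ 2 * 3 ^ J ≤ 3 * W * 2 ^ (n - 1) →
      ∀ F : Finset (Fin n → ZMod (3 ^ J)),
        (∀ x ∈ F, (n : ℝ) ^ (7 / 10 : ℝ) ≤ (n : ℝ) * DD j0 J x ∧
          DD j0 J x ≤ 21 / 10) →
        ∑ x ∈ F, Real.exp ((n : ℝ) * DD j0 J x) ≤ ((3 : ℝ) ^ J) ^ n * (1 / 3) := by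
  obtain ⟨n1, hn1⟩ := hmom
  obtain ⟨n2, hn2⟩ := topIII_asym C
  refine ⟨max n1 n2, fun n hn J hJ F hF => ?_⟩
  have hm := hn1 n (le_of_max_le_left hn) J hJ
  obtain ⟨hn24, has⟩ := hn2 n (le_of_max_le_right hn)
  have hnpos' : 1 ≤ n := le_trans (by norm_num) hn24
  have hnpos : (0 : ℝ) < n := by exact_mod_cast hnpos'
  have hrb := range_bound n (sN n) j0 J (by unfold sN; exact even_two_mul _) hnpos'
    ((n : ℝ) ^ (7 / 10 : ℝ)) (21 / 10 * n) (by positivity) F (fun x hx => ⟨(hF x hx).1, by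
      have := mul_le_mul_of_nonneg_left (hF x hx).2 hnpos.le
      linarith⟩)
  refine hrb.trans (mul_le_mul_of_nonneg_left ?_ (by positivity))
  set s := sN n with hs
  set L := Nat.log 2 n with hL
  have hdiv0 : 0 ≤ (n : ℝ) / (n : ℝ) ^ (7 / 10 : ℝ) := by positivity
  have hX : Real.exp (21 / 10 * n) * (n / (n : ℝ) ^ (7 / 10 : ℝ)) ^ s * mom j0 J s n ≤
      Real.exp (21 / 10 * n) * (n / (n : ℝ) ^ (7 / 10 : ℝ)) ^ s *
        ((n : ℝ) ^ C / 2 ^ (10 * n)) :=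
    mul_le_mul_of_nonneg_left hm (by positivity)
  refine hX.trans ?_
  refine le_of_pow_le_pow_left₀ (n := 10) (by norm_num) (by norm_num) ?_
  refine le_trans ?_ has
  have e1 : Real.exp (21 / 10 * n) ^ 10 = Real.exp 21 ^ n := by
    rw [← Real.exp_nat_mul, ← Real.exp_nat_mul]
    congr 1
    push_cast
    ring
  have e2 : (((n : ℝ) / (n : ℝ) ^ (7 / 10 : ℝ)) ^ s) ^ 10 = (n : ℝ) ^ (3 * s) := by
    have h10 : ((n : ℝ) / (n : ℝ) ^ (7 / 10 : ℝ)) ^ 10 = (n : ℝ) ^ 3 := by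
      rw [div_pow]
      have h7 : ((n : ℝ) ^ (7 / 10 : ℝ)) ^ 10 = (n : ℝ) ^ 7 := by
        rw [← Real.rpow_natCast, ← Real.rpow_mul hnpos.le, ← Real.rpow_natCast]
        norm_num
      rw [h7]
      field_simp
    rw [← pow_mul, mul_comm s 10, pow_mul, h10, ← pow_mul]
  have e3 : (n : ℝ) ^ (3 * s) ≤ 2 ^ (65 * n) := by
    have h1 : n < 2 ^ (L + 1) := Nat.lt_pow_succ_log_self (by norm_num) n
    have h2 : (n : ℝ) ≤ 2 ^ (L + 1) := by exact_mod_cast h1.le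
    calc (n : ℝ) ^ (3 * s) ≤ ((2 : ℝ) ^ (L + 1)) ^ (3 * s) :=
          pow_le_pow_left₀ hnpos.le h2 _
      _ = 2 ^ (3 * ((L + 1) * s)) := by rw [← pow_mul]; congr 1; ring
      _ ≤ 2 ^ (65 * n) := pow_le_pow_right₀ (by norm_num) (topIII_nat n hn24)
  have e4 : Real.exp 21 ^ n ≤ 2 ^ (31 * n) := by
    rw [pow_mul]
    exact pow_le_pow_left₀ (Real.exp_pos _).le topIII_exp21 _
  rw [mul_pow, mul_pow, e1, e2, div_pow]
  have e5 : ((2 : ℝ) ^ (10 * n)) ^ 10 = 2 ^ (100 * n) := by rw [← pow_mul]; congr 1; ring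
  have e6 : (2 : ℝ) ^ (96 * n) = 2 ^ (31 * n) * 2 ^ (65 * n) := by rw [← pow_add]; congr 1; ring
  rw [e5]
  calc Real.exp 21 ^ n * (n : ℝ) ^ (3 * s) * (((n : ℝ) ^ C) ^ 10 / 2 ^ (100 * n))
      ≤ (2 ^ (31 * n) * 2 ^ (65 * n)) * (((n : ℝ) ^ C) ^ 10 / 2 ^ (100 * n)) :=
        mul_le_mul_of_nonneg_right (mul_le_mul e4 e3 (by positivity) (by positivity))
          (by positivity)
    _ = ((n : ℝ) ^ C) ^ 10 * (2 ^ (96 * n) / 2 ^ (100 * n)) := by rw [e6]; ring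

end Pool.Agent.W_MP_a45265_h99
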