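import Mathlib
import Pool.Agent.W_MP_a45265_h99.TopI
import Pool.Agent.W_MP_a45265_h99.TopIII
import Pool.Agent.W_MP_a45265_h99.MomC

set_option autoImplicit false

/-!
# The top level
-/

namespace Pool.Agent.W_MP_a45265_h99

open Finset

theorem topE_small (j0 : ℕ) (c : ℝ) (hc0 : 0 ≤ c) (hc1 : c < 1) :
    ∃ n1 : ℕ, ∀ n ≥ n1, (n : ℝ) * (3 ^ j0 * c ^ (n / 20)) ≤ 1 / 100 := by
  have h1 : Filter.Tendsto (fun k : ℕ => (k : ℝ) * c ^ k) Filter.atTop (nhds 0) :=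
    tendsto_self_mul_const_pow_of_lt_one hc0 hc1
  have h2 : Filter.Tendsto (fun k : ℕ => c ^ k) Filter.atTop (nhds 0) :=
    tendsto_pow_atTop_nhds_zero_of_lt_one hc0 hc1
  have h3 : Filter.Tendsto (fun k : ℕ => 20 * 3 ^ j0 * ((k : ℝ) * c ^ k + c ^ k)) Filter.atTop (nhds 0) := by
    have := (h1.add h2).const_mul (20 * 3 ^ j0 : ℝ)
    simpa using this
  have h4 := h3.eventually (Iio_mem_nhds (show (0 : ℝ) < 1 / 100 by norm_num))
  obtain ⟨K, hK⟩ := Filter.eventually_atTop.1 h4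
  refine ⟨20 * K, fun n hn => ?_⟩
  have hk : K ≤ n / 20 := by omega
  have h5 := hK (n / 20) hk
  have h6 : (n : ℝ) ≤ 20 * ((n / 20 : ℕ) : ℝ) + 20 := by
    have : n ≤ 20 * (n / 20) + 20 := by omega
    exact_mod_cast this
  have h7 : (0 : ℝ) ≤ 3 ^ j0 * c ^ (n / 20) := by positivity
  calc (n : ℝ) * (3 ^ j0 * c ^ (n / 20)) ≤ (20 * ((n / 20 : ℕ) : ℝ) + 20) * (3 ^ j0 * c ^ (n / 20)) :=
        mul_le_mul_of_nonneg_right h6 h7
    _ = 20 * 3 ^ j0 * (((n / 20 : ℕ) : ℝ) * c ^ (n / 20) + c ^ (n / 20)) := by ring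
    _ ≤ 1 / 100 := h5.le

theorem exp_hundredth : Real.exp (1 / 100) ≤ 1.02 := by
  have h := Real.exp_bound_div_one_sub_of_interval (x := 1 / 100) (by norm_num) (by norm_num)
  refine h.trans ?_
  norm_num

/-- Proof. Let `m = 2^(n-1) / 3^J`, so `n^2 / (3 W) ≤ m` (and `W ≥ 1`). For `x` in the sum let
`k = cnt x 0 / 2` (`cnt x 0` is even, `even_cnt_zero`), `R = 3^J cnt x 0 / 2^n = k / m ≤ 3`. By `low`
`R - 1 = DD + ε`, `|ε| ≤ 3^j0 c^(n/20)`, so `DD ≤ 21/10` and `n |ε| ≤ 1/100` for `n` large. By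
`descFactorial_le`
`2^n k.descFactorial n ≤ 2^n m^n exp (n (R - 1) - n (n-1) / (2 m)) ≤ 2^n m^n e^(1/100) exp (n DD) exp (-n (n-1)/(2 m))`.
Splitting according to `n DD ≤ n^(2/5)`, `n^(2/5) < n DD ≤ n^(7/10)`, `n^(7/10) < n DD`, the sum of
`exp (n DD)` over the `x` in question is at most `(3^J)^n (exp (m (exp (n/m) - 1 - n/m)) + 1)`
(`topI`, `topII`, `topIII`). By `exp_sub_le` (`t = n / m ≤ 3 W / n ≤ 1`)
`m (exp (n/m) - 1 - n/m) ≤ n^2 / (2 m) + n^3 / m^2`, and `n^3 / m^2 ≤ 9 W^2 / n`,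
`n / (2 m) ≤ 3 W / (2 n)`. So the total is at most
`2^n (m 3^J)^n e^(1/100) (exp (9 W^2 / n + 3 W / (2 n)) + 1) ≤ 3 * 2^(n^2)` for `n` large
(`2^n (m 3^J)^n = 2^n 2^((n-1) n) = 2^(n^2)`). -/
theorem topE (j0 C4 C W : ℕ) (hW : 1 ≤ W)
    (hA : ∀ n s j : ℕ, 1 ≤ n → 1 ≤ s → 1320 * s ≤ n → ((s : ℝ) + 1) * 3 ^ j ≤ 2 ^ (n - 1) →
      mom j0 j s n ≤ 2 ^ (9900 * s) * (((s : ℝ) + 1) * 3 ^ j / 2 ^ (n - 1)) ^ ((s - C4) / 2) +
        1 / 2 ^ (20 * n))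
    (hmom : ∃ n0 : ℕ, ∀ n ≥ n0, ∀ j : ℕ, n ^ 2 * 3 ^ j ≤ 3 * W * 2 ^ (n - 1) →
      mom j0 j (sN n) n ≤ (n : ℝ) ^ C / 2 ^ (10 * n)) :
    ∃ n0 : ℕ, ∀ n ≥ n0, ∀ J : ℕ, n ^ 2 * 3 ^ J ≤ 3 * W * 2 ^ (n - 1) →
      ∑ x ∈ univ.filter (fun x : Fin n → ZMod (3 ^ J) => n ≤ 20 * usz x ∧
        3 ^ J * cnt x 0 ≤ 3 * 2 ^ n), 2 ^ n * (cnt x 0 / 2).descFactorial n ≤
      3 * 2 ^ (n ^ 2) := by
  classical
  obtain ⟨nI, hI⟩ := topI j0 W
  obtain ⟨nII, hII⟩ := topII j0 C4 W hA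
  obtain ⟨nIII, hIII⟩ := topIII j0 C W hmom
  obtain ⟨c, hc0, hc1, hlow⟩ := low j0
  obtain ⟨nc, hnc⟩ := topE_small j0 c hc0 hc1
  refine ⟨nI + nII + nIII + nc + 100 * (9 * W ^ 2 + 3 * W) + 1, fun n hn J hJ => ?_⟩
  have hI' := hI n (by omega) J hJ
  have hII' := hII n (by omega) J hJ
  have hIII' := hIII n (by omega) J hJ
  have hnc' := hnc n (by omega)
  have hn1 : 1 ≤ n := by omega
  have hnW : 100 * (9 * W ^ 2 + 3 * W) ≤ n := by omega
  have hn1R : (1 : ℝ) ≤ n := by exact_mod_cast hn1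
  have hW1R : (1 : ℝ) ≤ W := by exact_mod_cast hW
  have hnWR : 100 * (9 * (W : ℝ) ^ 2 + 3 * W) ≤ n := by exact_mod_cast hnW
  set P : ℝ := (3 : ℝ) ^ J with hP
  have hPpos : 0 < P := by positivity
  set M : ℝ := (2 : ℝ) ^ (n - 1) with hM
  have hMpos : 0 < M := by positivity
  set m : ℝ := M / P with hm
  have hmpos : 0 < m := by positivity
  have h2n : (2 : ℝ) ^ n = 2 * M := by
    rw [hM, ← pow_succ']
    congr 1
    omega
  have hmP : m * P = M := by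
    rw [hm]
    field_simp
  have hJR : (n : ℝ) ^ 2 * P ≤ 3 * W * M := by
    rw [hP, hM]
    exact_mod_cast hJ
  have hn2 : (n : ℝ) ^ 2 ≤ 3 * W * m := by
    rw [hm, ← mul_div_assoc, le_div_iff₀ hPpos]
    exact hJR
  have hnm : (n : ℝ) / m ≤ 3 * W / n := by
    rw [div_le_div_iff₀ hmpos (by linarith)]
    nlinarith
  have h3Wn : 3 * (W : ℝ) / n ≤ 1 / 100 := by
    rw [div_le_div_iff₀ (by linarith) (by norm_num)]
    nlinarith
  -- pointwise bound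
  set F := univ.filter (fun x : Fin n → ZMod (3 ^ J) => n ≤ 20 * usz x ∧
        3 ^ J * cnt x 0 ≤ 3 * 2 ^ n) with hF
  have heps : ∀ x ∈ F, (3 : ℝ) ^ j0 * c ^ usz x ≤ 3 ^ j0 * c ^ (n / 20) := by
    intro x hx
    rw [hF, Finset.mem_filter] at hx
    apply mul_le_mul_of_nonneg_left _ (by positivity)
    exact pow_le_pow_of_le_one hc0 hc1.le (by omega)
  have hR : ∀ x ∈ F, P * (cnt x 0 : ℝ) / 2 ^ n - 1 ≤ DD j0 J x + 3 ^ j0 * c ^ (n / 20) ∧
      DD j0 J x ≤ 21 / 10 := by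
    intro x hx
    have h1 := hlow n J x
    rw [abs_le] at h1
    have h2 := heps x hx
    have h3 : P * (cnt x 0 : ℝ) / 2 ^ n ≤ 3 := by
      rw [hF, Finset.mem_filter] at hx
      rw [div_le_iff₀ (by positivity), hP]
      exact_mod_cast hx.2.2
    have h4 : (3 : ℝ) ^ j0 * c ^ (n / 20) ≤ 1 / 100 := by
      have h5 : (0 : ℝ) ≤ 3 ^ j0 * c ^ (n / 20) := by positivity
      nlinarith
    constructor
    · linarith [h1.2]
    · linarith [h1.1]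
  have hpt : ∀ x ∈ F, (2 : ℝ) ^ n * ((cnt x 0 / 2).descFactorial n : ℝ) ≤
      2 ^ n * m ^ n * Real.exp (1 / 100) * Real.exp (-(n * (n - 1) / (2 * m))) *
        Real.exp (n * DD j0 J x) := by
    intro x hx
    have h1 := descFactorial_le (cnt x 0 / 2) n m hmpos
    have h2 : (((cnt x 0 / 2 : ℕ) : ℝ)) / m ≤ P * (cnt x 0 : ℝ) / 2 ^ n := by
      have h3 : ((cnt x 0 / 2 : ℕ) : ℝ) ≤ (cnt x 0 : ℝ) / 2 := by
        exact_mod_cast Nat.cast_div_le (α := ℝ) (m := cnt x 0) (n := 2)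
      calc (((cnt x 0 / 2 : ℕ) : ℝ)) / m ≤ ((cnt x 0 : ℝ) / 2) / m := by gcongr
        _ = P * (cnt x 0 : ℝ) / 2 ^ n := by
          rw [h2n, hm]
          field_simp
    have h4 := (hR x hx).1
    have h5 : (n : ℝ) * ((((cnt x 0 / 2 : ℕ) : ℝ)) / m - 1) - n * (n - 1) / (2 * m) ≤
        1 / 100 + -(n * (n - 1) / (2 * m)) + n * DD j0 J x := by
      have h6 : (n : ℝ) * ((((cnt x 0 / 2 : ℕ) : ℝ)) / m - 1) ≤
          n * (DD j0 J x + 3 ^ j0 * c ^ (n / 20)) := by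
        apply mul_le_mul_of_nonneg_left _ (by linarith)
        linarith
      rw [mul_add] at h6
      linarith
    calc (2 : ℝ) ^ n * ((cnt x 0 / 2).descFactorial n : ℝ)
        ≤ 2 ^ n * (m ^ n * Real.exp (1 / 100 + -(n * (n - 1) / (2 * m)) + n * DD j0 J x)) := by
          apply mul_le_mul_of_nonneg_left _ (by positivity)
          refine h1.trans ?_
          apply mul_le_mul_of_nonneg_left _ (by positivity)
          exact Real.exp_le_exp.2 h5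
      _ = _ := by
          rw [Real.exp_add, Real.exp_add]
          ring
  -- sum of the exponentials
  set φ : ℝ := m * (Real.exp (n / m) - 1 - n / m) with hφ
  have hsum : ∑ x ∈ F, Real.exp ((n : ℝ) * DD j0 J x) ≤ P ^ n * (Real.exp φ + 1) := by
    have h1 := hI' (F.filter (fun x => (n : ℝ) * DD j0 J x ≤ (n : ℝ) ^ (2 / 5 : ℝ)))
      (fun x hx => (Finset.mem_filter.1 hx).2)
    have h2 := hII' ((F.filter (fun x => ¬ ((n : ℝ) * DD j0 J x ≤ (n : ℝ) ^ (2 / 5 : ℝ)))).filter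
      (fun x => (n : ℝ) * DD j0 J x ≤ (n : ℝ) ^ (7 / 10 : ℝ)))
      (fun x hx => by
        rw [Finset.mem_filter, Finset.mem_filter] at hx
        exact ⟨(not_le.1 hx.1.2).le, hx.2⟩)
    have h3 := hIII' ((F.filter (fun x => ¬ ((n : ℝ) * DD j0 J x ≤ (n : ℝ) ^ (2 / 5 : ℝ)))).filter
      (fun x => ¬ ((n : ℝ) * DD j0 J x ≤ (n : ℝ) ^ (7 / 10 : ℝ))))
      (fun x hx => by
        rw [Finset.mem_filter, Finset.mem_filter] at hx
        exact ⟨(not_le.1 hx.2).le, (hR x hx.1.1).2⟩)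
    rw [← Finset.sum_filter_add_sum_filter_not F (fun x => (n : ℝ) * DD j0 J x ≤ (n : ℝ) ^ (2 / 5 : ℝ)),
      ← Finset.sum_filter_add_sum_filter_not (F.filter (fun x => ¬ ((n : ℝ) * DD j0 J x ≤ (n : ℝ) ^ (2 / 5 : ℝ))))
        (fun x => (n : ℝ) * DD j0 J x ≤ (n : ℝ) ^ (7 / 10 : ℝ))]
    have h4 : P ^ n * (Real.exp φ + 1) = P ^ n * (Real.exp φ + 1 / 3) + (P ^ n * (1 / 3) + P ^ n * (1 / 3)) := by
      ring
    rw [h4]
    exact add_le_add h1 (add_le_add h2 h3)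
  have hφ' : φ + -(n * (n - 1) / (2 * m)) ≤ 1 / 100 := by
    have ht0 : (0 : ℝ) ≤ n / m := by positivity
    have ht1 : (n : ℝ) / m ≤ 1 := by linarith
    have h1 := exp_sub_le (n / m) ht0 ht1
    have h2 : φ ≤ m * ((n / m) ^ 2 / 2 + (n / m) ^ 3) := mul_le_mul_of_nonneg_left h1 hmpos.le
    have h3 : m * ((n / m) ^ 2 / 2 + (n / m) ^ 3) + -(n * (n - 1) / (2 * m)) =
        n * (n / m) ^ 2 + (n / m) / 2 := by
      field_simp
      ring
    have h4 : (n : ℝ) * (n / m) ^ 2 ≤ n * (3 * W / n) ^ 2 := by gcongr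
    have h5 : (n : ℝ) * (3 * W / n) ^ 2 = 9 * W ^ 2 / n := by
      field_simp
      ring
    have h6 : 9 * (W : ℝ) ^ 2 / n + (3 * W / n) / 2 ≤ 1 / 100 := by
      have : 9 * (W : ℝ) ^ 2 / n + (3 * W / n) / 2 = (9 * (W : ℝ) ^ 2 + 3 * W / 2) / n := by
        field_simp
      rw [this, div_le_div_iff₀ (by linarith) (by norm_num)]
      nlinarith
    linarith
  have hneg : Real.exp (-(n * (n - 1) / (2 * m))) ≤ 1 := by
    rw [Real.exp_le_one_iff]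
    have : (0 : ℝ) ≤ n * (n - 1) / (2 * m) := by
      apply div_nonneg _ (by positivity)
      apply mul_nonneg <;> linarith
    linarith
  have hpow : (2 : ℝ) ^ n * m ^ n * P ^ n = 2 ^ (n ^ 2) := by
    rw [mul_assoc, ← mul_pow, hmP, hM, ← pow_mul, ← pow_add]
    congr 1
    obtain ⟨k, rfl⟩ : ∃ k, n = k + 1 := ⟨n - 1, by omega⟩
    simp only [Nat.add_sub_cancel]
    ring
  have hfin : (∑ x ∈ F, (2 : ℝ) ^ n * ((cnt x 0 / 2).descFactorial n : ℝ)) ≤ 3 * 2 ^ (n ^ 2) := by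
    calc (∑ x ∈ F, (2 : ℝ) ^ n * ((cnt x 0 / 2).descFactorial n : ℝ))
        ≤ ∑ x ∈ F, 2 ^ n * m ^ n * Real.exp (1 / 100) * Real.exp (-(n * (n - 1) / (2 * m))) *
            Real.exp (n * DD j0 J x) := Finset.sum_le_sum hpt
      _ = 2 ^ n * m ^ n * Real.exp (1 / 100) * Real.exp (-(n * (n - 1) / (2 * m))) *
            ∑ x ∈ F, Real.exp (n * DD j0 J x) := by rw [Finset.mul_sum]
      _ ≤ 2 ^ n * m ^ n * Real.exp (1 / 100) * Real.exp (-(n * (n - 1) / (2 * m))) *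
            (P ^ n * (Real.exp φ + 1)) := by
          apply mul_le_mul_of_nonneg_left hsum (by positivity)
      _ = (2 ^ n * m ^ n * P ^ n) * (Real.exp (1 / 100) *
            (Real.exp (φ + -(n * (n - 1) / (2 * m))) + Real.exp (-(n * (n - 1) / (2 * m))))) := by
          rw [Real.exp_add φ]
          ring
      _ ≤ (2 ^ n * m ^ n * P ^ n) * 3 := by
          apply mul_le_mul_of_nonneg_left _ (by positivity)
          have h1 := exp_hundredth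
          have h2 : Real.exp (φ + -(n * (n - 1) / (2 * m))) ≤ 1.02 :=
            (Real.exp_le_exp.2 hφ').trans h1
          have h3 := Real.exp_pos (1 / 100)
          have h4 := Real.exp_pos (φ + -(n * (n - 1) / (2 * m)))
          have h5 := Real.exp_pos (-(n * (n - 1) / (2 * m)) : ℝ)
          nlinarith
      _ = 3 * 2 ^ (n ^ 2) := by rw [hpow]; ring
  have hcast : ((∑ x ∈ F, 2 ^ n * (cnt x 0 / 2).descFactorial n : ℕ) : ℝ) ≤ ((3 * 2 ^ (n ^ 2) : ℕ) : ℝ) := by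
    push_cast
    exact hfin
  exact_mod_cast hcast

end Pool.Agent.W_MP_a45265_h99
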