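import Mathlib
import Pool.Agent.W_MP_a45265_h99.TopE
import Pool.Agent.W_MP_a45265_h99.Union
import Pool.Agent.W_MP_a45265_h99.Red
import Pool.Agent.W_MP_a45265_h99.StepA
import Pool.Agent.W_MP_a45265_h99.Rows

set_option autoImplicit false

/-!
# Assembly
-/

namespace Pool.Agent.W_MP_a45265_h99

open Finset

/-- The number of singular sign matrices. -/
def sing (n : ℕ) : ℕ := (univ.filter (fun B : Fin n → Fin n → Bool =>
  (Matrix.of (fun i j => if B i j then (1 : ℤ) else -1)).det = 0)).card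

/-- Choice of the top level: `J` minimal with `W 2^(n-1) ≤ n^2 3^J`; for `n` large `J ≥ 1` and
`J ≤ n`. -/
theorem exists_top_level (W : ℕ) (hW : 1 ≤ W) : ∃ n0 : ℕ, ∀ n ≥ n0, ∃ J : ℕ, 1 ≤ J ∧ J ≤ n ∧
    n ^ 2 * 3 ^ J ≤ 3 * W * 2 ^ (n - 1) ∧ W * 2 ^ (n - 1) ≤ n ^ 2 * 3 ^ J := by
  have hpow : ∀ k : ℕ, 7 ≤ k → k ^ 2 < 2 ^ (k - 1) := by
    intro k hk
    induction k, hk using Nat.le_induction with
    | base => norm_num
    | succ k hk ih =>
      have h1 : 2 ^ (k + 1 - 1) = 2 * 2 ^ (k - 1) := by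
        rw [← pow_succ']
        congr 1
        omega
      rw [h1]
      nlinarith
  refine ⟨max 7 W, fun n hn => ?_⟩
  have hn7 : 7 ≤ n := le_trans (le_max_left _ _) hn
  have hnW : W ≤ n := le_trans (le_max_right _ _) hn
  have hP : W * 2 ^ (n - 1) ≤ n ^ 2 * 3 ^ n := by
    have h1 : W ≤ n ^ 2 := by nlinarith
    have h2 : 2 ^ (n - 1) ≤ 3 ^ n := by
      calc 2 ^ (n - 1) ≤ 2 ^ n := Nat.pow_le_pow_right (by norm_num) (by omega)
        _ ≤ 3 ^ n := Nat.pow_le_pow_left (by norm_num) n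
    exact Nat.mul_le_mul h1 h2
  have hex : ∃ J : ℕ, W * 2 ^ (n - 1) ≤ n ^ 2 * 3 ^ J := ⟨n, hP⟩
  classical
  set J := Nat.find hex with hJ
  have hJ1 : W * 2 ^ (n - 1) ≤ n ^ 2 * 3 ^ J := Nat.find_spec hex
  have hJn : J ≤ n := Nat.find_min' hex hP
  have hJ0 : J ≠ 0 := by
    intro h0
    rw [h0, pow_zero, mul_one] at hJ1
    have h2 := hpow n hn7
    have h3 : 2 ^ (n - 1) ≤ W * 2 ^ (n - 1) := Nat.le_mul_of_pos_left _ hW
    omega
  refine ⟨J, by omega, hJn, ?_, hJ1⟩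
  have h4 : ¬ (W * 2 ^ (n - 1) ≤ n ^ 2 * 3 ^ (J - 1)) :=
    Nat.find_min hex (by omega)
  have h5 : 3 ^ J = 3 * 3 ^ (J - 1) := by
    rw [← pow_succ']
    congr 1
    omega
  rw [h5]
  push Not at h4
  nlinarith

/-- Proof. By `reduction` for the `J` of `exists_top_level` the singular matrices are covered by the sets of
`card_rowEq`, `card_colEq`, `stepA`, `chainE` with `union1` (`j ≤ J ≤ n`, and
`n^2 3^j ≤ n^2 3^J ≤ 3 W 2^(n-1)`) and `topE` with `union2` (the set of all `x` with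
`n ≤ 20 usz x`, `3^J cnt x 0 ≤ 3 * 2^n` is invariant under units, and such `x` has a unit coordinate
as `n ≥ 1`). So `sing n / 2^(n^2) ≤ 2 n (n-1) / 2^n + (48/100)^n + (n + 1) / 4^n + 3 / (2 * 3^(J-1))`, and
`3 / (2 * 3^(J-1)) = 9 / (2 * 3^J) ≤ 9 n^2 / (W 2^n)`. -/
theorem upper (W : ℕ) (hW : 1 ≤ W) : ∃ n0 : ℕ, ∀ n ≥ n0,
    (sing n : ℝ) / 2 ^ (n ^ 2) ≤ 2 * (n * (n - 1)) / 2 ^ n + (48 / 100 : ℝ) ^ n + (n + 1) / 4 ^ n +
      9 * n ^ 2 / (W * 2 ^ n) := by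
  obtain ⟨j0, C, C4, hA, hM⟩ := momC
  obtain ⟨n1, h1⟩ := exists_top_level W hW
  obtain ⟨n2, h2⟩ := chainE j0 C W (hM W)
  obtain ⟨n3, h3⟩ := topE j0 C4 C W hW hA (hM W)
  refine ⟨n1 + n2 + n3 + 1, fun n hn => ?_⟩
  obtain ⟨J, hJ1, hJn, hJa, hJb⟩ := h1 n (by omega)
  have hn1 : 1 ≤ n := by omega
  -- the sets of the covering
  set SR := univ.filter (fun B : Fin n → Fin n → Bool => RowEq B) with hSR
  set SC := univ.filter (fun B : Fin n → Fin n → Bool => ColEq B) with hSC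
  set SA := univ.filter (fun B : Fin n → Fin n → Bool => ∃ x : Fin n → ZMod 3,
      3 ≤ (univ.filter (fun k => x k ≠ 0)).card ∧
      20 * (univ.filter (fun k => x k ≠ 0)).card < n ∧ ∀ i, dot x (B i) = 0) with hSA
  let XE : ∀ j : ℕ, Finset (Fin n → ZMod (3 ^ j)) := fun j =>
    univ.filter (fun x : Fin n → ZMod (3 ^ j) => n ≤ 20 * usz x ∧
        3 * 2 ^ n < 3 ^ j * cnt x 0 ∧ 3 ^ j * cnt x 0 ≤ 9 * 2 ^ n)
  let XT : Finset (Fin n → ZMod (3 ^ J)) :=
    univ.filter (fun x : Fin n → ZMod (3 ^ J) => n ≤ 20 * usz x ∧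
        3 ^ J * cnt x 0 ≤ 3 * 2 ^ n)
  let SE : ℕ → Finset (Fin n → Fin n → Bool) := fun j =>
    univ.filter (fun B : Fin n → Fin n → Bool => ∃ x ∈ XE j, ∀ i, dot x (B i) = 0)
  let ST : Finset (Fin n → Fin n → Bool) :=
    univ.filter (fun B : Fin n → Fin n → Bool => ¬ RowEq B ∧ ∃ x ∈ XT, ∀ i, dot x (B i) = 0)
  have hcover : (univ.filter (fun B : Fin n → Fin n → Bool =>
      (Matrix.of (fun i j => if B i j then (1 : ℤ) else -1)).det = 0)) ⊆
      SR ∪ SC ∪ SA ∪ (range (J + 1)).biUnion SE ∪ ST := by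
    intro B hB
    rw [mem_filter] at hB
    simp only [mem_union]
    rcases reduction n J B hB.2 with h | h | ⟨x, hx1, hx2, hx3⟩ | ⟨j, hj, x, hx1, hx2, hx3, hx4⟩ |
      ⟨hr, x, hx1, hx2, hx3⟩
    · exact Or.inl (Or.inl (Or.inl (Or.inl (mem_filter.2 ⟨mem_univ _, h⟩))))
    · exact Or.inl (Or.inl (Or.inl (Or.inr (mem_filter.2 ⟨mem_univ _, h⟩))))
    · exact Or.inl (Or.inl (Or.inr (mem_filter.2 ⟨mem_univ _, x, hx1, hx2, hx3⟩)))
    · refine Or.inl (Or.inr (mem_biUnion.2 ⟨j, mem_range.2 (by omega), ?_⟩))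
      exact mem_filter.2 ⟨mem_univ _, x, mem_filter.2 ⟨mem_univ _, hx1, hx2, hx3⟩, hx4⟩
    · exact Or.inr (mem_filter.2 ⟨mem_univ _, hr, x, mem_filter.2 ⟨mem_univ _, hx1, hx2⟩, hx3⟩)
  have hcard : sing n ≤ SR.card + SC.card + SA.card + ∑ j ∈ range (J + 1), (SE j).card +
      ST.card := by
    refine le_trans (card_le_card hcover) ?_
    refine le_trans (card_union_le _ _) (Nat.add_le_add_right ?_ _)
    refine le_trans (card_union_le _ _) (Nat.add_le_add ?_ card_biUnion_le)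
    refine le_trans (card_union_le _ _) (Nat.add_le_add_right ?_ _)
    exact card_union_le _ _
  have hN : (0 : ℝ) < 2 ^ (n ^ 2) := by positivity
  have hR : (SR.card : ℝ) / 2 ^ (n ^ 2) ≤ (n * (n - 1)) / 2 ^ n := by
    have h := card_rowEq n hn1
    rw [div_le_div_iff₀ hN (by positivity)]
    have h' : ((SR.card * 2 ^ n : ℕ) : ℝ) ≤ ((n * (n - 1) * 2 ^ (n ^ 2) : ℕ) : ℝ) := by
      exact_mod_cast h
    push_cast [Nat.cast_sub hn1] at h'
    exact h'
  have hC : (SC.card : ℝ) / 2 ^ (n ^ 2) ≤ (n * (n - 1)) / 2 ^ n := by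
    have h := card_colEq n hn1
    rw [div_le_div_iff₀ hN (by positivity)]
    have h' : ((SC.card * 2 ^ n : ℕ) : ℝ) ≤ ((n * (n - 1) * 2 ^ (n ^ 2) : ℕ) : ℝ) := by
      exact_mod_cast h
    push_cast [Nat.cast_sub hn1] at h'
    exact h'
  have hAA : (SA.card : ℝ) / 2 ^ (n ^ 2) ≤ (48 / 100 : ℝ) ^ n := by
    rw [div_le_iff₀ hN]
    exact stepA n
  have hE : ∀ j ∈ range (J + 1), ((SE j).card : ℝ) / 2 ^ (n ^ 2) ≤ 1 / 4 ^ n := by
    intro j hj
    have hjJ : j ≤ J := by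
      have := mem_range.1 hj
      omega
    have hj3 : n ^ 2 * 3 ^ j ≤ 3 * W * 2 ^ (n - 1) := by
      refine le_trans (Nat.mul_le_mul_left _ (Nat.pow_le_pow_right (by norm_num) hjJ)) hJa
    have h4 := h2 n (by omega) j hj3
    have h5 : (SE j).card ≤ ∑ x ∈ XE j, (cnt x 0) ^ n := union1 n (3 ^ j) (XE j)
    have h6 : 4 ^ n * (SE j).card ≤ 2 ^ (n ^ 2) := le_trans (Nat.mul_le_mul_left _ h5) h4
    rw [div_le_div_iff₀ hN (by positivity)]
    have h7 : ((4 ^ n * (SE j).card : ℕ) : ℝ) ≤ ((2 ^ (n ^ 2) : ℕ) : ℝ) := by exact_mod_cast h6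
    push_cast at h7
    linarith
  have hT : (ST.card : ℝ) / 2 ^ (n ^ 2) ≤ 9 * n ^ 2 / (W * 2 ^ n) := by
    have hX1 : ∀ x ∈ XT, ∃ k, IsUnit (x k) := by
      intro x hx
      have hx1 := (mem_filter.1 hx).2.1
      have hpos : 0 < usz x := by omega
      unfold usz at hpos
      obtain ⟨⟨k, hk⟩⟩ := (Nat.card_pos_iff.1 hpos).1
      exact ⟨k, hk⟩
    have hX2 : ∀ x ∈ XT, ∀ u : (ZMod (3 ^ J))ˣ,
        (fun k => (u : ZMod (3 ^ J)) * x k) ∈ XT := by
      intro x hx u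
      obtain ⟨hx1, hx2⟩ := (mem_filter.1 hx).2
      refine mem_filter.2 ⟨mem_univ _, ?_, ?_⟩
      · have hu : usz (fun k => (u : ZMod (3 ^ J)) * x k) = usz x := by
          unfold usz
          refine Nat.card_congr (Equiv.subtypeEquivRight fun k => ?_)
          simp
        rw [hu]
        exact hx1
      · have hc : cnt (fun k => (u : ZMod (3 ^ J)) * x k) 0 = cnt x 0 := by
          unfold cnt
          congr 1
          ext e
          simp only [mem_filter, mem_univ, true_and]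
          have hd : dot (fun k => (u : ZMod (3 ^ J)) * x k) e = (u : ZMod (3 ^ J)) * dot x e := by
            unfold dot
            rw [Finset.mul_sum]
            refine sum_congr rfl fun k _ => ?_
            rw [mul_smul_comm]
          rw [hd]
          exact Units.mul_right_eq_zero u
        rw [hc]
        exact hx2
    have h4 := union2 n J hn1 hJ1 XT hX1 hX2
    have h5 := h3 n (by omega) J hJa
    have h6 : ST.card * (2 * 3 ^ (J - 1)) ≤ 3 * 2 ^ (n ^ 2) := le_trans h4 h5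
    have h7 : 3 ^ J = 3 * 3 ^ (J - 1) := by
      rw [← pow_succ']
      congr 1
      omega
    have h8 : 2 ^ n = 2 * 2 ^ (n - 1) := by
      rw [← pow_succ']
      congr 1
      omega
    -- `ST.card * W * 2^n ≤ 9 n^2 2^(n^2)`
    have h9 : ST.card * (W * 2 ^ n) ≤ 9 * n ^ 2 * 2 ^ (n ^ 2) := by
      calc ST.card * (W * 2 ^ n) = 2 * (ST.card * (W * 2 ^ (n - 1))) := by rw [h8]; ring
        _ ≤ 2 * (ST.card * (n ^ 2 * 3 ^ J)) :=
            Nat.mul_le_mul_left _ (Nat.mul_le_mul_left _ hJb)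
        _ = 3 * n ^ 2 * (ST.card * (2 * 3 ^ (J - 1))) := by rw [h7]; ring
        _ ≤ 3 * n ^ 2 * (3 * 2 ^ (n ^ 2)) := Nat.mul_le_mul_left _ h6
        _ = 9 * n ^ 2 * 2 ^ (n ^ 2) := by ring
    have hWR : (0 : ℝ) < W := by exact_mod_cast hW
    rw [div_le_div_iff₀ hN (by positivity)]
    have h10 : ((ST.card * (W * 2 ^ n) : ℕ) : ℝ) ≤ ((9 * n ^ 2 * 2 ^ (n ^ 2) : ℕ) : ℝ) := by
      exact_mod_cast h9
    push_cast at h10
    exact h10
  have hsum : (∑ j ∈ range (J + 1), ((SE j).card : ℝ)) / 2 ^ (n ^ 2) ≤ (n + 1) / 4 ^ n := by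
    rw [Finset.sum_div]
    refine le_trans (Finset.sum_le_sum hE) ?_
    rw [Finset.sum_const, card_range, nsmul_eq_mul, mul_one_div]
    refine div_le_div_of_nonneg_right ?_ (by positivity)
    have : (J : ℝ) ≤ n := by exact_mod_cast hJn
    push_cast
    linarith
  have hcardR : (sing n : ℝ) ≤ SR.card + SC.card + SA.card + ∑ j ∈ range (J + 1), ((SE j).card : ℝ) +
      ST.card := by exact_mod_cast hcard
  have hfin : (sing n : ℝ) / 2 ^ (n ^ 2) ≤ (SR.card : ℝ) / 2 ^ (n ^ 2) + (SC.card : ℝ) / 2 ^ (n ^ 2) +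
      (SA.card : ℝ) / 2 ^ (n ^ 2) + (∑ j ∈ range (J + 1), ((SE j).card : ℝ)) / 2 ^ (n ^ 2) +
      (ST.card : ℝ) / 2 ^ (n ^ 2) := by
    rw [← add_div, ← add_div, ← add_div, ← add_div]
    exact div_le_div_of_nonneg_right hcardR hN.le
  have h2n : (2 : ℝ) * (n * (n - 1)) / 2 ^ n = (n * (n - 1)) / 2 ^ n + (n * (n - 1)) / 2 ^ n := by
    ring
  rw [h2n]
  linarith

/-- Proof. `upper` for every `W`, and `lower`. Multiply by `2^n / n^2`: the ratio is at most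
`2 + (0.96)^n / n^2 + (n + 1) / (2^n n^2) + 9 / W` and at least `2 (n-1)/n - 8 n^2 / 2^n`. -/
theorem main_tendsto :
    Filter.Tendsto (fun n : ℕ => (sing n : ℝ) / (2 : ℝ) ^ (n ^ 2) / ((n : ℝ) ^ 2 / (2 : ℝ) ^ n))
      Filter.atTop (nhds 2) := by
  rw [tendsto_order]
  constructor
  · intro a ha
    -- lower bound
    have hlow : ∀ n : ℕ, 2 ≤ n → 2 - 2 / (n : ℝ) - 8 * ((n : ℝ) ^ 2 / 2 ^ n) ≤
        (sing n : ℝ) / (2 : ℝ) ^ (n ^ 2) / ((n : ℝ) ^ 2 / (2 : ℝ) ^ n) := by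
      intro n hn
      have h := lower n hn
      have hn0 : (0 : ℝ) < n := by exact_mod_cast (by omega : 0 < n)
      have hN : (0 : ℝ) < 2 ^ (n ^ 2) := by positivity
      have h' : ((2 * (n * (n - 1)) * 2 ^ n * 2 ^ (n ^ 2) : ℕ) : ℝ) ≤
          ((4 ^ n * sing n + 8 * n ^ 4 * 2 ^ (n ^ 2) : ℕ) : ℝ) := by exact_mod_cast h
      push_cast [Nat.cast_sub (by omega : 1 ≤ n)] at h'
      rw [le_div_iff₀ (by positivity), le_div_iff₀ hN]
      have h4 : (4 : ℝ) ^ n = 2 ^ n * 2 ^ n := by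
        rw [← mul_pow]
        norm_num
      rw [h4] at h'
      have h2n : (0 : ℝ) < 2 ^ n := by positivity
      have e1 : (2 - 2 / (n : ℝ) - 8 * ((n : ℝ) ^ 2 / 2 ^ n)) * ((n : ℝ) ^ 2 / 2 ^ n) * 2 ^ (n ^ 2) =
          (2 * (n * (n - 1)) * 2 ^ n * 2 ^ (n ^ 2) - 8 * n ^ 4 * 2 ^ (n ^ 2)) / (2 ^ n * 2 ^ n) := by
        field_simp
      rw [e1, div_le_iff₀ (by positivity)]
      linarith
    have hl : Filter.Tendsto (fun n : ℕ => 2 - 2 / (n : ℝ) - 8 * ((n : ℝ) ^ 2 / 2 ^ n))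
        Filter.atTop (nhds 2) := by
      have t1 : Filter.Tendsto (fun n : ℕ => 2 / (n : ℝ)) Filter.atTop (nhds 0) :=
        tendsto_const_div_atTop_nhds_zero_nat 2
      have t2 : Filter.Tendsto (fun n : ℕ => (n : ℝ) ^ 2 / (2 : ℝ) ^ n) Filter.atTop (nhds 0) :=
        tendsto_pow_const_div_const_pow_of_one_lt 2 (by norm_num)
      have t3 := (tendsto_const_nhds (x := (2 : ℝ)).sub t1).sub (t2.const_mul 8)
      simpa using t3
    have he := (tendsto_order.1 hl).1 a ha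
    filter_upwards [he, Filter.eventually_ge_atTop 2] with n hn1 hn2
    exact lt_of_lt_of_le hn1 (hlow n hn2)
  · intro a ha
    obtain ⟨W, hW⟩ := exists_nat_gt (9 / (a - 2))
    have ha2 : 0 < a - 2 := by linarith
    have hWpos : (0 : ℝ) < W := lt_trans (by positivity) hW
    have hW1 : 1 ≤ W := by exact_mod_cast hWpos
    have hWa : 2 + 9 / (W : ℝ) < a := by
      have : 9 / (W : ℝ) < a - 2 := by
        rw [div_lt_iff₀ hWpos]
        rw [div_lt_iff₀ ha2] at hW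
        linarith
      linarith
    obtain ⟨n0, hn0⟩ := upper W hW1
    have hup : ∀ n : ℕ, n0 ≤ n → 1 ≤ n →
        (sing n : ℝ) / (2 : ℝ) ^ (n ^ 2) / ((n : ℝ) ^ 2 / (2 : ℝ) ^ n) ≤
        2 + (96 / 100 : ℝ) ^ n + 2 * (1 / 2 : ℝ) ^ n + 9 / W := by
      intro n h1 h2
      have hn : (1 : ℝ) ≤ n := by exact_mod_cast h2
      have hnpos : (0 : ℝ) < n := by linarith
      have h := hn0 n h1
      have h2n : (0 : ℝ) < 2 ^ n := by positivity
      rw [div_le_iff₀ (by positivity)]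
      refine le_trans h ?_
      have e1 : (48 / 100 : ℝ) ^ n = (96 / 100) ^ n / 2 ^ n := by
        rw [← div_pow]
        norm_num
      have e2 : ((n : ℝ) + 1) / 4 ^ n = (n + 1) * (1 / 2) ^ n / 2 ^ n := by
        have : (4 : ℝ) ^ n = 2 ^ n * 2 ^ n := by
          rw [← mul_pow]
          norm_num
        rw [this, one_div, inv_pow]
        field_simp
      have e3 : (9 : ℝ) * n ^ 2 / (W * 2 ^ n) = 9 / W * (n ^ 2 / 2 ^ n) := by
        field_simp
      have k1 : (2 : ℝ) * (n * (n - 1)) / 2 ^ n ≤ 2 * (n ^ 2 / 2 ^ n) := by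
        rw [mul_div_assoc]
        refine mul_le_mul_of_nonneg_left ?_ (by norm_num)
        refine div_le_div_of_nonneg_right ?_ h2n.le
        nlinarith
      have k2 : (96 / 100 : ℝ) ^ n / 2 ^ n ≤ (96 / 100) ^ n * (n ^ 2 / 2 ^ n) := by
        rw [← mul_div_assoc]
        refine div_le_div_of_nonneg_right ?_ h2n.le
        have : (1 : ℝ) ≤ n ^ 2 := by nlinarith
        have hp : (0 : ℝ) ≤ (96 / 100) ^ n := by positivity
        nlinarith
      have k3 : ((n : ℝ) + 1) * (1 / 2) ^ n / 2 ^ n ≤ 2 * (1 / 2) ^ n * (n ^ 2 / 2 ^ n) := by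
        rw [← mul_div_assoc]
        refine div_le_div_of_nonneg_right ?_ h2n.le
        have hp : (0 : ℝ) ≤ (1 / 2) ^ n := by positivity
        have : (n : ℝ) + 1 ≤ 2 * n ^ 2 := by nlinarith
        nlinarith
      rw [e1, e2, e3]
      have e4 : (2 + (96 / 100 : ℝ) ^ n + 2 * (1 / 2) ^ n + 9 / (W : ℝ)) * (n ^ 2 / 2 ^ n) =
          2 * (n ^ 2 / 2 ^ n) + (96 / 100) ^ n * (n ^ 2 / 2 ^ n) +
          2 * (1 / 2) ^ n * (n ^ 2 / 2 ^ n) + 9 / W * (n ^ 2 / 2 ^ n) := by ring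
      rw [e4]
      linarith
    have hl : Filter.Tendsto (fun n : ℕ => 2 + (96 / 100 : ℝ) ^ n + 2 * (1 / 2 : ℝ) ^ n + 9 / W)
        Filter.atTop (nhds (2 + 9 / W)) := by
      have t1 : Filter.Tendsto (fun n : ℕ => (96 / 100 : ℝ) ^ n) Filter.atTop (nhds 0) :=
        tendsto_pow_atTop_nhds_zero_of_lt_one (by norm_num) (by norm_num)
      have t2 : Filter.Tendsto (fun n : ℕ => (1 / 2 : ℝ) ^ n) Filter.atTop (nhds 0) :=
        tendsto_pow_atTop_nhds_zero_of_lt_one (by norm_num) (by norm_num)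
      have t3 := ((tendsto_const_nhds (x := (2 : ℝ)).add t1).add (t2.const_mul 2)).add
        (tendsto_const_nhds (x := 9 / (W : ℝ)))
      simpa using t3
    have he := (tendsto_order.1 hl).2 a hWa
    filter_upwards [he, Filter.eventually_ge_atTop n0, Filter.eventually_ge_atTop 1] with n h1 h2 h3
    exact lt_of_le_of_lt (hup n h2 h3) h1

end Pool.Agent.W_MP_a45265_h99
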